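import Pool.Agent.H94.BM.Final

/-!
# QA module BridgeMod: rich bridges give modules

CLAIM `bridgeMod`: for `b < b'` the events `BR κ b' Λ K j` are controlled by modules at rate `b`, slope bound `Λ + 1`.
PROOF. Put `η = b' - b`. By a lattice automorphism (signed permutation, `H47/GM/Aut`) and reversal of the
paths the direction is `m = 0` and `y 0 - x 0 = 2^j` (finitely many cases, union bound; the law is
invariant). Cut the box of side `K 2^j` of the starts into boxes of side `2^(j-h)` (translation invariance,
`(K 2^h)^d` of them) and classify the displacement: `q i = floor ((y i - x i) / 2^(j-h))` for `i ≠ 0`,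
`|q i| ≤ Λ 2^h + 1`. Fix the class `q`; `u = k₀ (2^h, q_1, …)` with `k₀` a multiple of `L`, `k₀ 2^h ≥ U₀`.
Choose `κ₅ = 2^(-h₅)` small (`≤ c₀ η / 32`, and cost of roads of length `C κ₅ 2^j` at most `η 2^j / 8`), then `h` large.
`A = α u`, `A' = β u`, `α u 0 ≈ κ₅ 2^j`, `(β - α) u 0 ≈ (1 + 2 κ₅) 2^j` (rounding up), starts `x` in a box of side
`2^(j-h)` placed so that `x 0 - A 0 ∈ [κ₅ 2^j /2, κ₅ 2^j]` and the lateral position is near the axis; then
`A' 0 - y 0` is in `[κ₅ 2^j/2, 2 κ₅ 2^j]` and the lateral difference of `y` and `A'` is at most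
`(2 κ₅ Λ + 2^(1-h)) 2^j`.
ROADS. For `v, w` with `g = w 0 - v 0 ≥ g₀` and `|w i - v i| ≤ Λ' g` let `Road v w` be the event that there is an open
self-avoiding path from `v + e_0` to `w - e_0` with all vertices in `v 0 < x 0 < w 0` and within `C g` of
`v`, of length at most `C g`, and that (bond) the elements `s(v, v + e_0)`, `s(w - e_0, w)` are open. Then
`P (Road v w) ≥ c₃ > 0` uniformly, and `Road v w` depends only on the elements with all vertices in
`v 0 ≤ x 0 ≤ w 0` and at least one vertex with `v 0 < x 0 < w 0`. Proof of the bound: road system along the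
path: straight from `v` in direction `e_0` for `g/2`, lateral moves in the hyperplane `x 0 = v 0 + g/2`, straight
to `w`; radii `max(r2, dist/16)` with `dist` the distance (coordinate 0) to the nearer end; the half balls of
radius `r0` at `v` and at `w` (elements with a vertex strictly between the hyperplanes) fully open in `ω`,
the regularity events at the configuration spliced there with an independent copy: independent, so the
probability is at least `p^(..) (1 - C exp (-c r2))`; the length is at most a constant times `g` with
probability `≥ 1 - small` by Markov (`dom_int`); inside the full half balls join `v + e_0` to the hub.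
SELECTION OF THE ROADS. Let `B(z,z')` be the event 'rich bridge from `z` to `z'`' (class `q`, `z` in the box);
it depends on the elements inside `z 0 ≤ x 0 ≤ z' 0 = z 0 + 2^j`. Step 1: choose the LEFTMOST hyperplane
`z 0` (then the first pair `(z,z')`): the event 'this pair is chosen' depends on the elements inside
`x 0 ≤ z' 0`, hence is independent of `Road z' A'`: `P (∪ (B ∩ Road z' A')) ≥ c₃ P (∪ B)`. Step 2: choose the
RIGHTMOST hyperplane `z 0` such that `B(z,z') ∩ Road z' A'` occurs for some pair: the event depends on the
elements inside `x 0 ≥ z 0`, independent of `Road A z`. So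
`P (∪ (Road A z ∩ B(z,z') ∩ Road z' A')) ≥ c₃^2 P (∪ B)`, and this event is contained in the module event: surplus
at rate `b` at least `η N - b (length of the roads) ≥ η 2^j / 2 ≥ c β` with `c = η u 0 / 8`, and
`α u 0 ≤ c₀ c β`.
-/

open MeasureTheory Filter Topology
open Pool.Agent.H17.IIC Pool.Agent.H41.QC Pool.Agent.H47.GM

namespace Pool.Agent.H17.QA

variable {n : ℕ}

theorem bridgeMod {κ : Kind} {p : unitInterval} (RS : RoadSys κ (n + 2) p) (hp : 0 < (p : ℝ))
    (b b' : ℝ) (hb : 0 ≤ b) (hbb : b < b') (Λ K : ℕ) (c₀ : ℝ) (hc₀ : 0 < c₀) (U₀ : ℕ) :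
    Ctrl RS b c₀ U₀ (Λ + 1) (BR κ (d := n + 2) b' Λ K) :=
  Pool.Agent.H94.BM.bridgeMod_aux RS hp b b' hb hbb Λ K c₀ hc₀ U₀

end Pool.Agent.H17.QA
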