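import Pool.Agent.H17.QA.Tree

/-!
# QA module Closed: closed families in a cube and the functional MQ

A closed datum in `Q`: `k` pairs of vertices of the inner boundary of `Q` with lengths `n j ≥ 1`. `TFam`: tuples of
pairwise disjoint open self-avoiding paths inside `Q` with these ends and lengths.
`MQ` = maximum over data with nonempty `TFam` of `(log |TFam| - b ∑ n j - Cp 2^i k^gam)^+`.
-/

open MeasureTheory Filter Topology
open Pool.Agent.H17.IIC Pool.Agent.H41.QC Pool.Agent.H47.GM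

namespace Pool.Agent.H17.QA

variable {d : ℕ}

/-- inner boundary -/
def IB (Q : Set (V d)) (v : V d) : Prop := v ∈ Q ∧ ∃ w, LatAdj v w ∧ w ∉ Q

/-- data of a closed family -/
structure TData (d : ℕ) where
  k : ℕ
  x : Fin k → V d
  y : Fin k → V d
  n : Fin k → ℕ

/-- admissible data in `Q` -/
def TOK (Q : Set (V d)) (D : TData d) : Prop :=
  1 ≤ D.k ∧ ∀ j, IB Q (D.x j) ∧ IB Q (D.y j) ∧ 1 ≤ D.n j

/-- tuples of disjoint open paths with the given data -/
def TFam (κ : Kind) (ω : El d → Bool) (Q : Set (V d)) (D : TData d) :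
    Set (Fin D.k → List (V d)) :=
  {w | (∀ j, w j ∈ Fam κ ω Q (D.x j) (D.y j) (D.n j)) ∧ ∀ i j, i ≠ j → List.Disjoint (w i) (w j)}

/-- the cost exponent -/
noncomputable def gam (d : ℕ) : ℝ := 1 - 1 / (2 * ((d : ℝ) - 1))

/-- value of a datum -/
noncomputable def valD (κ : Kind) (b Cp : ℝ) (i : ℕ) (a : V d) (ω : El d → Bool) (D : TData d) : ℝ :=
  Real.log (TFam κ ω (cube i a : Set (V d)) D).ncard - b * ∑ j, (D.n j : ℝ)
    - Cp * 2 ^ i * (D.k : ℝ) ^ gam d

/-- the functional `M` -/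
noncomputable def MQ (κ : Kind) (b Cp : ℝ) (i : ℕ) (a : V d) (ω : El d → Bool) : ℝ :=
  sSup ({0} ∪ {t | ∃ D : TData d, TOK (cube i a : Set (V d)) D ∧
    (TFam κ ω (cube i a : Set (V d)) D).Nonempty ∧ t = valD κ b Cp i a ω D})

/-! ### auxiliary facts -/

/-- chains of adjacent vertices with `N` steps from `x` -/
def Closed_chains (N : ℕ) (x : V d) : Set (List (V d)) :=
  {l | l.length = N + 1 ∧ l.IsChain LatAdj ∧ l.head? = some x}

lemma Closed_chains_card (N : ℕ) : ∀ x : V d, (Closed_chains N x).Finite ∧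
    (Closed_chains N x).ncard ≤ (2 * d) ^ N := by
  classical
  induction N with
  | zero =>
    intro x
    have h : Closed_chains 0 x = {[x]} := by
      ext l
      constructor
      · rintro ⟨h1, -, h3⟩
        cases l with
        | nil => simp at h1
        | cons a t =>
          cases t with
          | nil =>
            simp only [List.head?_cons, Option.some.injEq] at h3
            rw [h3]
            rfl
          | cons b t' => simp at h1
      · rintro rfl
        exact ⟨rfl, by simp, rfl⟩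
    rw [h]
    simp
  | succ N ih =>
    intro x
    have h : Closed_chains (N + 1) x ⊆
        ⋃ y ∈ nb x, (fun l => x :: l) '' Closed_chains N y := by
      rintro l ⟨h1, h2, h3⟩
      cases l with
      | nil => simp at h1
      | cons a t =>
        simp only [List.head?_cons, Option.some.injEq] at h3
        subst h3
        cases t with
        | nil => simp at h1
        | cons b t' =>
          rw [List.isChain_cons_cons] at h2
          rw [Set.mem_iUnion₂]
          refine ⟨b, mem_nb.2 h2.1, b :: t', ⟨?_, h2.2, rfl⟩, rfl⟩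
          simpa using h1
    have hfin : (⋃ y ∈ nb x, (fun l => x :: l) '' Closed_chains N y).Finite :=
      Set.Finite.biUnion (nb x).finite_toSet fun y _ => (ih y).1.image _
    refine ⟨hfin.subset h, (Set.ncard_le_ncard h hfin).trans ?_⟩
    calc (⋃ y ∈ nb x, (fun l => x :: l) '' Closed_chains N y).ncard
        ≤ ∑ y ∈ nb x, ((fun l => x :: l) '' Closed_chains N y).ncard :=
          Finset.set_ncard_biUnion_le _ _
      _ ≤ ∑ _y ∈ nb x, (2 * d) ^ N := by
          refine Finset.sum_le_sum fun y _ => (Set.ncard_image_le (ih y).1).trans (ih y).2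
      _ = (nb x).card * (2 * d) ^ N := by rw [Finset.sum_const, smul_eq_mul]
      _ ≤ (2 * d) * (2 * d) ^ N := Nat.mul_le_mul_right _ (card_nb_le x)
      _ = (2 * d) ^ (N + 1) := by rw [pow_succ, mul_comm]

lemma Closed_fam_sub {κ : Kind} {ω : El d → Bool} {A : Set (V d)} {x y : V d} {N : ℕ} :
    Fam κ ω A x y N ⊆ Closed_chains N x := by
  rintro l ⟨h1, h2, h3, -, -⟩
  exact ⟨h2, h1.chain, h3⟩

lemma Closed_tfam (κ : Kind) (ω : El d → Bool) (Q : Set (V d)) (D : TData d) :
    (TFam κ ω Q D).Finite ∧ (TFam κ ω Q D).ncard ≤ (2 * d) ^ ∑ j, D.n j := by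
  classical
  set S : Finset (Fin D.k → List (V d)) :=
    Fintype.piFinset fun j => (Closed_chains_card (D.n j) (D.x j)).1.toFinset with hS
  have h : TFam κ ω Q D ⊆ (S : Set (Fin D.k → List (V d))) := by
    intro w hw
    rw [Finset.mem_coe, hS, Fintype.mem_piFinset]
    intro j
    rw [Set.Finite.mem_toFinset]
    exact Closed_fam_sub (hw.1 j)
  refine ⟨S.finite_toSet.subset h, (Set.ncard_le_ncard h S.finite_toSet).trans ?_⟩
  rw [Set.ncard_coe_finset, hS, Fintype.card_piFinset, ← Finset.prod_pow_eq_pow_sum]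
  refine Finset.prod_le_prod' fun j _ => ?_
  rw [← Set.ncard_eq_toFinset_card _ (Closed_chains_card (D.n j) (D.x j)).1]
  exact (Closed_chains_card (D.n j) (D.x j)).2

/-- the paths inside a finite set are finitely many -/
theorem tfam_finite (κ : Kind) (ω : El d → Bool) (Q : Finset (V d)) (D : TData d) :
    (TFam κ ω (Q : Set (V d)) D).Finite :=
  (Closed_tfam κ ω (Q : Set (V d)) D).1

lemma Closed_sum_le {κ : Kind} {ω : El d → Bool} {Q : Finset (V d)} {D : TData d}
    (h : (TFam κ ω (Q : Set (V d)) D).Nonempty) : ∑ j, D.n j ≤ Q.card := by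
  classical
  obtain ⟨w, hw, hdis⟩ := h
  have h1 : ((Finset.univ : Finset (Fin D.k)).biUnion fun j => (w j).toFinset) ⊆ Q := by
    intro v hv
    rw [Finset.mem_biUnion] at hv
    obtain ⟨j, -, hv⟩ := hv
    rw [List.mem_toFinset] at hv
    exact (hw j).2.2.2.2 v hv
  have h2 : ((Finset.univ : Finset (Fin D.k)).biUnion fun j => (w j).toFinset).card
      = ∑ j, (w j).toFinset.card := by
    refine Finset.card_biUnion fun i _ j _ hij => ?_
    refine Finset.disjoint_left.2 ?_
    intro v hv hv'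
    rw [List.mem_toFinset] at hv hv'
    exact hdis i j hij hv hv'
  have h3 : ∀ j, D.n j ≤ (w j).toFinset.card := by
    intro j
    rw [List.toFinset_card_of_nodup (hw j).1.nodup, (hw j).2.1]
    omega
  calc ∑ j, D.n j ≤ ∑ j, (w j).toFinset.card := Finset.sum_le_sum fun j _ => h3 j
    _ = _ := h2.symm
    _ ≤ Q.card := Finset.card_le_card h1

lemma Closed_cube_card (i : ℕ) (a : V d) : (cube i a).card = 2 ^ (d * i) := by
  unfold cube
  rw [Fintype.card_piFinset]
  have h : ∀ j, (Finset.Ico (a j * 2 ^ i) ((a j + 1) * 2 ^ i)).card = 2 ^ i := by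
    intro j
    rw [Int.card_Ico]
    have : (a j + 1) * 2 ^ i - a j * 2 ^ i = ((2 ^ i : ℕ) : ℤ) := by push_cast; ring
    rw [this, Int.toNat_natCast]
  rw [Finset.prod_congr rfl fun j _ => h j, Finset.prod_const, Finset.card_univ, Fintype.card_fin,
    ← pow_mul, mul_comm]

lemma Closed_val_le (κ : Kind) {b Cp : ℝ} (hb : 0 ≤ b) (hCp : 0 ≤ Cp) (i : ℕ) (a : V d)
    (ω : El d → Bool) (D : TData d) (hne : (TFam κ ω (cube i a : Set (V d)) D).Nonempty) :
    valD κ b Cp i a ω D ≤ 2 ^ (d * i) * Real.log (2 * d) := by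
  obtain ⟨hfin, hcard⟩ := Closed_tfam κ ω (cube i a : Set (V d)) D
  have h1 : 0 < (TFam κ ω (cube i a : Set (V d)) D).ncard := (Set.ncard_pos hfin).2 hne
  have h2 : (∑ j, D.n j) ≤ 2 ^ (d * i) := by
    rw [← Closed_cube_card i a]
    exact Closed_sum_le hne
  have hlog0 : 0 ≤ Real.log (2 * d) := by
    have := Real.log_natCast_nonneg (2 * d)
    push_cast at this
    exact this
  have h3 : Real.log (TFam κ ω (cube i a : Set (V d)) D).ncard
      ≤ 2 ^ (d * i) * Real.log (2 * d) := by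
    calc Real.log (TFam κ ω (cube i a : Set (V d)) D).ncard
        ≤ Real.log (((2 * d) ^ ∑ j, D.n j : ℕ) : ℝ) :=
          Real.log_le_log (by exact_mod_cast h1) (by exact_mod_cast hcard)
      _ = ((∑ j, D.n j : ℕ) : ℝ) * Real.log (2 * d) := by
          push_cast
          rw [Real.log_pow]
          push_cast
          rfl
      _ ≤ 2 ^ (d * i) * Real.log (2 * d) := by
          refine mul_le_mul_of_nonneg_right ?_ hlog0
          exact_mod_cast h2
  have h4 : 0 ≤ b * ∑ j, (D.n j : ℝ) := mul_nonneg hb (Finset.sum_nonneg fun j _ => by positivity)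
  have h5 : 0 ≤ Cp * 2 ^ i * (D.k : ℝ) ^ gam d := by positivity
  unfold valD
  linarith

/-- the defining set is bounded above (`k ≤ |Q|`, `n j ≤ |Q|`, so the tuples are at most
`((|Q|+1)^(|Q|+1))^|Q|`, uniformly in the data) -/
theorem mq_bdd (κ : Kind) {b Cp : ℝ} (hb : 0 ≤ b) (hCp : 0 ≤ Cp) (i : ℕ) (a : V d)
    (ω : El d → Bool) :
    BddAbove ({0} ∪ {t | ∃ D : TData d, TOK (cube i a : Set (V d)) D ∧
      (TFam κ ω (cube i a : Set (V d)) D).Nonempty ∧ t = valD κ b Cp i a ω D}) := by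
  have hlog0 : 0 ≤ Real.log (2 * d) := by
    have := Real.log_natCast_nonneg (2 * d)
    push_cast at this
    exact this
  refine ⟨2 ^ (d * i) * Real.log (2 * d), ?_⟩
  rintro t (ht | ⟨D, -, hne, rfl⟩)
  · rw [Set.mem_singleton_iff.1 ht]
    positivity
  · exact Closed_val_le κ hb hCp i a ω D hne

theorem mq_nonneg (κ : Kind) {b Cp : ℝ} (hb : 0 ≤ b) (hCp : 0 ≤ Cp) (i : ℕ) (a : V d)
    (ω : El d → Bool) : 0 ≤ MQ κ b Cp i a ω :=
  le_csSup (mq_bdd κ hb hCp i a ω) (Or.inl rfl)

/-- every datum is bounded by `MQ` -/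
theorem le_mq (κ : Kind) {b Cp : ℝ} (hb : 0 ≤ b) (hCp : 0 ≤ Cp) (i : ℕ) (a : V d)
    (ω : El d → Bool) (D : TData d) (hD : TOK (cube i a : Set (V d)) D)
    (hne : (TFam κ ω (cube i a : Set (V d)) D).Nonempty) : valD κ b Cp i a ω D ≤ MQ κ b Cp i a ω :=
  le_csSup (mq_bdd κ hb hCp i a ω) (Or.inr ⟨D, hD, hne, rfl⟩)

/-- a positive value is attained up to the factor two -/
theorem mq_attain (κ : Kind) {b Cp : ℝ} (hb : 0 ≤ b) (hCp : 0 ≤ Cp) (i : ℕ) (a : V d)
    (ω : El d → Bool) {t : ℝ} (ht : 0 < t) (h : t ≤ MQ κ b Cp i a ω) :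
    ∃ D : TData d, TOK (cube i a : Set (V d)) D ∧
      (TFam κ ω (cube i a : Set (V d)) D).Nonempty ∧ t / 2 ≤ valD κ b Cp i a ω D := by
  have _ := mq_bdd κ hb hCp i a ω
  have h1 : t / 2 < MQ κ b Cp i a ω := by linarith
  unfold MQ at h1
  obtain ⟨s, hs, hts⟩ := exists_lt_of_lt_csSup (Set.Nonempty.inl (Set.singleton_nonempty 0)) h1
  rcases hs with hs | ⟨D, hD, hne, rfl⟩
  · rw [Set.mem_singleton_iff.1 hs] at hts
    linarith
  · exact ⟨D, hD, hne, hts.le⟩

/-- crude bound: the number of steps inside a cube is at most its volume -/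
theorem mq_le_vol (κ : Kind) {b Cp : ℝ} (hb : 0 ≤ b) (hCp : 0 ≤ Cp) (i : ℕ) (a : V d)
    (ω : El d → Bool) : MQ κ b Cp i a ω ≤ 2 ^ (d * i) * Real.log (2 * d) := by
  have hlog0 : 0 ≤ Real.log (2 * d) := by
    have := Real.log_natCast_nonneg (2 * d)
    push_cast at this
    exact this
  refine csSup_le ⟨0, Or.inl rfl⟩ ?_
  rintro t (ht | ⟨D, -, hne, rfl⟩)
  · rw [Set.mem_singleton_iff.1 ht]
    positivity
  · exact Closed_val_le κ hb hCp i a ω D hne

/-! ### locality -/

lemma Closed_chain_congr {R R' : V d → V d → Prop} {A : Set (V d)}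
    (h : ∀ a ∈ A, ∀ b ∈ A, R a b → R' a b) : ∀ l : List (V d), (∀ v ∈ l, v ∈ A) → l.IsChain R →
    l.IsChain R' := by
  intro l
  induction l with
  | nil => intro _ _; simp
  | cons a t ih =>
    intro hA hc
    cases t with
    | nil => simp
    | cons b t' =>
      rw [List.isChain_cons_cons] at hc ⊢
      have hb : ∀ v ∈ b :: t', v ∈ A := fun v hv => hA v (List.mem_cons_of_mem _ hv)
      exact ⟨h a (hA a List.mem_cons_self) b (hb b List.mem_cons_self) hc.1, ih hb hc.2⟩

lemma Closed_opn_congr {κ : Kind} {ω ω' : El d → Bool} {A : Set (V d)}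
    (h : ∀ e ∈ InE A, ω e = ω' e) {l : List (V d)} (hl : ∀ v ∈ l, v ∈ A) (ho : Opn κ ω l) :
    Opn κ ω' l := by
  have he : ∀ a ∈ A, ∀ b ∈ A, (s(a, b) : El d) ∈ InE A := by
    intro a ha b hb v hv
    rw [Sym2.mem_iff] at hv
    rcases hv with rfl | rfl
    · exact ha
    · exact hb
  cases κ with
  | bond =>
    refine Closed_chain_congr (A := A) (fun a ha b hb hab => ?_) l hl ho
    rw [← h _ (he a ha b hb)]
    exact hab
  | site =>
    intro a ha
    rw [← h _ (he a (hl a ha) a (hl a ha))]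
    exact ho a ha

lemma Closed_fam_congr {κ : Kind} {ω ω' : El d → Bool} {A : Set (V d)}
    (h : ∀ e ∈ InE A, ω e = ω' e) {x y : V d} {N : ℕ} {l : List (V d)}
    (hl : l ∈ Fam κ ω A x y N) : l ∈ Fam κ ω' A x y N := by
  obtain ⟨h1, h2, h3, h4, h5⟩ := hl
  exact ⟨⟨h1.nodup, h1.chain, Closed_opn_congr h h5 h1.opn⟩, h2, h3, h4, h5⟩

lemma Closed_tfam_congr {κ : Kind} {ω ω' : El d → Bool} {A : Set (V d)}
    (h : ∀ e ∈ InE A, ω e = ω' e) (D : TData d) : TFam κ ω A D = TFam κ ω' A D := by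
  ext w
  constructor
  · rintro ⟨h1, h2⟩
    exact ⟨fun j => Closed_fam_congr h (h1 j), h2⟩
  · rintro ⟨h1, h2⟩
    exact ⟨fun j => Closed_fam_congr (fun e he => (h e he).symm) (h1 j), h2⟩

lemma Closed_mq_congr (κ : Kind) (b Cp : ℝ) (i : ℕ) (a : V d) {ω ω' : El d → Bool}
    (h : ∀ e ∈ InE (cube i a : Set (V d)), ω e = ω' e) :
    MQ κ b Cp i a ω = MQ κ b Cp i a ω' := by
  unfold MQ valD
  simp only [Closed_tfam_congr h]

theorem mq_on (κ : Kind) (b Cp : ℝ) (i : ℕ) (a : V d) (t : ℝ) :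
    On (InE (cube i a : Set (V d))) {ω | t ≤ MQ κ b Cp i a ω} := by
  intro ω ω' h
  show t ≤ MQ κ b Cp i a ω ↔ t ≤ MQ κ b Cp i a ω'
  rw [Closed_mq_congr κ b Cp i a h]

/-! ### translations -/

/-- translated data -/
def Closed_sh (v : V d) (D : TData d) : TData d where
  k := D.k
  x := fun j => D.x j + v
  y := fun j => D.y j + v
  n := D.n

lemma Closed_sh_sh (v : V d) (D : TData d) : Closed_sh v (Closed_sh (-v) D) = D := by
  cases D
  simp [Closed_sh]

lemma Closed_latAdj_add {x y : V d} (v : V d) : LatAdj (x + v) (y + v) ↔ LatAdj x y :=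
  (isAut_add v).adj x y

lemma Closed_mem_cube {i : ℕ} {a y : V d} :
    y ∈ cube i a ↔ ∀ j, a j * 2 ^ i ≤ y j ∧ y j < (a j + 1) * 2 ^ i := by
  unfold cube
  rw [Fintype.mem_piFinset]
  simp only [Finset.mem_Ico]

lemma Closed_cube_add {i : ℕ} {a w y : V d} :
    y + ((2 : ℤ) ^ i) • w ∈ cube i (a + w) ↔ y ∈ cube i a := by
  rw [Closed_mem_cube, Closed_mem_cube]
  refine forall_congr' fun j => ?_
  simp only [Pi.add_apply, Pi.smul_apply, smul_eq_mul]
  constructor
  · rintro ⟨h1, h2⟩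
    constructor <;> nlinarith
  · rintro ⟨h1, h2⟩
    constructor <;> nlinarith

lemma Closed_tok_sh {i : ℕ} {a w : V d} {D : TData d} (h : TOK (cube i a : Set (V d)) D) :
    TOK (cube i (a + w) : Set (V d)) (Closed_sh (((2 : ℤ) ^ i) • w) D) := by
  have key : ∀ x, IB (cube i a : Set (V d)) x →
      IB (cube i (a + w) : Set (V d)) (x + ((2 : ℤ) ^ i) • w) := by
    rintro x ⟨h1, u, h2, h3⟩
    refine ⟨?_, u + ((2 : ℤ) ^ i) • w, (Closed_latAdj_add _).2 h2, ?_⟩
    · rw [Finset.mem_coe, Closed_cube_add]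
      exact h1
    · rw [Finset.mem_coe, Closed_cube_add]
      exact h3
  exact ⟨h.1, fun j => ⟨key _ (h.2 j).1, key _ (h.2 j).2.1, (h.2 j).2.2⟩⟩

lemma Closed_fam_sh {κ : Kind} {ω : El d → Bool} {A B : Set (V d)} {v : V d}
    (hAB : ∀ x ∈ A, x + v ∈ B) {x y : V d} {N : ℕ} {l : List (V d)}
    (h : l ∈ Fam κ (tr (fun y => y + v) ω) A x y N) :
    l.map (· + v) ∈ Fam κ ω B (x + v) (y + v) N := by
  obtain ⟨h1, h2, h3, h4, h5⟩ := h
  refine ⟨⟨?_, ?_, ?_⟩, ?_, ?_, ?_, ?_⟩
  · exact h1.nodup.map (add_left_injective v)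
  · rw [List.isChain_map]
    have := h1.chain
    simpa only [Closed_latAdj_add] using this
  · have h6 := h1.opn
    cases κ with
    | bond =>
      show (l.map (· + v)).IsChain _
      rw [List.isChain_map]
      exact h6
    | site =>
      intro a ha
      rw [List.mem_map] at ha
      obtain ⟨u, hu, rfl⟩ := ha
      exact h6 u hu
  · rw [List.length_map, h2]
  · rw [List.head?_map, h3]
    rfl
  · rw [List.getLast?_map, h4]
    rfl
  · intro a ha
    rw [List.mem_map] at ha
    obtain ⟨u, hu, rfl⟩ := ha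
    exact hAB u (h5 u hu)

lemma Closed_tr_tr (v : V d) (ω : El d → Bool) :
    tr (fun y => y + -v) (tr (fun y => y + v) ω) = ω := by
  funext e
  unfold tr
  rw [Sym2.map_map]
  have : ((fun y : V d => y + v) ∘ fun y => y + -v) = id := by
    funext y
    simp
  rw [this, Sym2.map_id]
  rfl

lemma Closed_tfam_sh {κ : Kind} {ω : El d → Bool} {A B : Set (V d)} {v : V d}
    (hAB : ∀ x, x + v ∈ B ↔ x ∈ A) (D : TData d) :
    TFam κ ω B (Closed_sh v D) =
      (fun (w : Fin D.k → List (V d)) j => (w j).map (· + v)) ''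
        TFam κ (tr (fun y => y + v) ω) A D := by
  have hmm : ∀ l : List (V d), (l.map (· + -v)).map (· + v) = l := by
    intro l
    rw [List.map_map]
    have : ((fun y : V d => y + v) ∘ fun y => y + -v) = id := by
      funext y
      simp
    rw [this, List.map_id]
  ext w
  constructor
  · rintro ⟨h1, h2⟩
    refine ⟨fun j => (w j).map (· + -v), ⟨?_, ?_⟩, ?_⟩
    · intro j
      have h3 := h1 j
      have h4 : w j ∈ Fam κ (tr (fun y => y + -v) (tr (fun y => y + v) ω)) B
          (D.x j + v) (D.y j + v) (D.n j) := by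
        rw [Closed_tr_tr]
        exact h3
      have h5 := Closed_fam_sh (B := A) (fun x hx => by
        rw [← hAB, neg_add_cancel_right]
        exact hx) h4
      rw [add_neg_cancel_right, add_neg_cancel_right] at h5
      exact h5
    · intro i j hij u hu hu'
      rw [List.mem_map] at hu hu'
      obtain ⟨a, ha, rfl⟩ := hu
      obtain ⟨b, hb, hab⟩ := hu'
      have : b = a := add_right_cancel hab
      subst this
      exact h2 i j hij ha hb
    · funext j
      exact hmm (w j)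
  · rintro ⟨w', ⟨h1, h2⟩, rfl⟩
    refine ⟨fun j => Closed_fam_sh (fun x hx => (hAB x).2 hx) (h1 j), ?_⟩
    intro i j hij u hu hu'
    rw [List.mem_map] at hu hu'
    obtain ⟨a, ha, rfl⟩ := hu
    obtain ⟨b, hb, hab⟩ := hu'
    have : b = a := add_right_cancel hab
    subst this
    exact h2 i j hij ha hb

lemma Closed_tfam_ncard {κ : Kind} {ω : El d → Bool} {A B : Set (V d)} {v : V d}
    (hAB : ∀ x, x + v ∈ B ↔ x ∈ A) (D : TData d) :
    (TFam κ ω B (Closed_sh v D)).ncard = (TFam κ (tr (fun y => y + v) ω) A D).ncard := by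
  rw [Closed_tfam_sh hAB D]
  apply Set.ncard_image_of_injective
  intro w w' h
  funext j
  have h1 := congrFun h j
  exact List.map_injective_iff.2 (add_left_injective v) h1

/-- translation by `v = 2^i w` moves the cubes of level `i` -/
theorem mq_shift (κ : Kind) (b Cp : ℝ) (i : ℕ) (a w : V d) (ω : El d → Bool) :
    MQ κ b Cp i (a + w) ω = MQ κ b Cp i a (tr (fun y => y + ((2 : ℤ) ^ i) • w) ω) := by
  set v : V d := ((2 : ℤ) ^ i) • w with hv
  have hAB : ∀ x, x + v ∈ (cube i (a + w) : Set (V d)) ↔ x ∈ (cube i a : Set (V d)) := by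
    intro x
    rw [Finset.mem_coe, Finset.mem_coe, hv, Closed_cube_add]
  have hval : ∀ D : TData d, valD κ b Cp i (a + w) ω (Closed_sh v D)
      = valD κ b Cp i a (tr (fun y => y + v) ω) D := by
    intro D
    unfold valD
    rw [Closed_tfam_ncard hAB D]
    rfl
  unfold MQ
  congr 2
  ext t
  constructor
  · rintro ⟨D, h1, h2, rfl⟩
    refine ⟨Closed_sh (-v) D, ?_, ?_, ?_⟩
    · have h3 := Closed_tok_sh (w := -w) h1
      rw [smul_neg, ← hv, add_neg_cancel_right] at h3
      exact h3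
    · rw [← Closed_sh_sh v D, Closed_tfam_sh hAB] at h2
      exact Set.image_nonempty.1 h2
    · rw [← hval, Closed_sh_sh]
  · rintro ⟨D, h1, h2, rfl⟩
    refine ⟨Closed_sh v D, Closed_tok_sh h1, ?_, (hval D).symm⟩
    rw [Closed_tfam_sh hAB]
    exact h2.image _

lemma Closed_inE_finite (S : Finset (V d)) : (InE (S : Set (V d))).Finite := by
  classical
  refine Set.Finite.subset (Finset.finite_toSet ((S ×ˢ S).image fun q => s(q.1, q.2))) ?_
  intro e he
  induction e using Sym2.ind with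
  | _ a b =>
    rw [Finset.mem_coe, Finset.mem_image]
    exact ⟨(a, b), Finset.mem_product.2 ⟨he a (Sym2.mem_mk_left _ _), he b (Sym2.mem_mk_right _ _)⟩,
      rfl⟩

lemma Closed_meas (κ : Kind) (b Cp : ℝ) (i : ℕ) (a : V d) (t : ℝ) :
    MeasurableSet {ω | t ≤ MQ κ b Cp i a ω} := by
  refine On.measurableSet (Λ := (Closed_inE_finite (cube i a)).toFinset) ?_
  rw [Set.Finite.coe_toFinset]
  exact mq_on κ b Cp i a t

theorem mq_law (κ : Kind) (p : unitInterval) (b Cp : ℝ) (i : ℕ) (a : V d) (t : ℝ) :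
    (prodBern (El d) p).real {ω | t ≤ MQ κ b Cp i a ω}
      = (prodBern (El d) p).real {ω | t ≤ MQ κ b Cp i 0 ω} := by
  have h := tr_law (Equiv.addRight (((2 : ℤ) ^ i) • a)) p
  have hm : Measurable (tr (Equiv.addRight (((2 : ℤ) ^ i) • a)) : (El d → Bool) → El d → Bool) :=
    measurable_pi_lambda _ fun _ => measurable_pi_apply _
  conv_rhs => rw [← h]
  rw [map_measureReal_apply hm (Closed_meas κ b Cp i 0 t)]
  congr 1
  ext ω
  have h1 := mq_shift κ b Cp i 0 a ω
  rw [zero_add] at h1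
  show t ≤ MQ κ b Cp i a ω ↔ t ≤ MQ κ b Cp i 0 (tr (fun y => y + ((2 : ℤ) ^ i) • a) ω)
  rw [h1]

end Pool.Agent.H17.QA
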