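import Pool.Agent.H17.QA.Defs
import Pool.Agent.H47.GM.BaseLink

/-!
# QA module LemE_dir: a rich family contains a rich bridge or a rich thin piece (one direction)

For a path write `g t` for the `m`-coordinate at time `t`,
`|g (t+1) - g t| ≤ 1`. For `X ≥ 1` an `X`-bridge is an interval `[s,t]` with `X ∣ g s`, `X ∣ g t`,
`|g t - g s| = X` and `g` strictly between `g s` and `g t` on the open interval `(s,t)`. Let `K_X(I)` be the
maximal number of pairwise non-overlapping (common end points allowed) `X`-bridges in the interval `I`.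
(a) `X * K_X([0,N]) ≤ N`. (b) superadditive: non-overlapping intervals `I_j ⊆ I` give `∑ K_X(I_j) ≤ K_X(I)`.
(c) an `X`-bridge contains at least `M` non-overlapping `X/M`-bridges if `M ∣ X`. (d) if `K_X(I) = 0` then
`max_I g - min_I g < 2 X`.
Let `δ = ε η / 16`, `M = 2^h ≥ 2/δ`, `K₀ = ⌊1/δ⌋ + 1`, `2^J ∈ (N, 2N]`, `X_k = 2^J / M^k` for `k ≤ K₀`,
`f k = X_k K_(X_k)([0,N]) / N ∈ [0,1]`. Some `k < K₀` has
`f (k+1) - f k ≤ δ`. Put `X = X_k`, `X' = X_(k+1)`. Take a maximal collection of `K = K_X` non-overlapping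
`X`-bridges; its complement consists of at most `K+1` intervals `E_j`; by (b), (c)
`M K + ∑_j K_(X')(E_j) ≤ K_(X')([0,N])`, hence `∑_j K_(X')(E_j) ≤ δ N / X'`. In each `E_j` take a maximal
collection of `X'`-bridges: it cuts `E_j` into at most `2 K_(X')(E_j) + 1` subpieces, all of `g`-range at
most `2 X'` by (d). So `[0,N]` is cut into `K` `X`-bridges and at most `4 δ N / X'` subpieces.
FAMILY: data = (`k`, cut times, kind of each piece, vertices at the cut times); the most popular data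
gives `F' ⊆ F`, `log |F'| ≥ log |F| - C log N`. A member of `F'` is determined by its pieces, so
some piece `p` has `log |F_p| > (b + η/4) n_p + (0 if bridge, η X'/(8 δ) otherwise)`.
-/

open MeasureTheory Filter Topology
open Pool.Agent.H17.IIC Pool.Agent.H41.QC Pool.Agent.H47.GM

namespace Pool.Agent.H17.QA

variable {d : ℕ}

/-- `F` is a finite family of open self-avoiding paths from `x` to `y` with `N` steps -/
def IsFam (κ : Kind) (ω : El d → Bool) (F : Finset (List (V d))) (x y : V d) (N : ℕ) : Prop :=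
  ∀ l ∈ F, l ∈ Fam κ ω Set.univ x y N

/-- all vertices of `l` other than `x` and `y` have `m`-coordinate strictly between those of `x`
and `y` -/
def Btw (m : Fin d) (x y : V d) (l : List (V d)) : Prop :=
  ∀ v ∈ l, v = x ∨ v = y ∨ (min (x m) (y m) < v m ∧ v m < max (x m) (y m))

/-- rich bridge at scale `2^j` in direction `m`, contained in members of `F` -/
def RichBridge (κ : Kind) (ω : El d → Bool) (F : Finset (List (V d))) (b' : ℝ) (m : Fin d)
    (j : ℕ) : Prop :=
  ∃ (F' : Finset (List (V d))) (x' y' : V d) (N' : ℕ), F'.Nonempty ∧ IsFam κ ω F' x' y' N' ∧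
    (∀ l' ∈ F', ∃ l ∈ F, l' <:+: l) ∧ (∀ l ∈ F', Btw m x' y' l) ∧ |y' m - x' m| = 2 ^ j ∧
    b' * N' ≤ Real.log F'.card

namespace LED

/-- `[s,t]` is an `X`-bridge of `g` -/
def IsBr (g : ℕ → ℤ) (X : ℕ) (s t : ℕ) : Prop :=
  s ≤ t ∧ (X : ℤ) ∣ g s ∧ (X : ℤ) ∣ g t ∧ |g t - g s| = X ∧
    ∀ u, s < u → u < t → min (g s) (g t) < g u ∧ g u < max (g s) (g t)

lemma IsBr.neg {g : ℕ → ℤ} {X s t : ℕ} (h : IsBr g X s t) : IsBr (fun u => - g u) X s t := by
  obtain ⟨h1, h2, h3, h4, h5⟩ := h
  refine ⟨h1, (dvd_neg).2 h2, (dvd_neg).2 h3, ?_, ?_⟩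
  · rw [← h4, ← abs_neg (g t - g s)]
    congr 1
    ring
  · intro u hu hu'
    have := h5 u hu hu'
    simp only
    rw [min_neg_neg, max_neg_neg]
    constructor <;> [linarith [this.2]; linarith [this.1]]

/-- `n` non-overlapping `X`-bridges in `[a,b]` -/
inductive Pk (g : ℕ → ℤ) (X : ℕ) : ℕ → ℕ → ℕ → Prop
  | zero {a b : ℕ} : a ≤ b → Pk g X a b 0
  | cons {a s t b n : ℕ} : a ≤ s → IsBr g X s t → Pk g X t b n → Pk g X a b (n + 1)

variable {g : ℕ → ℤ} {X : ℕ}

lemma Pk.le {a b n : ℕ} (h : Pk g X a b n) : a ≤ b := by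
  induction h with
  | zero h => exact h
  | cons h1 h2 _ ih => exact h1.trans (h2.1.trans ih)

lemma Pk.monoR {a b b' n : ℕ} (h : Pk g X a b n) (hb : b ≤ b') : Pk g X a b' n := by
  induction h with
  | zero h => exact Pk.zero (h.trans hb)
  | cons h1 h2 _ ih => exact Pk.cons h1 h2 (ih hb)

lemma Pk.monoL {a a' b n : ℕ} (h : Pk g X a b n) (ha : a' ≤ a) : Pk g X a' b n := by
  cases h with
  | zero h => exact Pk.zero (ha.trans h)
  | cons h1 h2 h3 => exact Pk.cons (ha.trans h1) h2 h3

lemma Pk.append {a b c n m : ℕ} (h : Pk g X a b n) (h' : Pk g X b c m) :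
    Pk g X a c (n + m) := by
  induction h with
  | zero h => rw [zero_add]; exact h'.monoL h
  | @cons a s t b n h1 h2 _ ih =>
    have := Pk.cons h1 h2 (ih h')
    rwa [show n + 1 + m = n + m + 1 by ring]

lemma Pk.one {s t : ℕ} (h : IsBr g X s t) : Pk g X s t 1 := Pk.cons le_rfl h (Pk.zero le_rfl)

lemma Pk.neg {a b n : ℕ} (h : Pk g X a b n) : Pk (fun u => - g u) X a b n := by
  induction h with
  | zero h => exact Pk.zero h
  | cons h1 h2 _ ih => exact Pk.cons h1 h2.neg ih

lemma Pk.of_neg {a b n : ℕ} (h : Pk (fun u => - g u) X a b n) : Pk g X a b n := by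
  have := h.neg
  simpa using this

lemma lip_le (hg : ∀ u, |g (u + 1) - g u| ≤ 1) (s n : ℕ) : |g (s + n) - g s| ≤ n := by
  induction n with
  | zero => simp
  | succ n ih =>
    have h1 := hg (s + n)
    rw [← add_assoc]
    push_cast
    calc |g (s + n + 1) - g s| = |(g (s + n + 1) - g (s + n)) + (g (s + n) - g s)| := by
          congr 1; ring
      _ ≤ |g (s + n + 1) - g (s + n)| + |g (s + n) - g s| := abs_add_le _ _
      _ ≤ (n : ℤ) + 1 := by linarith

lemma IsBr.len (hg : ∀ u, |g (u + 1) - g u| ≤ 1) {s t : ℕ} (h : IsBr g X s t) : s + X ≤ t := by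
  obtain ⟨h1, -, -, h4, -⟩ := h
  obtain ⟨n, rfl⟩ := Nat.exists_eq_add_of_le h1
  have := lip_le hg s n
  rw [h4] at this
  have : X ≤ n := by exact_mod_cast this
  omega

lemma Pk.len (hg : ∀ u, |g (u + 1) - g u| ≤ 1) {a b n : ℕ} (h : Pk g X a b n) :
    a + X * n ≤ b := by
  induction h with
  | zero h => simpa using h
  | cons h1 h2 _ ih =>
    have := h2.len hg
    rw [mul_add, mul_one]
    omega

/-- a crossing contains bridges -/
lemma cross_up (hg : ∀ u, |g (u + 1) - g u| ≤ 1) (hX : 1 ≤ X) (n : ℕ) :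
    ∀ (s t : ℕ) (c : ℤ), s ≤ t → (X : ℤ) ∣ c → g s ≤ c → c + n * X ≤ g t → Pk g X s t n := by
  induction n with
  | zero => intro s t c hst _ _ _; exact Pk.zero hst
  | succ n ih =>
    intro s t c hst hc hs ht
    have hX' : (1 : ℤ) ≤ X := by exact_mod_cast hX
    -- first hit of `c + X`
    have hex : ∃ u, s ≤ u ∧ c + X ≤ g u := by
      refine ⟨t, hst, ?_⟩
      push_cast at ht
      nlinarith [Int.natCast_nonneg n]
    classical
    obtain ⟨t1, ⟨hst1, hgt1⟩, hmin⟩ : ∃ u, (s ≤ u ∧ c + X ≤ g u) ∧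
        ∀ v, v < u → ¬ (s ≤ v ∧ c + X ≤ g v) :=
      ⟨Nat.find hex, Nat.find_spec hex, fun v hv => Nat.find_min hex hv⟩
    have hlt : s < t1 := by
      rcases Nat.lt_or_ge s t1 with h | h
      · exact h
      · have : s = t1 := le_antisymm hst1 h
        rw [← this] at hgt1
        omega
    have ht1t : t1 ≤ t := by
      by_contra hcon
      push Not at hcon
      refine hmin t hcon ⟨hst, ?_⟩
      push_cast at ht
      nlinarith [Int.natCast_nonneg n]
    have hbelow : ∀ v, s ≤ v → v < t1 → g v < c + X := by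
      intro v hv hv'
      by_contra hcon
      push Not at hcon
      exact hmin v hv' ⟨hv, hcon⟩
    have hg1 : g t1 = c + X := by
      have h1 := hbelow (t1 - 1) (by omega) (by omega)
      have h2 := hg (t1 - 1)
      rw [show t1 - 1 + 1 = t1 by omega] at h2
      have := (abs_le.1 h2).2
      omega
    -- last visit to `c`
    obtain ⟨s1, ⟨hs1, hs1t, hgs1⟩, hmax⟩ : ∃ u, (s ≤ u ∧ u ≤ t1 ∧ g u ≤ c) ∧
        ∀ v, u < v → v ≤ t1 → ¬ (s ≤ v ∧ v ≤ t1 ∧ g v ≤ c) := by
      have hP : (fun u => s ≤ u ∧ u ≤ t1 ∧ g u ≤ c) s := ⟨le_rfl, hst1, hs⟩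
      refine ⟨Nat.findGreatest (fun u => s ≤ u ∧ u ≤ t1 ∧ g u ≤ c) t1, ?_, ?_⟩
      · exact Nat.findGreatest_spec (P := fun u => s ≤ u ∧ u ≤ t1 ∧ g u ≤ c) hst1 hP
      · intro v hv hv'
        exact Nat.findGreatest_is_greatest hv hv'
    have hs1lt : s1 < t1 := by
      rcases lt_or_eq_of_le hs1t with h | h
      · exact h
      · rw [h, hg1] at hgs1
        omega
    have habove : ∀ v, s1 < v → v ≤ t1 → c < g v := by
      intro v hv hv'
      by_contra hcon
      push Not at hcon
      exact hmax v hv hv' ⟨by omega, hv', hcon⟩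
    have hg2 : g s1 = c := by
      have h1 := habove (s1 + 1) (by omega) (by omega)
      have h2 := hg s1
      have := (abs_le.1 h2).2
      omega
    have hbr : IsBr g X s1 t1 := by
      refine ⟨hs1t, by rw [hg2]; exact hc, by rw [hg1]; exact dvd_add hc (dvd_refl _), ?_, ?_⟩
      · rw [hg1, hg2]
        rw [add_sub_cancel_left]
        exact abs_of_nonneg (by omega)
      · intro u hu hu'
        rw [hg1, hg2, min_eq_left (by omega), max_eq_right (by omega)]
        exact ⟨habove u hu hu'.le, hbelow u (by omega) hu'⟩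
    refine Pk.cons hs1 hbr (ih t1 t (c + X) ht1t (dvd_add hc (dvd_refl _)) hg1.le ?_)
    push_cast at ht
    linarith

lemma br_split (hg : ∀ u, |g (u + 1) - g u| ≤ 1) (hX : 1 ≤ X) {M s t : ℕ}
    (h : IsBr g (M * X) s t) : Pk g X s t M := by
  obtain ⟨h1, h2, h3, h4, -⟩ := h
  have hd : (X : ℤ) ∣ ((M * X : ℕ) : ℤ) := by push_cast; exact dvd_mul_left _ _
  rcases le_total (g s) (g t) with hle | hle
  · rw [abs_of_nonneg (by linarith)] at h4
    refine cross_up hg hX M s t (g s) h1 (hd.trans h2) le_rfl ?_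
    push_cast at h4
    linarith
  · rw [abs_of_nonpos (by linarith)] at h4
    apply Pk.of_neg
    refine cross_up (g := fun u => - g u) ?_ hX M s t (- g s) h1 ((dvd_neg).2 (hd.trans h2))
      le_rfl ?_
    · intro u
      have := hg u
      rw [← abs_neg] at this
      rwa [show - g (u + 1) - - g u = -(g (u + 1) - g u) by ring]
    · push_cast at h4
      linarith

lemma Pk.split (hg : ∀ u, |g (u + 1) - g u| ≤ 1) (hX : 1 ≤ X) {M a b n : ℕ}
    (h : Pk g (M * X) a b n) : Pk g X a b (M * n) := by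
  induction h with
  | zero h => rw [mul_zero]; exact Pk.zero h
  | @cons a s t b n h1 h2 _ ih =>
    have := ((br_split hg hX h2).monoL h1).append ih
    rwa [show M + M * n = M * (n + 1) by ring] at this

lemma up_two (hg : ∀ u, |g (u + 1) - g u| ≤ 1) (hX : 1 ≤ X) {a b u v : ℕ}
    (hau : a ≤ u) (hub : u ≤ v) (hvb : v ≤ b) (h : g u + 2 * X ≤ g v) : Pk g X a b 1 := by
  have hX' : (0 : ℤ) < X := by exact_mod_cast hX
  have h1 := cross_up hg hX 1 u v (X * (-((-g u) / X))) hub (dvd_mul_right _ _) ?_ ?_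
  · exact (h1.monoL hau).monoR hvb
  · have := Int.mul_ediv_self_le (x := - g u) (k := (X : ℤ)) hX'.ne'
    linarith
  · have := Int.lt_mul_ediv_self_add (x := - g u) (k := (X : ℤ)) hX'
    push_cast
    linarith

lemma flat_of_not (hg : ∀ u, |g (u + 1) - g u| ≤ 1) (hX : 1 ≤ X) {a b : ℕ}
    (h : ¬ Pk g X a b 1) (u : ℕ) (hau : a ≤ u) (hub : u ≤ b) : |g u - g a| ≤ 2 * X := by
  rw [abs_le]
  constructor
  · by_contra hcon
    push Not at hcon
    apply h
    apply Pk.of_neg
    refine up_two (g := fun u => - g u) ?_ hX le_rfl hau hub ?_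
    · intro u
      have := hg u
      rw [← abs_neg] at this
      rwa [show - g (u + 1) - - g u = -(g (u + 1) - g u) by ring]
    · linarith
  · by_contra hcon
    push Not at hcon
    apply h
    refine up_two hg hX le_rfl hau hub ?_
    linarith

/-- maximal number of non-overlapping bridges -/
lemma exists_max (hg : ∀ u, |g (u + 1) - g u| ≤ 1) (hX : 1 ≤ X) {a b : ℕ} (hab : a ≤ b) :
    ∃ n, Pk g X a b n ∧ ∀ m, Pk g X a b m → m ≤ n := by
  classical
  refine ⟨Nat.findGreatest (fun n => Pk g X a b n) b, ?_, ?_⟩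
  · exact Nat.findGreatest_spec (P := fun n => Pk g X a b n) (Nat.zero_le b) (Pk.zero hab)
  · intro m hm
    refine Nat.le_findGreatest ?_ hm
    have := hm.len hg
    nlinarith

/-- cut times with kinds -/
def OkP (Q : ℕ → ℕ → Bool → Prop) : ℕ → List (ℕ × Bool) → ℕ → Prop
  | a, [], b => a = b
  | a, q :: L, b => a ≤ q.1 ∧ Q a q.1 q.2 ∧ OkP Q q.1 L b

lemma OkP.append {Q : ℕ → ℕ → Bool → Prop} {L L' : List (ℕ × Bool)} {a b c : ℕ}
    (h : OkP Q a L b) (h' : OkP Q b L' c) : OkP Q a (L ++ L') c := by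
  induction L generalizing a with
  | nil => have : a = b := h; subst this; exact h'
  | cons q L ih => exact ⟨h.1, h.2.1, ih h.2.2⟩

lemma OkP.le {Q : ℕ → ℕ → Bool → Prop} {L : List (ℕ × Bool)} {a b : ℕ}
    (h : OkP Q a L b) : a ≤ b := by
  induction L generalizing a with
  | nil => exact le_of_eq h
  | cons q L ih => exact h.1.trans (ih h.2.2)

lemma OkP.le_mem {Q : ℕ → ℕ → Bool → Prop} {L : List (ℕ × Bool)} {a b : ℕ}
    (h : OkP Q a L b) : ∀ q ∈ L, q.1 ≤ b := by
  induction L generalizing a with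
  | nil => intro q hq; simp at hq
  | cons q L ih =>
    intro q' hq'
    rcases List.mem_cons.1 hq' with rfl | hq'
    · exact h.2.2.le
    · exact ih h.2.2 q' hq'

/-- number of pieces that are not bridges -/
def fl (L : List (ℕ × Bool)) : ℕ := L.countP (fun q => !q.2)

/-- number of bridges -/
def br (L : List (ℕ × Bool)) : ℕ := L.countP (fun q => q.2)

lemma br_add_fl (L : List (ℕ × Bool)) : br L + fl L = L.length := by
  induction L with
  | nil => rfl
  | cons q L ih =>
    obtain ⟨t, k⟩ := q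
    cases k <;> simp [br, fl] at ih ⊢ <;> omega

/-- kinds of pieces -/
def PQ (g : ℕ → ℤ) (X W : ℕ) (s t : ℕ) (k : Bool) : Prop :=
  if k then IsBr g X s t else ∀ u, s ≤ u → u ≤ t → |g u - g s| ≤ W

lemma flats (hg : ∀ u, |g (u + 1) - g u| ≤ 1) {X' : ℕ} (hX : 1 ≤ X') {b : ℕ} (n : ℕ) :
    ∀ a, Pk g X' a b n → ¬ Pk g X' a b (n + 1) →
      ∃ L, OkP (PQ g X (2 * X')) a L b ∧ fl L ≤ 2 * n + 1 ∧ br L = 0 := by
  induction n with
  | zero =>
    intro a h h'
    refine ⟨[(b, false)], ⟨h.le, ?_, rfl⟩, ?_, ?_⟩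
    · unfold PQ
      rw [if_neg (by simp)]
      intro u hu hu'
      have := flat_of_not hg hX h' u hu hu'
      push_cast
      exact this
    · simp [fl]
    · simp [br]
  | succ n ih =>
    intro a h h'
    cases h with
    | @cons _ s t _ _ h1 h2 h3 =>
      have hn : ¬ Pk g X' t b (n + 1) := by
        intro hcon
        exact h' (Pk.cons h1 h2 hcon)
      have h0 : ¬ Pk g X' a s 1 := by
        intro hcon
        apply h'
        have := (hcon.append (Pk.one h2)).append h3
        rwa [show 1 + 1 + n = n + 1 + 1 by ring] at this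
      obtain ⟨L, hL1, hL2, hL3⟩ := ih t h3 hn
      refine ⟨(s, false) :: (t, false) :: L, ⟨h1, ?_, h2.1, ?_, hL1⟩, ?_, ?_⟩
      · unfold PQ
        rw [if_neg (by simp)]
        intro u hu hu'
        have := flat_of_not hg hX h0 u hu hu'
        push_cast
        exact this
      · unfold PQ
        rw [if_neg (by simp)]
        intro u hu hu'
        obtain ⟨g1, -, -, g4, g5⟩ := h2
        have hX' : (1 : ℤ) ≤ X' := by exact_mod_cast hX
        push_cast
        rcases eq_or_lt_of_le hu with he | hlt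
        · rw [← he]; simp
        rcases eq_or_lt_of_le hu' with he | hlt'
        · rw [he]
          simp only
          rw [g4]
          linarith
        · have := g5 u hlt hlt'
          rcases le_total (g s) (g t) with hle | hle
          · rw [min_eq_left hle, max_eq_right hle] at this
            rw [abs_of_nonneg (by linarith)] at g4
            rw [abs_le]
            constructor <;> linarith
          · rw [min_eq_right hle, max_eq_left hle] at this
            rw [abs_of_nonpos (by linarith)] at g4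
            rw [abs_le]
            constructor <;> linarith
      · simp only [fl, List.countP_cons] at hL2 ⊢
        simp
        omega
      · simp only [br, List.countP_cons] at hL3 ⊢
        simp
        simpa using hL3

lemma flats_max (hg : ∀ u, |g (u + 1) - g u| ≤ 1) {X' : ℕ} (hX : 1 ≤ X') {a b : ℕ}
    (hab : a ≤ b) :
    ∃ r L, Pk g X' a b r ∧ OkP (PQ g X (2 * X')) a L b ∧ fl L ≤ 2 * r + 1 ∧ br L = 0 := by
  obtain ⟨n, hn, hn'⟩ := exists_max hg hX hab
  obtain ⟨L, h1, h2, h3⟩ := flats (X := X) hg hX n a hn (fun hcon => by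
    have := hn' _ hcon
    omega)
  exact ⟨n, L, hn, h1, h2, h3⟩

lemma cover (hg : ∀ u, |g (u + 1) - g u| ≤ 1) {X' M : ℕ} (hX : 1 ≤ X') {a b n : ℕ}
    (h : Pk g (M * X') a b n) :
    ∃ r L, Pk g X' a b (M * n + r) ∧ OkP (PQ g (M * X') (2 * X')) a L b ∧
      fl L ≤ 2 * r + n + 1 ∧ br L = n := by
  induction h with
  | zero h =>
    obtain ⟨r, L, h1, h2, h3, h4⟩ := flats_max (X := M * X') hg hX h
    refine ⟨r, L, by rwa [mul_zero, zero_add], h2, by omega, h4⟩
  | @cons a s t b n h1 h2 h3 ih =>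
    obtain ⟨r0, L0, i1, i2, i3, i4⟩ := ih
    obtain ⟨r1, L1, j1, j2, j3, j4⟩ := flats_max (X := M * X') hg hX h1
    refine ⟨r1 + r0, L1 ++ (t, true) :: L0, ?_, j2.append ⟨h2.1, ?_, i2⟩, ?_, ?_⟩
    · have := (j1.append (br_split hg hX h2)).append i1
      rwa [show r1 + M + (M * n + r0) = M * (n + 1) + (r1 + r0) by ring] at this
    · unfold PQ
      rw [if_pos rfl]
      exact h2
    · simp only [fl, List.countP_append, List.countP_cons] at i3 j3 ⊢
      simp
      omega
    · simp only [br, List.countP_append, List.countP_cons] at i4 j4 ⊢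
      rw [i4, j4]
      simp

lemma decomp1 {h K0 J N : ℕ} {δ : ℝ} (hδ : 0 < δ) (hM : 2 / δ ≤ (2 : ℝ) ^ h) (hK0 : 1 / δ < K0)
    (hJ : N < 2 ^ J) (hJ2 : 2 ^ J ≤ 2 * N) (hJK : h * K0 ≤ J) (hN : 1 ≤ N)
    {g : ℕ → ℤ} (hg : ∀ u, |g (u + 1) - g u| ≤ 1) :
    ∃ k, k < K0 ∧ ∃ L, OkP (PQ g (2 ^ (J - h * k)) (2 * 2 ^ (J - h * (k + 1)))) 0 L N ∧
      ((2 : ℝ) ^ (J - h * (k + 1))) * fl L ≤ 4 * δ * N ∧
      (L.length : ℝ) ≤ (1 + 4 * δ) * ((2 : ℝ) ^ h) ^ K0 := by
  have hNr : (1 : ℝ) ≤ N := by exact_mod_cast hN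
  choose n hn hn' using fun k : ℕ =>
    exists_max (X := 2 ^ (J - h * k)) hg (Nat.one_le_two_pow) (Nat.zero_le N)
  have hlen : ∀ k, (2 : ℝ) ^ (J - h * k) * n k ≤ N := by
    intro k
    have := (hn k).len hg
    rw [zero_add] at this
    exact_mod_cast this
  have hsel : ∃ k, k < K0 ∧
      (2 : ℝ) ^ (J - h * (k + 1)) * n (k + 1) - (2 : ℝ) ^ (J - h * k) * n k ≤ δ * N := by
    by_contra hcon
    push Not at hcon
    have h1 := Finset.sum_range_sub (fun k => (2 : ℝ) ^ (J - h * k) * n k) K0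
    have h2 : ∑ _k ∈ Finset.range K0, δ * N ≤ ∑ k ∈ Finset.range K0,
        ((2 : ℝ) ^ (J - h * (k + 1)) * n (k + 1) - (2 : ℝ) ^ (J - h * k) * n k) :=
      Finset.sum_le_sum fun k hk => (hcon k (Finset.mem_range.1 hk)).le
    rw [h1, Finset.sum_const, Finset.card_range, nsmul_eq_mul] at h2
    have h3 := hlen K0
    have h4 : (0 : ℝ) ≤ (2 : ℝ) ^ (J - h * 0) * n 0 := by positivity
    have h5 : 1 < K0 * δ := by
      rwa [div_lt_iff₀ hδ] at hK0
    nlinarith
  obtain ⟨k, hk, hsel⟩ := hsel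
  have hexp : J - h * k = h + (J - h * (k + 1)) := by
    have : h * (k + 1) ≤ h * K0 := Nat.mul_le_mul_left _ hk
    rw [mul_add, mul_one] at this ⊢
    omega
  have hX : (2 : ℕ) ^ (J - h * k) = 2 ^ h * 2 ^ (J - h * (k + 1)) := by
    rw [← pow_add, ← hexp]
  have hXr : (2 : ℝ) ^ (J - h * k) = 2 ^ h * 2 ^ (J - h * (k + 1)) := by
    rw [← pow_add, ← hexp]
  have hk1 := hn k
  rw [hX] at hk1
  obtain ⟨r, L, c1, c2, c3, c4⟩ := cover hg (Nat.one_le_two_pow) hk1
  have hr := hn' (k + 1) _ c1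
  have hrr : (2 : ℝ) ^ h * n k + r ≤ n (k + 1) := by exact_mod_cast hr
  have c3r : (fl L : ℝ) ≤ 2 * r + n k + 1 := by exact_mod_cast c3
  set X' : ℝ := (2 : ℝ) ^ (J - h * (k + 1)) with hX'
  set M : ℝ := (2 : ℝ) ^ h with hMdef
  have hX'0 : 0 < X' := by positivity
  have hM1 : 1 ≤ M := one_le_pow₀ (by norm_num)
  have hM0 : 0 < M := by positivity
  have hlk := hlen k
  rw [hXr] at hlk hsel
  have hMδ : 2 ≤ M * δ := by rwa [div_le_iff₀ hδ] at hM
  have e1 : X' * r ≤ δ * N := by
    have : X' * (M * n k + r) ≤ X' * n (k + 1) := by gcongr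
    nlinarith
  have e2 : X' * n k ≤ δ * N / 2 := by
    have h1 : M * (X' * n k) ≤ N := by linarith
    have h2 : 2 * (X' * n k) ≤ M * δ * (X' * n k) := by gcongr
    nlinarith
  have hXJ : M * X' ≤ 2 * N := by
    rw [← hXr]
    calc (2 : ℝ) ^ (J - h * k) ≤ 2 ^ J := pow_le_pow_right₀ (by norm_num) (Nat.sub_le _ _)
      _ ≤ 2 * N := by exact_mod_cast hJ2
  have e3 : X' ≤ δ * N := by
    have h2 : 2 * X' ≤ M * δ * X' := by gcongr
    nlinarith
  have e4 : X' * fl L ≤ 4 * δ * N := by
    have : X' * fl L ≤ X' * (2 * r + n k + 1) := by gcongr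
    nlinarith
  refine ⟨k, hk, L, ?_, e4, ?_⟩
  · rw [hX]; exact c2
  · have hlen' : (L.length : ℝ) = n k + fl L := by
      rw [← br_add_fl L, c4]
      push_cast
      ring
    have hXM : (N : ℝ) ≤ X' * M ^ K0 := by
      calc (N : ℝ) ≤ 2 ^ J := by exact_mod_cast hJ.le
        _ ≤ 2 ^ (J - h * (k + 1) + h * K0) := by
            refine pow_le_pow_right₀ (by norm_num) ?_
            have : h * (k + 1) ≤ h * K0 := Nat.mul_le_mul_left _ hk
            omega
        _ = X' * M ^ K0 := by rw [pow_add, pow_mul]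
    have f1 : (fl L : ℝ) ≤ 4 * δ * M ^ K0 := by
      have : X' * fl L ≤ X' * (4 * δ * M ^ K0) := by nlinarith
      exact le_of_mul_le_mul_left this hX'0
    have f2 : (n k : ℝ) ≤ M ^ K0 := by
      have h1 : X' * n k ≤ M * X' * n k := by
        have : (0 : ℝ) ≤ X' * n k := by positivity
        nlinarith
      have : X' * n k ≤ X' * M ^ K0 := by linarith
      exact le_of_mul_le_mul_left this hX'0
    rw [hlen']
    nlinarith

/-- slice of a list -/
def sl {α : Type*} (s t : ℕ) (l : List α) : List α := (l.drop s).take (t - s + 1)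

lemma drop_eq_sl {α : Type*} (l : List α) {a t : ℕ} (hat : a ≤ t) :
    l.drop a = (sl a t l).take (t - a) ++ l.drop t := by
  unfold sl
  rw [List.take_take, min_eq_left (by omega)]
  have h := List.take_append_drop (t - a) (l.drop a)
  rw [List.drop_drop, show a + (t - a) = t by omega] at h
  exact h.symm

lemma find_piece {α : Type*} [DecidableEq α] (F : Finset (List α)) (x : α) {N : ℕ} {β S : ℝ}
    (hβ : 0 ≤ β) (hS : 0 ≤ S) (hF : ∀ l ∈ F, l.length = N + 1) (Q : ℕ → ℕ → Bool → Prop)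
    (hQ : ∀ s t k, Q s t k → ∀ l ∈ F, ∀ l' ∈ F, l.getD t x = l'.getD t x)
    (L : List (ℕ × Bool)) : ∀ a, OkP Q a L N →
      (∀ l ∈ F, ∀ l' ∈ F, l.getD a x = l'.getD a x) →
      β * ((N : ℝ) - a) + S * fl L < Real.log (F.image (List.drop a)).card →
      ∃ s t k, s ≤ t ∧ t ≤ N ∧ Q s t k ∧ (∀ l ∈ F, ∀ l' ∈ F, l.getD s x = l'.getD s x) ∧
        (∀ l ∈ F, ∀ l' ∈ F, l.getD t x = l'.getD t x) ∧
        β * ((t : ℝ) - s) + (if k then 0 else S) < Real.log (F.image (sl s t)).card := by
  induction L with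
  | nil =>
    intro a ha hax hlt
    exfalso
    have ha : a = N := ha
    subst ha
    simp only [fl, List.countP_nil, Nat.cast_zero, mul_zero, sub_self, add_zero] at hlt
    have hc : (F.image (List.drop a)).card ≤ 1 := by
      rw [Finset.card_le_one]
      intro u hu v hv
      rw [Finset.mem_image] at hu hv
      obtain ⟨l, hl, rfl⟩ := hu
      obtain ⟨l', hl', rfl⟩ := hv
      have key : ∀ l ∈ F, List.drop a l = [l.getD a x] := by
        intro l hl
        have h1 := hF l hl
        have h2 : a < l.length := by omega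
        rw [List.drop_eq_getElem_cons h2, List.drop_eq_nil_of_le (by omega),
          List.getD_eq_getElem _ _ h2]
      rw [key l hl, key l' hl', hax l hl l' hl']
    have : Real.log (F.image (List.drop a)).card ≤ 0 :=
      Real.log_nonpos (Nat.cast_nonneg _) (by exact_mod_cast hc)
    linarith
  | cons q L ih =>
    obtain ⟨t, k⟩ := q
    intro a ha hax hlt
    obtain ⟨h1, h2, h3⟩ := ha
    simp only at h1 h2 h3
    have htN := h3.le
    by_cases hcase : β * ((t : ℝ) - a) + (if k then 0 else S) <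
        Real.log (F.image (sl a t)).card
    · exact ⟨a, t, k, h1, htN, h2, hax, hQ _ _ _ h2, hcase⟩
    · push Not at hcase
      apply ih t h3 (hQ _ _ _ h2)
      have hNa : (a : ℝ) ≤ N := by exact_mod_cast h1.trans htN
      have hne : F.Nonempty := by
        rw [Finset.nonempty_iff_ne_empty]
        rintro rfl
        simp only [Finset.image_empty, Finset.card_empty, Nat.cast_zero, Real.log_zero] at hlt
        have e1 : 0 ≤ β * ((N : ℝ) - a) := mul_nonneg hβ (by linarith)
        have e2 : 0 ≤ S * (fl ((t, k) :: L) : ℝ) := mul_nonneg hS (Nat.cast_nonneg _)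
        linarith
      have hsub : F.image (List.drop a) ⊆
          ((F.image (sl a t)) ×ˢ (F.image (List.drop t))).image
            (fun p => p.1.take (t - a) ++ p.2) := by
        intro u hu
        rw [Finset.mem_image] at hu
        obtain ⟨l, hl, rfl⟩ := hu
        rw [Finset.mem_image]
        refine ⟨(sl a t l, List.drop t l), ?_, (drop_eq_sl l h1).symm⟩
        rw [Finset.mem_product]
        exact ⟨Finset.mem_image_of_mem _ hl, Finset.mem_image_of_mem _ hl⟩
      have hcard : (F.image (List.drop a)).card ≤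
          (F.image (sl a t)).card * (F.image (List.drop t)).card := by
        rw [← Finset.card_product]
        exact (Finset.card_le_card hsub).trans Finset.card_image_le
      have p1 : (0 : ℝ) < (F.image (List.drop a)).card := by
        exact_mod_cast Finset.card_pos.2 (hne.image _)
      have p2 : (0 : ℝ) < (F.image (sl a t)).card := by
        exact_mod_cast Finset.card_pos.2 (hne.image _)
      have p3 : (0 : ℝ) < (F.image (List.drop t)).card := by
        exact_mod_cast Finset.card_pos.2 (hne.image _)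
      have hlog : Real.log (F.image (List.drop a)).card ≤
          Real.log (F.image (sl a t)).card + Real.log (F.image (List.drop t)).card := by
        rw [← Real.log_mul p2.ne' p3.ne']
        apply Real.log_le_log p1
        exact_mod_cast hcard
      have hfl : S * (fl ((t, k) :: L) : ℝ) = (if k then 0 else S) + S * fl L := by
        cases k
        · simp only [fl, List.countP_cons]
          simp
          ring
        · simp only [fl, List.countP_cons]
          simp
      rw [hfl] at hlt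
      linarith

lemma OkP.forall {ι : Type*} {F : Finset ι} (hF : F.Nonempty) {Q : ι → ℕ → ℕ → Bool → Prop}
    {R : ℕ → Prop} {L : List (ℕ × Bool)} {N : ℕ} :
    ∀ a, (∀ l ∈ F, OkP (Q l) a L N) → (∀ q ∈ L, R q.1) →
      OkP (fun s t k => (∀ l ∈ F, Q l s t k) ∧ R t) a L N := by
  obtain ⟨l0, hl0⟩ := hF
  induction L with
  | nil => intro a h _; exact h l0 hl0
  | cons q L ih =>
    intro a h hR
    refine ⟨(h l0 hl0).1, ⟨fun l hl => (h l hl).2.1, hR q (by simp)⟩, ?_⟩
    exact ih _ (fun l hl => (h l hl).2.2) (fun q hq => hR q (by simp [hq]))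

lemma ev_data (d P K0 : ℕ) (hK0 : 1 ≤ K0) {c : ℝ} (hc : 0 < c) :
    ∃ N1 : ℕ, ∀ N, N1 ≤ N →
      Real.log ((K0 * (1 + (N + 1) * (2 * (2 * N + 1) ^ d)) ^ P : ℕ) : ℝ) < c * N := by
  have hpos : (0 : ℝ) < P * (d + 3) + 1 := by positivity
  have hT : Tendsto (fun N : ℕ => (2 * (N : ℝ) + 1)) atTop atTop := by
    apply tendsto_atTop_add_const_right
    exact Tendsto.const_mul_atTop (by norm_num) tendsto_natCast_atTop_atTop
  have h1 := (Real.isLittleO_log_id_atTop.comp_tendsto hT).def
    (show (0 : ℝ) < c / (8 * (P * (d + 3) + 1)) by positivity)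
  rw [Filter.eventually_atTop] at h1
  obtain ⟨A, hA⟩ := h1
  obtain ⟨B, hB⟩ := exists_nat_gt (4 * Real.log K0 / c)
  refine ⟨max (max A B) 1, fun N hN => ?_⟩
  have hN1 : 1 ≤ N := (le_max_right _ _).trans hN
  have hNA : A ≤ N := (le_max_left _ _).trans ((le_max_left _ _).trans hN)
  have hNB : B ≤ N := (le_max_right _ _).trans ((le_max_left _ _).trans hN)
  have hNr : (1 : ℝ) ≤ N := by exact_mod_cast hN1
  have hAN := hA N hNA
  simp only [Function.comp, id] at hAN
  rw [Real.norm_of_nonneg (Real.log_nonneg (by linarith)),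
    Real.norm_of_nonneg (by linarith)] at hAN
  have hKN : Real.log K0 ≤ c * N / 4 := by
    have h2 : (B : ℝ) ≤ N := by exact_mod_cast hNB
    have h3 : 4 * Real.log K0 / c < N := lt_of_lt_of_le hB h2
    rw [div_lt_iff₀ hc] at h3
    linarith
  have hK0r : (1 : ℝ) ≤ K0 := by exact_mod_cast hK0
  have hbase : (1 + ((N : ℝ) + 1) * (2 * (2 * N + 1) ^ d)) ≤ (2 * N + 1) ^ (d + 3) := by
    have h4 : (1 : ℝ) ≤ (2 * N + 1) ^ d := one_le_pow₀ (by linarith)
    rw [pow_add]
    have h5 : 1 + 2 * ((N : ℝ) + 1) ≤ (2 * N + 1) ^ 3 := by nlinarith [sq_nonneg (N : ℝ)]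
    nlinarith
  push_cast
  rw [Real.log_mul (by positivity) (by positivity), Real.log_pow]
  have h6 : Real.log (1 + ((N : ℝ) + 1) * (2 * (2 * N + 1) ^ d)) ≤
      (d + 3) * Real.log (2 * N + 1) := by
    have := Real.log_le_log (by positivity) hbase
    rw [Real.log_pow] at this
    push_cast at this
    exact this
  have h7 : (P : ℝ) * Real.log (1 + ((N : ℝ) + 1) * (2 * (2 * N + 1) ^ d)) ≤
      c * (2 * N + 1) / 8 := by
    have hl0 : 0 ≤ Real.log (2 * (N : ℝ) + 1) := Real.log_nonneg (by linarith)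
    calc (P : ℝ) * Real.log (1 + ((N : ℝ) + 1) * (2 * (2 * N + 1) ^ d))
        ≤ P * ((d + 3) * Real.log (2 * N + 1)) := by gcongr
      _ ≤ (P * (d + 3) + 1) * Real.log (2 * N + 1) := by nlinarith
      _ ≤ (P * (d + 3) + 1) * (c / (8 * (P * (d + 3) + 1)) * (2 * N + 1)) := by gcongr
      _ = c * (2 * N + 1) / 8 := by field_simp
  nlinarith

lemma sl_infix {α : Type*} (s t : ℕ) (l : List α) : sl s t l <:+: l :=
  (List.take_prefix _ _).isInfix.trans (List.drop_suffix _ _).isInfix

lemma sl_getElem? {α : Type*} (x : α) {N : ℕ} {l : List α} (hl : l.length = N + 1) {s t : ℕ}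
    (htN : t ≤ N) {u : ℕ} (hu : s + u ≤ t) :
    (sl s t l)[u]? = some (l.getD (s + u) x) := by
  unfold sl
  rw [List.getElem?_take, if_pos (by omega), List.getElem?_drop, List.getD_eq_getElem?_getD,
    List.getElem?_eq_getElem (by omega)]
  rfl

lemma sl_length {α : Type*} {N : ℕ} {l : List α} (hl : l.length = N + 1) {s t : ℕ}
    (hst : s ≤ t) (htN : t ≤ N) : (sl s t l).length = t - s + 1 := by
  unfold sl
  rw [List.length_take, List.length_drop, hl]
  omega

lemma sl_mem {α : Type*} (x : α) {N : ℕ} {l : List α} (hl : l.length = N + 1) {s t : ℕ}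
    (hst : s ≤ t) (htN : t ≤ N) {v : α} (hv : v ∈ sl s t l) :
    ∃ u, s ≤ u ∧ u ≤ t ∧ v = l.getD u x := by
  rw [List.mem_iff_getElem?] at hv
  obtain ⟨u, hu⟩ := hv
  have h1 : u < (sl s t l).length := by
    by_contra hcon
    push Not at hcon
    rw [List.getElem?_eq_none hcon] at hu
    simp at hu
  rw [sl_length hl hst htN] at h1
  rw [sl_getElem? x hl htN (by omega : s + u ≤ t)] at hu
  exact ⟨s + u, by omega, by omega, (Option.some.inj hu).symm⟩

lemma sl_chainIfx {α : Type*} {R : α → α → Prop} {l l' : List α} (h : l.IsChain R)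
    (hs : l' <:+: l) : l'.IsChain R := by
  obtain ⟨s, t, rfl⟩ := hs
  exact (List.IsChain.left_of_append h).right_of_append

lemma OP_infix {κ : Kind} {ω : El d → Bool} {l l' : List (V d)} (h : OP κ ω l)
    (hs : l' <:+: l) : OP κ ω l' := by
  refine ⟨h.nodup.sublist hs.sublist, sl_chainIfx h.chain hs, ?_⟩
  have h3 := h.opn
  cases κ
  · exact sl_chainIfx h3 hs
  · intro a ha
    exact h3 a (hs.subset ha)

lemma fam_sl {κ : Kind} {ω : El d → Bool} {x y : V d} {N : ℕ} {l : List (V d)}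
    (hl : l ∈ Fam κ ω Set.univ x y N) {s t : ℕ} (hst : s ≤ t) (htN : t ≤ N) :
    sl s t l ∈ Fam κ ω Set.univ (l.getD s x) (l.getD t x) (t - s) := by
  obtain ⟨h1, h2, -, -, -⟩ := hl
  refine ⟨OP_infix h1 (sl_infix s t l), sl_length h2 hst htN, ?_, ?_, fun _ _ => trivial⟩
  · rw [List.head?_eq_getElem?, sl_getElem? x h2 htN (by omega : s + 0 ≤ t), add_zero]
  · rw [List.getLast?_eq_getElem?, sl_length h2 hst htN,
      sl_getElem? x h2 htN (by omega : s + (t - s + 1 - 1) ≤ t)]
    rw [show s + (t - s + 1 - 1) = t by omega]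

/-- coordinate along a path, constant after the end -/
def gg (x : V d) (N : ℕ) (m : Fin d) (l : List (V d)) (u : ℕ) : ℤ := (l.getD (min u N) x) m

lemma gg_lip {κ : Kind} {ω : El d → Bool} {x y : V d} {N : ℕ} {l : List (V d)}
    (hl : l ∈ Fam κ ω Set.univ x y N) (m : Fin d) (u : ℕ) :
    |gg x N m l (u + 1) - gg x N m l u| ≤ 1 := by
  obtain ⟨h1, h2, -, -, -⟩ := hl
  unfold gg
  rcases Nat.lt_or_ge u N with h | h
  · rw [min_eq_left (by omega : u + 1 ≤ N), min_eq_left h.le]
    have h3 := h1.chain.getElem u (by omega)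
    have h4 := LatAdj.abs_le h3 m
    rw [List.getD_eq_getElem _ _ (by omega), List.getD_eq_getElem _ _ (by omega), abs_sub_comm]
    exact h4
  · rw [min_eq_right (by omega : N ≤ u + 1), min_eq_right h]
    simp

lemma gg_zero {κ : Kind} {ω : El d → Bool} {x y : V d} {N : ℕ} {l : List (V d)}
    (hl : l ∈ Fam κ ω Set.univ x y N) : l.getD 0 x = x := by
  obtain ⟨-, -, h3, -, -⟩ := hl
  rw [List.head?_eq_getElem?] at h3
  rw [List.getD_eq_getElem?_getD, h3]
  rfl

lemma mem_box {κ : Kind} {ω : El d → Bool} {x y : V d} {N : ℕ} {l : List (V d)}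
    (hl : l ∈ Fam κ ω Set.univ x y N) {u : ℕ} (hu : u ≤ N) : l.getD u x ∈ Bx x N := by
  rw [mem_Bx]
  intro i
  have h1 := lip_le (fun u => gg_lip hl i u) 0 u
  unfold gg at h1
  rw [zero_add, min_eq_left hu, Nat.zero_min, gg_zero hl] at h1
  have : (u : ℤ) ≤ N := by exact_mod_cast hu
  linarith

end LED

open LED in
theorem lemE_dir (d : ℕ) (b η ε : ℝ) (hb : 0 ≤ b) (hη : 0 < η) (hε : 0 < ε) :
    ∃ κs : ℝ, 0 < κs ∧ ∃ N₀ : ℕ, ∀ (κ : Kind) (ω : El d → Bool) (F : Finset (List (V d)))
      (x y : V d) (N : ℕ) (m : Fin d), N₀ ≤ N → IsFam κ ω F x y N →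
      (b + η) * N ≤ Real.log F.card →
      (∃ j : ℕ, κs * N ≤ 2 ^ j ∧ RichBridge κ ω F (b + η / 4) m j) ∨
      (∃ (F' : Finset (List (V d))) (x' y' : V d) (N' : ℕ), IsFam κ ω F' x' y' N' ∧
        (∀ l' ∈ F', ∃ l ∈ F, l' <:+: l) ∧ (b + η / 4) * N' ≤ Real.log F'.card ∧
        κs * N ≤ Real.log F'.card - b * N' ∧
        ∀ l ∈ F', ∀ v ∈ l, (|v m - x' m| : ℝ) ≤ ε * (Real.log F'.card - b * N')) := by
  classical
  set δ : ℝ := ε * η / 16 with hδdef
  have hδ : 0 < δ := by positivity
  obtain ⟨h, hM⟩ := pow_unbounded_of_one_lt (2 / δ) (by norm_num : (1 : ℝ) < 2)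
  set K0 : ℕ := ⌊1 / δ⌋₊ + 1 with hK0def
  have hK0 : 1 / δ < K0 := by
    rw [hK0def]
    push_cast
    exact Nat.lt_floor_add_one _
  set MK : ℝ := ((2 : ℝ) ^ h) ^ K0 with hMK
  have hMK0 : 0 < MK := by positivity
  set P : ℕ := ⌈(1 + 4 * δ) * MK⌉₊ with hP
  obtain ⟨N1, hN1⟩ := ev_data d P K0 (by omega) (show (0 : ℝ) < η / 4 by positivity)
  set κs : ℝ := min (1 / MK) (η / (8 * δ * MK)) with hκs
  have hκs1 : κs ≤ 1 / MK := min_le_left _ _
  have hκs2 : κs ≤ η / (8 * δ * MK) := min_le_right _ _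
  refine ⟨κs, lt_min (by positivity) (by positivity), max (max N1 1) (2 ^ (h * K0)), ?_⟩
  intro κ ω F x y N m hN hF hlog
  have hN' : N1 ≤ N := (le_max_left _ _).trans ((le_max_left _ _).trans hN)
  have hNone : 1 ≤ N := (le_max_right _ _).trans ((le_max_left _ _).trans hN)
  have hNpow : 2 ^ (h * K0) ≤ N := (le_max_right _ _).trans hN
  have hdata := hN1 N hN'
  have hNr : (1 : ℝ) ≤ N := by exact_mod_cast hNone
  -- the dyadic scale
  set J : ℕ := Nat.log 2 N + 1 with hJ
  have hJ1 : N < 2 ^ J := Nat.lt_pow_succ_log_self (by norm_num) N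
  have hJ2 : 2 ^ J ≤ 2 * N := by
    rw [hJ, pow_succ, mul_comm]
    exact Nat.mul_le_mul_left 2 (Nat.pow_log_le_self 2 (by omega))
  have hJK : h * K0 ≤ J := by
    have := (Nat.pow_lt_pow_iff_right (by norm_num : 1 < 2)).1 (lt_of_le_of_lt hNpow hJ1)
    exact this.le
  -- decompositions
  have hdec : ∀ l ∈ F, ∃ k, k < K0 ∧ ∃ L,
      OkP (PQ (gg x N m l) (2 ^ (J - h * k)) (2 * 2 ^ (J - h * (k + 1)))) 0 L N ∧
      ((2 : ℝ) ^ (J - h * (k + 1))) * fl L ≤ 4 * δ * N ∧
      (L.length : ℝ) ≤ (1 + 4 * δ) * ((2 : ℝ) ^ h) ^ K0 := fun l hl =>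
    decomp1 hδ hM.le hK0 hJ1 hJ2 hJK hNone (fun u => gg_lip (hF l hl) m u)
  choose! kf hkf Lf hL1 hL2 hL3 using hdec
  have hLP : ∀ l ∈ F, (Lf l).length ≤ P := by
    intro l hl
    have h1 : ((Lf l).length : ℝ) ≤ (P : ℝ) := (hL3 l hl).trans (Nat.le_ceil _)
    exact Nat.cast_le.1 h1
  set D : List (V d) → ℕ × (Fin P → Option (ℕ × Bool × V d)) := fun l =>
    (kf l, fun i => ((Lf l)[(i : ℕ)]?).map (fun q => (q.1, q.2, l.getD q.1 x))) with hD
  set B : Finset (Option (ℕ × Bool × V d)) :=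
    insert none (((Finset.range (N + 1)) ×ˢ ((Finset.univ : Finset Bool) ×ˢ Bx x N)).image some)
    with hB
  set DT : Finset (ℕ × (Fin P → Option (ℕ × Bool × V d))) :=
    Finset.range K0 ×ˢ Fintype.piFinset (fun _ : Fin P => B) with hDT
  have hmaps : ∀ l ∈ F, D l ∈ DT := by
    intro l hl
    rw [hDT, Finset.mem_product]
    refine ⟨Finset.mem_range.2 (hkf l hl), ?_⟩
    rw [Fintype.mem_piFinset]
    intro i
    simp only [hD]
    rcases hq : (Lf l)[(i : ℕ)]? with _ | q
    · rw [hB]; simp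
    · rw [hB, Finset.mem_insert]
      right
      rw [Option.map_some, Finset.mem_image]
      refine ⟨_, ?_, rfl⟩
      have hqm : q ∈ Lf l := List.mem_of_getElem? hq
      have hqN : q.1 ≤ N := (hL1 l hl).le_mem q hqm
      simp only [Finset.mem_product, Finset.mem_range, Finset.mem_univ, true_and]
      exact ⟨by omega, mem_box (hF l hl) hqN⟩
  have hBcard : B.card ≤ 1 + (N + 1) * (2 * (2 * N + 1) ^ d) := by
    rw [hB]
    refine (Finset.card_insert_le _ _).trans ?_
    have h1 := (Finset.card_image_le (s := (Finset.range (N + 1)) ×ˢ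
      ((Finset.univ : Finset Bool) ×ˢ Bx x N)) (f := some))
    rw [Finset.card_product, Finset.card_product, Finset.card_range, Finset.card_univ,
      Fintype.card_bool, BaseLink_card_Bx] at h1
    omega
  have hDTcard : DT.card ≤ K0 * (1 + (N + 1) * (2 * (2 * N + 1) ^ d)) ^ P := by
    rw [hDT, Finset.card_product, Finset.card_range, Fintype.card_piFinset_const]
    exact Nat.mul_le_mul_left _ (Nat.pow_le_pow_left hBcard _)
  have hFlog : 0 < Real.log F.card := by
    have : 0 < (b + η) * N := by positivity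
    linarith
  have hFne : F.Nonempty := by
    rw [Finset.nonempty_iff_ne_empty]
    rintro rfl
    simp at hFlog
  have hFpos : (0 : ℝ) < F.card := by exact_mod_cast Finset.card_pos.2 hFne
  have hDTne : DT.Nonempty := by
    obtain ⟨l, hl⟩ := hFne
    exact ⟨D l, hmaps l hl⟩
  have hDTpos : (0 : ℝ) < DT.card := by exact_mod_cast Finset.card_pos.2 hDTne
  obtain ⟨y0, hy0, hfib⟩ := Finset.exists_le_card_fiber_of_nsmul_le_card_of_maps_to
    (s := F) (t := DT) (f := D) (b := (F.card : ℝ) / DT.card) hmaps hDTne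
    (by rw [nsmul_eq_mul, mul_div_cancel₀ _ hDTpos.ne'])
  set F' : Finset (List (V d)) := F.filter (fun l => D l = y0) with hF'
  have hF'pos : (0 : ℝ) < F'.card := lt_of_lt_of_le (by positivity) hfib
  have hF'ne : F'.Nonempty := by
    rw [← Finset.card_pos]
    exact_mod_cast hF'pos
  have hlogF' : (b + 3 * η / 4) * N < Real.log F'.card := by
    have h1 : Real.log ((F.card : ℝ) / DT.card) ≤ Real.log F'.card :=
      Real.log_le_log (by positivity) hfib
    rw [Real.log_div hFpos.ne' hDTpos.ne'] at h1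
    have h2 : Real.log (DT.card : ℝ) ≤
        Real.log ((K0 * (1 + (N + 1) * (2 * (2 * N + 1) ^ d)) ^ P : ℕ) : ℝ) :=
      Real.log_le_log hDTpos (by exact_mod_cast hDTcard)
    linarith
  have hsub : F' ⊆ F := Finset.filter_subset _ _
  -- common data
  obtain ⟨l0, hl0⟩ := hF'ne
  have hDl : ∀ l ∈ F', D l = D l0 := by
    intro l hl
    rw [(Finset.mem_filter.1 hl).2, (Finset.mem_filter.1 hl0).2]
  have hkl : ∀ l ∈ F', kf l = kf l0 := fun l hl => congrArg Prod.fst (hDl l hl)
  have hopt : ∀ l ∈ F', ∀ i, i < P → ((Lf l)[i]?).map (fun q => (q.1, q.2, l.getD q.1 x)) =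
      ((Lf l0)[i]?).map (fun q => (q.1, q.2, l0.getD q.1 x)) := by
    intro l hl i hi
    have := congrFun (congrArg Prod.snd (hDl l hl)) ⟨i, hi⟩
    exact this
  have hLl : ∀ l ∈ F', Lf l = Lf l0 := by
    intro l hl
    apply List.ext_getElem?
    intro i
    rcases Nat.lt_or_ge i P with hi | hi
    · have h1 := hopt l hl i hi
      rcases hq : (Lf l)[i]? with _ | q <;> rcases hq' : (Lf l0)[i]? with _ | q'
      · rfl
      · rw [hq, hq'] at h1; simp at h1
      · rw [hq, hq'] at h1; simp at h1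
      · rw [hq, hq'] at h1
        simp only [Option.map_some, Option.some.injEq, Prod.mk.injEq] at h1
        congr 1
        exact Prod.ext h1.1 h1.2.1
    · rw [List.getElem?_eq_none ((hLP l (hsub hl)).trans hi),
        List.getElem?_eq_none ((hLP l0 (hsub hl0)).trans hi)]
  have hv : ∀ q ∈ Lf l0, ∀ l ∈ F', l.getD q.1 x = l0.getD q.1 x := by
    intro q hq l hl
    obtain ⟨i, hi⟩ := List.mem_iff_getElem?.1 hq
    have hiP : i < P := by
      have h1 : i < (Lf l0).length := by
        by_contra hcon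
        push Not at hcon
        rw [List.getElem?_eq_none hcon] at hi
        simp at hi
      exact lt_of_lt_of_le h1 (hLP l0 (hsub hl0))
    have h1 := hopt l hl i hiP
    rw [hLl l hl, hi] at h1
    simp only [Option.map_some, Option.some.injEq, Prod.mk.injEq] at h1
    exact h1.2.2
  set k := kf l0 with hk
  set L := Lf l0 with hL
  have hkK : k < K0 := hkf l0 (hsub hl0)
  set X' : ℝ := (2 : ℝ) ^ (J - h * (k + 1)) with hX'
  have hX'0 : 0 < X' := by positivity
  have hfl : X' * fl L ≤ 4 * δ * N := hL2 l0 (hsub hl0)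
  set S : ℝ := η * X' / (8 * δ) with hS
  have hS0 : 0 < S := by positivity
  have hOk := OkP.forall (F := F') ⟨l0, hl0⟩
    (Q := fun l => PQ (gg x N m l) (2 ^ (J - h * k)) (2 * 2 ^ (J - h * (k + 1))))
    (R := fun t => ∀ l ∈ F', l.getD t x = l0.getD t x) (L := L) (N := N) 0
    (by
      intro l hl
      have h1 := hL1 l (hsub hl)
      rw [hkl l hl, hLl l hl] at h1
      exact h1)
    (by
      intro q hq l hl
      exact hv q hq l hl)
  have hSfl : S * fl L ≤ η * N / 2 := by
    have e1 : S * fl L = η / (8 * δ) * (X' * fl L) := by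
      rw [hS]; ring
    rw [e1]
    calc η / (8 * δ) * (X' * fl L) ≤ η / (8 * δ) * (4 * δ * N) := by gcongr
      _ = η * N / 2 := by field_simp; ring
  have him0 : (F'.image (List.drop 0)).card = F'.card := by
    rw [show (List.drop 0 : List (V d) → List (V d)) = id from funext fun l => List.drop_zero]
    rw [Finset.image_id]
  obtain ⟨s, t, kk, hst, htN, hQ, hvs, hvt, hrich⟩ := find_piece F' x (N := N)
    (β := b + η / 4) (S := S) (by positivity) hS0.le
    (fun l hl => (hF l (hsub hl)).2.1) _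
    (by
      rintro s t k ⟨-, h2⟩ l hl l' hl'
      rw [h2 l hl, h2 l' hl']) L 0 hOk
    (by
      intro l hl l' hl'
      rw [gg_zero (hF l (hsub hl)), gg_zero (hF l' (hsub hl'))])
    (by
      rw [him0]
      push_cast
      nlinarith)
  have hfam : IsFam κ ω (F'.image (sl s t)) (l0.getD s x) (l0.getD t x) (t - s) := by
    intro l' hl'
    obtain ⟨l, hl, rfl⟩ := Finset.mem_image.1 hl'
    rw [← hvs l hl l0 hl0, ← hvt l hl l0 hl0]
    exact fam_sl (hF l (hsub hl)) hst htN
  have hinf : ∀ l' ∈ F'.image (sl s t), ∃ l ∈ F, l' <:+: l := by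
    intro l' hl'
    obtain ⟨l, hl, rfl⟩ := Finset.mem_image.1 hl'
    exact ⟨l, hsub hl, sl_infix s t l⟩
  have hcast : ((t - s : ℕ) : ℝ) = (t : ℝ) - s := by
    rw [Nat.cast_sub hst]
  have hXMK : (N : ℝ) ≤ X' * MK := by
    calc (N : ℝ) ≤ 2 ^ J := by exact_mod_cast hJ1.le
      _ ≤ 2 ^ (J - h * (k + 1) + h * K0) := by
          refine pow_le_pow_right₀ (by norm_num) ?_
          have : h * (k + 1) ≤ h * K0 := Nat.mul_le_mul_left _ hkK
          omega
      _ = X' * MK := by rw [pow_add, pow_mul]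
  have hgg : ∀ l ∈ F', ∀ u, u ≤ N → gg x N m l u = (l.getD u x) m := by
    intro l hl u hu
    unfold gg
    rw [min_eq_left hu]
  rcases kk with _ | _
  · -- thin piece
    right
    refine ⟨F'.image (sl s t), l0.getD s x, l0.getD t x, t - s, hfam, hinf, ?_, ?_, ?_⟩
    · rw [hcast]
      simp only [Bool.false_eq_true, if_false] at hrich
      linarith
    · rw [hcast]
      simp only [Bool.false_eq_true, if_false] at hrich
      have h1 : κs * N ≤ S := by
        calc κs * N ≤ η / (8 * δ * MK) * (X' * MK) := by gcongr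
          _ = S := by rw [hS]; field_simp
      have h2 : 0 ≤ η / 4 * ((t : ℝ) - s) := by
        have : (s : ℝ) ≤ t := by exact_mod_cast hst
        have : 0 ≤ (t : ℝ) - s := by linarith
        positivity
      nlinarith
    · intro l' hl' v hv'
      obtain ⟨l, hl, rfl⟩ := Finset.mem_image.1 hl'
      obtain ⟨u, hu1, hu2, rfl⟩ := sl_mem x (hF l (hsub hl)).2.1 hst htN hv'
      have h1 := hQ.1 l hl
      unfold PQ at h1
      rw [if_neg (by simp)] at h1
      have h2 := h1 u hu1 hu2
      rw [hgg l hl u (by omega), hgg l hl s (by omega), hvs l hl l0 hl0] at h2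
      have h3 : (|((l.getD u x) m : ℝ) - ((l0.getD s x) m : ℝ)|) ≤ 2 * X' := by
        have h4 : ((|(l.getD u x) m - (l0.getD s x) m| : ℤ) : ℝ) ≤
            ((2 * 2 ^ (J - h * (k + 1)) : ℕ) : ℝ) := by exact_mod_cast h2
        push_cast at h4
        exact h4
      rw [hcast]
      simp only [Bool.false_eq_true, if_false] at hrich
      have h5 : ε * S = 2 * X' := by
        rw [hS, hδdef]
        field_simp
        ring
      have h6 : 0 ≤ η / 4 * ((t : ℝ) - s) := by
        have : (s : ℝ) ≤ t := by exact_mod_cast hst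
        have : 0 ≤ (t : ℝ) - s := by linarith
        positivity
      calc |((l.getD u x) m : ℝ) - ((l0.getD s x) m : ℝ)| ≤ 2 * X' := h3
        _ = ε * S := h5.symm
        _ ≤ ε * (Real.log (F'.image (sl s t)).card - b * ((t : ℝ) - s)) := by
            apply mul_le_mul_of_nonneg_left _ hε.le
            nlinarith
  · -- bridge
    left
    refine ⟨J - h * k, ?_, F'.image (sl s t), l0.getD s x, l0.getD t x, t - s,
      Finset.Nonempty.image ⟨l0, hl0⟩ _, hfam, hinf, ?_, ?_, ?_⟩
    · calc κs * N ≤ 1 / MK * (X' * MK) := by gcongr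
        _ = X' := by field_simp
        _ ≤ 2 ^ (J - h * k) := by
            rw [hX']
            refine pow_le_pow_right₀ (by norm_num) ?_
            have : h * k ≤ h * (k + 1) := Nat.mul_le_mul_left _ (Nat.le_succ k)
            omega
    · intro l' hl' v hv'
      obtain ⟨l, hl, rfl⟩ := Finset.mem_image.1 hl'
      obtain ⟨u, hu1, hu2, rfl⟩ := sl_mem x (hF l (hsub hl)).2.1 hst htN hv'
      have h1 := hQ.1 l hl
      unfold PQ at h1
      rw [if_pos rfl] at h1
      obtain ⟨-, -, -, -, g5⟩ := h1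
      rcases eq_or_lt_of_le hu1 with he | hlt
      · left
        rw [← he]
        exact hvs l hl l0 hl0
      rcases eq_or_lt_of_le hu2 with he | hlt'
      · right; left
        rw [he]
        exact hvt l hl l0 hl0
      · right; right
        have h2 := g5 u hlt hlt'
        rw [hgg l hl u (by omega), hgg l hl s (by omega), hgg l hl t (by omega),
          hvs l hl l0 hl0, hvt l hl l0 hl0] at h2
        exact h2
    · have h1 := hQ.1 l0 hl0
      unfold PQ at h1
      rw [if_pos rfl] at h1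
      obtain ⟨-, -, -, g4, -⟩ := h1
      rw [hgg l0 hl0 s (by omega), hgg l0 hl0 t (by omega)] at g4
      rw [g4]
      push_cast
      rfl
    · rw [hcast]
      simp only [if_true, add_zero] at hrich
      exact hrich.le

end Pool.Agent.H17.QA
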