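import Pool.Agent.H17.QA.Defs

/-!
# QA module ModDefs: modules and the probabilities q_j

Slab direction: the coordinate `0`. Axis vector `u`. A module is a rich family of open self-avoiding paths from
`α u` to `β u` inside the slab between the two hyperplanes, with surplus at least `c β` at rate `b`.
-/

open MeasureTheory Filter Topology
open Pool.Agent.H17.IIC Pool.Agent.H41.QC Pool.Agent.H47.GM

namespace Pool.Agent.H17.QA

variable {n : ℕ}

/-- the part of the slab used by a module -/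
def slab (C₁ : ℝ) (u : V (n + 2)) (α β : ℕ) : Set (V (n + 2)) :=
  {x | (α : ℤ) * u 0 ≤ x 0 ∧ x 0 ≤ (β : ℤ) * u 0 ∧ ∀ i, (|x i| : ℝ) ≤ C₁ * β}

/-- the module event -/
def Mod (κ : Kind) (b c C₁ : ℝ) (u : V (n + 2)) (α β : ℕ) : Set (El (n + 2) → Bool) :=
  {ω | ∃ N : ℕ, Real.exp (b * N + c * β) ≤ Zc κ ω (slab C₁ u α β) ((α : ℤ) • u) ((β : ℤ) • u) N}

/-- hypotheses on the scales of a sequence of modules -/
structure ModSeq (c₀ c : ℝ) (u : V (n + 2)) (α β : ℕ → ℕ) : Prop where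
  pos : ∀ k, 1 ≤ α k ∧ α k < β k
  small : ∀ k, (α k : ℝ) * u 0 ≤ c₀ * c * β k
  sparse : ∀ k, 4 * β k ≤ α (k + 1)

/-- probability that some start in the box of side `2^j` has at least `e^(a 2^j)` open paths of
length `2^j` -/
noncomputable def qj (κ : Kind) {d : ℕ} (p : unitInterval) (a : ℝ) (j : ℕ) : ℝ :=
  (prodBern (El d) p).real {ω | ∃ x ∈ box (0 : V d) (2 ^ j), Real.exp (a * 2 ^ j) ≤ Pn κ ω (2 ^ j) x}

end Pool.Agent.H17.QA
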