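import Pool.Agent.H17.QA.Closed
import Pool.Agent.H17.QA.LemEDir
import Pool.Agent.H17.QA.ModDefs

/-!
# QA module Ctrl: events controlled by modules

`ctrl_ns`: pigeonhole over the finitely many classes `q` and the residues of `j` modulo `s`: if
`P (E j)` is not summable then for some `q` and `r` the series over `j = j₁ + s k` (`j₁ ≥ j₀`, `j₁ ≡ r`) of the
module probabilities is not summable.
-/

open MeasureTheory Filter Topology
open Pool.Agent.H17.IIC Pool.Agent.H41.QC Pool.Agent.H47.GM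

namespace Pool.Agent.H17.QA

variable {n : ℕ}

/-- the events `E j` are controlled by finitely many sequences of modules -/
def Ctrl {κ : Kind} {p : unitInterval} (RS : RoadSys κ (n + 2) p) (b c₀ : ℝ) (U₀ Λ : ℕ)
    (E : ℕ → Set (El (n + 2) → Bool)) : Prop :=
  ∃ (Q : ℕ) (u : Fin Q → V (n + 2)) (c C₁ KS : ℝ) (α β : Fin Q → ℕ → ℕ) (j₀ s : ℕ),
    0 < c ∧ 1 ≤ s ∧
    (∀ q, (U₀ : ℤ) ≤ u q 0 ∧ (∀ i, |u q i| ≤ Λ * u q 0) ∧ ∀ i, (RS.L : ℤ) ∣ u q i) ∧
    (∀ q j, j₀ ≤ j → 1 ≤ α q j ∧ α q j < β q j ∧ (α q j : ℝ) * u q 0 ≤ c₀ * c * β q j ∧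
      4 * β q j ≤ α q (j + s)) ∧
    ∀ j, j₀ ≤ j → (prodBern (El (n + 2)) p).real (E j) ≤
      KS * ∑ q, (prodBern (El (n + 2)) p).real (Mod κ b c C₁ (u q) (α q j) (β q j))

theorem Ctrl_residues (s : ℕ) (hs : 1 ≤ s) (f : ℕ → ℝ)
    (h : ∀ r < s, Summable fun k => f (r + s * k)) : Summable f := by
  have h1 : ∀ r ∈ Finset.range s, Summable fun j => if j % s = r then f j else 0 := by
    intro r hr
    have hr' := Finset.mem_range.mp hr
    have hinj : Function.Injective fun k : ℕ => r + s * k := by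
      intro a b hab
      have : s * a = s * b := by simpa using hab
      exact Nat.eq_of_mul_eq_mul_left (by omega) this
    rw [← hinj.summable_iff]
    · refine (h r hr').congr fun k => ?_
      simp [Nat.mod_eq_of_lt hr']
    · intro j hj
      rw [if_neg]
      intro hjr
      apply hj
      exact ⟨j / s, by rw [← hjr]; exact Nat.mod_add_div j s⟩
  refine (summable_sum h1).congr fun j => ?_
  rw [Finset.sum_ite_eq, if_pos (Finset.mem_range.mpr (Nat.mod_lt _ (by omega)))]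

theorem ctrl_ns {κ : Kind} {p : unitInterval} (RS : RoadSys κ (n + 2) p) (b c₀ : ℝ) (U₀ Λ : ℕ)
    (E : ℕ → Set (El (n + 2) → Bool)) (h : Ctrl RS b c₀ U₀ Λ E)
    (hns : ¬ Summable fun j => (prodBern (El (n + 2)) p).real (E j)) :
    ∃ (u : V (n + 2)) (c C₁ : ℝ) (α β : ℕ → ℕ), (U₀ : ℤ) ≤ u 0 ∧ (∀ i, |u i| ≤ Λ * u 0) ∧
      (∀ i, (RS.L : ℤ) ∣ u i) ∧ 0 < c ∧ ModSeq c₀ c u α β ∧
      ¬ Summable fun k => (prodBern (El (n + 2)) p).real (Mod κ b c C₁ u (α k) (β k)) := by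
  classical
  obtain ⟨Q, u, c, C₁, KS, α, β, j₀, s, hc, hs, hu, hαβ, hE⟩ := h
  by_contra hcon
  apply hns
  have key : ∀ q, Summable fun j => (prodBern (El (n + 2)) p).real
      (Mod κ b c C₁ (u q) (α q (j + j₀)) (β q (j + j₀))) := by
    intro q
    refine Ctrl_residues s hs _ fun r hr => ?_
    by_contra hr2
    apply hcon
    refine ⟨u q, c, C₁, fun k => α q (r + s * k + j₀), fun k => β q (r + s * k + j₀), (hu q).1,
      (hu q).2.1, (hu q).2.2, hc, ⟨fun k => ?_, fun k => ?_, fun k => ?_⟩, hr2⟩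
    · have := hαβ q (r + s * k + j₀) (by omega)
      exact ⟨this.1, this.2.1⟩
    · exact (hαβ q (r + s * k + j₀) (by omega)).2.2.1
    · have := (hαβ q (r + s * k + j₀) (by omega)).2.2.2
      have e : r + s * (k + 1) + j₀ = r + s * k + j₀ + s := by ring
      rw [e]
      exact this
  rw [← summable_nat_add_iff j₀]
  refine Summable.of_nonneg_of_le (fun _ => measureReal_nonneg) (fun j => ?_)
    ((summable_sum (s := Finset.univ) fun q _ => key q).mul_left |KS|)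
  refine (hE (j + j₀) (by omega)).trans ?_
  exact mul_le_mul_of_nonneg_right (le_abs_self KS)
    (Finset.sum_nonneg fun q _ => measureReal_nonneg)

/-- some dyadic cube inside the cube of side `2^(m-h)` is rich at scale `2^m` -/
def RichE (κ : Kind) {d : ℕ} (b Cp : ℝ) (h m : ℕ) : Set (El d → Bool) :=
  {ω | ∃ i ≤ m - h, ∃ a : V d, cube i a ⊆ cube (m - h) 0 ∧ (2 : ℝ) ^ m ≤ MQ κ b Cp i a ω}

/-- a rich bridge of span `2^j` starts in the box of side `K 2^j` -/
def BR (κ : Kind) {d : ℕ} (b' : ℝ) (Λ K : ℕ) (j : ℕ) : Set (El d → Bool) :=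
  {ω | ∃ (F : Finset (List (V d))) (x y : V d) (N : ℕ) (m : Fin d), F.Nonempty ∧
    x ∈ box (0 : V d) (K * 2 ^ j) ∧ IsFam κ ω F x y N ∧ (∀ l ∈ F, Btw m x y l) ∧ |y m - x m| = 2 ^ j ∧ N ≤ Λ * 2 ^ j ∧
    b' * N ≤ Real.log F.card}

end Pool.Agent.H17.QA
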