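import Pool.Agent.H47.GM.Aut

/-!
# QA: definitions (MP_a352f3_pr, limit for every supercritical parameter)

Paths are lists of vertices. `InE A`: elements inside `A`. `OP`: open self-avoiding path.
`Rw`: open connection inside a region with a bound on the number of steps.
`RoadSys`: the percolation input of the whole proof.
-/

open MeasureTheory Filter Topology
open Pool.Agent.H17.IIC Pool.Agent.H41.QC Pool.Agent.H47.GM

namespace Pool.Agent.H17.QA

variable {d : ℕ}

/-- elements all of whose vertices lie in `A` -/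
def InE (A : Set (V d)) : Set (El d) := {e | ∀ v ∈ e, v ∈ A}

/-- openness of a list of consecutively adjacent vertices -/
def Opn (κ : Kind) (ω : El d → Bool) (l : List (V d)) : Prop :=
  match κ with
  | .bond => l.IsChain (fun a b => ω s(a, b) = true)
  | .site => ∀ a ∈ l, ω s(a, a) = true

/-- open self-avoiding path, as a list of vertices -/
structure OP (κ : Kind) (ω : El d → Bool) (l : List (V d)) : Prop where
  nodup : l.Nodup
  chain : l.IsChain LatAdj
  opn : Opn κ ω l

/-- the step from `x` to `y` is allowed (the vertices themselves are not tested) -/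
def Lnk (κ : Kind) (ω : El d → Bool) (x y : V d) : Prop :=
  LatAdj x y ∧ (κ = .bond → ω s(x, y) = true)

/-- open self-avoiding path from `x` to `y` inside `U` with at most `N` steps -/
def Rw (κ : Kind) (ω : El d → Bool) (U : Set (V d)) (x y : V d) (N : ℕ) : Prop :=
  ∃ l : List (V d), OP κ ω l ∧ l.head? = some x ∧ l.getLast? = some y ∧ (∀ v ∈ l, v ∈ U) ∧
    l.length ≤ N + 1

/-- open self-avoiding paths with `N` steps from `x` to `y` inside `A` -/
def Fam (κ : Kind) (ω : El d → Bool) (A : Set (V d)) (x y : V d) (N : ℕ) : Set (List (V d)) :=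
  {l | OP κ ω l ∧ l.length = N + 1 ∧ l.head? = some x ∧ l.getLast? = some y ∧ ∀ v ∈ l, v ∈ A}

/-- their number -/
noncomputable def Zc (κ : Kind) (ω : El d → Bool) (A : Set (V d)) (x y : V d) (N : ℕ) : ℕ :=
  (Fam κ ω A x y N).ncard

/-- ROAD SYSTEM. `reg z r`: local regularity at scale `r`, `hub z r`: a vertex near `z` in the
local giant cluster at scale `r`, `lam z r`: local cost, `dom z`: integrable bound of all costs
at `z`. Roads: a list of pairs (vertex, radius) with adjacent or equal vertices and radii varying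
at most by the factor two from one pair to the next. -/
structure RoadSys (κ : Kind) (d : ℕ) (p : unitInterval) where
  L : ℕ
  hL : 1 ≤ L
  C : ℝ
  c : ℝ
  hC : 0 < C
  hc : 0 < c
  reg : V d → ℕ → Set (El d → Bool)
  hub : V d → ℕ → (El d → Bool) → V d
  lam : V d → ℕ → (El d → Bool) → ℕ
  dom : V d → (El d → Bool) → ENNReal
  reg_on : ∀ z r, On (InE (Bx z r : Set (V d))) (reg z r)
  hub_on : ∀ z r ω ω', ω ∈ reg z r → (∀ e ∈ InE (Bx z r : Set (V d)), ω e = ω' e) →
    hub z r ω = hub z r ω'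
  lam_on : ∀ z r ω ω', ω ∈ reg z r → (∀ e ∈ InE (Bx z r : Set (V d)), ω e = ω' e) →
    lam z r ω = lam z r ω'
  hub_mem : ∀ z r ω, ω ∈ reg z r → hub z r ω ∈ Bx z r
  prob : ∀ z r, (prodBern (El d) p).real (reg z r)ᶜ ≤ C * Real.exp (-c * r)
  dom_meas : ∀ z, Measurable (dom z)
  dom_int : ∀ z, ∫⁻ ω, dom z ω ∂(prodBern (El d) p) ≤ ENNReal.ofReal C
  lam_le : ∀ z r ω, ω ∈ reg z r → (lam z r ω : ENNReal) ≤ dom z ω
  path : ∀ (ω : El d → Bool) (w : List (V d × ℕ)),
    w.IsChain (fun a b => (a.1 = b.1 ∨ LatAdj a.1 b.1) ∧ a.2 ≤ 2 * b.2 ∧ b.2 ≤ 2 * a.2) →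
    (∀ a ∈ w, 1 ≤ a.2 ∧ ω ∈ reg a.1 a.2) →
    ∀ a b, w.head? = some a → w.getLast? = some b →
    Rw κ ω {v | ∃ q ∈ w, v ∈ Bx q.1 q.2} (hub a.1 a.2 ω) (hub b.1 b.2 ω)
      (w.map fun q => lam q.1 q.2 ω).sum
  shift_reg : ∀ (v z : V d) (r : ℕ) (ω : El d → Bool),
    ω ∈ reg (z + (L : ℤ) • v) r ↔ tr (fun y => y + (L : ℤ) • v) ω ∈ reg z r
  shift_hub : ∀ (v z : V d) (r : ℕ) (ω : El d → Bool),
    hub (z + (L : ℤ) • v) r ω = hub z r (tr (fun y => y + (L : ℤ) • v) ω) + (L : ℤ) • v
  shift_lam : ∀ (v z : V d) (r : ℕ) (ω : El d → Bool),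
    lam (z + (L : ℤ) • v) r ω = lam z r (tr (fun y => y + (L : ℤ) • v) ω)
  shift_dom : ∀ (v z : V d) (ω : El d → Bool),
    dom (z + (L : ℤ) • v) ω = dom z (tr (fun y => y + (L : ℤ) • v) ω)

end Pool.Agent.H17.QA
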