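import Pool.Agent.H47.GM.Mu

/-!
# QA module Desig: choosing at most two ends per base cell

PROOF. If `m₀ = 0` there are no points, `k = 0` (or `J` empty). For `D : Fin nC → (pairs of elements of B c)`
(if `B c` is empty it contains no point) let `J_D` be the set of the `j ∈ J` such that both points of `j` are
designated, i.e. `pt j s ∈ {(D c).1, (D c).2}`, `c = cell (pt j s)`. The points are distinct, so each cell
contains at most two points of strands of `J_D`. Average over all `D` (a finite product): the proportion of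
the `D` with `j ∈ J_D` is at least `1/m₀^2` (same cell: `D c = (pt j false, pt j true)`, proportion `1/|B c|^2`;
different cells: two independent coordinates, each with proportion at least `1/|B c|`). So some `D` has
`∑ v over J_D ≥ m₀^(-2) ∑ v over J`.
-/

open MeasureTheory Filter Topology
open Pool.Agent.H17.IIC Pool.Agent.H41.QC Pool.Agent.H47.GM

namespace Pool.Agent.H17.QA

open Classical in
/-- The indicator that the point `p` is one of the two components of `x`. -/
noncomputable def desInd {α : Type*} (p : α) (x : α × α) : ℕ := if p = x.1 ∨ p = x.2 then 1 else 0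

open Classical in
theorem desig_count {nC m₀ : ℕ} {α : Type*} (a₀ p q : α) (hpq : p ≠ q) (cp cq : Fin nC)
    (B : Fin nC → Finset α) (hB : ∀ c, (B c).card ≤ m₀) (hp : p ∈ B cp) (hq : q ∈ B cq) :
    (∏ c, ((if (B c).Nonempty then B c ×ˢ B c else {(a₀, a₀)} : Finset (α × α))).card)
      ≤ m₀ * m₀ * ∑ D ∈ Fintype.piFinset (fun c => (if (B c).Nonempty then B c ×ˢ B c
        else {(a₀, a₀)} : Finset (α × α))), desInd p (D cp) * desInd q (D cq) := by
  set P : Fin nC → Finset (α × α) := fun c => if (B c).Nonempty then B c ×ˢ B c else {(a₀, a₀)}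
    with hP
  set f : Fin nC → α × α → ℕ := fun c x => (if c = cp then desInd p x else 1) *
    (if c = cq then desInd q x else 1) with hf
  set w : Fin nC → ℕ := fun c => (if c = cp then m₀ else 1) * (if c = cq then m₀ else 1) with hw
  have h1 : ∀ D : Fin nC → α × α, desInd p (D cp) * desInd q (D cq) = ∏ c, f c (D c) := by
    intro D
    simp only [hf, Finset.prod_mul_distrib]
    rw [Finset.prod_ite_eq' Finset.univ cp (fun c => desInd p (D c)),
      Finset.prod_ite_eq' Finset.univ cq (fun c => desInd q (D c))]
    simp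
  have h2 : ∑ D ∈ Fintype.piFinset P, desInd p (D cp) * desInd q (D cq)
      = ∏ c, ∑ x ∈ P c, f c x := by
    rw [Finset.prod_univ_sum]
    exact Finset.sum_congr rfl fun D _ => h1 D
  have h3 : ∏ c, w c = m₀ * m₀ := by
    simp only [hw, Finset.prod_mul_distrib]
    rw [Finset.prod_ite_eq' Finset.univ cp (fun _ => m₀),
      Finset.prod_ite_eq' Finset.univ cq (fun _ => m₀)]
    simp
  rw [h2, ← h3, ← Finset.prod_mul_distrib]
  refine Finset.prod_le_prod' ?_
  intro c _
  have hone : ∀ (b : α) (x : α × α), b = x.1 → desInd b x = 1 := by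
    intro b x h; unfold desInd; rw [if_pos (Or.inl h)]
  have htwo : ∀ (b : α) (x : α × α), b = x.2 → desInd b x = 1 := by
    intro b x h; unfold desInd; rw [if_pos (Or.inr h)]
  -- number of pairs with given first component
  have hrow : ∀ b : α, b ∈ B c → (B c).card ≤ ∑ x ∈ P c, desInd b x := by
    intro b hb
    have hne : (B c).Nonempty := ⟨b, hb⟩
    have hPc : P c = B c ×ˢ B c := by simp only [hP]; rw [if_pos hne]
    rw [hPc, Finset.sum_product]
    calc (B c).card = ∑ y ∈ B c, 1 := by simp
      _ = ∑ y ∈ B c, desInd b (b, y) := by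
          refine Finset.sum_congr rfl fun y _ => ?_
          rw [hone b (b, y) rfl]
      _ ≤ ∑ x ∈ B c, ∑ y ∈ B c, desInd b (x, y) :=
          Finset.single_le_sum (f := fun x => ∑ y ∈ B c, desInd b (x, y))
            (fun _ _ => Nat.zero_le _) hb
  have hcardP : ∀ b : α, b ∈ B c → (P c).card = (B c).card * (B c).card := by
    intro b hb
    have hne : (B c).Nonempty := ⟨b, hb⟩
    have hPc : P c = B c ×ˢ B c := by simp only [hP]; rw [if_pos hne]
    rw [hPc, Finset.card_product]
  by_cases hcp : c = cp
  · by_cases hcq : c = cq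
    · -- both
      have hpB : p ∈ B c := hcp ▸ hp
      have hqB : q ∈ B c := hcq ▸ hq
      have hmem : (p, q) ∈ P c := by
        have hne : (B c).Nonempty := ⟨p, hpB⟩
        have hPc : P c = B c ×ˢ B c := by simp only [hP]; rw [if_pos hne]
        rw [hPc]; exact Finset.mem_product.2 ⟨hpB, hqB⟩
      have hw' : w c = m₀ * m₀ := by simp only [hw]; rw [if_pos hcp, if_pos hcq]
      have hge : 1 ≤ ∑ x ∈ P c, f c x := by
        have := Finset.single_le_sum (f := fun x => f c x) (fun _ _ => Nat.zero_le _) hmem
        have h4 : f c (p, q) = 1 := by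
          simp only [hf]; rw [if_pos hcp, if_pos hcq, hone p (p, q) rfl, htwo q (p, q) rfl]
        simp only [h4] at this
        exact this
      rw [hcardP p hpB, hw']
      calc (B c).card * (B c).card ≤ m₀ * m₀ := Nat.mul_le_mul (hB c) (hB c)
        _ = m₀ * m₀ * 1 := by ring
        _ ≤ m₀ * m₀ * ∑ x ∈ P c, f c x := Nat.mul_le_mul le_rfl hge
    · have hpB : p ∈ B c := hcp ▸ hp
      have hw' : w c = m₀ := by simp only [hw]; rw [if_pos hcp, if_neg hcq, mul_one]
      have hfc : ∀ x, f c x = desInd p x := by
        intro x; simp only [hf]; rw [if_pos hcp, if_neg hcq, mul_one]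
      rw [hcardP p hpB, hw']
      simp only [hfc]
      exact Nat.mul_le_mul (hB c) (hrow p hpB)
  · by_cases hcq : c = cq
    · have hqB : q ∈ B c := hcq ▸ hq
      have hw' : w c = m₀ := by simp only [hw]; rw [if_neg hcp, if_pos hcq, one_mul]
      have hfc : ∀ x, f c x = desInd q x := by
        intro x; simp only [hf]; rw [if_neg hcp, if_pos hcq, one_mul]
      rw [hcardP q hqB, hw']
      simp only [hfc]
      exact Nat.mul_le_mul (hB c) (hrow q hqB)
    · have hw' : w c = 1 := by simp only [hw]; rw [if_neg hcp, if_neg hcq, one_mul]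
      have hfc : ∀ x, f c x = 1 := by
        intro x; simp only [hf]; rw [if_neg hcp, if_neg hcq, one_mul]
      rw [hw', one_mul]
      simp only [hfc]
      rw [Finset.sum_const, smul_eq_mul, mul_one]

open Classical in
theorem designate {k nC m₀ : ℕ} {α : Type*} (pt : Fin k → Bool → α)
    (hinj : Function.Injective fun js : Fin k × Bool => pt js.1 js.2) (cell : α → Fin nC)
    (B : Fin nC → Finset α) (hB : ∀ c, (B c).card ≤ m₀) (hpt : ∀ j s, pt j s ∈ B (cell (pt j s)))
    (J : Finset (Fin k)) (v : Fin k → ℝ) (hv : ∀ j ∈ J, 0 ≤ v j) :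
    ∃ J' ⊆ J, (∀ c, ((J' ×ˢ (Finset.univ : Finset Bool)).filter fun js =>
      cell (pt js.1 js.2) = c).card ≤ 2) ∧ ∑ j ∈ J, v j ≤ (m₀ : ℝ) ^ 2 * ∑ j ∈ J', v j := by
  rcases J.eq_empty_or_nonempty with hJ | ⟨j₀, hj₀⟩
  · subst hJ
    exact ⟨∅, Finset.empty_subset _, by simp, by simp⟩
  set a₀ : α := pt j₀ true with ha₀
  set P : Fin nC → Finset (α × α) := fun c => if (B c).Nonempty then B c ×ˢ B c else {(a₀, a₀)}
    with hP
  set J' : (Fin nC → α × α) → Finset (Fin k) := fun D => J.filter fun j =>
    ∀ s, pt j s = (D (cell (pt j s))).1 ∨ pt j s = (D (cell (pt j s))).2 with hJ'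
  -- the small number of points per cell
  have hcell : ∀ D c, (((J' D) ×ˢ (Finset.univ : Finset Bool)).filter fun js =>
      cell (pt js.1 js.2) = c).card ≤ 2 := by
    intro D c
    have h1 : (((J' D) ×ˢ (Finset.univ : Finset Bool)).filter fun js =>
      cell (pt js.1 js.2) = c).card ≤ ({(D c).1, (D c).2} : Finset α).card := by
      refine Finset.card_le_card_of_injOn (fun js => pt js.1 js.2) ?_ (fun a _ b _ h => hinj h)
      intro js hjs
      have hjs' := Finset.mem_filter.1 hjs
      have h2 := (Finset.mem_filter.1 (Finset.mem_product.1 hjs'.1).1).2 js.2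
      rw [hjs'.2] at h2
      simp only [Finset.coe_insert, Finset.coe_singleton, Set.mem_insert_iff,
        Set.mem_singleton_iff]
      exact h2
    exact h1.trans Finset.card_le_two
  -- the indicator
  have hind : ∀ D, ∑ j ∈ J' D, v j = ∑ j ∈ J, v j *
      ((desInd (pt j false) (D (cell (pt j false))) *
        desInd (pt j true) (D (cell (pt j true))) : ℕ) : ℝ) := by
    intro D
    simp only [hJ']
    rw [Finset.sum_filter]
    refine Finset.sum_congr rfl fun j _ => ?_
    unfold desInd
    by_cases h : ∀ s, pt j s = (D (cell (pt j s))).1 ∨ pt j s = (D (cell (pt j s))).2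
    · rw [if_pos h, if_pos (h false), if_pos (h true)]
      simp
    · rw [if_neg h]
      have : ¬ (pt j false = (D (cell (pt j false))).1 ∨ pt j false = (D (cell (pt j false))).2) ∨
          ¬ (pt j true = (D (cell (pt j true))).1 ∨ pt j true = (D (cell (pt j true))).2) := by
        by_contra hcon
        push Not at hcon
        exact h fun s => by cases s; exacts [hcon.1, hcon.2]
      rcases this with h1 | h1
      · rw [if_neg h1]; simp
      · rw [if_neg h1]; simp
  -- averaging
  have hne : (Fintype.piFinset P).Nonempty := by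
    rw [Fintype.piFinset_nonempty]
    intro c
    simp only [hP]
    split_ifs with h
    · exact h.product h
    · exact Finset.singleton_nonempty _
  have hcard : ∀ j, ((Fintype.piFinset P).card : ℝ) ≤ (m₀ : ℝ) ^ 2 *
      ∑ D ∈ Fintype.piFinset P, ((desInd (pt j false) (D (cell (pt j false))) *
        desInd (pt j true) (D (cell (pt j true))) : ℕ) : ℝ) := by
    intro j
    have hpq : pt j false ≠ pt j true := by
      intro h
      have := hinj (a₁ := (j, false)) (a₂ := (j, true)) h
      simp at this
    have := desig_count a₀ (pt j false) (pt j true) hpq (cell (pt j false)) (cell (pt j true)) B hB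
      (hpt j false) (hpt j true)
    rw [Fintype.card_piFinset, pow_two]
    exact_mod_cast this
  have hsum : ((Fintype.piFinset P).card : ℝ) * ∑ j ∈ J, v j ≤
      ∑ D ∈ Fintype.piFinset P, (m₀ : ℝ) ^ 2 * ∑ j ∈ J' D, v j := by
    rw [← Finset.mul_sum]
    simp only [hind]
    rw [Finset.sum_comm, Finset.mul_sum, Finset.mul_sum]
    refine Finset.sum_le_sum fun j hj => ?_
    rw [← Finset.mul_sum]
    have := mul_le_mul_of_nonneg_left (hcard j) (hv j hj)
    nlinarith [this]
  have hex : ∃ D ∈ Fintype.piFinset P, ∑ j ∈ J, v j ≤ (m₀ : ℝ) ^ 2 * ∑ j ∈ J' D, v j := by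
    by_contra hcon
    push Not at hcon
    have := Finset.sum_lt_sum_of_nonempty hne hcon
    rw [Finset.sum_const, nsmul_eq_mul] at this
    linarith
  obtain ⟨D, _, hD⟩ := hex
  exact ⟨J' D, Finset.filter_subset _ _, hcell D, hD⟩

end Pool.Agent.H17.QA
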