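import Pool.Agent.H47.GM.Defs

/-!
# QA module Ent: entropy weights (chain rule + conditioning reduces entropy)

`F` a finite nonempty set of tuples, `W` uniform on `F`, `H(S)` the entropy of the projection of `W` on `S`.
Put `h j = H({i ≤ j}) - H({i < j})`. Then `h j ≥ 0`, `∑ h j = log |F|`; for `S = {j₁ < … < j_r}`,
`H(S) = ∑ (H(S ∩ {≤ j_i}) - H(S ∩ {< j_i})) ≥ ∑ (H({≤ j_i}) - H({< j_i})) = ∑_(j ∈ S) h j` by submodularity of `H`
(log sum inequality), and `H(S) ≤ log |proj_S F|`.
-/

open MeasureTheory Filter Topology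
open Pool.Agent.H17.IIC Pool.Agent.H41.QC Pool.Agent.H47.GM

namespace Pool.Agent.H17.QA

open Classical in
/-- number of elements of `F` which agree with `w` on `S` -/
noncomputable def Ent_n {k : ℕ} {α : Type*} (F : Finset (Fin k → α)) (S : Finset (Fin k))
    (w : Fin k → α) : ℝ :=
  ((F.filter fun w' => ∀ i ∈ S, w' i = w i).card : ℝ)

/-- sum of the logarithms -/
noncomputable def Ent_L {k : ℕ} {α : Type*} (F : Finset (Fin k → α)) (S : Finset (Fin k)) : ℝ :=
  ∑ w ∈ F, Real.log (Ent_n F S w)

lemma Ent_n_pos {k : ℕ} {α : Type*} {F : Finset (Fin k → α)} (S : Finset (Fin k))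
    {w : Fin k → α} (hw : w ∈ F) : 0 < Ent_n F S w := by
  classical
  unfold Ent_n
  have : 0 < (F.filter fun w' => ∀ i ∈ S, w' i = w i).card :=
    Finset.card_pos.2 ⟨w, by simp [hw]⟩
  exact_mod_cast this

lemma Ent_n_anti {k : ℕ} {α : Type*} (F : Finset (Fin k → α)) {S S' : Finset (Fin k)}
    (h : S ⊆ S') (w : Fin k → α) : Ent_n F S' w ≤ Ent_n F S w := by
  classical
  unfold Ent_n
  have : (F.filter fun w' => ∀ i ∈ S', w' i = w i).card ≤
      (F.filter fun w' => ∀ i ∈ S, w' i = w i).card := by
    apply Finset.card_le_card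
    intro w' hw'
    rw [Finset.mem_filter] at hw' ⊢
    exact ⟨hw'.1, fun i hi => hw'.2 i (h hi)⟩
  exact_mod_cast this

lemma Ent_n_congr {k : ℕ} {α : Type*} (F : Finset (Fin k → α)) (S : Finset (Fin k))
    {w v : Fin k → α} (h : ∀ i ∈ S, w i = v i) : Ent_n F S w = Ent_n F S v := by
  classical
  unfold Ent_n
  have : (F.filter fun w' => ∀ i ∈ S, w' i = w i) = F.filter fun w' => ∀ i ∈ S, w' i = v i := by
    apply Finset.filter_congr
    intro w' _
    constructor
    · intro h' i hi; rw [h' i hi, h i hi]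
    · intro h' i hi; rw [h' i hi, h i hi]
  rw [this]

/-- the count as a sum of indicators -/
lemma Ent_n_sum {k : ℕ} {α : Type*} (F : Finset (Fin k → α)) (S : Finset (Fin k))
    (w : Fin k → α) : 
    by classical exact Ent_n F S w = ∑ v ∈ F, if (∀ i ∈ S, v i = w i) then (1 : ℝ) else 0 := by
  classical
  show Ent_n F S w = ∑ v ∈ F, if (∀ i ∈ S, v i = w i) then (1 : ℝ) else 0
  unfold Ent_n
  rw [Finset.sum_boole]

/-- the submodularity inequality before taking logarithms -/
lemma Ent_key {k : ℕ} {α : Type*} (F : Finset (Fin k → α)) {A B : Finset (Fin k)} (hAB : A ⊆ B)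
    (j : Fin k) :
    ∑ w ∈ F, Ent_n F (insert j A) w * Ent_n F B w / (Ent_n F A w * Ent_n F (insert j B) w) ≤
      F.card := by
  classical
  -- inner bound
  have inner : ∀ v ∈ F, ∀ u ∈ F,
      ∑ w ∈ F, (if (∀ i ∈ B, w i = v i) ∧ w j = u j then (Ent_n F (insert j B) w)⁻¹ else 0) ≤
        (1 : ℝ) := by
    intro v _ u _
    by_cases hne : ∃ w0 ∈ F, (∀ i ∈ B, w0 i = v i) ∧ w0 j = u j
    · obtain ⟨w0, hw0, h1, h2⟩ := hne
      have e1 : ∀ w ∈ F, (if (∀ i ∈ B, w i = v i) ∧ w j = u j
          then (Ent_n F (insert j B) w)⁻¹ else 0) =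
          (if (∀ i ∈ insert j B, w i = w0 i) then (1 : ℝ) else 0) * (Ent_n F (insert j B) w0)⁻¹ := by
        intro w hw
        by_cases hc : (∀ i ∈ B, w i = v i) ∧ w j = u j
        · have hc' : ∀ i ∈ insert j B, w i = w0 i := by
            intro i hi
            rcases Finset.mem_insert.1 hi with rfl | hi
            · rw [hc.2, h2]
            · rw [hc.1 i hi, h1 i hi]
          rw [if_pos hc, if_pos hc', one_mul, Ent_n_congr F (insert j B) hc']
        · have hc' : ¬ ∀ i ∈ insert j B, w i = w0 i := by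
            intro h
            apply hc
            refine ⟨fun i hi => ?_, ?_⟩
            · rw [h i (Finset.mem_insert_of_mem hi), h1 i hi]
            · rw [h j (Finset.mem_insert_self _ _), h2]
          rw [if_neg hc, if_neg hc', zero_mul]
      rw [Finset.sum_congr rfl e1, ← Finset.sum_mul]
      have e2 := Ent_n_sum F (insert j B) w0
      rw [← e2]
      exact (mul_inv_cancel₀ (Ent_n_pos _ hw0).ne').le
    · have : ∀ w ∈ F, (if (∀ i ∈ B, w i = v i) ∧ w j = u j
          then (Ent_n F (insert j B) w)⁻¹ else (0 : ℝ)) = 0 := by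
        intro w hw
        rw [if_neg]
        intro h
        exact hne ⟨w, hw, h⟩
      rw [Finset.sum_eq_zero this]
      exact zero_le_one
  -- expand
  have step1 : ∑ w ∈ F, Ent_n F (insert j A) w * Ent_n F B w /
      (Ent_n F A w * Ent_n F (insert j B) w) =
      ∑ w ∈ F, ∑ v ∈ F, ∑ u ∈ F, (if (∀ i ∈ B, v i = w i) then (1 : ℝ) else 0) *
        (if (∀ i ∈ insert j A, u i = w i) then (1 : ℝ) else 0) *
        ((Ent_n F A w)⁻¹ * (Ent_n F (insert j B) w)⁻¹) := by
    refine Finset.sum_congr rfl fun w _ => ?_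
    have e1 := Ent_n_sum F (insert j A) w
    have e2 := Ent_n_sum F B w
    have : ∀ v ∈ F, ∑ u ∈ F, (if (∀ i ∈ B, v i = w i) then (1 : ℝ) else 0) *
        (if (∀ i ∈ insert j A, u i = w i) then (1 : ℝ) else 0) *
        ((Ent_n F A w)⁻¹ * (Ent_n F (insert j B) w)⁻¹) =
        (if (∀ i ∈ B, v i = w i) then (1 : ℝ) else 0) * (Ent_n F (insert j A) w *
        ((Ent_n F A w)⁻¹ * (Ent_n F (insert j B) w)⁻¹)) := by
      intro v _
      rw [← Finset.sum_mul, ← Finset.mul_sum, ← e1]
      ring
    rw [Finset.sum_congr rfl this, ← Finset.sum_mul, ← e2, div_eq_mul_inv, mul_inv]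
    ring
  rw [step1]
  -- swap to sum over v, u, w
  have step2 : ∑ w ∈ F, ∑ v ∈ F, ∑ u ∈ F, (if (∀ i ∈ B, v i = w i) then (1 : ℝ) else 0) *
        (if (∀ i ∈ insert j A, u i = w i) then (1 : ℝ) else 0) *
        ((Ent_n F A w)⁻¹ * (Ent_n F (insert j B) w)⁻¹) =
      ∑ v ∈ F, ∑ u ∈ F, ∑ w ∈ F, (if (∀ i ∈ B, v i = w i) then (1 : ℝ) else 0) *
        (if (∀ i ∈ insert j A, u i = w i) then (1 : ℝ) else 0) *
        ((Ent_n F A w)⁻¹ * (Ent_n F (insert j B) w)⁻¹) := by
    rw [Finset.sum_comm]
    refine Finset.sum_congr rfl fun v _ => ?_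
    rw [Finset.sum_comm]
  rw [step2]
  -- bound
  have step3 : ∀ v ∈ F, ∑ u ∈ F, ∑ w ∈ F, (if (∀ i ∈ B, v i = w i) then (1 : ℝ) else 0) *
        (if (∀ i ∈ insert j A, u i = w i) then (1 : ℝ) else 0) *
        ((Ent_n F A w)⁻¹ * (Ent_n F (insert j B) w)⁻¹) ≤ 1 := by
    intro v hv
    have hpos := Ent_n_pos A hv
    have h1 : ∀ u ∈ F, ∑ w ∈ F, (if (∀ i ∈ B, v i = w i) then (1 : ℝ) else 0) *
        (if (∀ i ∈ insert j A, u i = w i) then (1 : ℝ) else 0) *
        ((Ent_n F A w)⁻¹ * (Ent_n F (insert j B) w)⁻¹) ≤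
        (if (∀ i ∈ A, u i = v i) then (1 : ℝ) else 0) * (Ent_n F A v)⁻¹ := by
      intro u hu
      by_cases hc : ∀ i ∈ A, u i = v i
      · rw [if_pos hc, one_mul]
        calc _ ≤ ∑ w ∈ F, (Ent_n F A v)⁻¹ * (if (∀ i ∈ B, w i = v i) ∧ w j = u j
              then (Ent_n F (insert j B) w)⁻¹ else 0) := by
              refine Finset.sum_le_sum fun w hw => ?_
              by_cases h2 : ∀ i ∈ B, v i = w i
              · by_cases h3 : ∀ i ∈ insert j A, u i = w i
                · have h4 : (∀ i ∈ B, w i = v i) ∧ w j = u j :=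
                    ⟨fun i hi => (h2 i hi).symm, (h3 j (Finset.mem_insert_self _ _)).symm⟩
                  have h5 : Ent_n F A w = Ent_n F A v :=
                    Ent_n_congr F A fun i hi => (h2 i (hAB hi)).symm
                  rw [if_pos h2, if_pos h3, if_pos h4, h5]
                  simp
                · rw [if_neg h3]
                  have : 0 ≤ (if (∀ i ∈ B, w i = v i) ∧ w j = u j
                    then (Ent_n F (insert j B) w)⁻¹ else 0) := by
                    split_ifs
                    · exact (inv_pos.2 (Ent_n_pos _ hw)).le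
                    · exact le_rfl
                  simp only [mul_zero, zero_mul]
                  positivity
              · rw [if_neg h2]
                have : 0 ≤ (if (∀ i ∈ B, w i = v i) ∧ w j = u j
                    then (Ent_n F (insert j B) w)⁻¹ else 0) := by
                    split_ifs
                    · exact (inv_pos.2 (Ent_n_pos _ hw)).le
                    · exact le_rfl
                simp only [zero_mul]
                positivity
          _ = (Ent_n F A v)⁻¹ * ∑ w ∈ F, (if (∀ i ∈ B, w i = v i) ∧ w j = u j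
              then (Ent_n F (insert j B) w)⁻¹ else 0) := by rw [Finset.mul_sum]
          _ ≤ (Ent_n F A v)⁻¹ * 1 := by
              apply mul_le_mul_of_nonneg_left (inner v hv u hu) (inv_pos.2 hpos).le
          _ = _ := mul_one _
      · rw [if_neg hc, zero_mul]
        apply le_of_eq
        apply Finset.sum_eq_zero
        intro w _
        by_cases h2 : ∀ i ∈ B, v i = w i
        · by_cases h3 : ∀ i ∈ insert j A, u i = w i
          · exfalso
            apply hc
            intro i hi
            rw [h3 i (Finset.mem_insert_of_mem hi), h2 i (hAB hi)]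
          · rw [if_neg h3]; ring
        · rw [if_neg h2]; ring
    refine (Finset.sum_le_sum h1).trans ?_
    have e := Ent_n_sum F A v
    rw [← Finset.sum_mul, ← e]
    exact (mul_inv_cancel₀ hpos.ne').le
  refine (Finset.sum_le_sum step3).trans ?_
  simp

/-- submodularity -/
lemma Ent_sub {k : ℕ} {α : Type*} (F : Finset (Fin k → α)) {A B : Finset (Fin k)} (hAB : A ⊆ B)
    (j : Fin k) :
    Ent_L F B - Ent_L F (insert j B) ≤ Ent_L F A - Ent_L F (insert j A) := by
  have key := Ent_key F hAB j
  have h1 : ∀ w ∈ F, Real.log (Ent_n F (insert j A) w) + Real.log (Ent_n F B w) -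
      Real.log (Ent_n F A w) - Real.log (Ent_n F (insert j B) w) ≤
      Ent_n F (insert j A) w * Ent_n F B w / (Ent_n F A w * Ent_n F (insert j B) w) - 1 := by
    intro w hw
    have p1 := Ent_n_pos (insert j A) hw
    have p2 := Ent_n_pos B hw
    have p3 := Ent_n_pos A hw
    have p4 := Ent_n_pos (insert j B) hw
    have h2 := Real.log_le_sub_one_of_pos (div_pos (mul_pos p1 p2) (mul_pos p3 p4))
    rw [Real.log_div (mul_pos p1 p2).ne' (mul_pos p3 p4).ne', Real.log_mul p1.ne' p2.ne',
      Real.log_mul p3.ne' p4.ne'] at h2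
    linarith
  have h2 := Finset.sum_le_sum h1
  simp only [Finset.sum_sub_distrib, Finset.sum_add_distrib, Finset.sum_const, nsmul_eq_mul,
    mul_one] at h2
  unfold Ent_L
  linarith

lemma Ent_L_anti {k : ℕ} {α : Type*} (F : Finset (Fin k → α)) {S S' : Finset (Fin k)}
    (h : S ⊆ S') : Ent_L F S' ≤ Ent_L F S := by
  unfold Ent_L
  refine Finset.sum_le_sum fun w hw => ?_
  exact Real.log_le_log (Ent_n_pos S' hw) (Ent_n_anti F h w)

lemma Ent_L_empty {k : ℕ} {α : Type*} (F : Finset (Fin k → α)) :
    Ent_L F ∅ = F.card * Real.log F.card := by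
  classical
  unfold Ent_L Ent_n
  simp

lemma Ent_L_univ {k : ℕ} {α : Type*} (F : Finset (Fin k → α)) :
    Ent_L F Finset.univ = 0 := by
  classical
  unfold Ent_L
  apply Finset.sum_eq_zero
  intro w hw
  have : Ent_n F Finset.univ w = 1 := by
    unfold Ent_n
    have : (F.filter fun w' => ∀ i ∈ Finset.univ, w' i = w i) = {w} := by
      ext w'
      simp only [Finset.mem_filter, Finset.mem_univ, true_implies, Finset.mem_singleton]
      constructor
      · rintro ⟨_, h⟩
        exact funext h
      · rintro rfl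
        exact ⟨hw, fun _ => rfl⟩
    rw [this]
    simp
  rw [this, Real.log_one]

/-- the entropy of a projection is at most the logarithm of its size -/
lemma Ent_le_log {k : ℕ} {α : Type*} (F : Finset (Fin k → α)) (hF : F.Nonempty)
    (S : Finset (Fin k)) (c : ℕ)
    (hc : by classical exact
      (F.image (fun (w : Fin k → α) (j : {x // x ∈ S}) => w j)).card = c) :
    F.card * Real.log F.card - Ent_L F S ≤ F.card * Real.log c := by
  classical
  have hFc : (0 : ℝ) < F.card := by exact_mod_cast hF.card_pos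
  have hc' : (F.image (fun (w : Fin k → α) (j : {x // x ∈ S}) => w j)).card = c := by
    convert hc
  have hc0 : (0 : ℝ) < c := by
    rw [← hc']
    exact_mod_cast (hF.image _).card_pos
  -- the sum of the inverses
  have hsum : ∑ w ∈ F, (Ent_n F S w)⁻¹ = c := by
    rw [← Finset.sum_fiberwise_of_maps_to (s := F)
      (t := F.image (fun (w : Fin k → α) (j : {x // x ∈ S}) => w j))
      (g := fun (w : Fin k → α) (j : {x // x ∈ S}) => w j)
      (fun w hw => Finset.mem_image_of_mem _ hw)]
    have : ∀ b ∈ F.image (fun (w : Fin k → α) (j : {x // x ∈ S}) => w j),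
        ∑ w ∈ F.filter (fun w => (fun (j : {x // x ∈ S}) => w j) = b), (Ent_n F S w)⁻¹ = 1 := by
      intro b hb
      obtain ⟨w0, hw0, rfl⟩ := Finset.mem_image.1 hb
      have e1 : F.filter (fun w => (fun (j : {x // x ∈ S}) => w j) =
          (fun (j : {x // x ∈ S}) => w0 j)) = F.filter (fun w => ∀ i ∈ S, w i = w0 i) := by
        apply Finset.filter_congr
        intro w _
        constructor
        · intro h i hi
          exact congrFun h ⟨i, hi⟩
        · intro h
          funext j
          exact h j j.2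
      rw [e1]
      have e2 : ∀ w ∈ F.filter (fun w => ∀ i ∈ S, w i = w0 i),
          (Ent_n F S w)⁻¹ = (Ent_n F S w0)⁻¹ := by
        intro w hw
        rw [Ent_n_congr F S (Finset.mem_filter.1 hw).2]
      rw [Finset.sum_congr rfl e2, Finset.sum_const, nsmul_eq_mul]
      exact mul_inv_cancel₀ (Ent_n_pos S hw0).ne'
    rw [Finset.sum_congr rfl this, Finset.sum_const, hc', nsmul_eq_mul, mul_one]
  have h1 : ∀ w ∈ F, Real.log F.card - Real.log (Ent_n F S w) - Real.log c ≤
      F.card / c * (Ent_n F S w)⁻¹ - 1 := by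
    intro w hw
    have p1 := Ent_n_pos S hw
    have h2 := Real.log_le_sub_one_of_pos (div_pos (div_pos hFc hc0) p1)
    rw [Real.log_div (div_pos hFc hc0).ne' p1.ne', Real.log_div hFc.ne' hc0.ne'] at h2
    rw [← div_eq_mul_inv]
    linarith
  have h2 := Finset.sum_le_sum h1
  simp only [Finset.sum_sub_distrib, Finset.sum_const, nsmul_eq_mul, mul_one,
    ← Finset.mul_sum] at h2
  rw [hsum] at h2
  have h3 : (F.card : ℝ) / c * c = F.card := by field_simp
  rw [h3] at h2
  unfold Ent_L
  linarith

open Classical in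
theorem ent_weights {k : ℕ} {α : Type*} (F : Finset (Fin k → α)) (hF : F.Nonempty) :
    ∃ h : Fin k → ℝ, (∀ j, 0 ≤ h j) ∧ ∑ j, h j = Real.log F.card ∧
      ∀ S : Finset (Fin k), ∑ j ∈ S, h j ≤
        Real.log (F.image (fun (w : Fin k → α) (j : {x // x ∈ S}) => w j)).card := by
  have hFc : (0 : ℝ) < F.card := by exact_mod_cast hF.card_pos
  let A : ℕ → Finset (Fin k) := fun m => Finset.univ.filter fun i => i.val < m
  have hAins : ∀ j : Fin k, insert j (A j.val) = A (j.val + 1) := by
    intro j
    ext i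
    simp only [A, Finset.mem_insert, Finset.mem_filter, Finset.mem_univ, true_and]
    rw [Fin.ext_iff]
    omega
  refine ⟨fun j => (Ent_L F (A j.val) - Ent_L F (A (j.val + 1))) / F.card, ?_, ?_, ?_⟩
  · intro j
    apply div_nonneg _ hFc.le
    rw [sub_nonneg]
    apply Ent_L_anti
    intro i hi
    simp only [A, Finset.mem_filter, Finset.mem_univ, true_and] at hi ⊢
    omega
  · have e1 : ∑ j : Fin k, (Ent_L F (A j.val) - Ent_L F (A (j.val + 1))) / F.card =
        ∑ m ∈ Finset.range k, (Ent_L F (A m) - Ent_L F (A (m + 1))) / F.card :=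
      Fin.sum_univ_eq_sum_range (fun m => (Ent_L F (A m) - Ent_L F (A (m + 1))) / F.card) k
    rw [e1, ← Finset.sum_div, Finset.sum_range_sub' (fun m => Ent_L F (A m))]
    have e2 : A 0 = ∅ := by simp [A]
    have e3 : A k = Finset.univ := by simp [A]
    rw [e2, e3, Ent_L_empty, Ent_L_univ, sub_zero]
    field_simp
  · intro S
    have main : ∀ S : Finset (Fin k), ∑ j ∈ S, (Ent_L F (A j.val) - Ent_L F (A (j.val + 1))) ≤
        Ent_L F ∅ - Ent_L F S := by
      intro S
      induction S using Finset.induction_on_max with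
      | empty => simp
      | insert j S hj ih =>
        have hjS : j ∉ S := fun h => lt_irrefl _ (hj j h)
        rw [Finset.sum_insert hjS]
        have hsub : S ⊆ A j.val := by
          intro i hi
          simp only [A, Finset.mem_filter, Finset.mem_univ, true_and]
          exact hj i hi
        have h1 := Ent_sub F hsub j
        rw [hAins j] at h1
        linarith
    have h1 := main S
    rw [Ent_L_empty] at h1
    have h2 := Ent_le_log F hF S _ rfl
    simp only
    rw [← Finset.sum_div, div_le_iff₀ hFc]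
    calc _ ≤ F.card * Real.log F.card - Ent_L F S := h1
      _ ≤ _ := h2
      _ = _ := by rw [mul_comm]

end Pool.Agent.H17.QA
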