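import Pool.Agent.H17.QA.Closed
import Pool.Agent.H17.QA.ModDefs

/-!
# QA module HookDefs: interface between the geometry and the probability of the Hook

Dimension `n + 2`. `Q = cube i a` inside `cube (m-h) 0`. The module runs from `g (α u)` to `g (β u)` with
`u = U e_0`, `α = 2^(m-h+7)`, `β = 3 α`, `g` one of the automorphisms `gAut U m h π τ` (they map `2 α u` to the
centre of `cube (m-h) 0`).

* cells: partition of the inner boundary of `Q` into base cells (subcubes of the faces, of side about `w₀`);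
  `Fl c`: elements which must be open in `ω` (the base box above the cell and the edges from the cell to it),
  `Sp c`: the elements inside the base box; on all `Sp c` and `Sp0` the regularity events are read in a
  second configuration `ω'`, equal to `ω` elsewhere. `Fl0`, `Sp0`: the same for half balls at the points
  `g (α u)`, `g (β u)`.
* nodes `ν` (binary trees of boxes above the faces, Whitney like), `wt ν` their size, `anc c` the nodes above
  the cell `c`, `T ν` the regularity requirements of the roads of the node; `T0` those of the lanes from the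
  top of the trees to the points `g (α u)`, `g (β u)`.
* `link`: the deterministic joining statement.
-/

open MeasureTheory Filter Topology
open Pool.Agent.H17.IIC Pool.Agent.H41.QC Pool.Agent.H47.GM

namespace Pool.Agent.H17.QA

/-- a requirement: the configuration transported by `φ` is regular at `(z, r)` -/
structure Req (d : ℕ) where
  φ : V d ≃ V d
  z : V d
  r : ℕ

/-- the requirement `q` holds in `ω'` -/
def Req.ok {κ : Kind} {d : ℕ} {p : unitInterval} (RS : RoadSys κ d p) (q : Req d)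
    (ω' : El d → Bool) : Prop := tr q.φ ω' ∈ RS.reg q.z q.r

/-- cost of a requirement -/
def Req.cost {κ : Kind} {d : ℕ} {p : unitInterval} (RS : RoadSys κ d p) (q : Req d)
    (ω' : El d → Bool) : ℕ := RS.lam q.z q.r (tr q.φ ω')

/-- elements on which a requirement depends -/
def Req.dep {d : ℕ} (q : Req d) : Set (El d) := {e | ∃ e' ∈ InE (Bx q.z q.r : Set (V d)), e = e'.map q.φ}

variable {n : ℕ}

/-- the vector `U e_0` -/
def uvec (n U : ℕ) : V (n + 2) := Pi.single 0 (U : ℤ)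

/-- automorphism mapping the middle of the module to the centre of `cube (m-h) 0` -/
noncomputable def gAut (n U m h : ℕ) (π : Equiv.Perm (Fin (n + 2))) (τ : Fin (n + 2) → Bool) :
    V (n + 2) ≃ V (n + 2) :=
  (Equiv.addRight (-((2 * 2 ^ (m - h + 7) : ℤ) • uvec n U))).trans
    ((sperm π τ).trans (Equiv.addRight (fun _ => (2 : ℤ) ^ (m - h - 1))))

/-- projection of a set of tuples -/
def projS {k : ℕ} {α : Type*} (S : Finset (Fin k)) (F : Set (Fin k → α)) :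
    Set ({j // j ∈ S} → α) := (fun w j => w j) '' F

/-- the end number `s` of the strand `j` -/
def TData.pt {d : ℕ} (D : TData d) (j : Fin D.k) (s : Bool) : V d := if s then D.y j else D.x j

open Classical in
/-- HOOK NETWORK of the cube `Q = cube i a` -/
structure HookNet {κ : Kind} {p : unitInterval} (RS : RoadSys κ (n + 2) p) (C₁ : ℝ)
    (w₀ m₀ m₆ : ℕ) (ε : ℝ) (U m h i : ℕ) (a : V (n + 2)) where
  nC : ℕ
  nV : ℕ
  cell : V (n + 2) → Fin nC
  Fl : Fin nC → Finset (El (n + 2))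
  Sp : Fin nC → Finset (El (n + 2))
  Fl0 : Finset (El (n + 2))
  Sp0 : Finset (El (n + 2))
  wt : Fin nV → ℕ
  anc : Fin nC → Finset (Fin nV)
  T : Fin nV → Finset (Req (n + 2))
  T0 : Finset (Req (n + 2))
  cell_card : ∀ c, ((cube i a).filter fun v => IB (cube i a : Set (V (n + 2))) v ∧
    cell v = c).card ≤ m₀
  Fl_card : ∀ c, (Fl c).card ≤ m₀
  Fl0_card : Fl0.card ≤ m₆
  Sp_sub : ∀ c, Sp c ⊆ Fl c
  Sp0_sub : Sp0 ⊆ Fl0
  Fl_disj : ∀ c c', c ≠ c' → Disjoint (Fl c) (Fl c')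
  Fl0_disj : ∀ c, Disjoint Fl0 (Fl c)
  Fl_out : ∀ c, ∀ e ∈ Fl c, e ∉ InE (cube i a : Set (V (n + 2)))
  Fl0_out : ∀ e ∈ Fl0, e ∉ InE (cube i a : Set (V (n + 2)))
  aut : ∀ q, (q ∈ T0 ∨ ∃ ν, q ∈ T ν) → IsAut q.φ
  dep_out : ∀ q, (q ∈ T0 ∨ ∃ ν, q ∈ T ν) → ∀ e ∈ q.dep,
    e ∉ InE (cube i a : Set (V (n + 2))) ∧ (e ∈ Fl0 → e ∈ Sp0) ∧ ∀ c, e ∈ Fl c → e ∈ Sp c
  wt_ge : ∀ ν, w₀ ≤ wt ν
  anc_card : ∀ c w, (((anc c).filter fun ν => wt ν = w).card : ℝ) ≤ C₁
  T_card : ∀ ν, ((T ν).card : ℝ) ≤ C₁ * wt ν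
  T_rad : ∀ ν, ∀ q ∈ T ν, (wt ν : ℝ) ≤ C₁ * q.r
  T0_card : (T0.card : ℝ) ≤ C₁ * U * 2 ^ (m - h)
  T0_sum : ∑ q ∈ T0, RS.C * Real.exp (-RS.c * q.r) ≤ ε
  cnt : ∀ (𝒞 : Finset (Fin nC)) (k : ℕ), 1 ≤ k → 𝒞.card ≤ 2 * k →
    ∑ ν ∈ 𝒞.biUnion anc, (wt ν : ℝ) ≤ C₁ * 2 ^ i * (k : ℝ) ^ gam (n + 2)
  link : ∀ (ω ω' : El (n + 2) → Bool) (D : TData (n + 2)) (J : Finset (Fin D.k)) (v : Fin D.k → ℝ),
    TOK (cube i a : Set (V (n + 2))) D → (TFam κ ω (cube i a : Set (V (n + 2))) D).Nonempty →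
    J.Nonempty → (∀ j ∈ J, 0 ≤ v j) →
    (∀ c, ((J ×ˢ (Finset.univ : Finset Bool)).filter fun js =>
      cell (D.pt js.1 js.2) = c).card ≤ 2) →
    (∀ e, e ∉ Sp0 → (∀ c, e ∉ Sp c) → ω e = ω' e) →
    (∀ e ∈ Fl0, ω e = true) → (∀ j ∈ J, ∀ s, ∀ e ∈ Fl (cell (D.pt j s)), ω e = true) →
    (∀ q ∈ T0, q.ok RS ω') → (∀ j ∈ J, ∀ s, ∀ ν ∈ anc (cell (D.pt j s)), ∀ q ∈ T ν, q.ok RS ω') →
    ∃ S ⊆ J, S.Nonempty ∧ ∑ j ∈ J, v j ≤ 2 * (n + 2) * ∑ j ∈ S, v j ∧
      ∃ (π : Equiv.Perm (Fin (n + 2))) (τ : Fin (n + 2) → Bool) (N : ℕ),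
        N ≤ ∑ j ∈ S, D.n j + m₀ * J.card + m₆ + 4 * ∑ q ∈ T0, q.cost RS ω'
          + 4 * ∑ ν ∈ (J ×ˢ (Finset.univ : Finset Bool)).biUnion
              (fun js => anc (cell (D.pt js.1 js.2))), ∑ q ∈ T ν, q.cost RS ω' ∧
        (projS S (TFam κ ω (cube i a : Set (V (n + 2))) D)).ncard ≤
          Zc κ (tr (gAut n U m h π τ) ω) (slab (4 * U) (uvec n U) (2 ^ (m - h + 7))
            (3 * 2 ^ (m - h + 7))) ((2 ^ (m - h + 7) : ℤ) • uvec n U)
            ((3 * 2 ^ (m - h + 7) : ℤ) • uvec n U) N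

/-- GEOMETRY OF THE HOOK: existence of the network. Order of the constants: `C₁` depends on the
dimension (and the road system) only; `m₀` (number of vertices of a base cell, size of a base box, length of
the roads inside it) on `w₀`; `m₆` (the half balls) on `w₀` and `ε`. The slope constant `U` is at least `U₁`
(dimension dependent) so that there is room for the trees above the faces. -/
def HookGeo {κ : Kind} {p : unitInterval} (RS : RoadSys κ (n + 2) p) : Prop :=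
  ∃ C₁ : ℝ, 1 ≤ C₁ ∧ ∃ U₁ : ℕ, 1 ≤ U₁ ∧ ∀ w₁ : ℕ, ∃ w₀ ≥ w₁, ∃ m₀ : ℕ, 1 ≤ m₀ ∧
    ∀ ε : ℝ, 0 < ε → ∃ m₆ : ℕ, ∀ U h : ℕ, U₁ ≤ U → 1 ≤ h → ∃ M₀ : ℕ, ∀ m ≥ M₀, ∀ (i : ℕ) (a : V (n + 2)), cube i a ⊆ cube (m - h) 0 →
      (2 : ℝ) ^ m ≤ 2 ^ ((n + 2) * i) * Real.log (2 * (n + 2)) →
      Nonempty (HookNet RS C₁ w₀ m₀ m₆ ε U m h i a)

end Pool.Agent.H17.QA
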