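import Pool.Agent.H94.HF.Final

/-!
# QA module HookGeo: existence of the hook network (lead helper30)

Proof: Pool/Agent/H94/HF (final assembly), Pool/Agent/H30/HG (geometry), Pool/Agent/H47/HJ (joining machine),
Pool/Agent/H42/HG (token boxes).
-/

open MeasureTheory Filter Topology
open Pool.Agent.H17.IIC Pool.Agent.H41.QC Pool.Agent.H47.GM

namespace Pool.Agent.H17.QA

variable {n : ℕ}

theorem hookGeo {κ : Kind} {p : unitInterval} (RS : RoadSys κ (n + 2) p) : HookGeo RS :=
  Pool.Agent.H94.HF.hookGeo_aux RS

end Pool.Agent.H17.QA
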