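import Pool.Agent.H47.GM.Mu

/-!
# QA module HookPA: measure theoretic lemmas for the probability part of the Hook
-/

open MeasureTheory Filter Topology
open Pool.Agent.H17.IIC Pool.Agent.H41.QC Pool.Agent.H47.GM

namespace Pool.Agent.H17.QA

/-! ### first moment -/

open Classical in
/-- if every event has probability at least `τ`, then with probability at least `τ / 2` the total weight of
the events which occur is at least `τ / 2` times the total weight -/
theorem hp_first {Ω : Type*} [MeasurableSpace Ω] (P : Measure Ω) [IsProbabilityMeasure P]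
    {ι : Type*} (J : Finset ι) (ev : ι → Set Ω) (hev : ∀ j ∈ J, MeasurableSet (ev j)) (v : ι → ℝ)
    (hv : ∀ j ∈ J, 0 ≤ v j) (hY : 0 < ∑ j ∈ J, v j) {τ : ℝ} (hτ : 0 ≤ τ)
    (hP : ∀ j ∈ J, τ ≤ P.real (ev j)) :
    MeasurableSet {x | τ * (∑ j ∈ J, v j) / 2 ≤ ∑ j ∈ J.filter fun j => x ∈ ev j, v j} ∧
    τ / 2 ≤ P.real {x | τ * (∑ j ∈ J, v j) / 2 ≤ ∑ j ∈ J.filter fun j => x ∈ ev j, v j} := by
  set Y := ∑ j ∈ J, v j with hYd
  let X : Ω → ℝ := fun x => ∑ j ∈ J, (ev j).indicator (fun _ => v j) x
  have hX : ∀ x, ∑ j ∈ J.filter (fun j => x ∈ ev j), v j = X x := by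
    intro x
    rw [Finset.sum_filter]
    refine Finset.sum_congr rfl fun j _ => ?_
    rw [Set.indicator_apply]
  have hXm : Measurable X := Finset.measurable_sum _ fun j hj => measurable_const.indicator (hev j hj)
  have hset : {x | τ * Y / 2 ≤ ∑ j ∈ J.filter (fun j => x ∈ ev j), v j} = {x | τ * Y / 2 ≤ X x} := by
    ext x
    simp only [Set.mem_ofPred_eq, hX]
  rw [hset]
  have hG : MeasurableSet {x | τ * Y / 2 ≤ X x} := measurableSet_le measurable_const hXm
  refine ⟨hG, ?_⟩
  have hint : ∀ j ∈ J, Integrable ((ev j).indicator fun _ => v j) P := fun j hj =>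
    (integrable_const _).indicator (hev j hj)
  have hXint : Integrable X P := integrable_finsetSum _ hint
  have h1 : ∫ x, X x ∂P = ∑ j ∈ J, v j * P.real (ev j) := by
    show ∫ x, ∑ j ∈ J, (ev j).indicator (fun _ => v j) x ∂P = _
    rw [integral_finsetSum _ hint]
    refine Finset.sum_congr rfl fun j hj => ?_
    rw [integral_indicator (hev j hj), setIntegral_const, smul_eq_mul, mul_comm]
  have h2 : τ * Y ≤ ∫ x, X x ∂P := by
    rw [h1, hYd, Finset.mul_sum]
    refine Finset.sum_le_sum fun j hj => ?_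
    rw [mul_comm]
    exact mul_le_mul_of_nonneg_left (hP j hj) (hv j hj)
  have hXle : ∀ x, X x ≤ Y := by
    intro x
    refine Finset.sum_le_sum fun j hj => ?_
    rw [Set.indicator_apply]
    split_ifs
    · exact le_rfl
    · exact hv j hj
  have h3 : ∫ x, X x ∂P ≤ ∫ x, ({x | τ * Y / 2 ≤ X x}.indicator (fun _ => Y) x + τ * Y / 2) ∂P := by
    refine integral_mono hXint (((integrable_const _).indicator hG).add (integrable_const _)) ?_
    intro x
    show X x ≤ {x | τ * Y / 2 ≤ X x}.indicator (fun _ => Y) x + τ * Y / 2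
    rw [Set.indicator_apply]
    split_ifs with h
    · have : 0 ≤ τ * Y / 2 := by positivity
      linarith [hXle x]
    · have h' : X x < τ * Y / 2 := not_le.1 h
      linarith
  rw [integral_add ((integrable_const _).indicator hG) (integrable_const _),
    integral_indicator hG, setIntegral_const, smul_eq_mul, integral_const, smul_eq_mul] at h3
  rw [probReal_univ, one_mul] at h3
  have h4 : τ * Y / 2 ≤ P.real {x | τ * Y / 2 ≤ X x} * Y := by linarith
  have h5 : τ / 2 * Y ≤ P.real {x | τ * Y / 2 ≤ X x} * Y := by linarith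
  exact le_of_mul_le_mul_right h5 hY

/-! ### Markov -/

theorem hp_markov {Ω : Type*} [MeasurableSpace Ω] (P : Measure Ω) [IsProbabilityMeasure P]
    (f : Ω → ENNReal) (hf : Measurable f) {K t : ℝ} (hK : 0 < K) (ht : 0 < t)
    (h : ∫⁻ x, f x ∂P ≤ ENNReal.ofReal K) :
    MeasurableSet {x | f x ≤ ENNReal.ofReal (K / t)} ∧
      P.real {x | f x ≤ ENNReal.ofReal (K / t)}ᶜ ≤ t := by
  have hm : MeasurableSet {x | f x ≤ ENNReal.ofReal (K / t)} := measurableSet_le hf measurable_const
  refine ⟨hm, ?_⟩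
  have h1 := mul_meas_ge_le_lintegral (μ := P) hf (ENNReal.ofReal (K / t))
  have h2 : P {x | f x ≤ ENNReal.ofReal (K / t)}ᶜ ≤ P {x | ENNReal.ofReal (K / t) ≤ f x} := by
    refine measure_mono fun x hx => ?_
    have hx' : ¬ (f x ≤ ENNReal.ofReal (K / t)) := hx
    exact (not_le.1 hx').le
  have h3 : ENNReal.ofReal (K / t) * P {x | f x ≤ ENNReal.ofReal (K / t)}ᶜ ≤ ENNReal.ofReal K :=
    (mul_le_mul_right h2 _).trans (h1.trans h)
  have h4 : K / t * P.real {x | f x ≤ ENNReal.ofReal (K / t)}ᶜ ≤ K := by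
    have := ENNReal.toReal_mono ENNReal.ofReal_ne_top h3
    rwa [ENNReal.toReal_mul, ENNReal.toReal_ofReal (by positivity), ENNReal.toReal_ofReal hK.le]
      at this
  have hKt : 0 < K / t := by positivity
  have h5 : K / t * P.real {x | f x ≤ ENNReal.ofReal (K / t)}ᶜ ≤ K / t * t := by
    rwa [div_mul_cancel₀ _ ht.ne']
  exact le_of_mul_le_mul_left h5 hKt

/-! ### spliced configurations -/

variable {ι : Type*}

open Classical in
/-- splice -/
noncomputable def spl (I : Set ι) (x y : ι → Bool) : ι → Bool := fun i => if i ∈ I then x i else y i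

lemma spl_in {I : Set ι} {x y : ι → Bool} {i : ι} (h : i ∈ I) : spl I x y i = x i := by
  simp [spl, h]

lemma spl_out {I : Set ι} {x y : ι → Bool} {i : ι} (h : i ∉ I) : spl I x y i = y i := by
  simp [spl, h]

lemma spl_meas (I : Set ι) : Measurable fun z : (ι → Bool) × (ι → Bool) => spl I z.1 z.2 :=
  mu_measurable_mix I

lemma spl_map (p : unitInterval) (I : Set ι) :
    ((prodBern ι p).prod (prodBern ι p)).map (fun z => spl I z.1 z.2) = prodBern ι p := by
  have h := mu_mix (fun _ : ι => p) I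
  rw [mu_const] at h
  exact h

/-- conditioning on the coordinates in `I` -/
theorem hp_cond (p : unitInterval) (I : Set ι) {E G : Set (ι → Bool)} (hE : MeasurableSet E)
    (hG : MeasurableSet G) (hEI : On I E) {c : ℝ} (hc : 0 ≤ c)
    (h : ∀ x ∈ E, c ≤ (prodBern ι p).real {y | spl I x y ∈ G}) :
    c * (prodBern ι p).real E ≤ (prodBern ι p).real (E ∩ G) := by
  classical
  have h1 : (prodBern ι p) (E ∩ G) = ∫⁻ x, (prodBern ι p) {y | spl I x y ∈ E ∩ G} ∂(prodBern ι p) := by
    conv_lhs => rw [← spl_map p I]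
    rw [Measure.map_apply (spl_meas I) (hE.inter hG),
      Measure.prod_apply ((spl_meas I) (hE.inter hG))]
    rfl
  have h2 : ENNReal.ofReal c * (prodBern ι p) E ≤ (prodBern ι p) (E ∩ G) := by
    rw [h1]
    calc ENNReal.ofReal c * (prodBern ι p) E = ∫⁻ x, E.indicator (fun _ => ENNReal.ofReal c) x ∂(prodBern ι p) := by
          rw [lintegral_indicator hE, setLIntegral_const]
      _ ≤ _ := by
          refine lintegral_mono fun x => ?_
          show E.indicator (fun _ => ENNReal.ofReal c) x ≤ (prodBern ι p) {y | spl I x y ∈ E ∩ G}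
          rw [Set.indicator_apply]
          split_ifs with hx
          · have h3 : {y | spl I x y ∈ E ∩ G} = {y | spl I x y ∈ G} := by
              ext y
              simp only [Set.mem_ofPred_eq, Set.mem_inter_iff, and_iff_right_iff_imp]
              intro _
              exact (hEI x (spl I x y) fun i hi => (spl_in hi).symm).1 hx
            rw [h3]
            have := h x hx
            rw [Measure.real] at this
            exact (ENNReal.ofReal_le_iff_le_toReal (measure_ne_top _ _)).2 this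
          · exact zero_le
  have h4 := ENNReal.toReal_mono (measure_ne_top _ _) h2
  rwa [ENNReal.toReal_mul, ENNReal.toReal_ofReal hc] at h4

/-- three independent layers -/
theorem hp_layers (p : unitInterval) (I₀ I₁ : Set ι) {G A : Set (ι → Bool)}
    {W : Set ((ι → Bool) × (ι → Bool))} (hG : MeasurableSet G)
    (h : ∀ x₀ ∈ A, ∀ z ∈ W, spl I₀ x₀ (spl I₁ z.1 z.2) ∈ G) :
    (prodBern ι p).real A * ((prodBern ι p).prod (prodBern ι p)).real W ≤ (prodBern ι p).real G := by
  have hm : Measurable fun z : (ι → Bool) × ((ι → Bool) × (ι → Bool)) =>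
      spl I₀ z.1 (spl I₁ z.2.1 z.2.2) :=
    (spl_meas I₀).comp (measurable_fst.prodMk ((spl_meas I₁).comp measurable_snd))
  have hmap : ((prodBern ι p).prod ((prodBern ι p).prod (prodBern ι p))).map
      (fun z : (ι → Bool) × ((ι → Bool) × (ι → Bool)) => spl I₀ z.1 (spl I₁ z.2.1 z.2.2))
      = prodBern ι p := by
    have e1 : (fun z : (ι → Bool) × ((ι → Bool) × (ι → Bool)) => spl I₀ z.1 (spl I₁ z.2.1 z.2.2))
        = (fun z : (ι → Bool) × (ι → Bool) => spl I₀ z.1 z.2) ∘
          (Prod.map id fun z : (ι → Bool) × (ι → Bool) => spl I₁ z.1 z.2) := rfl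
    rw [e1, ← Measure.map_map (spl_meas I₀) (measurable_id.prodMap (spl_meas I₁)),
      ← Measure.map_prod_map _ _ measurable_id (spl_meas I₁), spl_map, Measure.map_id, spl_map]
  have h1 : (prodBern ι p) A * ((prodBern ι p).prod (prodBern ι p)) W ≤ (prodBern ι p) G := by
    conv_rhs => rw [← hmap]
    rw [Measure.map_apply hm hG, ← Measure.prod_prod]
    refine measure_mono ?_
    rintro ⟨x, z⟩ ⟨hx, hz⟩
    exact h x hx z hz
  have h2 := ENNReal.toReal_mono (measure_ne_top _ _) h1
  rwa [ENNReal.toReal_mul] at h2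

/-- probability that a finite set is open -/
theorem hp_open (p : unitInterval) (S : Finset ι) :
    (prodBern ι p).real {ω | ∀ e ∈ S, ω e = true} = (p : ℝ) ^ S.card := by
  have h1 : {ω : ι → Bool | ∀ e ∈ S, ω e = true} = Set.pi (S : Set ι) fun _ => {true} := by
    ext ω
    simp [Set.mem_pi]
  have h2 : (prodBern ι p) {ω | ∀ e ∈ S, ω e = true} = (ENNReal.ofReal p) ^ S.card := by
    rw [h1, prodBern, Measure.infinitePi_pi (μ := fun _ : ι => bern p)
      (fun i _ => MeasurableSet.singleton _)]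
    rw [Finset.prod_const]
    congr 1
    unfold bern
    simp
  rw [Measure.real, h2, ENNReal.toReal_pow, ENNReal.toReal_ofReal p.2.1]

lemma hp_open_meas (S : Finset ι) : MeasurableSet {ω : ι → Bool | ∀ e ∈ S, ω e = true} := by
  have h1 : {ω : ι → Bool | ∀ e ∈ S, ω e = true} = Set.pi (S : Set ι) fun _ => {true} := by
    ext ω
    simp [Set.mem_pi]
  rw [h1]
  exact MeasurableSet.pi S.countable_toSet fun i _ => MeasurableSet.singleton _

/-! ### tail sums -/

theorem hp_tail (A r : ℝ) (hr : 0 < r) {ε : ℝ} (hε : 0 < ε) :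
    ∃ w₁ : ℕ, ∀ s : Finset ℕ, (∀ w ∈ s, w₁ ≤ w) → ∑ w ∈ s, A * w * Real.exp (-r * w) ≤ ε := by
  have hs : Summable fun w : ℕ => A * w * Real.exp (-r * w) := by
    have := (Real.summable_pow_mul_exp_neg_nat_mul 1 hr).mul_left A
    refine this.congr fun w => ?_
    rw [pow_one, mul_assoc]
  obtain ⟨t, ht⟩ := summable_iff_vanishing_norm.1 hs ε hε
  refine ⟨t.sup id + 1, fun s hs' => ?_⟩
  have hd : Disjoint s t := by
    rw [Finset.disjoint_left]
    intro w hw hwt
    have h1 := hs' w hw
    have h2 : id w ≤ t.sup id := Finset.le_sup hwt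
    simp only [id] at h2
    omega
  exact (le_abs_self _).trans (ht s hd).le

end Pool.Agent.H17.QA
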