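import Pool.Agent.H17.QA.HookDefs

/-!
# QA module HookPM: the module event, measurability and the deterministic conclusion
-/

open MeasureTheory Filter Topology
open Pool.Agent.H17.IIC Pool.Agent.H41.QC Pool.Agent.H47.GM

namespace Pool.Agent.H17.QA

variable {n : ℕ}

/-- the union over the automorphisms of the module events -/
def ModG (κ : Kind) (b c : ℝ) (n U m h : ℕ) : Set (El (n + 2) → Bool) :=
  {ω | ∃ (π : Equiv.Perm (Fin (n + 2))) (τ : Fin (n + 2) → Bool), tr (gAut n U m h π τ) ω ∈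
    Mod κ b c (4 * U) (uvec n U) (2 ^ (m - h + 7)) (3 * 2 ^ (m - h + 7))}

lemma slab_sub (C₁ : ℝ) (u : V (n + 2)) (α β : ℕ) : ∃ S : Finset (V (n + 2)),
    slab C₁ u α β ⊆ (S : Set (V (n + 2))) := by
  refine ⟨Fintype.piFinset fun _ => Finset.Icc (-(⌈C₁ * β⌉)) (⌈C₁ * β⌉), ?_⟩
  rintro x ⟨-, -, h⟩
  rw [Finset.mem_coe, Fintype.mem_piFinset]
  intro i
  have h1 : (|x i| : ℝ) ≤ (⌈C₁ * β⌉ : ℝ) := (h i).trans (Int.le_ceil _)
  have h2 : |x i| ≤ ⌈C₁ * β⌉ := by exact_mod_cast h1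
  rw [Finset.mem_Icc]
  exact abs_le.1 h2

lemma mod_meas (κ : Kind) (b c C₁ : ℝ) (u : V (n + 2)) (α β : ℕ) :
    MeasurableSet (Mod κ b c C₁ u α β) := by
  obtain ⟨S, hS⟩ := slab_sub C₁ u α β
  have hfin : (InE (slab C₁ u α β)).Finite :=
    (Closed_inE_finite S).subset fun e he v hv => hS (he v hv)
  refine On.measurableSet (Λ := hfin.toFinset) ?_
  rw [Set.Finite.coe_toFinset]
  intro ω ω' h
  have key : ∀ N x y, Zc κ ω (slab C₁ u α β) x y N = Zc κ ω' (slab C₁ u α β) x y N := by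
    intro N x y
    unfold Zc
    congr 1
    ext l
    exact ⟨fun hl => Closed_fam_congr h hl, fun hl => Closed_fam_congr (fun e he => (h e he).symm) hl⟩
  unfold Mod
  simp only [Set.mem_ofPred_eq, key]

lemma tr_meas {d : ℕ} (φ : V d → V d) : Measurable (tr φ : (El d → Bool) → El d → Bool) :=
  measurable_pi_lambda _ fun _ => measurable_pi_apply _

theorem modG_meas (κ : Kind) (b c : ℝ) (n U m h : ℕ) : MeasurableSet (ModG κ b c n U m h) := by
  have h1 : ModG κ b c n U m h = ⋃ (π : Equiv.Perm (Fin (n + 2))), ⋃ (τ : Fin (n + 2) → Bool),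
      tr (gAut n U m h π τ) ⁻¹'
        Mod κ b c (4 * U) (uvec n U) (2 ^ (m - h + 7)) (3 * 2 ^ (m - h + 7)) := by
    ext ω
    simp only [ModG, Set.mem_ofPred_eq, Set.mem_iUnion, Set.mem_preimage]
  rw [h1]
  exact MeasurableSet.iUnion fun π => MeasurableSet.iUnion fun τ => tr_meas _ (mod_meas _ _ _ _ _ _ _)

/-- the endpoints of the strands of a nonempty family are distinct -/
theorem pt_inj {κ : Kind} {d : ℕ} {ω : El d → Bool} {Q : Set (V d)} {D : TData d}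
    (hD : TOK Q D) (hne : (TFam κ ω Q D).Nonempty) :
    Function.Injective fun js : Fin D.k × Bool => D.pt js.1 js.2 := by
  obtain ⟨w, hw, hdis⟩ := hne
  have hx : ∀ j, D.x j ∈ w j := fun j => List.mem_of_mem_head? (by
    rw [(hw j).2.2.1]
    exact Option.mem_some_self _)
  have hy : ∀ j, D.y j ∈ w j := fun j => List.mem_of_mem_getLast? (by
    rw [(hw j).2.2.2.1]
    exact Option.mem_some_self _)
  have hpt : ∀ j s, D.pt j s ∈ w j := by
    intro j s
    unfold TData.pt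
    cases s
    · simpa using hx j
    · simpa using hy j
  have hne : ∀ j, D.x j ≠ D.y j := by
    intro j hj
    obtain ⟨h1, h2, h3, h4, -⟩ := hw j
    have hlen : 2 ≤ (w j).length := by
      rw [h2]
      have := (hD.2 j).2.2
      omega
    generalize w j = l at h1 h3 h4 hlen
    match l, hlen with
    | a :: b :: t, _ =>
      simp only [List.head?_cons, Option.some.injEq] at h3
      have h5 : a ∉ b :: t := (List.nodup_cons.1 h1.nodup).1
      apply h5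
      rw [List.getLast?_cons_cons] at h4
      have : D.y j ∈ b :: t := List.mem_of_mem_getLast? (by rw [h4]; exact Option.mem_some_self _)
      rw [h3, hj]
      exact this
  rintro ⟨j, s⟩ ⟨j', s'⟩ h
  simp only at h
  have hjj : j = j' := by
    by_contra hne'
    exact hdis j j' hne' (hpt j s) (h ▸ hpt j' s')
  subst hjj
  cases s <;> cases s'
  · rfl
  · exact absurd (by simpa [TData.pt] using h) (hne j)
  · exact absurd (by simpa [TData.pt] using h.symm) (hne j)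
  · rfl

open Classical in
/-- the deterministic conclusion -/
theorem hp_det {κ : Kind} {p : unitInterval} {RS : RoadSys κ (n + 2) p} {C₁ ε : ℝ}
    {w₀ m₀ m₆ U m h i : ℕ} {a : V (n + 2)} (net : HookNet RS C₁ w₀ m₀ m₆ ε U m h i a)
    {b c K X : ℝ} (hb : 0 ≤ b) (ω ω' : El (n + 2) → Bool) (D : TData (n + 2))
    (J : Finset (Fin D.k)) (hw : Fin D.k → ℝ)
    (hTOK : TOK (cube i a : Set (V (n + 2))) D)
    (hne : (TFam κ ω (cube i a : Set (V (n + 2))) D).Nonempty)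
    (hent : ∀ S : Finset (Fin D.k), ∑ j ∈ S, hw j ≤
      Real.log (projS S (TFam κ ω (cube i a : Set (V (n + 2))) D)).ncard)
    (hJ : J.Nonempty) (hv : ∀ j ∈ J, 0 ≤ hw j - b * D.n j)
    (hcell : ∀ c, ((J ×ˢ (Finset.univ : Finset Bool)).filter fun js =>
      net.cell (D.pt js.1 js.2) = c).card ≤ 2)
    (hag : ∀ e, e ∉ net.Sp0 → (∀ c, e ∉ net.Sp c) → ω e = ω' e)
    (hF0 : ∀ e ∈ net.Fl0, ω e = true)
    (hF : ∀ j ∈ J, ∀ s, ∀ e ∈ net.Fl (net.cell (D.pt j s)), ω e = true)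
    (hT0 : ∀ q ∈ net.T0, q.ok RS ω')
    (hT : ∀ j ∈ J, ∀ s, ∀ ν ∈ net.anc (net.cell (D.pt j s)), ∀ q ∈ net.T ν, q.ok RS ω')
    (hX : X ≤ ∑ j ∈ J, (hw j - b * D.n j))
    (hK : (m₀ : ℝ) * J.card + m₆ + 4 * ∑ q ∈ net.T0, (q.cost RS ω' : ℝ)
      + 4 * ∑ ν ∈ (J ×ˢ (Finset.univ : Finset Bool)).biUnion
          (fun js => net.anc (net.cell (D.pt js.1 js.2))), ∑ q ∈ net.T ν, (q.cost RS ω' : ℝ) ≤ K)
    (hfin : c * (3 * 2 ^ (m - h + 7)) + b * K ≤ X / (2 * (n + 2))) :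
    ω ∈ ModG κ b c n U m h := by
  obtain ⟨S, hSJ, hSne, hS, π, τ, N, hN, hZ⟩ := net.link ω ω' D J (fun j => hw j - b * D.n j) hTOK hne hJ
    hv hcell hag hF0 hF hT0 hT
  refine ⟨π, τ, N, ?_⟩
  have hfinS : (projS S (TFam κ ω (cube i a : Set (V (n + 2))) D)).Finite :=
    (tfam_finite κ ω (cube i a) D).image _
  have hpos : 0 < (projS S (TFam κ ω (cube i a : Set (V (n + 2))) D)).ncard :=
    (Set.ncard_pos hfinS).2 (hne.image _)
  have hposR : (0 : ℝ) < (projS S (TFam κ ω (cube i a : Set (V (n + 2))) D)).ncard := by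
    exact_mod_cast hpos
  have h1 : b * N + c * ((3 * 2 ^ (m - h + 7) : ℕ) : ℝ) ≤
      Real.log (projS S (TFam κ ω (cube i a : Set (V (n + 2))) D)).ncard := by
    refine le_trans ?_ (hent S)
    have h2 : ∑ j ∈ S, (hw j - b * D.n j) = ∑ j ∈ S, hw j - b * ∑ j ∈ S, (D.n j : ℝ) := by
      rw [Finset.sum_sub_distrib, Finset.mul_sum]
    have h3 : X / (2 * (n + 2)) ≤ ∑ j ∈ S, hw j - b * ∑ j ∈ S, (D.n j : ℝ) := by
      rw [← h2, div_le_iff₀ (by positivity)]
      linarith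
    have h4 : (N : ℝ) ≤ ∑ j ∈ S, (D.n j : ℝ) + ((m₀ : ℝ) * J.card + m₆
      + 4 * ∑ q ∈ net.T0, (q.cost RS ω' : ℝ)
      + 4 * ∑ ν ∈ (J ×ˢ (Finset.univ : Finset Bool)).biUnion
          (fun js => net.anc (net.cell (D.pt js.1 js.2))), ∑ q ∈ net.T ν, (q.cost RS ω' : ℝ)) := by
      have h5 : (N : ℝ) ≤ ((∑ j ∈ S, D.n j + m₀ * J.card + m₆ + 4 * ∑ q ∈ net.T0, q.cost RS ω'
          + 4 * ∑ ν ∈ (J ×ˢ (Finset.univ : Finset Bool)).biUnion
              (fun js => net.anc (net.cell (D.pt js.1 js.2))),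
              ∑ q ∈ net.T ν, q.cost RS ω' : ℕ) : ℝ) := by exact_mod_cast hN
      push_cast at h5
      linarith
    have h6 : b * N ≤ b * ∑ j ∈ S, (D.n j : ℝ) + b * K := by
      rw [← mul_add]
      exact mul_le_mul_of_nonneg_left (by linarith) hb
    push_cast
    linarith
  have h2 : Real.exp (b * N + c * ((3 * 2 ^ (m - h + 7) : ℕ) : ℝ)) ≤
      (projS S (TFam κ ω (cube i a : Set (V (n + 2))) D)).ncard := by
    rw [← Real.exp_log hposR]
    exact Real.exp_le_exp.2 h1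
  refine h2.trans ?_
  have h3 : (((2 ^ (m - h + 7) : ℕ) : ℤ) • uvec n U) = ((2 ^ (m - h + 7) : ℤ) • uvec n U) := by
    push_cast
    rfl
  have h4 : (((3 * 2 ^ (m - h + 7) : ℕ) : ℤ) • uvec n U) = ((3 * 2 ^ (m - h + 7) : ℤ) • uvec n U) := by
    push_cast
    rfl
  rw [h3, h4]
  exact_mod_cast hZ

end Pool.Agent.H17.QA
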