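import Pool.Agent.H17.QA.HookPA
import Pool.Agent.H17.QA.HookPM

/-!
# QA module HookPC: requirements, their probabilities and costs
-/

open MeasureTheory Filter Topology
open Pool.Agent.H17.IIC Pool.Agent.H41.QC Pool.Agent.H47.GM

namespace Pool.Agent.H17.QA

variable {n : ℕ}

/-! ### requirements -/

lemma req_agree {d : ℕ} {q : Req d} {ω ω' : El d → Bool} (h : ∀ e ∈ q.dep, ω e = ω' e) :
    ∀ e ∈ InE (Bx q.z q.r : Set (V d)), tr q.φ ω e = tr q.φ ω' e := by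
  intro e he
  exact h _ ⟨e, he, rfl⟩

lemma req_ok {κ : Kind} {d : ℕ} {p : unitInterval} (RS : RoadSys κ d p) {q : Req d}
    {ω ω' : El d → Bool} (h : ∀ e ∈ q.dep, ω e = ω' e) : q.ok RS ω ↔ q.ok RS ω' :=
  RS.reg_on q.z q.r _ _ (req_agree h)

lemma req_cost {κ : Kind} {d : ℕ} {p : unitInterval} (RS : RoadSys κ d p) {q : Req d}
    {ω ω' : El d → Bool} (h : ∀ e ∈ q.dep, ω e = ω' e) (hq : q.ok RS ω') :
    (q.cost RS ω : ENNReal) ≤ RS.dom q.z (tr q.φ ω') := by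
  have h1 : q.cost RS ω' = q.cost RS ω :=
    RS.lam_on q.z q.r _ _ hq fun e he => (req_agree h e he).symm
  rw [← h1]
  exact RS.lam_le q.z q.r _ hq

lemma reg_meas {κ : Kind} {d : ℕ} {p : unitInterval} (RS : RoadSys κ d p) (z : V d) (r : ℕ) :
    MeasurableSet (RS.reg z r) := by
  refine On.measurableSet (Λ := (Closed_inE_finite (Bx z r)).toFinset) ?_
  rw [Set.Finite.coe_toFinset]
  exact RS.reg_on z r

lemma req_meas {κ : Kind} {d : ℕ} {p : unitInterval} (RS : RoadSys κ d p) (q : Req d) :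
    MeasurableSet {ω | q.ok RS ω} :=
  tr_meas q.φ (reg_meas RS q.z q.r)

lemma req_prob {κ : Kind} {d : ℕ} {p : unitInterval} (RS : RoadSys κ d p) (q : Req d) :
    (prodBern (El d) p).real {ω | q.ok RS ω}ᶜ ≤ RS.C * Real.exp (-RS.c * q.r) := by
  have h1 : {ω | q.ok RS ω}ᶜ = tr q.φ ⁻¹' (RS.reg q.z q.r)ᶜ := rfl
  rw [h1, ← map_measureReal_apply (tr_meas q.φ) (reg_meas RS q.z q.r).compl, tr_law]
  exact RS.prob q.z q.r

lemma req_dom {κ : Kind} {d : ℕ} {p : unitInterval} (RS : RoadSys κ d p) (q : Req d) :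
    ∫⁻ ω, RS.dom q.z (tr q.φ ω) ∂(prodBern (El d) p) ≤ ENNReal.ofReal RS.C := by
  have h1 : ∫⁻ ω, RS.dom q.z (tr q.φ ω) ∂(prodBern (El d) p)
      = ∫⁻ ω, RS.dom q.z ω ∂((prodBern (El d) p).map (tr q.φ)) :=
    (lintegral_map (RS.dom_meas q.z) (tr_meas q.φ)).symm
  rw [h1, tr_law]
  exact RS.dom_int q.z

lemma req_dom_meas {κ : Kind} {d : ℕ} {p : unitInterval} (RS : RoadSys κ d p) (q : Req d) :
    Measurable fun ω => RS.dom q.z (tr q.φ ω) :=
  (RS.dom_meas q.z).comp (tr_meas q.φ)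

/-- a finite family of requirements -/
lemma reqs_prob {κ : Kind} {d : ℕ} {p : unitInterval} (RS : RoadSys κ d p) {ι : Type*}
    (s : Finset ι) (q : ι → Req d) {δ : ℝ}
    (h : ∑ j ∈ s, RS.C * Real.exp (-RS.c * (q j).r) ≤ δ) :
    (prodBern (El d) p).real {ω | ∀ j ∈ s, (q j).ok RS ω}ᶜ ≤ δ := by
  have h1 : {ω | ∀ j ∈ s, (q j).ok RS ω}ᶜ = ⋃ j ∈ s, {ω | (q j).ok RS ω}ᶜ := by
    ext ω
    simp
  rw [h1]
  refine le_trans (measureReal_biUnion_finset_le s _) (le_trans ?_ h)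
  exact Finset.sum_le_sum fun j _ => req_prob RS (q j)

lemma reqs_meas {κ : Kind} {d : ℕ} {p : unitInterval} (RS : RoadSys κ d p) {ι : Type*}
    (s : Finset ι) (q : ι → Req d) : MeasurableSet {ω | ∀ j ∈ s, (q j).ok RS ω} := by
  have h1 : {ω | ∀ j ∈ s, (q j).ok RS ω} = ⋂ j ∈ s, {ω | (q j).ok RS ω} := by
    ext ω
    simp
  rw [h1]
  exact Finset.measurableSet_biInter s fun j _ => req_meas RS (q j)

/-- costs of a finite family of requirements, Markov -/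
lemma reqs_cost {κ : Kind} {d : ℕ} {p : unitInterval} (RS : RoadSys κ d p) {ι : Type*}
    (s : Finset ι) (q : ι → Req d) {K t : ℝ} (hK : 0 < K) (ht : 0 < t)
    (h : (s.card : ℝ) * RS.C ≤ K) :
    MeasurableSet {ω | ∑ j ∈ s, RS.dom (q j).z (tr (q j).φ ω) ≤ ENNReal.ofReal (K / t)} ∧
    (prodBern (El d) p).real
      {ω | ∑ j ∈ s, RS.dom (q j).z (tr (q j).φ ω) ≤ ENNReal.ofReal (K / t)}ᶜ ≤ t := by
  refine hp_markov (prodBern (El d) p) (fun ω => ∑ j ∈ s, RS.dom (q j).z (tr (q j).φ ω))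
    (Finset.measurable_fun_sum _ fun j _ => req_dom_meas RS (q j)) hK ht ?_
  rw [lintegral_finsetSum _ fun j _ => req_dom_meas RS (q j)]
  calc ∑ j ∈ s, ∫⁻ ω, RS.dom (q j).z (tr (q j).φ ω) ∂(prodBern (El d) p)
      ≤ ∑ _j ∈ s, ENNReal.ofReal RS.C := Finset.sum_le_sum fun j _ => req_dom RS (q j)
    _ = ENNReal.ofReal ((s.card : ℝ) * RS.C) := by
        rw [Finset.sum_const, nsmul_eq_mul, ENNReal.ofReal_mul (Nat.cast_nonneg _),
          ENNReal.ofReal_natCast]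
    _ ≤ ENNReal.ofReal K := ENNReal.ofReal_le_ofReal h

lemma reqs_cost_le {κ : Kind} {d : ℕ} {p : unitInterval} (RS : RoadSys κ d p) {ι : Type*}
    (s s' : Finset ι) (hs : s' ⊆ s) (q : ι → Req d) {ω ω' : El d → Bool} {K : ℝ} (hK : 0 ≤ K)
    (h : ∑ j ∈ s, RS.dom (q j).z (tr (q j).φ ω') ≤ ENNReal.ofReal K)
    (hag : ∀ j ∈ s', ∀ e ∈ (q j).dep, ω e = ω' e) (hok : ∀ j ∈ s', (q j).ok RS ω') :
    ∑ j ∈ s', ((q j).cost RS ω : ℝ) ≤ K := by
  have h1 : ((∑ j ∈ s', (q j).cost RS ω : ℕ) : ENNReal) ≤ ENNReal.ofReal K := by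
    refine le_trans ?_ h
    push_cast
    refine le_trans (Finset.sum_le_sum fun j hj => req_cost RS (hag j hj) (hok j hj)) ?_
    exact Finset.sum_le_sum_of_subset hs
  have h2 := ENNReal.toReal_mono ENNReal.ofReal_ne_top h1
  rw [ENNReal.toReal_natCast, ENNReal.toReal_ofReal hK] at h2
  exact_mod_cast h2

/-! ### sums over the ancestors of a cell -/

lemma anc_sum {κ : Kind} {p : unitInterval} {RS : RoadSys κ (n + 2) p} {C₁ ε : ℝ}
    {w₀ m₀ m₆ U m h i : ℕ} {a : V (n + 2)} (net : HookNet RS C₁ w₀ m₀ m₆ ε U m h i a)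
    (hC₁ : 1 ≤ C₁)
    (hw₀ : ∀ s : Finset ℕ, (∀ w ∈ s, w₀ ≤ w) →
      ∑ w ∈ s, (C₁ * C₁ * RS.C) * w * Real.exp (-(RS.c / C₁) * w) ≤ 1 / 4) (c : Fin net.nC) :
    ∑ ν ∈ net.anc c, ∑ q ∈ net.T ν, RS.C * Real.exp (-RS.c * q.r) ≤ 1 / 4 := by
  classical
  have hC := RS.hC
  have hc := RS.hc
  have h1 : ∀ ν ∈ net.anc c, ∑ q ∈ net.T ν, RS.C * Real.exp (-RS.c * q.r) ≤
      (fun w : ℕ => C₁ * RS.C * w * Real.exp (-(RS.c / C₁) * w)) (net.wt ν) := by
    intro ν _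
    have h2 : ∀ q ∈ net.T ν, RS.C * Real.exp (-RS.c * q.r) ≤
        RS.C * Real.exp (-(RS.c / C₁) * net.wt ν) := by
      intro q hq
      refine mul_le_mul_of_nonneg_left (Real.exp_le_exp.2 ?_) hC.le
      have h3 := net.T_rad ν q hq
      have h4 : RS.c / C₁ * net.wt ν ≤ RS.c * q.r := by
        rw [div_mul_eq_mul_div, div_le_iff₀ (by linarith)]
        nlinarith
      linarith
    refine le_trans (Finset.sum_le_sum h2) ?_
    rw [Finset.sum_const, nsmul_eq_mul]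
    have h5 : (0 : ℝ) ≤ RS.C * Real.exp (-(RS.c / C₁) * net.wt ν) := by positivity
    have h6 := mul_le_mul_of_nonneg_right (net.T_card ν) h5
    refine h6.trans (le_of_eq ?_)
    ring
  refine le_trans (Finset.sum_le_sum h1) ?_
  rw [Finset.sum_comp (fun w : ℕ => C₁ * RS.C * w * Real.exp (-(RS.c / C₁) * w)) net.wt]
  refine le_trans ?_ (hw₀ ((net.anc c).image net.wt) ?_)
  · refine Finset.sum_le_sum fun w _ => ?_
    rw [nsmul_eq_mul]
    have h5 : (0 : ℝ) ≤ C₁ * RS.C * w * Real.exp (-(RS.c / C₁) * w) := by positivity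
    refine (mul_le_mul_of_nonneg_right (net.anc_card c w) h5).trans (le_of_eq ?_)
    ring
  · intro w hw
    rw [Finset.mem_image] at hw
    obtain ⟨ν, -, rfl⟩ := hw
    exact net.wt_ge ν

end Pool.Agent.H17.QA
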