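import Pool.Agent.H17.QA.Desig
import Pool.Agent.H17.QA.Ent
import Pool.Agent.H17.QA.HookPM

/-!
# QA module HookPD: the core of the probability part of the Hook
-/

open MeasureTheory Filter Topology
open Pool.Agent.H17.IIC Pool.Agent.H41.QC Pool.Agent.H47.GM

namespace Pool.Agent.H17.QA

variable {n : ℕ}

lemma hp_card_image {α β : Type*} (inst : DecidableEq β) (F : Finset α) (f : α → β) (T : Set β)
    (h : T = f '' (F : Set α)) : (@Finset.image α β inst f F).card = T.ncard := by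
  rw [h, ← Finset.coe_image, Set.ncard_coe_finset]

open Classical in
/-- the data of a rich cube: a datum, weights, and a set of strands with at most two ends per cell -/
theorem hp_data {κ : Kind} {p : unitInterval} {RS : RoadSys κ (n + 2) p} {C₁ ε : ℝ}
    {w₀ m₀ m₆ U m h i : ℕ} {a : V (n + 2)} (net : HookNet RS C₁ w₀ m₀ m₆ ε U m h i a)
    {b Cp : ℝ} (hb : 0 ≤ b) (hCp : 0 ≤ Cp) (ω : El (n + 2) → Bool)
    (hrich : (2 : ℝ) ^ m ≤ MQ κ b Cp i a ω) :
    ∃ (D : TData (n + 2)) (hw : Fin D.k → ℝ) (J : Finset (Fin D.k)),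
      TOK (cube i a : Set (V (n + 2))) D ∧
      (TFam κ ω (cube i a : Set (V (n + 2))) D).Nonempty ∧
      (∀ S : Finset (Fin D.k), ∑ j ∈ S, hw j ≤
        Real.log (projS S (TFam κ ω (cube i a : Set (V (n + 2))) D)).ncard) ∧
      (∀ j ∈ J, 0 ≤ hw j - b * D.n j) ∧
      (∀ c, ((J ×ˢ (Finset.univ : Finset Bool)).filter fun js =>
        net.cell (D.pt js.1 js.2) = c).card ≤ 2) ∧
      2 ^ m / 2 + Cp * 2 ^ i * (D.k : ℝ) ^ gam (n + 2) ≤
        (m₀ : ℝ) ^ 2 * ∑ j ∈ J, (hw j - b * D.n j) ∧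
      1 ≤ D.k ∧ (D.k : ℝ) ≤ 2 ^ i * (D.k : ℝ) ^ gam (n + 2) := by
  obtain ⟨D, hTOK, hne, hval⟩ := mq_attain κ hb hCp i a ω (by positivity : (0 : ℝ) < 2 ^ m) hrich
  have hfin := tfam_finite κ ω (cube i a) D
  obtain ⟨hw, h0, hsum, hS⟩ := ent_weights hfin.toFinset (by
    rw [Set.Finite.toFinset_nonempty]
    exact hne)
  have hcard : hfin.toFinset.card = (TFam κ ω (cube i a : Set (V (n + 2))) D).ncard :=
    (Set.ncard_eq_toFinset_card _ hfin).symm
  set Jp : Finset (Fin D.k) := Finset.univ.filter fun j => 0 < hw j - b * D.n j with hJp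
  have hpt : ∀ j s, IB (cube i a : Set (V (n + 2))) (D.pt j s) := by
    intro j s
    unfold TData.pt
    cases s
    · simpa using (hTOK.2 j).1
    · simpa using (hTOK.2 j).2.1
  obtain ⟨J, hJs, hcell, hJ⟩ := designate D.pt (pt_inj hTOK hne) net.cell
    (fun c => (cube i a).filter fun v => IB (cube i a : Set (V (n + 2))) v ∧ net.cell v = c)
    net.cell_card (fun j s => by
      rw [Finset.mem_filter]
      exact ⟨(hpt j s).1, hpt j s, rfl⟩) Jp (fun j => hw j - b * D.n j) (fun j hj => by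
        rw [hJp, Finset.mem_filter] at hj
        exact hj.2.le)
  refine ⟨D, hw, J, hTOK, hne, ?_, ?_, hcell, ?_, hTOK.1, ?_⟩
  · intro S
    refine (hS S).trans (le_of_eq ?_)
    congr 2
    exact hp_card_image _ _ _ _ (by rw [Set.Finite.coe_toFinset]; rfl)
  · intro j hj
    have := hJs hj
    rw [hJp, Finset.mem_filter] at this
    exact this.2.le
  · have h1 : ∑ j, (hw j - b * D.n j) ≤ ∑ j ∈ Jp, (hw j - b * D.n j) := by
      rw [← Finset.sum_filter_add_sum_filter_not Finset.univ (fun j => 0 < hw j - b * D.n j)]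
      have h2 : ∑ j ∈ Finset.univ.filter (fun j => ¬ 0 < hw j - b * D.n j), (hw j - b * D.n j) ≤ 0 := by
        refine Finset.sum_nonpos fun j hj => ?_
        rw [Finset.mem_filter] at hj
        exact not_lt.1 hj.2
      linarith
    have h3 : ∑ j, (hw j - b * D.n j) = valD κ b Cp i a ω D + Cp * 2 ^ i * (D.k : ℝ) ^ gam (n + 2) := by
      unfold valD
      rw [Finset.sum_sub_distrib, hsum, hcard, ← Finset.mul_sum]
      ring
    linarith
  · -- the number of strands
    have hk : D.k ≤ 2 ^ ((n + 2) * i) := by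
      rw [← Closed_cube_card i a]
      have h1 : (Finset.univ.image D.x : Finset (V (n + 2))) ⊆ cube i a := by
        intro v hv
        rw [Finset.mem_image] at hv
        obtain ⟨j, -, rfl⟩ := hv
        exact (hTOK.2 j).1.1
      have h2 : Function.Injective D.x := by
        intro j j' hjj
        have := @pt_inj κ (n + 2) ω (cube i a : Set (V (n + 2))) D hTOK hne (j, false) (j', false)
          (by simpa [TData.pt] using hjj)
        exact congrArg Prod.fst this
      have h3 := Finset.card_le_card h1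
      rwa [Finset.card_image_of_injective _ h2, Finset.card_univ, Fintype.card_fin] at h3
    have hk1 : (1 : ℝ) ≤ D.k := by exact_mod_cast hTOK.1
    have hkR : (D.k : ℝ) ≤ (2 : ℝ) ^ ((n + 2) * i : ℕ) := by exact_mod_cast hk
    have hg : gam (n + 2) = 1 - 1 / (2 * ((n : ℝ) + 1)) := by
      unfold gam
      push_cast
      ring
    have h4 : (D.k : ℝ) = (D.k : ℝ) ^ (1 / (2 * ((n : ℝ) + 1))) * (D.k : ℝ) ^ gam (n + 2) := by
      rw [← Real.rpow_add (by linarith), hg]
      simp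
    have h5 : (D.k : ℝ) ^ (1 / (2 * ((n : ℝ) + 1))) ≤ 2 ^ i := by
      have h6 : (D.k : ℝ) ^ (1 / (2 * ((n : ℝ) + 1))) ≤
          ((2 : ℝ) ^ ((n + 2) * i : ℕ)) ^ (1 / (2 * ((n : ℝ) + 1))) :=
        Real.rpow_le_rpow (by linarith) hkR (by positivity)
      refine h6.trans ?_
      rw [← Real.rpow_natCast 2 ((n + 2) * i), ← Real.rpow_mul (by norm_num), ← Real.rpow_natCast 2 i]
      refine Real.rpow_le_rpow_of_exponent_le (by norm_num) ?_
      push_cast
      rw [mul_one_div, div_le_iff₀ (by positivity)]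
      nlinarith [(Nat.cast_nonneg n : (0 : ℝ) ≤ n), (Nat.cast_nonneg i : (0 : ℝ) ≤ i),
        mul_nonneg (Nat.cast_nonneg n : (0 : ℝ) ≤ n) (Nat.cast_nonneg i : (0 : ℝ) ≤ i)]
    calc (D.k : ℝ) = (D.k : ℝ) ^ (1 / (2 * ((n : ℝ) + 1))) * (D.k : ℝ) ^ gam (n + 2) := h4
      _ ≤ 2 ^ i * (D.k : ℝ) ^ gam (n + 2) :=
          mul_le_mul_of_nonneg_right h5 (Real.rpow_nonneg (by linarith) _)

end Pool.Agent.H17.QA
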