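import Pool.Agent.H17.QA.HookPC

/-!
# QA module HookPE: the core estimate for a fixed configuration inside the cube
-/

open MeasureTheory Filter Topology
open Pool.Agent.H17.IIC Pool.Agent.H41.QC Pool.Agent.H47.GM

namespace Pool.Agent.H17.QA

variable {n : ℕ}

lemma hp_inter {Ω : Type*} [MeasurableSpace Ω] (P : Measure Ω) [IsProbabilityMeasure P]
    (G H : Set Ω) : P.real G - P.real Hᶜ ≤ P.real (G ∩ H) := by
  have h1 : G ⊆ (G ∩ H) ∪ Hᶜ := by
    intro x hx
    by_cases h : x ∈ H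
    · exact Or.inl ⟨hx, h⟩
    · exact Or.inr h
  have h2 := (measureReal_mono h1 (measure_ne_top P _)).trans (measureReal_union_le (μ := P) (G ∩ H) Hᶜ)
  linarith

lemma hp_inter_snd {ι : Type*} (p : unitInterval) (G : Set ((ι → Bool) × (ι → Bool)))
    (S : Set (ι → Bool)) {t : ℝ} (hS : (prodBern ι p).real Sᶜ ≤ t) :
    ((prodBern ι p).prod (prodBern ι p)).real G - t ≤
      ((prodBern ι p).prod (prodBern ι p)).real (G ∩ (Set.univ ×ˢ S)) := by
  have h1 := hp_inter ((prodBern ι p).prod (prodBern ι p)) G (Set.univ ×ˢ S)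
  have h2 : (Set.univ ×ˢ S : Set ((ι → Bool) × (ι → Bool)))ᶜ = Set.univ ×ˢ Sᶜ := by
    ext z
    simp
  rw [h2, measureReal_prod_prod, probReal_univ, one_mul] at h1
  linarith

section core

variable {κ : Kind} {p : unitInterval} {RS : RoadSys κ (n + 2) p} {C₁ ε : ℝ}
  {w₀ m₀ m₆ U m h i : ℕ} {a : V (n + 2)} (net : HookNet RS C₁ w₀ m₀ m₆ ε U m h i a)
  (D : TData (n + 2))

/-- the base boxes at the two ends of a strand are open -/
def hpA (j : Fin D.k) : Set (El (n + 2) → Bool) :=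
  {χ | ∀ s, ∀ e ∈ net.Fl (net.cell (D.pt j s)), χ e = true}

/-- the requirements at the two ends of a strand hold -/
def hpB (j : Fin D.k) : Set (El (n + 2) → Bool) :=
  {ψ | ∀ s, ∀ ν ∈ net.anc (net.cell (D.pt j s)), ∀ q ∈ net.T ν, q.ok RS ψ}

lemma hpA_prob (j : Fin D.k) : MeasurableSet (hpA net D j) ∧
    (p : ℝ) ^ (2 * m₀) ≤ (prodBern (El (n + 2)) p).real (hpA net D j) := by
  classical
  have h1 : hpA net D j = {χ | ∀ e ∈ net.Fl (net.cell (D.pt j false)) ∪
      net.Fl (net.cell (D.pt j true)), χ e = true} := by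
    ext χ
    simp only [hpA, Set.mem_ofPred_eq, Bool.forall_bool, Finset.mem_union]
    constructor
    · rintro ⟨h1, h2⟩ e (he | he)
      · exact h1 e he
      · exact h2 e he
    · intro h
      exact ⟨fun e he => h e (Or.inl he), fun e he => h e (Or.inr he)⟩
  rw [h1]
  refine ⟨hp_open_meas _, ?_⟩
  rw [hp_open]
  refine pow_le_pow_of_le_one p.2.1 p.2.2 ?_
  refine (Finset.card_union_le _ _).trans ?_
  have h2 := net.Fl_card (net.cell (D.pt j false))
  have h3 := net.Fl_card (net.cell (D.pt j true))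
  omega

lemma hpB_prob (hC₁ : 1 ≤ C₁) (hw₀ : ∀ s : Finset ℕ, (∀ w ∈ s, w₀ ≤ w) →
      ∑ w ∈ s, (C₁ * C₁ * RS.C) * w * Real.exp (-(RS.c / C₁) * w) ≤ 1 / 4) (j : Fin D.k) :
    MeasurableSet (hpB net D j) ∧
    1 / 2 ≤ (prodBern (El (n + 2)) p).real (hpB net D j) := by
  classical
  let R : Finset (Σ _ : Bool, Σ _ : Fin net.nV, Req (n + 2)) :=
    Finset.univ.sigma fun s => (net.anc (net.cell (D.pt j s))).sigma fun ν => net.T ν
  have h1 : hpB net D j = {ψ | ∀ t ∈ R, t.2.2.ok RS ψ} := by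
    ext ψ
    simp only [hpB, Set.mem_ofPred_eq, R, Finset.mem_sigma, Finset.mem_univ, true_and]
    constructor
    · rintro h ⟨s, ν, q⟩ ⟨h1, h2⟩
      exact h s ν h1 q h2
    · intro h s ν hν q hq
      exact h ⟨s, ν, q⟩ ⟨hν, hq⟩
  rw [h1]
  refine ⟨reqs_meas RS R fun t => t.2.2, ?_⟩
  have h2 : (prodBern (El (n + 2)) p).real {ψ | ∀ t ∈ R, t.2.2.ok RS ψ}ᶜ ≤ 1 / 2 := by
    refine reqs_prob RS R (fun t => t.2.2) ?_
    rw [Finset.sum_sigma]
    have h3 : ∀ s : Bool, ∑ t ∈ (net.anc (net.cell (D.pt j s))).sigma (fun ν => net.T ν),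
        RS.C * Real.exp (-RS.c * t.2.r) ≤ 1 / 4 := by
      intro s
      rw [Finset.sum_sigma]
      exact anc_sum net hC₁ hw₀ _
    have h4 := h3 true
    have h5 := h3 false
    rw [Fintype.sum_bool]
    linarith
  have h3 := probReal_compl_eq_one_sub (μ := prodBern (El (n + 2)) p)
    (reqs_meas RS R fun t => t.2.2)
  rw [h3] at h2
  linarith

open Classical in
/-- the nodes above the ends of a set of strands -/
noncomputable def hpN (J : Finset (Fin D.k)) : Finset (Fin net.nV) :=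
  (J ×ˢ (Finset.univ : Finset Bool)).biUnion fun js => net.anc (net.cell (D.pt js.1 js.2))

/-- number of the requirements above the ends -/
lemma hpN_card (hC₁ : 1 ≤ C₁) (J : Finset (Fin D.k)) (hk : 1 ≤ D.k) :
    (((hpN net D J).sigma fun ν => net.T ν).card : ℝ) * RS.C ≤
      RS.C * C₁ ^ 2 * (2 ^ i * (D.k : ℝ) ^ gam (n + 2)) := by
  classical
  have h1 : hpN net D J = ((J ×ˢ (Finset.univ : Finset Bool)).image
      fun js => net.cell (D.pt js.1 js.2)).biUnion net.anc := by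
    rw [Finset.image_biUnion]
    rfl
  have h2 := net.cnt ((J ×ˢ (Finset.univ : Finset Bool)).image fun js => net.cell (D.pt js.1 js.2)) D.k
    hk (by
      refine Finset.card_image_le.trans ?_
      rw [Finset.card_product, Finset.card_univ, Fintype.card_bool]
      have := Finset.card_le_univ J
      rw [Fintype.card_fin] at this
      omega)
  have h3 : (((hpN net D J).sigma fun ν => net.T ν).card : ℝ) ≤ C₁ * ∑ ν ∈ hpN net D J, (net.wt ν : ℝ) := by
    rw [Finset.card_sigma, Finset.mul_sum]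
    push_cast
    exact Finset.sum_le_sum fun ν _ => net.T_card ν
  have h4 : ∑ ν ∈ hpN net D J, (net.wt ν : ℝ) ≤ C₁ * 2 ^ i * (D.k : ℝ) ^ gam (n + 2) := by
    rw [h1]
    convert h2 using 2
  have hC := RS.hC
  calc (((hpN net D J).sigma fun ν => net.T ν).card : ℝ) * RS.C
      ≤ (C₁ * (C₁ * 2 ^ i * (D.k : ℝ) ^ gam (n + 2))) * RS.C := by
        refine mul_le_mul_of_nonneg_right (h3.trans ?_) hC.le
        exact mul_le_mul_of_nonneg_left h4 (by linarith)
    _ = RS.C * C₁ ^ 2 * (2 ^ i * (D.k : ℝ) ^ gam (n + 2)) := by ring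

end core

end Pool.Agent.H17.QA
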