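import Pool.Agent.H17.QA.HookPD
import Pool.Agent.H17.QA.HookPE

/-!
# QA module HookPF: the core estimate
-/

open MeasureTheory Filter Topology
open Pool.Agent.H17.IIC Pool.Agent.H41.QC Pool.Agent.H47.GM

namespace Pool.Agent.H17.QA

variable {n : ℕ}

open Classical in
theorem hp_core {κ : Kind} {p : unitInterval} (hp : 0 < (p : ℝ)) {RS : RoadSys κ (n + 2) p} {C₁ τ : ℝ}
    {w₀ m₀ m₆ U m h i : ℕ} {a : V (n + 2)} (hτ : τ = (p : ℝ) ^ (2 * m₀) / 2)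
    (net : HookNet RS C₁ w₀ m₀ m₆ (τ / 16) U m h i a)
    (hC₁ : 1 ≤ C₁) (hm₀ : 1 ≤ m₀)
    (hw₀ : ∀ s : Finset ℕ, (∀ w ∈ s, w₀ ≤ w) →
      ∑ w ∈ s, (C₁ * C₁ * RS.C) * w * Real.exp (-(RS.c / C₁) * w) ≤ 1 / 4) (hU : 1 ≤ U)
    {b Cp c : ℝ} (hb : 0 ≤ b) (hCp : 0 ≤ Cp)
    (hCpK : b * (m₀ + 4 * (RS.C * C₁ ^ 2 / (τ / 8))) * (4 * (n + 2) * m₀ ^ 2) ≤ τ * Cp)
    (hfin : (c * (3 * 2 ^ (m - h + 7)) + b * (m₆ + 4 * (RS.C * C₁ * U * 2 ^ (m - h) / (τ / 8))))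
      * (8 * (n + 2) * m₀ ^ 2) ≤ τ * 2 ^ m)
    (x : El (n + 2) → Bool) (hrich : (2 : ℝ) ^ m ≤ MQ κ b Cp i a x) :
    (p : ℝ) ^ m₆ * (τ / 8) ≤ (prodBern (El (n + 2)) p).real
      {y | spl (InE (cube i a : Set (V (n + 2)))) x y ∈ ModG κ b c n U m h} := by
  obtain ⟨D, hw, J, hTOK, hne, hent, hv, hcell, hJ, hk1, hk⟩ := hp_data net hb hCp x hrich
  set I : Set (El (n + 2)) := InE (cube i a : Set (V (n + 2))) with hI
  set μ := prodBern (El (n + 2)) p with hμ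
  have hτ0 : 0 < τ := by rw [hτ]; positivity
  have hC := RS.hC
  have hm₀R : (1 : ℝ) ≤ m₀ := by exact_mod_cast hm₀
  have hUR : (1 : ℝ) ≤ U := by exact_mod_cast hU
  have hkR : (1 : ℝ) ≤ D.k := by exact_mod_cast hk1
  set Rk : ℝ := 2 ^ i * (D.k : ℝ) ^ gam (n + 2) with hRk
  have hRk1 : 1 ≤ Rk := hkR.trans hk
  set Y : ℝ := ∑ j ∈ J, (hw j - b * D.n j) with hY
  have hY0 : 0 < Y := by
    have h1 : (0 : ℝ) < 2 ^ m / 2 + Cp * 2 ^ i * (D.k : ℝ) ^ gam (n + 2) := by positivity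
    have h2 : 0 < (m₀ : ℝ) ^ 2 * Y := lt_of_lt_of_le h1 hJ
    exact (mul_pos_iff_of_pos_left (by positivity)).1 h2
  -- events
  let ev : Fin D.k → Set ((El (n + 2) → Bool) × (El (n + 2) → Bool)) := fun j =>
    hpA net D j ×ˢ hpB net D j
  have hev : ∀ j ∈ J, MeasurableSet (ev j) := fun j _ =>
    (hpA_prob net D j).1.prod (hpB_prob net D hC₁ hw₀ j).1
  have hevP : ∀ j ∈ J, τ ≤ (μ.prod μ).real (ev j) := by
    intro j _
    rw [show ev j = hpA net D j ×ˢ hpB net D j from rfl, measureReal_prod_prod]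
    have h1 := (hpA_prob net D j).2
    have h2 := (hpB_prob net D hC₁ hw₀ j).2
    have h3 : τ = (p : ℝ) ^ (2 * m₀) * (1 / 2) := by rw [hτ]; ring
    exact h3.le.trans (mul_le_mul h1 h2 (by norm_num) measureReal_nonneg)
  obtain ⟨-, hX⟩ := hp_first (μ.prod μ) J ev hev (fun j => hw j - b * D.n j) hv hY0 hτ0.le hevP
  set GX : Set ((El (n + 2) → Bool) × (El (n + 2) → Bool)) :=
    {z | τ * Y / 2 ≤ ∑ j ∈ J.filter fun j => z ∈ ev j, (hw j - b * D.n j)} with hGX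
  -- requirements and costs
  set T0ok : Set (El (n + 2) → Bool) := {ψ | ∀ q ∈ net.T0, q.ok RS ψ} with hT0ok
  have hT0P : μ.real T0okᶜ ≤ τ / 16 := reqs_prob RS net.T0 (fun q => q) net.T0_sum
  set K0 : ℝ := RS.C * C₁ * U * 2 ^ (m - h) with hK0
  set K1 : ℝ := RS.C * C₁ ^ 2 * Rk with hK1
  have hK0p : 0 < K0 := by positivity
  have hK1p : 0 < K1 := by positivity
  set C0 : Set (El (n + 2) → Bool) := {ψ | ∑ q ∈ net.T0, RS.dom q.z (tr q.φ ψ) ≤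
    ENNReal.ofReal (K0 / (τ / 8))} with hC0
  have hC0P : μ.real C0ᶜ ≤ τ / 8 := by
    refine (reqs_cost RS net.T0 (fun q => q) hK0p (by positivity : 0 < τ / 8) ?_).2
    have := mul_le_mul_of_nonneg_right net.T0_card hC.le
    refine this.trans (le_of_eq ?_)
    rw [hK0]
    ring
  set Rs : Finset (Σ _ : Fin net.nV, Req (n + 2)) := (hpN net D J).sigma fun ν => net.T ν with hRs
  set Cc : Set (El (n + 2) → Bool) := {ψ | ∑ t ∈ Rs, RS.dom t.2.z (tr t.2.φ ψ) ≤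
    ENNReal.ofReal (K1 / (τ / 8))} with hCc
  have hC1P : μ.real Ccᶜ ≤ τ / 8 :=
    (reqs_cost RS Rs (fun t => t.2) hK1p (by positivity : 0 < τ / 8)
      (hpN_card net D hC₁ J hk1)).2
  -- the good event
  set Good := ((GX ∩ (Set.univ ×ˢ T0ok)) ∩ (Set.univ ×ˢ C0)) ∩ (Set.univ ×ˢ Cc) with hGood
  have hGoodP : τ / 8 ≤ (μ.prod μ).real Good := by
    have h1 := hp_inter_snd p GX T0ok hT0P
    have h2 := hp_inter_snd p (GX ∩ (Set.univ ×ˢ T0ok)) C0 hC0P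
    have h3 := hp_inter_snd p ((GX ∩ (Set.univ ×ˢ T0ok)) ∩ (Set.univ ×ˢ C0)) Cc hC1P
    have h4 : τ / 2 ≤ (μ.prod μ).real GX := by
      rw [hGX]
      convert hX
    have h1' : (μ.prod μ).real GX - τ / 16 ≤ (μ.prod μ).real (GX ∩ (Set.univ ×ˢ T0ok)) := h1
    have h2' : (μ.prod μ).real (GX ∩ (Set.univ ×ˢ T0ok)) - τ / 8 ≤
      (μ.prod μ).real ((GX ∩ (Set.univ ×ˢ T0ok)) ∩ (Set.univ ×ˢ C0)) := h2
    have h3' : (μ.prod μ).real ((GX ∩ (Set.univ ×ˢ T0ok)) ∩ (Set.univ ×ˢ C0)) - τ / 8 ≤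
      (μ.prod μ).real Good := h3
    linarith
  set A : Set (El (n + 2) → Bool) := {χ | ∀ e ∈ net.Fl0, χ e = true} with hA
  have hAP : (p : ℝ) ^ m₆ ≤ μ.real A := by
    rw [hA, hμ, hp_open]
    exact pow_le_pow_of_le_one p.2.1 p.2.2 net.Fl0_card
  set F1 : Set (El (n + 2)) := {e | ∃ c, e ∈ net.Fl c} with hF1
  have hmG : MeasurableSet {y | spl I x y ∈ ModG κ b c n U m h} :=
    ((spl_meas I).comp measurable_prodMk_left) (modG_meas κ b c n U m h)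
  have hlay := hp_layers p (net.Fl0 : Set (El (n + 2))) F1 (A := A) (W := Good) hmG ?_
  · calc (p : ℝ) ^ m₆ * (τ / 8) ≤ μ.real A * (μ.prod μ).real Good :=
          mul_le_mul hAP hGoodP (by positivity) measureReal_nonneg
      _ ≤ _ := hlay
  -- the deterministic part
  intro x₀ hx₀ z hz
  obtain ⟨⟨⟨hzX, -, hzT⟩, -, hz0⟩, -, hz1⟩ := hz
  show spl I x (spl (net.Fl0 : Set (El (n + 2))) x₀ (spl F1 z.1 z.2)) ∈ ModG κ b c n U m h
  set y := spl (net.Fl0 : Set (El (n + 2))) x₀ (spl F1 z.1 z.2) with hy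
  set ω := spl I x y with hω
  set Λs : Set (El (n + 2)) := {e | e ∈ net.Sp0 ∨ ∃ c, e ∈ net.Sp c} with hΛs
  set ω' := spl I x (spl Λs z.2 y) with hω'
  set J' := J.filter fun j => z ∈ ev j with hJ'
  have hagr : ∀ q, (q ∈ net.T0 ∨ ∃ ν, q ∈ net.T ν) → ∀ e ∈ q.dep, ω' e = z.2 e := by
    intro q hq e he
    obtain ⟨h1, h2, h3⟩ := net.dep_out q hq e he
    rw [hω', spl_out h1]
    by_cases h4 : e ∈ Λs
    · rw [spl_in h4]
    · rw [spl_out h4, hy, spl_out, spl_out]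
      · rintro ⟨c, hc⟩
        exact h4 (Or.inr ⟨c, h3 c hc⟩)
      · intro h5
        exact h4 (Or.inl (h2 h5))
  have hT0' : ∀ q ∈ net.T0, q.ok RS ω' := fun q hq =>
    (req_ok RS (hagr q (Or.inl hq))).2 (hzT q hq)
  have hTT : ∀ j ∈ J', ∀ s, ∀ ν ∈ net.anc (net.cell (D.pt j s)), ∀ q ∈ net.T ν, q.ok RS z.2 := by
    intro j hj s ν hν q hq
    rw [hJ', Finset.mem_filter] at hj
    exact hj.2.2 s ν hν q hq
  have hTFx : TFam κ ω (cube i a : Set (V (n + 2))) D = TFam κ x (cube i a : Set (V (n + 2))) D :=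
    Closed_tfam_congr (fun e he => by rw [hω, spl_in (show e ∈ I from he)]) D
  have hc0 : ∑ q ∈ net.T0, (q.cost RS ω' : ℝ) ≤ K0 / (τ / 8) :=
    reqs_cost_le RS net.T0 net.T0 (Finset.Subset.refl _) (fun q => q) (by positivity) hz0
      (fun q hq => hagr q (Or.inl hq)) (fun q hq => hzT q hq)
  have hc1 : ∑ ν ∈ (J' ×ˢ (Finset.univ : Finset Bool)).biUnion
      (fun js => net.anc (net.cell (D.pt js.1 js.2))), ∑ q ∈ net.T ν, (q.cost RS ω' : ℝ) ≤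
      K1 / (τ / 8) := by
    have h1 := reqs_cost_le RS Rs ((hpN net D J').sigma fun ν => net.T ν)
      (Finset.sigma_mono (Finset.biUnion_subset_biUnion_of_subset_left _
        (Finset.product_subset_product_left (Finset.filter_subset _ _))) fun _ => Finset.Subset.refl _)
      (fun t => t.2) (ω := ω') (ω' := z.2) (by positivity : 0 ≤ K1 / (τ / 8)) hz1
      (fun t ht => by
        rw [Finset.mem_sigma] at ht
        exact hagr t.2 (Or.inr ⟨t.1, ht.2⟩))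
      (fun t ht => by
        rw [Finset.mem_sigma, hpN, Finset.mem_biUnion] at ht
        obtain ⟨⟨js, h1, h2⟩, h3⟩ := ht
        exact hTT js.1 (Finset.mem_product.1 h1).1 js.2 t.1 h2 t.2 h3)
    rw [Finset.sum_sigma] at h1
    exact h1
  have hJ'ne : J'.Nonempty := by
    rw [Finset.nonempty_iff_ne_empty]
    intro h0
    have h1 : τ * Y / 2 ≤ ∑ j ∈ J', (hw j - b * D.n j) := hzX
    rw [h0, Finset.sum_empty] at h1
    have : 0 < τ * Y / 2 := by positivity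
    linarith
  have hJ'k : (J'.card : ℝ) ≤ D.k := by
    have := Finset.card_le_univ J'
    rw [Fintype.card_fin] at this
    exact_mod_cast this
  refine hp_det net (K := m₀ * Rk + m₆ + 4 * (K0 / (τ / 8)) + 4 * (K1 / (τ / 8))) (X := τ * Y / 2) hb ω ω' D J' hw
    hTOK (hTFx ▸ hne) (fun S => hTFx ▸ hent S) hJ'ne (fun j hj => hv j (Finset.filter_subset _ _ hj))
    ?_ ?_ ?_ ?_ hT0' ?_ hzX ?_ ?_
  · intro c
    refine le_trans (Finset.card_le_card ?_) (hcell c)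
    exact Finset.filter_subset_filter _ (Finset.product_subset_product_left (Finset.filter_subset _ _))
  · intro e h1 h2
    by_cases h3 : e ∈ I
    · rw [hω, hω', spl_in h3, spl_in h3]
    · rw [hω, hω', spl_out h3, spl_out h3, spl_out]
      rintro (h4 | ⟨c, h4⟩)
      · exact h1 h4
      · exact h2 c h4
  · intro e he
    rw [hω, spl_out (net.Fl0_out e he), hy, spl_in (Finset.mem_coe.2 he)]
    exact hx₀ e he
  · intro j hj s e he
    rw [hJ', Finset.mem_filter] at hj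
    have h1 : e ∉ net.Fl0 := fun h0 => (Finset.disjoint_left.1 (net.Fl0_disj _)) h0 he
    rw [hω, spl_out (net.Fl_out _ e he), hy, spl_out (fun h0 => h1 (Finset.mem_coe.1 h0)),
      spl_in (show e ∈ F1 from ⟨_, he⟩)]
    exact hj.2.1 s e he
  · intro j hj s ν hν q hq
    exact (req_ok RS (hagr q (Or.inr ⟨ν, hq⟩))).2 (hTT j hj s ν hν q hq)
  · have h1 : (m₀ : ℝ) * J'.card ≤ m₀ * Rk :=
      mul_le_mul_of_nonneg_left (hJ'k.trans hk) (by positivity)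
    linarith
  · have hd : (0 : ℝ) < 8 * (n + 2) * m₀ ^ 2 := by positivity
    have h1 : (2 : ℝ) ^ m / 2 + Cp * Rk ≤ (m₀ : ℝ) ^ 2 * Y := by
      rw [hRk, ← mul_assoc]
      exact hJ
    rw [le_div_iff₀ (by positivity)]
    have h2 : τ * (2 ^ m / 2 + Cp * Rk) ≤ τ * ((m₀ : ℝ) ^ 2 * Y) := mul_le_mul_of_nonneg_left h1 hτ0.le
    have h3 : b * (m₀ + 4 * (RS.C * C₁ ^ 2 / (τ / 8))) * (4 * (n + 2) * m₀ ^ 2) * Rk ≤ τ * Cp * Rk :=
      mul_le_mul_of_nonneg_right hCpK (by linarith)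
    have h4 : (c * (3 * 2 ^ (m - h + 7)) + b * (m₀ * Rk + m₆ + 4 * (K0 / (τ / 8)) + 4 * (K1 / (τ / 8))))
        * (8 * (n + 2) * m₀ ^ 2) ≤ 2 * (τ * ((m₀ : ℝ) ^ 2 * Y)) := by
      have e1 : K1 / (τ / 8) = RS.C * C₁ ^ 2 / (τ / 8) * Rk := by
        rw [hK1]
        ring
      rw [e1]
      have e2 : (c * (3 * 2 ^ (m - h + 7)) + b * (m₀ * Rk + m₆ + 4 * (K0 / (τ / 8))
          + 4 * (RS.C * C₁ ^ 2 / (τ / 8) * Rk))) * (8 * (n + 2) * m₀ ^ 2)
          = (c * (3 * 2 ^ (m - h + 7)) + b * (m₆ + 4 * (K0 / (τ / 8)))) * (8 * (n + 2) * m₀ ^ 2)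
            + 2 * (b * (m₀ + 4 * (RS.C * C₁ ^ 2 / (τ / 8))) * (4 * (n + 2) * m₀ ^ 2) * Rk) := by ring
      rw [e2]
      linarith
    have hm2 : (0 : ℝ) < m₀ ^ 2 := by positivity
    refine le_of_mul_le_mul_right ?_ (by positivity : (0 : ℝ) < 4 * m₀ ^ 2)
    linarith

end Pool.Agent.H17.QA
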