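import Pool.Agent.H17.QA.HookPF

/-!
# QA module HookProb: the probability part of the Hook

`hookP`: a cube which is rich at scale `2^m` is, with conditional probability at least `c' > 0` given the
elements inside it, part of a module of surplus at least `384 c₁ 2^m`.

PROOF. Notation `d = n + 2`, `γ = gam d`, `C₁` from `HookGeo`, `Q = cube i a`, `R = 2^i`.
(0) For `t = 2^m ≤ MQ`, `mq_le_vol` gives `2^m ≤ 2^(d i) log (2 d)`; so `HookGeo` applies for `m ≥ M₀`.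
(1) CONSTANTS. Choose `w₁` (hence `w₀`) so large that for every cell `c`
`∑_(ν ∈ anc c) ∑_(q ∈ T ν) RS.C exp (-RS.c r) ≤ ∑_(w ≥ w₀) C₁ (C₁ w) RS.C exp (-RS.c w / C₁) ≤ 1/4`; get `m₀`. Put
`pf = p^(2 m₀)`, `τ = pf / 2`, `ε = τ / 16`; get `m₆`. `pA = p^(m₆)`.
(2) DATA. `ω ∈ {2^m ≤ MQ}`: by `mq_attain` a datum `D` with `valD ≥ 2^(m-1)` and nonempty `TFam`; `D` may be chosen
as a function of `ω` restricted to `InE Q`. `ent_weights` for `TFam` gives `h j ≥ 0`, `∑ h j = log |TFam|`. Put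
`v j = h j - b n j`, `J⁺ = {v j > 0}`: `∑_(J⁺) v ≥ valD + Cp R k^γ ≥ 2^(m-1) + Cp R k^γ`. `designate` (cells of the
network, points = ends, distinct because `TFam` is nonempty) gives `J ⊆ J⁺` with at most two ends per cell
and `Y = ∑_J v ≥ m₀^(-2) (2^(m-1) + Cp R k^γ)`.
(3) RANDOMNESS. Fix `ω` on `InE Q` (in the event `E`). Index set `Fin 2 × El`, layers `ω`, `ω~`; `ω' = ω~` on
`Sp0 ∪ ⋃ Sp c` and `ω` elsewhere: law of `ω'` is `P`. Strand `j ∈ J` is kept if `Fl (cell (pt j s))` is open in `ω`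
for both `s` and all requirements of `anc (cell (pt j s))` hold in `ω'`. By `Sp ⊆ Fl`, disjointness and
`dep_out` the openness of all `Fl`, `Fl0` (layer 0) and the requirements (layer 0 off all `Fl`, `Fl0`, layer 1 on
`Sp`, `Sp0`) depend on disjoint sets of coordinates, all of them not in `{0} × InE Q`. So
`P (j kept) ≥ p^(2 m₀) (1 - 2/4) = τ` and `X = ∑_(j kept) v j` satisfies `0 ≤ X ≤ Y`, `E X ≥ τ Y`, so
`P (X ≥ τ Y / 2) ≥ τ / 2`. Independent of the openness of `Fl0` (probability at least `pA`).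
`P (some requirement of T0 fails) ≤ ε = τ/16`.
COSTS. Let `W = ∑_ν ∑_(q ∈ T ν) RS.dom q.z (tr q.φ ω')`, `ν` over the ancestors of the cells of the ends of `J`:
`E W ≤ RS.C C₁ ∑ wt ≤ RS.C C₁^2 R k^γ` by `cnt`; `P (W > (8/τ) RS.C C₁^2 R k^γ) ≤ τ/8`.
`W0 = ∑_(q ∈ T0) dom`: `E W0 ≤ RS.C C₁ U 2^(m-h)`; `P (W0 > (8/τ) RS.C C₁ U 2^(m-h)) ≤ τ/8`.
So with probability at least `pA (τ/2 - τ/16 - τ/8 - τ/8) ≥ pA τ / 8 = c'`: `Fl0` open, `X ≥ τ Y/2`, `T0` ok and the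
two cost bounds hold.
(4) CONCLUSION. Then `J' = kept strands` is nonempty; `link` (for `J'`, `v`) gives `S ⊆ J'` with
`∑_S v ≥ X/(2 d)`, `π`, `τ`, `N ≤ ∑_S n + m₀ k + m₆ + 4 W0 + 4 W` (costs are at most `dom` where the requirements
hold) and `log Zc ≥ log |projS S TFam| ≥ ∑_S h = ∑_S v + b ∑_S n`. Hence
`log Zc - b N ≥ τ Y/(4 d) - b (m₀ k + m₆ + 4 W0 + 4 W)`. Here `k ≤ |IB Q| ≤ 2 d R^(d-1)`, so
`m₀ k ≤ C m₀ k^γ R^(1/2)`, and `Y ≥ m₀^(-2)(2^(m-1) + Cp R k^γ)`: for `Cp` large (depending on `τ, m₀, C₁, RS, b`)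
the terms with `R k^γ` are absorbed; for `h` large (depending on `U`) `4 b (8/τ) RS.C C₁ U 2^(m-h)` is at most a
quarter of `τ 2^(m-1)/(4 d m₀^2)`, for `m` large also `b m₆`. So the surplus is at least `384 c₁ 2^m` with
`c₁ = τ / (2^12 d m₀^2)` say, which is `(c₁ 2^h) (3 2^(m-h+7))`.
(5) From fixed `ω` on `InE Q` to the event `E`: `P (E ∩ G) = ∫_E P (G | ω on InE Q)`; `mu_indep` style splitting
on the finite set `InE Q`. (`G` = the union over `π, τ` of the module events; it is local, hence measurable.)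
-/

open MeasureTheory Filter Topology
open Pool.Agent.H17.IIC Pool.Agent.H41.QC Pool.Agent.H47.GM

namespace Pool.Agent.H17.QA

variable {n : ℕ}

theorem hookP {κ : Kind} {p : unitInterval} (RS : RoadSys κ (n + 2) p) (hp : 0 < (p : ℝ))
    (hgeo : HookGeo RS) (b : ℝ) (hb : 0 ≤ b) :
    ∃ Cp c₁ c' : ℝ, 0 ≤ Cp ∧ 0 < c₁ ∧ 0 < c' ∧ ∃ U₁ : ℕ, 1 ≤ U₁ ∧ ∀ U ≥ U₁, ∃ h₁ : ℕ, 1 ≤ h₁ ∧
      ∀ h ≥ h₁, ∃ M₀ : ℕ, ∀ m ≥ M₀,
      ∀ (i : ℕ) (a : V (n + 2)), cube i a ⊆ cube (m - h) 0 → ∀ E : Set (El (n + 2) → Bool),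
        MeasurableSet E → On (InE (cube i a : Set (V (n + 2)))) E →
        E ⊆ {ω | (2 : ℝ) ^ m ≤ MQ κ b Cp i a ω} →
        c' * (prodBern (El (n + 2)) p).real E ≤
          (prodBern (El (n + 2)) p).real (E ∩ ModG κ b (c₁ * 2 ^ h) n U m h) := by
  obtain ⟨C₁, hC₁, U₁, hU₁, hgeo⟩ := hgeo
  have hC := RS.hC
  have hc := RS.hc
  obtain ⟨w₁, hw₁⟩ := hp_tail (C₁ * C₁ * RS.C) (RS.c / C₁) (by positivity) (by norm_num : (0 : ℝ) < 1 / 4)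
  obtain ⟨w₀, hw₀, m₀, hm₀, hgeo⟩ := hgeo w₁
  obtain ⟨τ, hτ⟩ : ∃ τ : ℝ, τ = (p : ℝ) ^ (2 * m₀) / 2 := ⟨_, rfl⟩
  have hτ0 : 0 < τ := by rw [hτ]; positivity
  obtain ⟨m₆, hgeo⟩ := hgeo (τ / 16) (by positivity)
  have hm₀R : (1 : ℝ) ≤ m₀ := by exact_mod_cast hm₀
  have hd : (0 : ℝ) < 8 * (n + 2) * m₀ ^ 2 := by positivity
  have htail : ∀ s : Finset ℕ, (∀ w ∈ s, w₀ ≤ w) →
      ∑ w ∈ s, (C₁ * C₁ * RS.C) * w * Real.exp (-(RS.c / C₁) * w) ≤ 1 / 4 :=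
    fun s hs => hw₁ s fun w hw => hw₀.trans (hs w hw)
  have hCp0 : 0 ≤ b * (m₀ + 4 * (RS.C * C₁ ^ 2 / (τ / 8))) * (4 * (n + 2) * m₀ ^ 2) / τ := by positivity
  refine ⟨b * (m₀ + 4 * (RS.C * C₁ ^ 2 / (τ / 8))) * (4 * (n + 2) * m₀ ^ 2) / τ,
    τ / (1024 * (8 * (n + 2) * m₀ ^ 2)), (p : ℝ) ^ m₆ * (τ / 8), hCp0, by positivity, by positivity,
    U₁, hU₁, ?_⟩
  intro U hU
  obtain ⟨h₁, hh₁⟩ := pow_unbounded_of_one_lt
    (4 * (b * (RS.C * C₁ * U / (τ / 8)) * (8 * (n + 2) * m₀ ^ 2) * 4) / τ) (one_lt_two : (1 : ℝ) < 2)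
  refine ⟨h₁ + 1, by omega, ?_⟩
  intro h hh
  have hh' : 4 * (b * (RS.C * C₁ * U / (τ / 8)) * (8 * (n + 2) * m₀ ^ 2) * 4) ≤ τ * 2 ^ h := by
    have e1 : (2 : ℝ) ^ h₁ ≤ 2 ^ h := pow_le_pow_right₀ (by norm_num) (by omega)
    rw [div_lt_iff₀ hτ0] at hh₁
    nlinarith
  obtain ⟨M₁, hM₁⟩ := hgeo U h hU (by omega)
  obtain ⟨M₂, hM₂⟩ := pow_unbounded_of_one_lt
    (b * m₆ * (8 * (n + 2) * m₀ ^ 2) * 4 / τ) (one_lt_two : (1 : ℝ) < 2)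
  refine ⟨M₁ + M₂ + h, ?_⟩
  intro m hm i a hcube E hE hEI hrich
  have hm' : b * m₆ * (8 * (n + 2) * m₀ ^ 2) * 4 ≤ τ * 2 ^ m := by
    have e1 : (2 : ℝ) ^ M₂ ≤ 2 ^ m := pow_le_pow_right₀ (by norm_num) (by omega)
    rw [div_lt_iff₀ hτ0] at hM₂
    nlinarith
  refine hp_cond p (InE (cube i a : Set (V (n + 2)))) hE (modG_meas _ _ _ _ _ _ _) hEI (by positivity) ?_
  intro x hx
  have hxr : (2 : ℝ) ^ m ≤ MQ κ b (b * (m₀ + 4 * (RS.C * C₁ ^ 2 / (τ / 8))) * (4 * (n + 2) * m₀ ^ 2) / τ) i a x :=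
    hrich hx
  have hvol := hxr.trans (mq_le_vol κ hb hCp0 i a x)
  obtain ⟨net⟩ := hM₁ m (by omega) i a hcube (by
    push_cast at hvol
    exact hvol)
  refine hp_core hp hτ net hC₁ hm₀ htail (hU₁.trans hU) hb hCp0 ?_ ?_ x hxr
  · rw [mul_div_cancel₀ _ hτ0.ne']
  · have hsplit : (2 : ℝ) ^ m = 2 ^ (m - h) * 2 ^ h := by
      rw [← pow_add]
      congr 1
      omega
    have e1 : τ / (1024 * (8 * (n + 2) * m₀ ^ 2)) * 2 ^ h * (3 * 2 ^ (m - h + 7)) * (8 * (n + 2) * m₀ ^ 2)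
        = 3 / 8 * (τ * 2 ^ m) := by
      rw [hsplit, pow_add]
      field_simp
      ring
    have e2 : 4 * (b * (RS.C * C₁ * U * 2 ^ (m - h) / (τ / 8)) * (8 * (n + 2) * m₀ ^ 2) * 4) ≤ τ * 2 ^ m := by
      have e3 : 4 * (b * (RS.C * C₁ * U * 2 ^ (m - h) / (τ / 8)) * (8 * (n + 2) * m₀ ^ 2) * 4)
          = 4 * (b * (RS.C * C₁ * U / (τ / 8)) * (8 * (n + 2) * m₀ ^ 2) * 4) * 2 ^ (m - h) := by ring
      rw [e3, hsplit]
      have e4 := mul_le_mul_of_nonneg_right hh' (by positivity : (0 : ℝ) ≤ 2 ^ (m - h))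
      linarith
    have e5 : 0 < τ * 2 ^ m := by positivity
    have e6 : (τ / (1024 * (8 * (n + 2) * m₀ ^ 2)) * 2 ^ h * (3 * 2 ^ (m - h + 7))
        + b * (m₆ + 4 * (RS.C * C₁ * U * 2 ^ (m - h) / (τ / 8)))) * (8 * (n + 2) * m₀ ^ 2)
        = τ / (1024 * (8 * (n + 2) * m₀ ^ 2)) * 2 ^ h * (3 * 2 ^ (m - h + 7)) * (8 * (n + 2) * m₀ ^ 2)
          + b * m₆ * (8 * (n + 2) * m₀ ^ 2)
          + 4 * (b * (RS.C * C₁ * U * 2 ^ (m - h) / (τ / 8)) * (8 * (n + 2) * m₀ ^ 2)) := by ring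
    rw [e6, e1]
    linarith

end Pool.Agent.H17.QA
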