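import Pool.Agent.H17.QA.Ctrl
import Pool.Agent.H17.QA.HookGeo
import Pool.Agent.H17.QA.HookProb
import Pool.Agent.H41.QA.ListPath

/-!
# QA module HookSel: rich cubes give modules (Selection)

PROOF. `hookP` gives `Cp`, `c₁`, `c'`, `U₁`. Choose `U ≥ U₀, U₁` a positive multiple of `RS.L`, then `h ≥ h₁` with
`U ≤ 3 c₀ c₁ 2^h`. For `m ≥ M₀` let `N` be the number of the pairs `(i, a)`, `i ≤ m - h`, `cube i a ⊆ cube (m-h) 0`, which
are MINIMAL RICH: `2^m ≤ MQ i a` and no proper dyadic subcube `cube i' a' ⊂ cube i a` is rich. Minimal rich cubes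
are pairwise disjoint (dyadic cubes are nested or disjoint) and the event `E_(i,a)` that `cube i a` is minimal
rich depends on the elements inside, so `E N² ≤ S + S²` with `S = E N`, while `hookP` applied to `E_(i,a)` gives
`E (N 1_G) ≥ c' S`, `G = ModG`. Cauchy-Schwarz: `(c' S)^2 ≤ (S + S²) P(G)`, so `P(G) ≥ c'^2 S/(1+S)`, and
`P(RichE) ≤ min(1, S) ≤ 2 S/(1+S) ≤ (2/c'^2) P(G)`; `P(G) ≤ (number of (π, τ)) P(Mod ..)` by invariance of the law.
So `Ctrl` holds with one class `u = U e_0`, `α m = 2^(m-h+7)`, `β m = 3 2^(m-h+7)`, `c = c₁ 2^h`, `C₁ = 4 U`, `s = 4`.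
-/

open MeasureTheory Filter Topology
open Pool.Agent.H17.IIC Pool.Agent.H41.QC Pool.Agent.H47.GM

namespace Pool.Agent.H17.QA

/-! ### second moment -/

lemma Sel_second {Ω : Type*} [MeasurableSpace Ω] (P : Measure Ω) [IsProbabilityMeasure P]
    {ι : Type*} [DecidableEq ι] (s : Finset ι) (E : ι → Set Ω) (hE : ∀ q ∈ s, MeasurableSet (E q))
    (hpair : ∀ q ∈ s, ∀ q' ∈ s, q ≠ q' → P.real (E q ∩ E q') ≤ P.real (E q) * P.real (E q'))
    (G : Set Ω) (hG : MeasurableSet G) (c' : ℝ) (hc' : 0 < c')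
    (hc : ∀ q ∈ s, c' * P.real (E q) ≤ P.real (E q ∩ G)) :
    c' ^ 2 * P.real (⋃ q ∈ s, E q) ≤ 2 * P.real G := by
  set S : ℝ := ∑ q ∈ s, P.real (E q) with hS
  have hS0 : 0 ≤ S := Finset.sum_nonneg fun q _ => measureReal_nonneg
  set X := P.real (⋃ q ∈ s, E q) with hX
  have hX0 : 0 ≤ X := measureReal_nonneg
  have hX1 : X ≤ 1 := measureReal_le_one
  have hXS : X ≤ S := measureReal_biUnion_finset_le _ _
  -- the quadratic inequality
  have key : ∀ t : ℝ, 0 ≤ t → 0 ≤ (S + S * S) - 2 * t * (c' * S) + t ^ 2 * P.real G := by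
    intro t ht
    let f : ι → Ω → ℝ := fun q => (E q).indicator 1
    let g : Ω → ℝ := G.indicator 1
    have hint : ∀ A : Set Ω, MeasurableSet A → Integrable (A.indicator (1 : Ω → ℝ)) P := fun A hA =>
      (integrable_const (1 : ℝ)).indicator hA
    have hval : ∀ A : Set Ω, MeasurableSet A → ∫ ω, A.indicator (1 : Ω → ℝ) ω ∂P = P.real A :=
      fun A hA => by rw [integral_indicator_one hA]
    have hmul : ∀ (A B : Set Ω) (ω : Ω), A.indicator (1 : Ω → ℝ) ω * B.indicator (1 : Ω → ℝ) ω =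
        (A ∩ B).indicator (1 : Ω → ℝ) ω := by
      intro A B ω
      rw [Set.inter_indicator_one]
      rfl
    have h0 : 0 ≤ ∫ ω, ((∑ q ∈ s, (E q).indicator (1 : Ω → ℝ) ω) - t) ^ 2 *
        G.indicator (1 : Ω → ℝ) ω ∂P := by
      apply integral_nonneg
      intro ω
      exact mul_nonneg (sq_nonneg _) (Set.indicator_nonneg (fun _ _ => zero_le_one) _)
    have h1 : ∀ ω, ((∑ q ∈ s, (E q).indicator (1 : Ω → ℝ) ω) - t) ^ 2 *
        G.indicator (1 : Ω → ℝ) ω =
        (∑ q ∈ s, ∑ q' ∈ s, ((E q ∩ E q') ∩ G).indicator (1 : Ω → ℝ) ω)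
          - 2 * t * (∑ q ∈ s, (E q ∩ G).indicator (1 : Ω → ℝ) ω)
          + t ^ 2 * G.indicator (1 : Ω → ℝ) ω := by
      intro ω
      rw [sub_sq, sq (∑ q ∈ s, (E q).indicator (1 : Ω → ℝ) ω), Finset.sum_mul_sum]
      rw [add_mul, sub_mul, Finset.sum_mul]
      congr 1
      congr 1
      · apply Finset.sum_congr rfl
        intro q _
        rw [Finset.sum_mul]
        apply Finset.sum_congr rfl
        intro q' _
        rw [hmul, hmul]
      · rw [mul_right_comm 2 _ t, mul_assoc (2 * t), Finset.sum_mul]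
        congr 1
        apply Finset.sum_congr rfl
        intro q _
        rw [hmul]
    simp only [h1] at h0
    have i1 : Integrable (fun ω => ∑ q ∈ s, ∑ q' ∈ s,
        ((E q ∩ E q') ∩ G).indicator (1 : Ω → ℝ) ω) P :=
      integrable_finsetSum _ fun q hq => integrable_finsetSum _ fun q' hq' =>
        hint _ (((hE q hq).inter (hE q' hq')).inter hG)
    have i2 : Integrable (fun ω => 2 * t * ∑ q ∈ s, (E q ∩ G).indicator (1 : Ω → ℝ) ω) P :=
      (integrable_finsetSum _ fun q hq => hint _ ((hE q hq).inter hG)).const_mul _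
    have i3 : Integrable (fun ω => t ^ 2 * G.indicator (1 : Ω → ℝ) ω) P :=
      (hint _ hG).const_mul _
    have i12 : Integrable (fun ω => (∑ q ∈ s, ∑ q' ∈ s,
        ((E q ∩ E q') ∩ G).indicator (1 : Ω → ℝ) ω) -
        2 * t * ∑ q ∈ s, (E q ∩ G).indicator (1 : Ω → ℝ) ω) P := i1.sub i2
    rw [integral_add i12 i3, integral_sub i1 i2, integral_const_mul, integral_const_mul,
      hval G hG, integral_finsetSum _ fun q hq => integrable_finsetSum _ fun q' hq' =>
        hint _ (((hE q hq).inter (hE q' hq')).inter hG),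
      integral_finsetSum _ fun q hq => hint _ ((hE q hq).inter hG)] at h0
    have h2 : ∀ q ∈ s, ∫ ω, ∑ q' ∈ s, ((E q ∩ E q') ∩ G).indicator (1 : Ω → ℝ) ω ∂P ≤
        P.real (E q) + P.real (E q) * S := by
      intro q hq
      rw [integral_finsetSum _ fun q' hq' => hint _ (((hE q hq).inter (hE q' hq')).inter hG)]
      calc ∑ q' ∈ s, ∫ ω, ((E q ∩ E q') ∩ G).indicator (1 : Ω → ℝ) ω ∂P
          ≤ ∑ q' ∈ s, ((if q' = q then P.real (E q) else 0) + P.real (E q) * P.real (E q')) := by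
            apply Finset.sum_le_sum
            intro q' hq'
            rw [hval _ (((hE q hq).inter (hE q' hq')).inter hG)]
            have h3 : P.real (E q ∩ E q' ∩ G) ≤ P.real (E q ∩ E q') :=
              measureReal_mono Set.inter_subset_left
            by_cases hqq : q' = q
            · subst hqq
              rw [if_pos rfl]
              have h4 : P.real (E q' ∩ E q') = P.real (E q') := by rw [Set.inter_self]
              have h5 : 0 ≤ P.real (E q') * P.real (E q') :=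
                mul_nonneg measureReal_nonneg measureReal_nonneg
              linarith
            · rw [if_neg hqq]
              have h4 := hpair q hq q' hq' (fun h => hqq h.symm)
              linarith
        _ = P.real (E q) + P.real (E q) * S := by
            rw [Finset.sum_add_distrib, Finset.sum_ite_eq' s q, if_pos hq, ← Finset.mul_sum]
    have h3 : ∑ q ∈ s, ∫ ω, ∑ q' ∈ s, ((E q ∩ E q') ∩ G).indicator (1 : Ω → ℝ) ω ∂P ≤
        S + S * S := by
      refine (Finset.sum_le_sum h2).trans ?_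
      rw [Finset.sum_add_distrib, ← Finset.sum_mul]
    have h4 : c' * S ≤ ∑ q ∈ s, ∫ ω, (E q ∩ G).indicator (1 : Ω → ℝ) ω ∂P := by
      rw [hS, Finset.mul_sum]
      apply Finset.sum_le_sum
      intro q hq
      rw [hval _ ((hE q hq).inter hG)]
      exact hc q hq
    have h5 : 2 * t * (c' * S) ≤ 2 * t * ∑ q ∈ s, ∫ ω, (E q ∩ G).indicator (1 : Ω → ℝ) ω ∂P :=
      mul_le_mul_of_nonneg_left h4 (by positivity)
    linarith
  have h1 := key ((1 + S) / c') (by positivity)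
  have h2 : 2 * ((1 + S) / c') * (c' * S) = 2 * (1 + S) * S := by
    field_simp
  rw [h2, div_pow] at h1
  have h3 : (1 + S) * S * c' ^ 2 ≤ (1 + S) ^ 2 * P.real G := by
    have h4 : 0 ≤ ((S + S * S - 2 * (1 + S) * S) + (1 + S) ^ 2 / c' ^ 2 * P.real G) * c' ^ 2 :=
      mul_nonneg h1 (by positivity)
    have h5 : ((S + S * S - 2 * (1 + S) * S) + (1 + S) ^ 2 / c' ^ 2 * P.real G) * c' ^ 2 =
        -((1 + S) * S * c' ^ 2) + (1 + S) ^ 2 * P.real G := by
      field_simp
      ring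
    linarith
  have h6 : S * c' ^ 2 ≤ (1 + S) * P.real G := by
    have h7 : (0 : ℝ) < 1 + S := by linarith
    have h8 : (1 + S) * (S * c' ^ 2) ≤ (1 + S) * ((1 + S) * P.real G) := by nlinarith
    exact le_of_mul_le_mul_left h8 h7
  have h9 : X * (1 + S) ≤ 2 * S := by nlinarith
  have h10 : (1 + S) * (c' ^ 2 * X) ≤ (1 + S) * (2 * P.real G) := by
    have : c' ^ 2 * (X * (1 + S)) ≤ c' ^ 2 * (2 * S) := mul_le_mul_of_nonneg_left h9 (by positivity)
    nlinarith
  exact le_of_mul_le_mul_left h10 (by linarith)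

/-! ### dyadic cubes -/

variable {n : ℕ}

lemma Sel_index {d i J : ℕ} (h : i ≤ J) {a b x : V d} (hx : x ∈ cube i b) (hx' : x ∈ cube J a) :
    b ∈ cube (J - i) a := by
  rw [Tree_mem_cube] at *
  intro j
  obtain ⟨h1, h2⟩ := hx j
  obtain ⟨h3, h4⟩ := hx' j
  have hp : (0 : ℤ) < 2 ^ i := by positivity
  have hJ : (2 : ℤ) ^ J = 2 ^ (J - i) * 2 ^ i := by rw [← pow_add]; congr 1; omega
  rw [hJ] at h3 h4
  constructor
  · have : a j * 2 ^ (J - i) < b j + 1 := by
      apply lt_of_mul_lt_mul_right _ hp.le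
      calc a j * 2 ^ (J - i) * 2 ^ i = a j * (2 ^ (J - i) * 2 ^ i) := by ring
        _ ≤ x j := h3
        _ < _ := h2
    omega
  · apply lt_of_mul_lt_mul_right _ hp.le
    calc b j * 2 ^ i ≤ x j := h1
      _ < (a j + 1) * (2 ^ (J - i) * 2 ^ i) := h4
      _ = _ := by ring

lemma Sel_corner {d i : ℕ} (a : V d) : (fun j => a j * 2 ^ i) ∈ cube i a := by
  rw [Tree_mem_cube]
  intro j
  have hp : (0 : ℤ) < 2 ^ i := by positivity
  constructor
  · exact le_rfl
  · show a j * 2 ^ i < (a j + 1) * 2 ^ i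
    nlinarith

/-- dyadic cubes are nested or disjoint -/
lemma Sel_nested {d i J : ℕ} (h : i ≤ J) (a b : V d) :
    cube i b ⊆ cube J a ∨ Disjoint (cube i b : Set (V d)) (cube J a : Set (V d)) := by
  by_cases hd : ∃ x, x ∈ cube i b ∧ x ∈ cube J a
  · obtain ⟨x, h1, h2⟩ := hd
    exact Or.inl (Tree_cube_sub h (Sel_index h h1 h2))
  · right
    rw [Set.disjoint_left]
    intro x h1 h2
    exact hd ⟨x, h1, h2⟩

/-- minimal rich cubes -/
def SelE (κ : Kind) {d : ℕ} (b Cp t : ℝ) (q : (_ : ℕ) × V d) : Set (El d → Bool) :=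
  {ω | t ≤ MQ κ b Cp q.1 q.2 ω ∧ ∀ i' < q.1, ∀ a' : V d, cube i' a' ⊆ cube q.1 q.2 →
    ¬ t ≤ MQ κ b Cp i' a' ω}

lemma SelE_on (κ : Kind) {d : ℕ} (b Cp t : ℝ) (q : (_ : ℕ) × V d) :
    On (InE (cube q.1 q.2 : Set (V d))) (SelE κ b Cp t q) := by
  intro ω ω' h
  have h1 := mq_on κ b Cp q.1 q.2 t ω ω' h
  apply and_congr h1
  refine forall_congr' fun i' => forall_congr' fun _ => forall_congr' fun a' =>
    forall_congr' fun hsub => not_congr ?_
  exact mq_on κ b Cp i' a' t ω ω' fun e he => h e fun v hv =>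
    Finset.mem_coe.2 (hsub (Finset.mem_coe.1 (he v hv)))

lemma SelE_meas (κ : Kind) {d : ℕ} (b Cp t : ℝ) (q : (_ : ℕ) × V d) :
    MeasurableSet (SelE κ b Cp t q) := Tree_meas (SelE_on κ b Cp t q)

lemma Sel_pair (κ : Kind) {d : ℕ} (p : unitInterval) (b Cp t : ℝ) (q q' : (_ : ℕ) × V d)
    (h : q ≠ q') : (prodBern (El d) p).real (SelE κ b Cp t q ∩ SelE κ b Cp t q') ≤
      (prodBern (El d) p).real (SelE κ b Cp t q) * (prodBern (El d) p).real (SelE κ b Cp t q') := by
  have main : ∀ q q' : (_ : ℕ) × V d, q ≠ q' → q.1 ≤ q'.1 →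
      (prodBern (El d) p).real (SelE κ b Cp t q ∩ SelE κ b Cp t q') ≤
      (prodBern (El d) p).real (SelE κ b Cp t q) *
        (prodBern (El d) p).real (SelE κ b Cp t q') := by
    intro q q' h hle
    by_cases hdis : Disjoint (cube q.1 q.2 : Set (V d)) (cube q'.1 q'.2 : Set (V d))
    · have hind := mu_indep (fun _ : El d => p) (InE (cube q.1 q.2 : Set (V d)))
        (SelE_meas κ b Cp t q) (SelE_meas κ b Cp t q') (SelE_on κ b Cp t q)
        ((SelE_on κ b Cp t q').mono (by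
          intro e he he'
          exact Set.disjoint_left.1 (Tree_inE_disj hdis) he' he))
      rw [mu_const] at hind
      exact hind.le
    · have hsub := (Sel_nested hle q'.2 q.2).resolve_right hdis
      have hlt : q.1 < q'.1 := by
        rcases lt_or_eq_of_le hle with h1 | h1
        · exact h1
        · exfalso
          obtain ⟨i, a⟩ := q
          obtain ⟨i', a'⟩ := q'
          simp only at h1
          subst h1
          apply hdis
          exact Tree_cube_disj fun hh => h (by simp only at hh; rw [hh])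
      have hempty : SelE κ b Cp t q ∩ SelE κ b Cp t q' = ∅ := by
        ext ω
        simp only [Set.mem_inter_iff, Set.mem_empty_iff_false, iff_false, not_and]
        intro h1 h2
        exact h2.2 q.1 hlt q.2 hsub h1.1
      rw [hempty, measureReal_empty]
      exact mul_nonneg measureReal_nonneg measureReal_nonneg
  rcases le_total q.1 q'.1 with h1 | h1
  · exact main q q' h h1
  · rw [Set.inter_comm, mul_comm]
    exact main q' q h.symm h1

/-- the pairs `(i, a)` with `cube i a` inside `cube J 0` -/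
noncomputable def SelI (d J : ℕ) : Finset ((_ : ℕ) × V d) :=
  (Finset.range (J + 1)).sigma fun i => cube (J - i) 0

lemma Sel_mem {d J : ℕ} {q : (_ : ℕ) × V d} : q ∈ SelI d J ↔ q.1 ≤ J ∧ cube q.1 q.2 ⊆ cube J 0 := by
  rw [SelI, Finset.mem_sigma, Finset.mem_range, Nat.lt_succ_iff]
  constructor
  · rintro ⟨h1, h2⟩
    exact ⟨h1, Tree_cube_sub h1 h2⟩
  · rintro ⟨h1, h2⟩
    exact ⟨h1, Sel_index h1 (Sel_corner q.2) (h2 (Sel_corner q.2))⟩

lemma Sel_rich (κ : Kind) {d : ℕ} (b Cp : ℝ) (h m : ℕ) :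
    RichE κ (d := d) b Cp h m ⊆ ⋃ q ∈ SelI d (m - h), SelE κ b Cp (2 ^ m) q := by
  rintro ω ⟨i, hi, a, ha, hω⟩
  have hex : ∃ i, ∃ a : V d, i ≤ m - h ∧ cube i a ⊆ cube (m - h) 0 ∧ (2 : ℝ) ^ m ≤ MQ κ b Cp i a ω :=
    ⟨i, a, hi, ha, hω⟩
  classical
  obtain ⟨a₀, h1, h2, h3⟩ := Nat.find_spec hex
  have hmin := fun i' (h' : i' < Nat.find hex) => Nat.find_min hex h'
  simp only [Set.mem_iUnion]
  refine ⟨⟨Nat.find hex, a₀⟩, Sel_mem.2 ⟨h1, h2⟩, h3, ?_⟩
  intro i' hi' a' hsub hbad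
  exact hmin i' hi' ⟨a', by simp only at hi'; omega, hsub.trans h2, hbad⟩

/-! ### the module events -/

lemma Sel_mod_meas (κ : Kind) (b c C₁ : ℝ) (u : V (n + 2)) (α β : ℕ) :
    MeasurableSet (Mod κ b c C₁ u α β) := by
  have : Mod κ b c C₁ u α β = ⋃ N : ℕ, {ω | Real.exp (b * N + c * β) ≤
      (Zc κ ω (slab C₁ u α β) ((α : ℤ) • u) ((β : ℤ) • u) N : ℝ)} := by
    ext ω
    simp [Mod]
  rw [this]
  exact MeasurableSet.iUnion fun N =>
    measurableSet_le measurable_const (Pool.Agent.H41.QA.zc_meas κ _ _ _ N)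

lemma Sel_tr_meas {d : ℕ} (φ : V d → V d) : Measurable (tr φ) :=
  measurable_pi_lambda _ fun _ => measurable_pi_apply _

lemma Sel_tr_prob {d : ℕ} (φ : V d ≃ V d) (p : unitInterval) {A : Set (El d → Bool)}
    (hA : MeasurableSet A) :
    (prodBern (El d) p).real (tr φ ⁻¹' A) = (prodBern (El d) p).real A := by
  conv_rhs => rw [← tr_law φ p]
  rw [measureReal_def, measureReal_def, Measure.map_apply (Sel_tr_meas φ) hA]

lemma Sel_modG (κ : Kind) (b c : ℝ) (n U m h : ℕ) : ModG κ b c n U m h =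
    ⋃ g ∈ (Finset.univ : Finset (Equiv.Perm (Fin (n + 2)) × (Fin (n + 2) → Bool))),
      tr (gAut n U m h g.1 g.2) ⁻¹' Mod κ b c (4 * U) (uvec n U) (2 ^ (m - h + 7))
        (3 * 2 ^ (m - h + 7)) := by
  ext ω
  simp only [ModG, Set.mem_ofPred_eq, Set.mem_iUnion, Finset.mem_univ, Set.mem_preimage,
    exists_const, Prod.exists]

theorem hookSel {κ : Kind} {p : unitInterval} (RS : RoadSys κ (n + 2) p) (hp : 0 < (p : ℝ))
    (b : ℝ) (hb : 0 ≤ b) (c₀ : ℝ) (hc₀ : 0 < c₀) (U₀ : ℕ) :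
    ∃ (Cp : ℝ) (h : ℕ), 0 ≤ Cp ∧ Ctrl RS b c₀ U₀ 1 (RichE κ (d := n + 2) b Cp h) := by
  classical
  obtain ⟨Cp, c₁, c', hCp, hc₁, hc', U₁, hU₁, hmain⟩ := hookP RS hp (hookGeo RS) b hb
  -- the slope
  set U := (U₀ + U₁) * RS.L with hU
  have hL := RS.hL
  have hUU₁ : U₁ ≤ U := by nlinarith
  have hUU₀ : U₀ ≤ U := by nlinarith
  have hU1 : 1 ≤ U := le_trans hU₁ hUU₁
  obtain ⟨h₁, hh₁, hmain⟩ := hmain U hUU₁
  obtain ⟨h₂, hh₂⟩ := pow_unbounded_of_one_lt ((U : ℝ) / (3 * c₀ * c₁)) (one_lt_two : (1 : ℝ) < 2)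
  set h := h₁ + h₂ with hh
  have hUh : (U : ℝ) ≤ 3 * c₀ * c₁ * 2 ^ h := by
    have h3 : (2 : ℝ) ^ h₂ ≤ 2 ^ h := pow_le_pow_right₀ one_le_two (by omega)
    have h4 : (U : ℝ) < 2 ^ h₂ * (3 * c₀ * c₁) := by
      rwa [div_lt_iff₀ (by positivity)] at hh₂
    calc (U : ℝ) ≤ 2 ^ h₂ * (3 * c₀ * c₁) := h4.le
      _ ≤ 2 ^ h * (3 * c₀ * c₁) := mul_le_mul_of_nonneg_right h3 (by positivity)
      _ = _ := by ring
  obtain ⟨M₀, hmain⟩ := hmain h (by omega)
  refine ⟨Cp, h, hCp, 1, fun _ => uvec n U, c₁ * 2 ^ h, 4 * U,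
    2 / c' ^ 2 * (Fintype.card (Equiv.Perm (Fin (n + 2)) × (Fin (n + 2) → Bool)) : ℝ),
    fun _ m => 2 ^ (m - h + 7), fun _ m => 3 * 2 ^ (m - h + 7), M₀ + h, 4, by positivity,
    by norm_num, ?_, ?_, ?_⟩
  · intro q
    refine ⟨?_, ?_, ?_⟩
    · simp only [uvec, Pi.single_eq_same]
      exact_mod_cast hUU₀
    · intro i
      by_cases hi : i = 0
      · subst hi
        simp [uvec]
      · simp [uvec, hi]
    · intro i
      by_cases hi : i = 0
      · subst hi
        simp only [uvec, Pi.single_eq_same]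
        exact ⟨(U₀ + U₁ : ℤ), by rw [hU]; push_cast; ring⟩
      · simp [uvec, hi]
  · intro q j hj
    have hpos : 0 < 2 ^ (j - h + 7) := by positivity
    beta_reduce
    refine ⟨hpos, by omega, ?_, ?_⟩
    · simp only [uvec, Pi.single_eq_same]
      push_cast
      have h5 : (0 : ℝ) < 2 ^ (j - h + 7) := by positivity
      calc (2 : ℝ) ^ (j - h + 7) * (U : ℝ) ≤ 2 ^ (j - h + 7) * (3 * c₀ * c₁ * 2 ^ h) :=
            mul_le_mul_of_nonneg_left hUh h5.le
        _ = _ := by ring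
    · have e : j + 4 - h + 7 = (j - h + 7) + 4 := by omega
      rw [e, pow_add 2 (j - h + 7) 4]
      omega
  · intro m hm
    have hmain := hmain m (by omega)
    set P := prodBern (El (n + 2)) p with hP
    set G := ModG κ b (c₁ * 2 ^ h) n U m h with hG
    have hGm : MeasurableSet G := by
      rw [hG, Sel_modG]
      exact Finset.measurableSet_biUnion _ fun g _ =>
        (Sel_mod_meas κ _ _ _ _ _ _).preimage (Sel_tr_meas _)
    have h1 := Sel_second P (SelI (n + 2) (m - h)) (SelE κ b Cp (2 ^ m))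
      (fun q _ => SelE_meas κ b Cp _ q) (fun q _ q' _ hne => Sel_pair κ p b Cp _ q q' hne)
      G hGm c' hc' (by
        intro q hq
        obtain ⟨h2, h3⟩ := Sel_mem.1 hq
        exact hmain q.1 q.2 h3 _ (SelE_meas κ b Cp _ q) (SelE_on κ b Cp _ q) fun ω hω => hω.1)
    have h2 : P.real (RichE κ (d := n + 2) b Cp h m) ≤
        P.real (⋃ q ∈ SelI (n + 2) (m - h), SelE κ b Cp (2 ^ m) q) :=
      measureReal_mono (Sel_rich κ b Cp h m) (measure_ne_top P _)
    have h3 : P.real G ≤ (Fintype.card (Equiv.Perm (Fin (n + 2)) × (Fin (n + 2) → Bool)) : ℝ) *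
        P.real (Mod κ b (c₁ * 2 ^ h) (4 * U) (uvec n U) (2 ^ (m - h + 7))
          (3 * 2 ^ (m - h + 7))) := by
      rw [hG, Sel_modG]
      refine (measureReal_biUnion_finset_le _ _).trans ?_
      rw [Finset.sum_congr rfl fun g _ => Sel_tr_prob (gAut n U m h g.1 g.2) p
        (Sel_mod_meas κ _ _ _ _ _ _), Finset.sum_const, nsmul_eq_mul, Finset.card_univ]
    have h4 : (0 : ℝ) < c' ^ 2 := by positivity
    rw [Finset.univ_unique, Finset.sum_singleton]
    calc P.real (RichE κ (d := n + 2) b Cp h m) ≤ _ := h2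
      _ ≤ 2 / c' ^ 2 * P.real G := by
          rw [div_mul_eq_mul_div, le_div_iff₀ h4]
          linarith
      _ ≤ 2 / c' ^ 2 * (_ * _) := mul_le_mul_of_nonneg_left h3 (by positivity)
      _ = _ := by push_cast; ring

end Pool.Agent.H17.QA
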