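import Pool.Agent.H17.QA.Closed
import Pool.Agent.H17.QA.LemEDir

/-!
# QA module LemE: a rich family contains a rich bridge or a rich compact piece (Lemma E)

ONE DIRECTION (`lemE_dir`). Direction `m`. For a path write `g t` for the `m`-coordinate at time `t`,
`|g (t+1) - g t| ≤ 1`. For `X ≥ 1` an `X`-bridge is an interval `[s,t]` with `X ∣ g s`, `X ∣ g t`,
`|g t - g s| = X` and `g` strictly between `g s` and `g t` on the open interval `(s,t)`. Let `K_X(I)` be the
maximal number of pairwise non-overlapping (common end points allowed) `X`-bridges in the interval `I`.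
(a) `X * K_X([0,N]) ≤ N`. (b) superadditive: non-overlapping intervals `I_j ⊆ I` give `∑ K_X(I_j) ≤ K_X(I)`.
(c) an `X`-bridge contains at least `M` non-overlapping `X/M`-bridges if `M ∣ X`. (d) if `K_X(I) = 0` then
`max_I g - min_I g < 2 X` (otherwise two consecutive multiples of `X` lie in the range and the path between
the arg min and the arg max contains an `X`-bridge between them: last visit, first visit).
Let `δ = ε η / 16`, `M = 2^h ≥ 2/δ`, `K₀ = ⌈1/δ⌉ + 1`, `2^J ∈ [N, 2N)`, `X_k = 2^J / M^k` for `k ≤ K₀` (so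
`X_k ≥ 1`, `N` large), `f k = X_k K_(X_k)([0,N]) / N ∈ [0,1]`, nondecreasing by (b), (c). So some `k < K₀` has
`f (k+1) - f k ≤ δ`. Put `X = X_k`, `X' = X_(k+1)`. Take a maximal collection of `K = K_X` non-overlapping
`X`-bridges; its complement consists of at most `K+1` intervals `E_j`; by (b), (c)
`M K + ∑_j K_(X')(E_j) ≤ K_(X')([0,N])`, hence `∑_j K_(X')(E_j) ≤ δ N / X'`. In each `E_j` take a maximal
collection of `X'`-bridges: it cuts `E_j` into at most `2 K_(X')(E_j) + 1` subpieces, all of `g`-range at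
most `2 X'` by (d). So `[0,N]` is cut into `K` `X`-bridges and at most
`2 δ N / X' + N/X + 1 ≤ 4 δ N / X'` subpieces (`N` large).
FAMILY: for every path of `F` choose such a decomposition; data = (`k`, cut times, kind of each piece,
vertices at the cut times). The number of pieces is at most a constant `P(δ, M)`, so the number of data is
at most `(2N+2)^((d+2)(P+1))`; take the most popular data: `F' ⊆ F`, `log |F'| ≥ log |F| - C log N`. For piece `p` let
`F_p` be the set of the pieces (contiguous sublists, both cut vertices included) of the members of `F'`,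
`n_p` its number of steps, `s_p = log |F_p| - b n_p`. A member of `F'` is determined by its pieces, so
`∑ log |F_p| ≥ log |F'|`, `∑ n_p = N`, `∑ s_p ≥ (3/4) η N`. The pieces with `s_p < (η/4) n_p` contribute less
than `η N/4`; the others at least `η N / 2`. If one of these others is an `X`-bridge: first alternative
(`X` is a power of two, `X ≥ N / M^(K₀)`). Otherwise they are subpieces, at most `4 δ N/X'` of them, and one
has `s_p ≥ η X' / (8 δ) `, so its `m`-width is at most `2 X' ≤ (16 δ/η) s_p = ε s_p`, and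
`s_p ≥ η X'/(8 δ) ≥ κs N`.

ALL DIRECTIONS (`lemE`). Induction on the number of directions treated: to treat one more direction `m'`
and then the directions `m ∈ S` with parameter `ε`, let `κ₁` be the constant for `S` (with `η/4`, `ε/2`);
first apply `lemE_dir` in direction `m'` with `ε₁ = ε κ₁ / (4 log (2 d) + 4)`: either a bridge, or a piece
`F₁` with `n₁` steps, surplus `s₁ ≤ log (2d) n₁` and `m'`-width at most `ε₁ s₁`; then apply the case `S` to `F₁`:
final surplus `s ≥ κ₁ n₁ ≥ κ₁ s₁ / (log (2d) + 1)`, so the `m'`-width of the final piece (a contiguous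
sublist of members of `F₁`) is at most `2 ε₁ s₁ ≤ ε s`. The surplus ratio is divided by `4` each time.
-/

open MeasureTheory Filter Topology
open Pool.Agent.H17.IIC Pool.Agent.H41.QC Pool.Agent.H47.GM

namespace Pool.Agent.H17.QA

variable {d : ℕ}

/-! ### all directions -/

lemma LemE_rb_mono {κ : Kind} {ω : El d → Bool} {F F₁ : Finset (List (V d))} {b₁ b₂ : ℝ}
    {m : Fin d} {j : ℕ} (h : RichBridge κ ω F₁ b₁ m j) (hb : b₂ ≤ b₁)
    (hF : ∀ l' ∈ F₁, ∃ l ∈ F, l' <:+: l) : RichBridge κ ω F b₂ m j := by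
  obtain ⟨F', x', y', N', h0, h1, h2, h3, h4, h5⟩ := h
  refine ⟨F', x', y', N', h0, h1, ?_, h3, h4, ?_⟩
  · intro l' hl'
    obtain ⟨l, hl, hll⟩ := h2 l' hl'
    obtain ⟨l₀, hl₀, hll₀⟩ := hF l hl
    exact ⟨l₀, hl₀, hll.trans hll₀⟩
  · exact (mul_le_mul_of_nonneg_right hb (Nat.cast_nonneg _)).trans h5

lemma LemE_log_card {κ : Kind} {ω : El d → Bool} {F : Finset (List (V d))} {x y : V d} {N : ℕ}
    (h : IsFam κ ω F x y N) : Real.log F.card ≤ N * Real.log (2 * d) := by
  obtain ⟨hfin, hcard⟩ := Closed_chains_card N x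
  have h1 : (F : Set (List (V d))) ⊆ Closed_chains N x := fun l hl => Closed_fam_sub (h l hl)
  have h2 : F.card ≤ (2 * d) ^ N := by
    rw [← Set.ncard_coe_finset]
    exact (Set.ncard_le_ncard h1 hfin).trans hcard
  rcases Nat.eq_zero_or_pos F.card with h0 | h0
  · rw [h0]
    have := Real.log_natCast_nonneg (2 * d)
    push_cast at this
    simp only [Nat.cast_zero, Real.log_zero]
    positivity
  · calc Real.log F.card ≤ Real.log (((2 * d) ^ N : ℕ) : ℝ) :=
          Real.log_le_log (by exact_mod_cast h0) (by exact_mod_cast h2)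
      _ = N * Real.log (2 * d) := by
          push_cast
          rw [Real.log_pow]

/-- the directions of `S` -/
lemma LemE_set (d : ℕ) (b : ℝ) (hb : 0 ≤ b) (S : Finset (Fin d)) : ∀ η ε : ℝ, 0 < η → 0 < ε →
    ∃ κs : ℝ, 0 < κs ∧ ∃ N₀ : ℕ, ∀ (κ : Kind) (ω : El d → Bool) (F : Finset (List (V d)))
      (x y : V d) (N : ℕ), N₀ ≤ N → IsFam κ ω F x y N →
      (b + η) * N ≤ Real.log F.card →
      (∃ (m : Fin d) (j : ℕ), κs * N ≤ 2 ^ j ∧ RichBridge κ ω F (b + η / 4 ^ S.card) m j) ∨
      (∃ (F' : Finset (List (V d))) (x' y' : V d) (N' : ℕ), IsFam κ ω F' x' y' N' ∧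
        (∀ l' ∈ F', ∃ l ∈ F, l' <:+: l) ∧ (b + η / 4 ^ S.card) * N' ≤ Real.log F'.card ∧
        κs * N ≤ Real.log F'.card - b * N' ∧
        ∀ l ∈ F', ∀ v ∈ l, ∀ i ∈ S, (|v i - x' i| : ℝ) ≤ ε * (Real.log F'.card - b * N')) := by
  classical
  induction S using Finset.induction_on with
  | empty =>
    intro η ε hη hε
    refine ⟨η, hη, 0, ?_⟩
    intro κ ω F x y N _ hF hlog
    right
    refine ⟨F, x, y, N, hF, fun l hl => ⟨l, hl, List.infix_refl l⟩, ?_, ?_, ?_⟩
    · simpa using hlog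
    · linarith
    · intro l _ v _ i hi
      simp at hi
  | @insert m' S hm' ih =>
    intro η ε hη hε
    obtain ⟨κ₁, hκ₁, N₁, h₁⟩ := ih (η / 4) ε (by positivity) hε
    have hLg : 0 ≤ Real.log (2 * d) := by
      have := Real.log_natCast_nonneg (2 * d)
      push_cast at this
      exact this
    set Lg : ℝ := Real.log (2 * d) + 1 with hLgd
    have hLg1 : 0 < Lg := by linarith
    obtain ⟨κ₀, hκ₀, N₀, h₀⟩ := lemE_dir d b η (ε * κ₁ / (2 * Lg)) hb hη (by positivity)
    have hcard : (insert m' S).card = S.card + 1 := Finset.card_insert_of_notMem hm'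
    have hp4 : (0 : ℝ) < 4 ^ S.card := by positivity
    have hq : b + η / 4 ^ (insert m' S).card = b + η / 4 / 4 ^ S.card := by
      rw [hcard, pow_succ]
      field_simp
    have hq1 : b + η / 4 / 4 ^ S.card ≤ b + η / 4 := by
      have : η / 4 / 4 ^ S.card ≤ η / 4 := by
        apply div_le_self (by positivity)
        exact one_le_pow₀ (by norm_num)
      linarith
    refine ⟨min κ₀ (κ₁ * κ₀ / Lg), lt_min hκ₀ (by positivity),
      max N₀ ⌈(N₁ : ℝ) * Lg / κ₀⌉₊, ?_⟩
    intro κ ω F x y N hN hF hlog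
    have hN0 : (0 : ℝ) ≤ N := Nat.cast_nonneg _
    have hNN : (N₁ : ℝ) * Lg ≤ κ₀ * N := by
      have h2 : (N₁ : ℝ) * Lg / κ₀ ≤ N :=
        (Nat.le_ceil _).trans (by exact_mod_cast (le_max_right _ _).trans hN)
      rw [div_le_iff₀ hκ₀] at h2
      linarith
    rcases h₀ κ ω F x y N m' ((le_max_left _ _).trans hN) hF hlog with
      ⟨j, hj, hrb⟩ | ⟨F₁, x₁, y₁, N', hF₁, hsub₁, hrate₁, hs₁, hw₁⟩
    · left
      refine ⟨m', j, ?_, ?_⟩
      · exact (mul_le_mul_of_nonneg_right (min_le_left _ _) hN0).trans hj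
      · rw [hq]
        exact LemE_rb_mono hrb hq1 fun l hl => ⟨l, hl, List.infix_refl l⟩
    · -- a piece which is thin in direction `m'`
      have hlc := LemE_log_card hF₁
      have hN'0 : (0 : ℝ) ≤ N' := Nat.cast_nonneg _
      set s₁ : ℝ := Real.log F₁.card - b * N' with hs₁d
      have hs₁N : s₁ ≤ N' * Lg := by
        have h3 : 0 ≤ b * N' := by positivity
        rw [hs₁d, hLgd]
        nlinarith
      have hNN' : κ₀ * N ≤ N' * Lg := hs₁.trans hs₁N
      have hN₁ : N₁ ≤ N' := by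
        have h3 : (N₁ : ℝ) * Lg ≤ N' * Lg := hNN.trans hNN'
        exact_mod_cast le_of_mul_le_mul_right h3 hLg1
      have hκN : κ₁ * κ₀ / Lg * N ≤ κ₁ * N' := by
        rw [div_mul_eq_mul_div, div_le_iff₀ hLg1]
        have := mul_le_mul_of_nonneg_left hNN' hκ₁.le
        nlinarith
      rcases h₁ κ ω F₁ x₁ y₁ N' hN₁ hF₁ hrate₁ with
        ⟨m, j, hj, hrb⟩ | ⟨F₂, x₂, y₂, N₂, hF₂, hsub₂, hrate₂, hs₂, hw₂⟩
      · left
        refine ⟨m, j, ?_, ?_⟩
        · exact ((mul_le_mul_of_nonneg_right (min_le_right _ _) hN0).trans hκN).trans hj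
        · rw [hq]
          exact LemE_rb_mono hrb le_rfl hsub₁
      · right
        refine ⟨F₂, x₂, y₂, N₂, hF₂, ?_, ?_, ?_, ?_⟩
        · intro l hl
          obtain ⟨l₁, hl₁, hll₁⟩ := hsub₂ l hl
          obtain ⟨l₀, hl₀, hll₀⟩ := hsub₁ l₁ hl₁
          exact ⟨l₀, hl₀, hll₁.trans hll₀⟩
        · rw [hq]
          exact hrate₂
        · exact ((mul_le_mul_of_nonneg_right (min_le_right _ _) hN0).trans hκN).trans hs₂
        · intro l hl v hv i hi
          rw [Finset.mem_insert] at hi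
          rcases hi with rfl | hi
          · obtain ⟨l₁, hl₁, hll₁⟩ := hsub₂ l hl
            have hx₂ : x₂ ∈ l := List.mem_of_mem_head? (hF₂ l hl).2.2.1
            have e1 := hw₁ l₁ hl₁ v (hll₁.subset hv)
            have e2 := hw₁ l₁ hl₁ x₂ (hll₁.subset hx₂)
            have e3 : (|(v i : ℝ) - x₂ i|) ≤ |(v i : ℝ) - x₁ i| + |(x₂ i : ℝ) - x₁ i| := by
              have := abs_sub_le (v i : ℝ) (x₁ i) (x₂ i)
              rw [abs_sub_comm (x₁ i : ℝ) (x₂ i)] at this
              exact this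
            have e4 : ε * κ₁ / (2 * Lg) * s₁ ≤ ε * κ₁ / 2 * N' := by
              have h5 : ε * κ₁ / (2 * Lg) * s₁ ≤ ε * κ₁ / (2 * Lg) * (N' * Lg) :=
                mul_le_mul_of_nonneg_left hs₁N (by positivity)
              calc ε * κ₁ / (2 * Lg) * s₁ ≤ ε * κ₁ / (2 * Lg) * (N' * Lg) := h5
                _ = ε * κ₁ / 2 * N' := by field_simp
            have e5 : ε * (κ₁ * N') ≤ ε * (Real.log F₂.card - b * N₂) :=
              mul_le_mul_of_nonneg_left hs₂ hε.le
            linarith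
          · exact hw₂ l hl v hv i hi

theorem lemE (d : ℕ) (b η ε : ℝ) (hb : 0 ≤ b) (hη : 0 < η) (hε : 0 < ε) :
    ∃ κs : ℝ, 0 < κs ∧ ∃ N₀ : ℕ, ∀ (κ : Kind) (ω : El d → Bool) (F : Finset (List (V d)))
      (x y : V d) (N : ℕ), N₀ ≤ N → IsFam κ ω F x y N →
      (b + η) * N ≤ Real.log F.card →
      (∃ (m : Fin d) (j : ℕ), κs * N ≤ 2 ^ j ∧ RichBridge κ ω F (b + η / 4 ^ d) m j) ∨
      (∃ (F' : Finset (List (V d))) (x' y' : V d) (N' : ℕ), IsFam κ ω F' x' y' N' ∧
        (∀ l' ∈ F', ∃ l ∈ F, l' <:+: l) ∧ (b + η / 4 ^ d) * N' ≤ Real.log F'.card ∧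
        κs * N ≤ Real.log F'.card - b * N' ∧
        ∀ l ∈ F', ∀ v ∈ l, ∀ i, (|v i - x' i| : ℝ) ≤ ε * (Real.log F'.card - b * N')) := by
  obtain ⟨κs, hκs, N₀, h⟩ := LemE_set d b hb Finset.univ η ε hη hε
  rw [Finset.card_univ, Fintype.card_fin] at h
  refine ⟨κs, hκs, N₀, ?_⟩
  intro κ ω F x y N hN hF hlog
  rcases h κ ω F x y N hN hF hlog with h1 | ⟨F', x', y', N', h1, h2, h3, h4, h5⟩
  · exact Or.inl h1
  · exact Or.inr ⟨F', x', y', N', h1, h2, h3, h4, fun l hl v hv i => h5 l hl v hv i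
      (Finset.mem_univ i)⟩

end Pool.Agent.H17.QA
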