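import Pool.Agent.H17.QA.LemEDir

/-!
# QA module P1Defs: indices of dyadic cubes, grid crossings, compact rich families
-/

open MeasureTheory Filter Topology
open Pool.Agent.H17.IIC Pool.Agent.H41.QC Pool.Agent.H47.GM

namespace Pool.Agent.H17.QA

variable {d : ℕ}

/-- index of the level `i` cube containing `v` -/
def idx (i : ℕ) (v : V d) : V d := fun j => v j / 2 ^ i

open Classical in
/-- number of steps crossing the grid of level `i` -/
noncomputable def cr (i : ℕ) (l : List (V d)) : ℕ :=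
  ((l.zip l.tail).filter fun e => decide (idx i e.1 ≠ idx i e.2)).length

/-- compact rich families at scale `2^m` -/
def CP (κ : Kind) (b η ε : ℝ) (B : Finset (V d)) (m : ℕ) : Set (El d → Bool) :=
  {ω | ∃ (F : Finset (List (V d))) (x y : V d) (N : ℕ), x ∈ B ∧ IsFam κ ω F x y N ∧
    (b + η) * N ≤ Real.log F.card ∧ b * N + 2 ^ m ≤ Real.log F.card ∧
    Real.log F.card ≤ b * N + 2 ^ (m + 1) ∧
    ∀ l ∈ F, ∀ v ∈ l, ∀ i, (|v i - x i| : ℝ) ≤ ε * 2 ^ m}

end Pool.Agent.H17.QA
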