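import Pool.Agent.H17.QA.Closed
import Pool.Agent.H17.QA.P1Defs

/-!
# QA module P1Decomp: decomposition of a compact family into closed families
-/

open MeasureTheory Filter Topology
open Pool.Agent.H17.IIC Pool.Agent.H41.QC Pool.Agent.H47.GM

namespace Pool.Agent.H17.QA

variable {d : ℕ}

/-! ### lists as sequences -/

/-- the vertex at time `t` -/
def PD_at (l : List (V d)) (t : ℕ) : V d := l.getD t 0

/-- the piece of `l` starting at time `a` with `n` steps -/
def PD_seg (l : List (V d)) (a n : ℕ) : List (V d) := (l.drop a).take (n + 1)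

lemma PD_at_eq {l : List (V d)} {t : ℕ} (h : t < l.length) : PD_at l t = l[t] := by
  unfold PD_at
  simp [h]

lemma PD_cr (i : ℕ) (l : List (V d)) : cr i l =
    ((Finset.range (l.length - 1)).filter
      (fun t => idx i (PD_at l t) ≠ idx i (PD_at l (t + 1)))).card := by
  classical
  induction l with
  | nil => simp [cr]
  | cons a l ih =>
    cases l with
    | nil => simp [cr]
    | cons b l =>
      have h1 : cr i (a :: b :: l) = (if idx i a ≠ idx i b then 1 else 0) + cr i (b :: l) := by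
        unfold cr
        simp only [List.tail_cons, List.zip_cons_cons]
        rw [List.filter_cons]
        split_ifs with h2 h3 h3
        · simp [add_comm]
        · exfalso; apply h3; simpa using h2
        · exfalso; apply h2; simpa using h3
        · simp
      rw [h1, ih]
      have h2 : (a :: b :: l).length - 1 = ((b :: l).length - 1) + 1 := by simp
      rw [h2, Finset.range_add_one', Finset.filter_insert, Finset.filter_map]
      have h3 : ∀ t, PD_at (a :: b :: l) (t + 1) = PD_at (b :: l) t := fun t => rfl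
      by_cases h4 : idx i a ≠ idx i b
      · rw [if_pos h4, if_pos (show idx i (PD_at (a :: b :: l) 0) ≠
          idx i (PD_at (a :: b :: l) (0 + 1)) from h4), Finset.card_insert_of_notMem (by simp),
          Finset.card_map, add_comm]
        rfl
      · rw [if_neg h4, if_neg (show ¬ idx i (PD_at (a :: b :: l) 0) ≠
          idx i (PD_at (a :: b :: l) (0 + 1)) from h4), Finset.card_map, zero_add]
        rfl

lemma PD_seg_length {l : List (V d)} {a n : ℕ} (h : a + n < l.length) :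
    (PD_seg l a n).length = n + 1 := by
  unfold PD_seg
  simp only [List.length_take, List.length_drop]
  omega

lemma PD_seg_get {l : List (V d)} {a n t : ℕ} (h : a + n < l.length) (ht : t ≤ n) :
    (PD_seg l a n)[t]? = some (PD_at l (a + t)) := by
  unfold PD_seg
  rw [List.getElem?_take_of_lt (by omega), List.getElem?_drop, PD_at_eq (by omega)]
  exact List.getElem?_eq_getElem _

lemma PD_seg_head {l : List (V d)} {a n : ℕ} (h : a + n < l.length) :
    (PD_seg l a n).head? = some (PD_at l a) := by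
  rw [List.head?_eq_getElem?, PD_seg_get h (Nat.zero_le _), add_zero]

lemma PD_seg_last {l : List (V d)} {a n : ℕ} (h : a + n < l.length) :
    (PD_seg l a n).getLast? = some (PD_at l (a + n)) := by
  rw [List.getLast?_eq_getElem?, PD_seg_length h, Nat.add_sub_cancel, PD_seg_get h le_rfl]

lemma PD_seg_sub (l : List (V d)) (a n : ℕ) : PD_seg l a n <:+: l :=
  (List.take_prefix _ _).isInfix.trans (List.drop_suffix _ _).isInfix

lemma PD_mem_seg {l : List (V d)} {a n : ℕ} (h : a + n < l.length) {v : V d}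
    (hv : v ∈ PD_seg l a n) : ∃ t ≤ n, v = PD_at l (a + t) := by
  obtain ⟨t, ht, hvt⟩ := List.mem_iff_getElem.1 hv
  have hl := PD_seg_length h
  refine ⟨t, by omega, ?_⟩
  have := PD_seg_get h (show t ≤ n by omega)
  rw [List.getElem?_eq_getElem ht, hvt] at this
  exact Option.some.inj this

lemma PD_seg_eq {l l' : List (V d)} {a n : ℕ} (h : a + n < l.length) (h' : a + n < l'.length)
    (he : PD_seg l a n = PD_seg l' a n) {t : ℕ} (ht : t ≤ n) :
    PD_at l (a + t) = PD_at l' (a + t) := by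
  have h1 := PD_seg_get h ht
  have h2 := PD_seg_get h' ht
  rw [he, h2] at h1
  exact (Option.some.inj h1).symm

lemma PD_chain_sub {α : Type*} {R : α → α → Prop} {l l' : List α} (h : l'.IsChain R)
    (hs : l <:+: l') : l.IsChain R := by
  obtain ⟨s, t, rfl⟩ := hs
  exact (List.IsChain.left_of_append h).right_of_append

lemma PD_seg_op {κ : Kind} {ω : El d → Bool} {l : List (V d)} (hl : OP κ ω l) (a n : ℕ) :
    OP κ ω (PD_seg l a n) := by
  have hs := PD_seg_sub l a n
  refine ⟨hl.nodup.sublist hs.sublist, PD_chain_sub hl.chain hs, ?_⟩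
  have := hl.opn
  cases κ with
  | bond => exact PD_chain_sub this hs
  | site => exact fun v hv => this v (hs.subset hv)

lemma PD_at_inj {l : List (V d)} (hl : l.Nodup) {s t : ℕ} (hs : s < l.length) (ht : t < l.length)
    (h : PD_at l s = PD_at l t) : s = t := by
  rw [PD_at_eq hs, PD_at_eq ht] at h
  exact (hl.getElem_inj_iff).1 h

lemma PD_adj {l : List (V d)} (hl : l.IsChain LatAdj) {t : ℕ} (ht : t + 1 < l.length) :
    LatAdj (PD_at l t) (PD_at l (t + 1)) := by
  rw [PD_at_eq (by omega), PD_at_eq ht]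
  exact List.isChain_iff_getElem.1 hl t ht

lemma PD_ext {l l' : List (V d)} (h : l.length = l'.length)
    (h2 : ∀ t < l.length, PD_at l t = PD_at l' t) : l = l' := by
  apply List.ext_getElem h
  intro t h3 h4
  have := h2 t h3
  rwa [PD_at_eq h3, PD_at_eq h4] at this

lemma PD_at_mem {l : List (V d)} {t : ℕ} (h : t < l.length) : PD_at l t ∈ l := by
  rw [PD_at_eq h]
  exact List.getElem_mem h

/-! ### dyadic indices -/

lemma PD_mem_cube {i : ℕ} {a v : V d} : v ∈ cube i a ↔ idx i v = a := by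
  unfold cube idx
  rw [Fintype.mem_piFinset, funext_iff]
  refine forall_congr' fun j => ?_
  have h2 : (0 : ℤ) < 2 ^ i := by positivity
  rw [Finset.mem_Ico]
  constructor
  · rintro ⟨h3, h4⟩
    exact le_antisymm (Int.lt_add_one_iff.1 ((Int.ediv_lt_iff_lt_mul h2).2 h4))
      ((Int.le_ediv_iff_mul_le h2).2 h3)
  · intro h
    constructor
    · exact (Int.le_ediv_iff_mul_le h2).1 h.ge
    · exact (Int.ediv_lt_iff_lt_mul h2).1 (by omega)

lemma PD_idx_succ (i : ℕ) (v : V d) : idx (i + 1) v = fun j => idx i v j / 2 := by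
  funext j
  unfold idx
  rw [pow_succ, Int.ediv_ediv_of_nonneg (by positivity)]

lemma PD_idx_mono {i j : ℕ} (hij : i ≤ j) {u v : V d} (h : idx i u = idx i v) :
    idx j u = idx j v := by
  induction j, hij using Nat.le_induction with
  | base => exact h
  | succ j _ ih => rw [PD_idx_succ, PD_idx_succ, ih]

lemma PD_mem_kids {a c : V d} : a ∈ kids c ↔ (fun j => a j / 2) = c := by
  unfold kids
  rw [Fintype.mem_piFinset, funext_iff]
  refine forall_congr' fun j => ?_
  simp only [Finset.mem_insert, Finset.mem_singleton]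
  omega

lemma PD_idx_kids (i : ℕ) (v : V d) : idx i v ∈ kids (idx (i + 1) v) := by
  rw [PD_mem_kids, PD_idx_succ]

lemma PD_kids_card (c : V d) : (kids c).card = 2 ^ d := by
  unfold kids
  rw [Fintype.card_piFinset]
  have : ∀ j : Fin d, ({2 * c j, 2 * c j + 1} : Finset ℤ).card = 2 := fun j => by
    rw [Finset.card_insert_of_notMem (by simp), Finset.card_singleton]
  simp only [this]
  simp

lemma PD_cube_card (i : ℕ) (a : V d) : (cube i a).card = 2 ^ (d * i) := by
  unfold cube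
  rw [Fintype.card_piFinset]
  have : ∀ j : Fin d, (Finset.Ico (a j * 2 ^ i) ((a j + 1) * 2 ^ i)).card = 2 ^ i := fun j => by
    rw [Int.card_Ico]
    have : (a j + 1) * 2 ^ i - a j * 2 ^ i = ((2 ^ i : ℕ) : ℤ) := by push_cast; ring
    rw [this, Int.toNat_natCast]
  simp only [this]
  simp [← pow_mul, mul_comm]

open Classical in
/-- level of the cell of `v` -/
noncomputable def PD_lev (i₀ J : ℕ) (x y v : V d) : ℕ :=
  Nat.findGreatest (fun i => i = i₀ ∨ (i₀ ≤ i ∧ idx i v ≠ idx i x ∧ idx i v ≠ idx i y)) J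

/-- the cell of `v` -/
noncomputable def PD_cell (i₀ J : ℕ) (x y v : V d) : (_ : ℕ) × V d :=
  ⟨PD_lev i₀ J x y v, idx (PD_lev i₀ J x y v) v⟩

/-- cells containing neither `x` nor `y` -/
def PD_closed (i₀ J : ℕ) (x y : V d) (q : (_ : ℕ) × V d) : Prop :=
  i₀ ≤ q.1 ∧ q.1 < J ∧ q.2 ≠ idx q.1 x ∧ q.2 ≠ idx q.1 y ∧
    (q.2 ∈ kids (idx (q.1 + 1) x) ∨ q.2 ∈ kids (idx (q.1 + 1) y))

lemma PD_cell_congr {i₀ J : ℕ} {x y u v : V d} (hi : i₀ ≤ J) (h : idx i₀ u = idx i₀ v) :
    PD_cell i₀ J x y u = PD_cell i₀ J x y v := by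
  classical
  have h1 : PD_lev i₀ J x y u = PD_lev i₀ J x y v := by
    unfold PD_lev
    congr 1
    funext i
    refine propext (or_congr Iff.rfl (and_congr_right fun h3 => ?_))
    rw [PD_idx_mono h3 h]
  have h2 : i₀ ≤ PD_lev i₀ J x y v := Nat.le_findGreatest hi (Or.inl rfl)
  unfold PD_cell
  rw [h1, PD_idx_mono h2 h]

lemma PD_cell_cases {i₀ J : ℕ} {A x y v : V d} (hi : i₀ ≤ J) (hx : idx J x = A)
    (hv : idx J v = A) : PD_closed i₀ J x y (PD_cell i₀ J x y v) ∨
      PD_cell i₀ J x y v = ⟨i₀, idx i₀ x⟩ ∨ PD_cell i₀ J x y v = ⟨i₀, idx i₀ y⟩ := by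
  classical
  have h1 : PD_lev i₀ J x y v = i₀ ∨ (i₀ ≤ PD_lev i₀ J x y v ∧
      idx (PD_lev i₀ J x y v) v ≠ idx (PD_lev i₀ J x y v) x ∧
      idx (PD_lev i₀ J x y v) v ≠ idx (PD_lev i₀ J x y v) y) :=
    Nat.findGreatest_spec (P := fun i => i = i₀ ∨ (i₀ ≤ i ∧ idx i v ≠ idx i x ∧
      idx i v ≠ idx i y)) hi (Or.inl rfl)
  have h2 : i₀ ≤ PD_lev i₀ J x y v := Nat.le_findGreatest hi (Or.inl rfl)
  have h3 : PD_lev i₀ J x y v ≤ J := Nat.findGreatest_le J
  have h4 : ∀ j, PD_lev i₀ J x y v < j → j ≤ J → ¬ (j = i₀ ∨ (i₀ ≤ j ∧ idx j v ≠ idx j x ∧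
      idx j v ≠ idx j y)) := fun j hj hj' => Nat.findGreatest_is_greatest hj hj'
  unfold PD_cell PD_closed
  simp only
  generalize PD_lev i₀ J x y v = i at h1 h2 h3 h4
  by_cases hvx : idx i v = idx i x
  · rcases h1 with rfl | h1
    · exact Or.inr (Or.inl (by rw [hvx]))
    · exact absurd hvx h1.2.1
  by_cases hvy : idx i v = idx i y
  · rcases h1 with rfl | h1
    · exact Or.inr (Or.inr (by rw [hvy]))
    · exact absurd hvy h1.2.2
  have h5 : i < J := by
    rcases h3.lt_or_eq with h | h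
    · exact h
    · subst h
      exact absurd (hv.trans hx.symm) hvx
  refine Or.inl ⟨h2, h5, hvx, hvy, ?_⟩
  have h6 := h4 (i + 1) (by omega) (by omega)
  push Not at h6
  by_cases h7 : idx (i + 1) v = idx (i + 1) x
  · left
    rw [← h7]
    exact PD_idx_kids i v
  · right
    rw [← h6.2 (by omega) h7]
    exact PD_idx_kids i v

lemma PD_cell_closed {i₀ J : ℕ} {x y v : V d} {q : (_ : ℕ) × V d} (hq : PD_closed i₀ J x y q) :
    PD_cell i₀ J x y v = q ↔ v ∈ cube q.1 q.2 := by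
  classical
  obtain ⟨i, a⟩ := q
  obtain ⟨h1, h2, h3, h4, h5⟩ := hq
  simp only at h1 h2 h3 h4 h5 ⊢
  rw [PD_mem_cube]
  constructor
  · intro h
    unfold PD_cell at h
    have h6 : PD_lev i₀ J x y v = i := congrArg Sigma.fst h
    rw [h6] at h
    simpa using h
  · intro h
    have h6 : i ≤ PD_lev i₀ J x y v :=
      Nat.le_findGreatest h2.le (Or.inr ⟨h1, by rw [h]; exact h3, by rw [h]; exact h4⟩)
    have h7 : PD_lev i₀ J x y v = i₀ ∨ (i₀ ≤ PD_lev i₀ J x y v ∧
        idx (PD_lev i₀ J x y v) v ≠ idx (PD_lev i₀ J x y v) x ∧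
        idx (PD_lev i₀ J x y v) v ≠ idx (PD_lev i₀ J x y v) y) :=
      Nat.findGreatest_spec (P := fun i => i = i₀ ∨ (i₀ ≤ i ∧ idx i v ≠ idx i x ∧
        idx i v ≠ idx i y)) (h1.trans h2.le) (Or.inl rfl)
    have h8 : PD_lev i₀ J x y v = i := by
      by_contra hne
      have h9 : i + 1 ≤ PD_lev i₀ J x y v := by omega
      rcases h7 with h7 | h7
      · omega
      · rcases h5 with h5 | h5
        · rw [PD_mem_kids, ← h] at h5
          rw [← PD_idx_succ] at h5
          exact h7.2.1 (PD_idx_mono h9 h5)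
        · rw [PD_mem_kids, ← h] at h5
          rw [← PD_idx_succ] at h5
          exact h7.2.2 (PD_idx_mono h9 h5)
    unfold PD_cell
    rw [h8, h]

lemma PD_chain (M : ℕ → V d → (El d → Bool) → ℝ) (ω : El d → Bool) (x : V d) (J : ℕ) :
    ∑ i ∈ Finset.range J, ∑ c ∈ (kids (idx (i + 1) x)).erase (idx i x), M i c ω
      ≤ Vv M J (idx J x) ω := by
  classical
  induction J with
  | zero => simp [Vv]
  | succ J ih =>
    rw [Finset.sum_range_succ]
    refine (add_le_add ih le_rfl).trans ?_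
    have h : (kids (idx (J + 1) x)).sup' (kids_nonempty _)
        (fun c => Vv M J c ω + ∑ c' ∈ (kids (idx (J + 1) x)).erase c, M J c' ω)
        = Vv M (J + 1) (idx (J + 1) x) ω := by
      rw [Vv]
    rw [← h]
    exact Finset.le_sup' (fun c => Vv M J c ω + ∑ c' ∈ (kids (idx (J + 1) x)).erase c, M J c' ω)
      (PD_idx_kids J x)

/-! ### families with the same cut data -/

/-- families of paths whose cells change at the same times and at the same vertices -/
structure PD_Fix (κ : Kind) (ω : El d → Bool) (c : V d → (_ : ℕ) × V d) (x y : V d) (N : ℕ)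
    (F : Finset (List (V d))) (l₀ : List (V d)) : Prop where
  mem₀ : l₀ ∈ F
  op : ∀ l ∈ F, OP κ ω l
  len : ∀ l ∈ F, l.length = N + 1
  start : ∀ l ∈ F, PD_at l 0 = x
  fin : ∀ l ∈ F, PD_at l N = y
  cut : ∀ l ∈ F, ∀ t < N, c (PD_at l₀ t) ≠ c (PD_at l₀ (t + 1)) →
    PD_at l t = PD_at l₀ t ∧ PD_at l (t + 1) = PD_at l₀ (t + 1)
  nocut : ∀ l ∈ F, ∀ t < N, c (PD_at l₀ t) = c (PD_at l₀ (t + 1)) →
    c (PD_at l t) = c (PD_at l (t + 1))

lemma PD_Fix.cell {κ : Kind} {ω : El d → Bool} {c : V d → (_ : ℕ) × V d} {x y : V d} {N : ℕ}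
    {F : Finset (List (V d))} {l₀ : List (V d)} (H : PD_Fix κ ω c x y N F l₀) {l : List (V d)}
    (hl : l ∈ F) : ∀ t ≤ N, c (PD_at l t) = c (PD_at l₀ t) := by
  intro t
  induction t with
  | zero => intro _; rw [H.start l hl, H.start l₀ H.mem₀]
  | succ t ih =>
    intro ht
    by_cases h : c (PD_at l₀ t) = c (PD_at l₀ (t + 1))
    · rw [← H.nocut l hl t ht h, ih (by omega), h]
    · rw [(H.cut l hl t ht h).2]

open Classical in
/-- restriction to the times spent in the cell `q` -/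
noncomputable def PD_res (c : V d → (_ : ℕ) × V d) (N : ℕ) (l₀ : List (V d)) (q : (_ : ℕ) × V d)
    (l : List (V d)) : ℕ → V d :=
  fun t => if t ≤ N ∧ c (PD_at l₀ t) = q then PD_at l t else 0

open Classical in
/-- steps inside the cell `q` -/
noncomputable def PD_W (c : V d → (_ : ℕ) × V d) (N : ℕ) (l₀ : List (V d)) (q : (_ : ℕ) × V d) :
    Finset ℕ :=
  (Finset.range N).filter fun t => c (PD_at l₀ t) = q ∧ c (PD_at l₀ (t + 1)) = q

lemma PD_image_card_le {α β γ : Type*} [DecidableEq β] [DecidableEq γ] (s : Finset α) (f : α → β)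
    (g : α → γ) (h : ∀ a ∈ s, ∀ b ∈ s, g a = g b → f a = f b) :
    (s.image f).card ≤ (s.image g).card := by
  classical
  rcases s.eq_empty_or_nonempty with rfl | ⟨a₀, ha₀⟩
  · simp
  have : Nonempty α := ⟨a₀⟩
  choose! k hk using fun (z : γ) (hz : z ∈ s.image g) => Finset.mem_image.1 hz
  have h1 : s.image f ⊆ (s.image g).image (fun z => f (k z)) := by
    intro z hz
    obtain ⟨a, ha, rfl⟩ := Finset.mem_image.1 hz
    have h2 := hk (g a) (Finset.mem_image_of_mem g ha)
    exact Finset.mem_image.2 ⟨g a, Finset.mem_image_of_mem g ha, h _ h2.1 _ ha h2.2⟩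
  exact (Finset.card_le_card h1).trans Finset.card_image_le

open Classical in
lemma PD_open {κ : Kind} {ω : El d → Bool} {c : V d → (_ : ℕ) × V d} {x y : V d} {N : ℕ}
    {F : Finset (List (V d))} {l₀ : List (V d)} (H : PD_Fix κ ω c x y N F l₀)
    (q : (_ : ℕ) × V d) (hq : ∀ v, c v = q → v ∈ cube q.1 q.2) (hd : 1 ≤ d) :
    (F.image (PD_res c N l₀ q)).card ≤ (2 * d) ^ (2 ^ (d * q.1)) := by
  have h1 : (F.image (PD_res c N l₀ q)).card ≤
      (F.image (fun l => fun t : PD_W c N l₀ q => PD_at l (t + 1) - PD_at l t)).card := by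
    refine PD_image_card_le _ _ _ fun l hl l' hl' h => ?_
    have h2 : ∀ t ≤ N, c (PD_at l₀ t) = q → PD_at l t = PD_at l' t := by
      intro t
      induction t with
      | zero => intro _ _; rw [H.start l hl, H.start l' hl']
      | succ t ih =>
        intro ht hq1
        by_cases hq0 : c (PD_at l₀ t) = q
        · have h3 := ih (by omega) hq0
          have h4 : t ∈ PD_W c N l₀ q := by
            unfold PD_W
            exact Finset.mem_filter.2 ⟨Finset.mem_range.2 (by omega), hq0, hq1⟩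
          have h5 := congrFun h ⟨t, h4⟩
          simp only at h5
          rw [h3] at h5
          exact sub_left_injective h5
        · have h3 : c (PD_at l₀ t) ≠ c (PD_at l₀ (t + 1)) := by rw [hq1]; exact hq0
          rw [(H.cut l hl t (by omega) h3).2, (H.cut l' hl' t (by omega) h3).2]
    funext t
    unfold PD_res
    split_ifs with h3
    · exact h2 t h3.1 h3.2
    · rfl
  have h2 : F.image (fun l => fun t : PD_W c N l₀ q => PD_at l (t + 1) - PD_at l t) ⊆
      Fintype.piFinset (fun _ : PD_W c N l₀ q => Finset.univ.image (stepVec (d := d))) := by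
    intro g hg
    obtain ⟨l, hl, rfl⟩ := Finset.mem_image.1 hg
    rw [Fintype.mem_piFinset]
    rintro ⟨t, ht⟩
    have ht' : t < N := Finset.mem_range.1 (Finset.mem_filter.1 ht).1
    obtain ⟨s, hs⟩ := PD_adj (H.op l hl).chain (t := t) (by rw [H.len l hl]; omega)
    refine Finset.mem_image.2 ⟨s, Finset.mem_univ _, ?_⟩
    simp only
    rw [hs, add_sub_cancel_left]
  have h3 : (Finset.univ.image (stepVec (d := d))).card ≤ 2 * d := by
    refine Finset.card_image_le.trans ?_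
    simp [Step, mul_comm]
  have h4 : (PD_W c N l₀ q).card ≤ 2 ^ (d * q.1) := by
    rw [← PD_cube_card q.1 q.2]
    refine Finset.card_le_card_of_injOn (fun t => PD_at l₀ t) (fun t ht => ?_)
      (fun s hs t ht hst => ?_)
    · exact hq _ (Finset.mem_filter.1 ht).2.1
    · have hs' : s < N := Finset.mem_range.1 (Finset.mem_filter.1 hs).1
      have ht' : t < N := Finset.mem_range.1 (Finset.mem_filter.1 ht).1
      exact PD_at_inj (H.op l₀ H.mem₀).nodup (by rw [H.len l₀ H.mem₀]; omega)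
        (by rw [H.len l₀ H.mem₀]; omega) hst
  refine h1.trans ((Finset.card_le_card h2).trans ?_)
  rw [Fintype.card_piFinset, Finset.prod_const, Finset.card_univ, Fintype.card_coe]
  exact (Nat.pow_le_pow_left h3 _).trans (Nat.pow_le_pow_right (by omega) h4)

/-! ### closed cells -/

open Classical in
/-- starting times of the runs with at least one step in the cell `q` -/
noncomputable def PD_S (c : V d → (_ : ℕ) × V d) (N : ℕ) (l₀ : List (V d)) (q : (_ : ℕ) × V d) :
    Finset ℕ :=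
  (Finset.range N).filter fun s => c (PD_at l₀ s) = q ∧ c (PD_at l₀ (s - 1)) ≠ q ∧
    c (PD_at l₀ (s + 1)) = q

/-- end of the run starting at `s` -/
noncomputable def PD_e (c : V d → (_ : ℕ) × V d) (l₀ : List (V d)) (q : (_ : ℕ) × V d)
    (s : ℕ) : ℕ :=
  sInf {t | s ≤ t ∧ c (PD_at l₀ (t + 1)) ≠ q}

lemma PD_e_spec {c : V d → (_ : ℕ) × V d} {N : ℕ} {l₀ : List (V d)} {q : (_ : ℕ) × V d}
    (hN : c (PD_at l₀ N) ≠ q) {s : ℕ} (hs : s ∈ PD_S c N l₀ q) :
    s + 1 ≤ PD_e c l₀ q s ∧ PD_e c l₀ q s < N ∧ c (PD_at l₀ (PD_e c l₀ q s + 1)) ≠ q ∧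
      ∀ t, s ≤ t → t ≤ PD_e c l₀ q s → c (PD_at l₀ t) = q := by
  classical
  obtain ⟨h0, h1, h2, h3⟩ := Finset.mem_filter.1 hs
  have h0' : s < N := Finset.mem_range.1 h0
  have hne : ({t | s ≤ t ∧ c (PD_at l₀ (t + 1)) ≠ q} : Set ℕ).Nonempty :=
    ⟨N - 1, by omega, by rwa [Nat.sub_add_cancel (by omega)]⟩
  have h4 : s ≤ PD_e c l₀ q s ∧ c (PD_at l₀ (PD_e c l₀ q s + 1)) ≠ q := Nat.sInf_mem hne
  have h5 : PD_e c l₀ q s ≤ N - 1 :=
    Nat.sInf_le ⟨by omega, by rwa [Nat.sub_add_cancel (by omega)]⟩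
  have h6 : ∀ t, s ≤ t → t < PD_e c l₀ q s → c (PD_at l₀ (t + 1)) = q := by
    intro t ht ht'
    by_contra hne
    exact absurd (Nat.sInf_le (s := {t | s ≤ t ∧ c (PD_at l₀ (t + 1)) ≠ q}) ⟨ht, hne⟩)
      (not_le.2 ht')
  refine ⟨?_, by omega, h4.2, fun t ht ht' => ?_⟩
  · rcases h4.1.eq_or_lt with h | h
    · exact absurd h3 (by rw [← h] at h4; exact h4.2)
    · exact h
  · rcases ht.eq_or_lt with rfl | h
    · exact h1
    · have := h6 (t - 1) (by omega) (by omega)
      rwa [Nat.sub_add_cancel (by omega)] at this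

lemma PD_run {c : V d → (_ : ℕ) × V d} {N : ℕ} {l₀ : List (V d)} {q : (_ : ℕ) × V d}
    (h0 : c (PD_at l₀ 0) ≠ q) (hN : c (PD_at l₀ N) ≠ q) : ∀ t ≤ N, c (PD_at l₀ t) = q →
    c (PD_at l₀ (t - 1)) = q → ∃ s ∈ PD_S c N l₀ q, s < t ∧ t ≤ PD_e c l₀ q s := by
  classical
  intro t
  induction t with
  | zero => intro _ h; exact absurd h h0
  | succ t ih =>
    intro ht h1 h2
    rw [Nat.add_sub_cancel] at h2
    by_cases h3 : c (PD_at l₀ (t - 1)) = q
    · obtain ⟨s, hs, hst, hte⟩ := ih (by omega) h2 h3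
      refine ⟨s, hs, by omega, ?_⟩
      rcases hte.eq_or_lt with h | h
      · exact absurd h1 (by rw [h]; exact (PD_e_spec hN hs).2.2.1)
      · exact h
    · have hs : t ∈ PD_S c N l₀ q :=
        Finset.mem_filter.2 ⟨Finset.mem_range.2 (by omega), h2, h3, h1⟩
      exact ⟨t, hs, by omega, (PD_e_spec hN hs).1⟩

lemma PD_sum_len {c : V d → (_ : ℕ) × V d} {N : ℕ} {l₀ : List (V d)} {q : (_ : ℕ) × V d}
    (hN : c (PD_at l₀ N) ≠ q) :
    ∑ s ∈ PD_S c N l₀ q, (PD_e c l₀ q s - s) ≤ (PD_W c N l₀ q).card := by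
  classical
  have h1 : ∀ s ∈ PD_S c N l₀ q, (PD_e c l₀ q s - s) = (Finset.Ico s (PD_e c l₀ q s)).card :=
    fun s _ => (Nat.card_Ico _ _).symm
  rw [Finset.sum_congr rfl h1, ← Finset.card_biUnion]
  · refine Finset.card_le_card fun t ht => ?_
    obtain ⟨s, hs, hst⟩ := Finset.mem_biUnion.1 ht
    rw [Finset.mem_Ico] at hst
    have := PD_e_spec hN hs
    exact Finset.mem_filter.2 ⟨Finset.mem_range.2 (by omega), this.2.2.2 t hst.1 hst.2.le,
      this.2.2.2 (t + 1) (by omega) hst.2⟩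
  · have key : ∀ s ∈ PD_S c N l₀ q, ∀ s' ∈ PD_S c N l₀ q, s < s' →
        Disjoint (Finset.Ico s (PD_e c l₀ q s)) (Finset.Ico s' (PD_e c l₀ q s')) := by
      intro s hs s' hs' hlt
      rw [Finset.disjoint_left]
      intro t ht ht'
      rw [Finset.mem_Ico] at ht ht'
      exact (Finset.mem_filter.1 hs').2.2.1 ((PD_e_spec hN hs).2.2.2 (s' - 1) (by omega) (by omega))
    intro s hs s' hs' hne
    rcases lt_or_gt_of_ne hne with h | h
    · exact key s hs s' hs' h
    · exact (key s' hs' s hs h).symm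

lemma PD_S_card {c : V d → (_ : ℕ) × V d} {N : ℕ} {l₀ : List (V d)} {q : (_ : ℕ) × V d}
    (hl : l₀.length = N + 1) (h0 : c (PD_at l₀ 0) ≠ q) (hq : ∀ v, c v = q ↔ v ∈ cube q.1 q.2) :
    (PD_S c N l₀ q).card ≤ cr q.1 l₀ := by
  classical
  rw [PD_cr, hl, Nat.add_sub_cancel]
  have hpos : ∀ s ∈ PD_S c N l₀ q, 1 ≤ s := by
    intro s hs
    rcases Nat.eq_zero_or_pos s with rfl | h
    · exact absurd (Finset.mem_filter.1 hs).2.1 h0
    · exact h
  refine Finset.card_le_card_of_injOn (fun s => s - 1) (fun s hs => ?_) (fun s hs t ht hst => ?_)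
  · have h1 := hpos s hs
    obtain ⟨h2, h3, h4, h5⟩ := Finset.mem_filter.1 hs
    rw [Finset.mem_range] at h2
    refine Finset.mem_coe.2 (Finset.mem_filter.2 ⟨Finset.mem_range.2
      (show s - 1 < N by omega), ?_⟩)
    simp only
    rw [Nat.sub_add_cancel h1]
    intro h
    apply h4
    rw [hq, PD_mem_cube, h, ← PD_mem_cube, ← hq]
    exact h3
  · have h1 := hpos s hs
    have h2 := hpos t ht
    simp only at hst
    omega

open Classical in
/-- the data of the closed family carried by the cell `q` -/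
noncomputable def PD_D (c : V d → (_ : ℕ) × V d) (N : ℕ) (l₀ : List (V d)) (q : (_ : ℕ) × V d) :
    TData d where
  k := (PD_S c N l₀ q).card
  x := fun j => PD_at l₀ ((PD_S c N l₀ q).orderEmbOfFin rfl j)
  y := fun j => PD_at l₀ (PD_e c l₀ q ((PD_S c N l₀ q).orderEmbOfFin rfl j))
  n := fun j => PD_e c l₀ q ((PD_S c N l₀ q).orderEmbOfFin rfl j)
    - (PD_S c N l₀ q).orderEmbOfFin rfl j

/-- the tuple of runs of `l` in the cell `q` -/
noncomputable def PD_w (c : V d → (_ : ℕ) × V d) (N : ℕ) (l₀ : List (V d)) (q : (_ : ℕ) × V d)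
    (l : List (V d)) : Fin (PD_D c N l₀ q).k → List (V d) :=
  fun j => PD_seg l ((PD_S c N l₀ q).orderEmbOfFin rfl j) ((PD_D c N l₀ q).n j)

lemma PD_tok {κ : Kind} {ω : El d → Bool} {c : V d → (_ : ℕ) × V d} {x y : V d} {N : ℕ}
    {F : Finset (List (V d))} {l₀ : List (V d)} (H : PD_Fix κ ω c x y N F l₀)
    {q : (_ : ℕ) × V d} (hq : ∀ v, c v = q ↔ v ∈ cube q.1 q.2) (hx : c x ≠ q) (hy : c y ≠ q)
    (hk : 1 ≤ (PD_S c N l₀ q).card) : TOK (cube q.1 q.2 : Set (V d)) (PD_D c N l₀ q) := by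
  classical
  have h0 : c (PD_at l₀ 0) ≠ q := by rw [H.start l₀ H.mem₀]; exact hx
  have hN : c (PD_at l₀ N) ≠ q := by rw [H.fin l₀ H.mem₀]; exact hy
  have hlen := H.len l₀ H.mem₀
  refine ⟨hk, fun (j : Fin (PD_S c N l₀ q).card) => ?_⟩
  have hs : (PD_S c N l₀ q).orderEmbOfFin rfl j ∈ PD_S c N l₀ q :=
    Finset.orderEmbOfFin_mem _ rfl j
  have hes := PD_e_spec hN hs
  unfold PD_D
  simp only
  generalize (PD_S c N l₀ q).orderEmbOfFin rfl j = s at hs hes
  obtain ⟨h1, h2, h3, h4⟩ := Finset.mem_filter.1 hs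
  rw [Finset.mem_range] at h1
  have hs1 : 1 ≤ s := by
    rcases Nat.eq_zero_or_pos s with rfl | h
    · exact absurd h2 h0
    · exact h
  refine ⟨⟨?_, PD_at l₀ (s - 1), ?_, ?_⟩, ⟨?_, PD_at l₀ (PD_e c l₀ q s + 1), ?_, ?_⟩, by omega⟩
  · exact (hq _).1 h2
  · have := PD_adj (H.op l₀ H.mem₀).chain (t := s - 1) (by omega)
    rw [Nat.sub_add_cancel hs1] at this
    exact Split_latAdj_symm this
  · exact fun h => h3 ((hq _).2 h)
  · exact (hq _).1 (hes.2.2.2 _ (by omega) le_rfl)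
  · exact PD_adj (H.op l₀ H.mem₀).chain (by omega)
  · exact fun h => hes.2.2.1 ((hq _).2 h)

lemma PD_w_mem {κ : Kind} {ω : El d → Bool} {c : V d → (_ : ℕ) × V d} {x y : V d} {N : ℕ}
    {F : Finset (List (V d))} {l₀ : List (V d)} (H : PD_Fix κ ω c x y N F l₀)
    {q : (_ : ℕ) × V d} (hq : ∀ v, c v = q ↔ v ∈ cube q.1 q.2) (hx : c x ≠ q) (hy : c y ≠ q)
    {l : List (V d)} (hl : l ∈ F) :
    PD_w c N l₀ q l ∈ TFam κ ω (cube q.1 q.2 : Set (V d)) (PD_D c N l₀ q) := by
  classical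
  have h0 : c (PD_at l₀ 0) ≠ q := by rw [H.start l₀ H.mem₀]; exact hx
  have hN : c (PD_at l₀ N) ≠ q := by rw [H.fin l₀ H.mem₀]; exact hy
  have hlen := H.len l₀ H.mem₀
  have hlenl := H.len l hl
  have hs : ∀ j : Fin (PD_S c N l₀ q).card, (PD_S c N l₀ q).orderEmbOfFin rfl j ∈ PD_S c N l₀ q :=
    fun j => Finset.orderEmbOfFin_mem _ rfl j
  refine ⟨fun (j : Fin (PD_S c N l₀ q).card) => ?_,
    fun (i j : Fin (PD_S c N l₀ q).card) hij => ?_⟩
  · have hsj := hs j
    have hes := PD_e_spec hN hsj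
    unfold PD_w PD_D
    simp only
    generalize (PD_S c N l₀ q).orderEmbOfFin rfl j = s at hsj hes
    obtain ⟨h1, h2, h3, h4⟩ := Finset.mem_filter.1 hsj
    rw [Finset.mem_range] at h1
    have hs1 : 1 ≤ s := by
      rcases Nat.eq_zero_or_pos s with rfl | h
      · exact absurd h2 h0
      · exact h
    have hse : s + (PD_e c l₀ q s - s) = PD_e c l₀ q s := by omega
    have hlt : s + (PD_e c l₀ q s - s) < l.length := by omega
    refine ⟨PD_seg_op (H.op l hl) _ _, PD_seg_length hlt, ?_, ?_, ?_⟩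
    · rw [PD_seg_head hlt]
      have := (H.cut l hl (s - 1) (by omega) (by
        rw [Nat.sub_add_cancel hs1, h2]; exact h3)).2
      rw [Nat.sub_add_cancel hs1] at this
      rw [this]
    · rw [PD_seg_last hlt, hse]
      rw [(H.cut l hl (PD_e c l₀ q s) hes.2.1 (by
        rw [hes.2.2.2 _ (by omega) le_rfl]; exact fun h => hes.2.2.1 h.symm)).1]
    · intro v hv
      obtain ⟨t, ht, rfl⟩ := PD_mem_seg hlt hv
      refine (hq _).1 ?_
      rw [H.cell hl _ (by omega)]
      exact hes.2.2.2 _ (by omega) (by omega)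
  · intro v hvi hvj
    have hei := PD_e_spec hN (hs i)
    have hej := PD_e_spec hN (hs j)
    have hne : (PD_S c N l₀ q).orderEmbOfFin rfl i ≠ (PD_S c N l₀ q).orderEmbOfFin rfl j :=
      fun h => hij ((PD_S c N l₀ q).orderEmbOfFin rfl |>.injective h)
    have hi := hs i
    have hj := hs j
    unfold PD_w PD_D at hvi hvj
    simp only at hvi hvj
    generalize (PD_S c N l₀ q).orderEmbOfFin rfl i = s at hi hei hne hvi
    generalize (PD_S c N l₀ q).orderEmbOfFin rfl j = s' at hj hej hne hvj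
    obtain ⟨t, ht, rfl⟩ := PD_mem_seg (by omega) hvi
    obtain ⟨t', ht', h⟩ := PD_mem_seg (by omega) hvj
    have hinj := PD_at_inj (H.op l hl).nodup (by omega) (by omega) h
    rcases lt_or_gt_of_ne hne with hlt | hlt
    · exact (Finset.mem_filter.1 hj).2.2.1 (hei.2.2.2 (s' - 1) (by omega) (by omega))
    · exact (Finset.mem_filter.1 hi).2.2.1 (hej.2.2.2 (s - 1) (by omega) (by omega))

lemma PD_w_res {κ : Kind} {ω : El d → Bool} {c : V d → (_ : ℕ) × V d} {x y : V d} {N : ℕ}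
    {F : Finset (List (V d))} {l₀ : List (V d)} (H : PD_Fix κ ω c x y N F l₀)
    {q : (_ : ℕ) × V d} (hx : c x ≠ q) (hy : c y ≠ q) {l l' : List (V d)} (hl : l ∈ F)
    (hl' : l' ∈ F) (h : PD_w c N l₀ q l = PD_w c N l₀ q l') :
    PD_res c N l₀ q l = PD_res c N l₀ q l' := by
  classical
  have h0 : c (PD_at l₀ 0) ≠ q := by rw [H.start l₀ H.mem₀]; exact hx
  have hN : c (PD_at l₀ N) ≠ q := by rw [H.fin l₀ H.mem₀]; exact hy
  have hlen := H.len l hl
  have hlen' := H.len l' hl'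
  funext t
  unfold PD_res
  split_ifs with h1
  · obtain ⟨h1, h2⟩ := h1
    have ht1 : 1 ≤ t := by
      rcases Nat.eq_zero_or_pos t with rfl | h
      · exact absurd h2 h0
      · exact h
    by_cases h3 : c (PD_at l₀ (t - 1)) = q
    · obtain ⟨s, hs, hst, hte⟩ := PD_run h0 hN t h1 h2 h3
      have hes := PD_e_spec hN hs
      obtain ⟨j, hj⟩ : ∃ j, (PD_S c N l₀ q).orderEmbOfFin rfl j = s := by
        have : s ∈ Set.range ((PD_S c N l₀ q).orderEmbOfFin rfl) := by
          rw [Finset.range_orderEmbOfFin]; exact hs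
        exact this
      have h4 := congrFun h j
      unfold PD_w PD_D at h4
      simp only at h4
      rw [hj] at h4
      have h5 := PD_seg_eq (by omega) (by omega) h4 (t := t - s) (by omega)
      rwa [Nat.add_sub_cancel' hst.le] at h5
    · have h4 : c (PD_at l₀ (t - 1)) ≠ c (PD_at l₀ (t - 1 + 1)) := by
        rw [Nat.sub_add_cancel ht1, h2]; exact h3
      have h5 := (H.cut l hl (t - 1) (by omega) h4).2
      have h6 := (H.cut l' hl' (t - 1) (by omega) h4).2
      rw [Nat.sub_add_cancel ht1] at h5 h6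
      rw [h5, h6]
  · rfl

lemma PD_gam_nonneg (hd : 2 ≤ d) : 0 ≤ gam d := by
  unfold gam
  have h1 : (2 : ℝ) ≤ d := by exact_mod_cast hd
  have h2 : 1 / (2 * ((d : ℝ) - 1)) ≤ 1 := by
    rw [div_le_one (by linarith)]
    linarith
  linarith

open Classical in
lemma PD_closed_bound (hd : 2 ≤ d) {κ : Kind} {b Cp : ℝ} (hb : 0 ≤ b) (hCp : 0 ≤ Cp)
    {ω : El d → Bool} {c : V d → (_ : ℕ) × V d} {x y : V d} {N : ℕ}
    {F : Finset (List (V d))} {l₀ : List (V d)} (H : PD_Fix κ ω c x y N F l₀)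
    {q : (_ : ℕ) × V d} (hq : ∀ v, c v = q ↔ v ∈ cube q.1 q.2) (hx : c x ≠ q) (hy : c y ≠ q)
    {mq : ℝ} (hm : (cr q.1 l₀ : ℝ) ≤ mq) :
    Real.log (F.image (PD_res c N l₀ q)).card ≤ b * (PD_W c N l₀ q).card +
      (Cp * 2 ^ q.1 * mq ^ gam d + MQ κ b Cp q.1 q.2 ω) := by
  have hm0 : 0 ≤ mq := (Nat.cast_nonneg _).trans hm
  have h0 : c (PD_at l₀ 0) ≠ q := by rw [H.start l₀ H.mem₀]; exact hx
  have hN : c (PD_at l₀ N) ≠ q := by rw [H.fin l₀ H.mem₀]; exact hy
  have h1 : (F.image (PD_res c N l₀ q)).card ≤ (F.image (PD_w c N l₀ q)).card :=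
    PD_image_card_le _ _ _ fun l hl l' hl' h => PD_w_res H hx hy hl hl' h
  have h2 : 0 < (F.image (PD_res c N l₀ q)).card :=
    Finset.card_pos.2 (Finset.Nonempty.image ⟨l₀, H.mem₀⟩ _)
  rcases Nat.eq_zero_or_pos (PD_S c N l₀ q).card with hk | hk
  · have h3 : (F.image (PD_w c N l₀ q)).card ≤ 1 := by
      rw [Finset.card_le_one]
      intro u _ v _
      funext j
      have hj : (j : ℕ) < (PD_S c N l₀ q).card := j.2
      omega
    have h4 : (F.image (PD_res c N l₀ q)).card = 1 := by omega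
    rw [h4, Nat.cast_one, Real.log_one]
    have := mq_nonneg κ hb hCp q.1 q.2 ω
    positivity
  · have h3 : (F.image (PD_w c N l₀ q)).card ≤
        (TFam κ ω (cube q.1 q.2 : Set (V d)) (PD_D c N l₀ q)).ncard := by
      rw [← Set.ncard_coe_finset]
      refine Set.ncard_le_ncard ?_ (tfam_finite κ ω _ _)
      intro u hu
      obtain ⟨l, hl, rfl⟩ := Finset.mem_image.1 (Finset.mem_coe.1 hu)
      exact PD_w_mem H hq hx hy hl
    have h4 := le_mq κ hb hCp q.1 q.2 ω (PD_D c N l₀ q) (PD_tok H hq hx hy hk)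
      ⟨_, PD_w_mem H hq hx hy H.mem₀⟩
    have h5 : Real.log (F.image (PD_res c N l₀ q)).card ≤
        Real.log (TFam κ ω (cube q.1 q.2 : Set (V d)) (PD_D c N l₀ q)).ncard :=
      Real.log_le_log (by exact_mod_cast h2) (by exact_mod_cast h1.trans h3)
    have h6 : (∑ j, ((PD_D c N l₀ q).n j : ℝ)) ≤ (PD_W c N l₀ q).card := by
      have h7 : ∑ j, (PD_D c N l₀ q).n j = ∑ s ∈ PD_S c N l₀ q, (PD_e c l₀ q s - s) := by
        rw [← Finset.sum_coe_sort (PD_S c N l₀ q) (fun s => PD_e c l₀ q s - s)]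
        exact Fintype.sum_equiv ((PD_S c N l₀ q).orderIsoOfFin rfl).toEquiv _ _ fun j => rfl
      rw [← Nat.cast_sum, h7]
      exact_mod_cast PD_sum_len hN
    have h7 : ((PD_D c N l₀ q).k : ℝ) ^ gam d ≤ mq ^ gam d := by
      refine Real.rpow_le_rpow (Nat.cast_nonneg _) ?_ (PD_gam_nonneg hd)
      refine le_trans ?_ hm
      exact_mod_cast PD_S_card (H.len l₀ H.mem₀) h0 hq
    unfold valD at h4
    have h8 : Cp * 2 ^ q.1 * ((PD_D c N l₀ q).k : ℝ) ^ gam d ≤ Cp * 2 ^ q.1 * mq ^ gam d :=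
      mul_le_mul_of_nonneg_left h7 (by positivity)
    have h9 := mul_le_mul_of_nonneg_left h6 hb
    linarith

open Classical in
lemma PD_core (hd : 2 ≤ d) {κ : Kind} {b Cp : ℝ} (hb : 0 ≤ b) (hCp : 0 ≤ Cp)
    {ω : El d → Bool} {i₀ J : ℕ} {A x y : V d} {N : ℕ} (hi : i₀ ≤ J)
    {F : Finset (List (V d))} {l₀ : List (V d)} (H : PD_Fix κ ω (PD_cell i₀ J x y) x y N F l₀)
    (hA : ∀ l ∈ F, ∀ v ∈ l, v ∈ cube J A) {m : ℕ → ℝ}
    (hm : ∀ l ∈ F, ∀ i, i₀ ≤ i → i < J → (cr i l : ℝ) ≤ m i) :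
    Real.log F.card ≤ b * N + 2 * Vv (MQ κ b Cp) J A ω
      + ∑ i ∈ Finset.Ico i₀ J, 2 ^ (d + 1) * Cp * 2 ^ i * (m i) ^ gam d
      + 2 ^ (d * i₀ + 1) * Real.log (2 * d) := by
  have hlen := H.len l₀ H.mem₀
  have hat : ∀ t ≤ N, idx J (PD_at l₀ t) = A := fun t ht =>
    PD_mem_cube.1 (hA l₀ H.mem₀ _ (PD_at_mem (by omega)))
  have hxA : idx J x = A := by rw [← H.start l₀ H.mem₀]; exact hat 0 (Nat.zero_le _)
  have hyA : idx J y = A := by rw [← H.fin l₀ H.mem₀]; exact hat N le_rfl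
  set c := PD_cell i₀ J x y with hc
  set C : Finset ((_ : ℕ) × V d) := (Finset.range (N + 1)).image fun t => c (PD_at l₀ t) with hC
  have hlogd : 0 ≤ Real.log (2 * d) := Real.log_nonneg (by
    have : (2 : ℝ) ≤ d := by exact_mod_cast hd
    linarith)
  have hcard0 : ∀ q, 0 < (F.image (PD_res c N l₀ q)).card := fun q =>
    Finset.card_pos.2 (Finset.Nonempty.image ⟨l₀, H.mem₀⟩ _)
  -- product structure
  have h1 : F.card ≤ ∏ q ∈ C, (F.image (PD_res c N l₀ q)).card := by
    rw [← Finset.prod_coe_sort, ← Fintype.card_piFinset]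
    refine Finset.card_le_card_of_injOn (fun l => fun q : C => PD_res c N l₀ q l)
      (fun l hl => ?_) (fun l hl l' hl' h => ?_)
    · rw [Finset.mem_coe, Fintype.mem_piFinset]
      exact fun q => Finset.mem_image_of_mem _ hl
    · refine PD_ext (by rw [H.len l hl, H.len l' hl']) fun t ht => ?_
      rw [H.len l hl] at ht
      have hq : c (PD_at l₀ t) ∈ C := Finset.mem_image.2 ⟨t, Finset.mem_range.2 ht, rfl⟩
      have h2 := congrFun (congrFun h ⟨_, hq⟩) t
      simp only [PD_res] at h2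
      rwa [if_pos ⟨by omega, trivial⟩, if_pos ⟨by omega, trivial⟩] at h2
  have h2 : Real.log F.card ≤ ∑ q ∈ C, Real.log (F.image (PD_res c N l₀ q)).card := by
    rw [← Real.log_prod (fun q _ => by
      have := hcard0 q
      positivity)]
    refine Real.log_le_log ?_ ?_
    · exact_mod_cast Finset.card_pos.2 ⟨l₀, H.mem₀⟩
    · exact_mod_cast h1
  set K : ℝ := 2 ^ (d * i₀) * Real.log (2 * d) with hK
  have hK0 : 0 ≤ K := by positivity
  set h : (_ : ℕ) × V d → ℝ := fun q => Cp * 2 ^ q.1 * (m q.1) ^ gam d + MQ κ b Cp q.1 q.2 ω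
    with hh
  have hmi : ∀ i, i₀ ≤ i → i < J → 0 ≤ m i := fun i h1 h2 =>
    (Nat.cast_nonneg _).trans (hm l₀ H.mem₀ i h1 h2)
  have h3 : ∀ q ∈ C, Real.log (F.image (PD_res c N l₀ q)).card ≤
      b * (PD_W c N l₀ q).card + (if PD_closed i₀ J x y q then h q else 0) +
        (if q = ⟨i₀, idx i₀ x⟩ ∨ q = ⟨i₀, idx i₀ y⟩ then K else 0) := by
    intro q hq
    obtain ⟨t, ht, hqt⟩ := Finset.mem_image.1 hq
    rw [Finset.mem_range] at ht
    have hcube : ∀ v, c v = q → v ∈ cube q.1 q.2 := by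
      rintro v rfl
      rw [PD_mem_cube]
      rfl
    by_cases hcl : PD_closed i₀ J x y q
    · rw [if_pos hcl]
      have hne : ∀ z, idx q.1 z ≠ q.2 → c z ≠ q := fun z hz h => hz (PD_mem_cube.1 (hcube z h))
      have h4 := PD_closed_bound hd hb hCp H (q := q) (fun v => PD_cell_closed hcl)
        (hne x hcl.2.2.1.symm) (hne y hcl.2.2.2.1.symm)
        (hm l₀ H.mem₀ q.1 hcl.1 hcl.2.1)
      refine h4.trans (le_add_of_nonneg_right ?_)
      split_ifs
      · exact hK0
      · exact le_rfl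
    · have h4 : q = ⟨i₀, idx i₀ x⟩ ∨ q = ⟨i₀, idx i₀ y⟩ := by
        have h5 := PD_cell_cases (x := x) (y := y) (v := PD_at l₀ t) hi hxA (hat t (by omega))
        rw [← hc, hqt] at h5
        exact h5.resolve_left hcl
      rw [if_neg hcl, if_pos h4]
      have h5 : q.1 = i₀ := by rcases h4 with rfl | rfl <;> rfl
      have h6 := PD_open H q hcube (by omega)
      have h7 : Real.log (F.image (PD_res c N l₀ q)).card ≤ K := by
        have h8 : ((F.image (PD_res c N l₀ q)).card : ℝ) ≤ (2 * d) ^ (2 ^ (d * i₀)) := by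
          rw [h5] at h6
          exact_mod_cast h6
        refine (Real.log_le_log (by exact_mod_cast hcard0 q) h8).trans (le_of_eq ?_)
        rw [Real.log_pow, hK]
        push_cast
        ring
      have : 0 ≤ b * (PD_W c N l₀ q).card := by positivity
      linarith
  have h4 := h2.trans (Finset.sum_le_sum h3)
  rw [Finset.sum_add_distrib, Finset.sum_add_distrib, ← Finset.mul_sum] at h4
  -- steps
  have h5 : (∑ q ∈ C, ((PD_W c N l₀ q).card : ℝ)) ≤ N := by
    have h6 : ∑ q ∈ C, (PD_W c N l₀ q).card ≤ N := by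
      calc ∑ q ∈ C, (PD_W c N l₀ q).card
          ≤ ∑ q ∈ C, ((Finset.range N).filter fun t => c (PD_at l₀ t) = q).card := by
            refine Finset.sum_le_sum fun q _ => Finset.card_le_card fun t ht => ?_
            rw [PD_W, Finset.mem_filter] at ht
            exact Finset.mem_filter.2 ⟨ht.1, ht.2.1⟩
        _ = (Finset.range N).card := by
            refine (Finset.card_eq_sum_card_fiberwise fun t ht => ?_).symm
            have : t < N := Finset.mem_range.1 ht
            exact Finset.mem_coe.2 (Finset.mem_image.2 ⟨t, Finset.mem_range.2 (by omega), rfl⟩)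
        _ = N := Finset.card_range N
    exact_mod_cast h6
  -- open cells
  have h6 : (∑ q ∈ C, (if q = ⟨i₀, idx i₀ x⟩ ∨ q = ⟨i₀, idx i₀ y⟩ then K else 0)) ≤ 2 * K := by
    rw [← Finset.sum_filter, Finset.sum_const, nsmul_eq_mul]
    refine mul_le_mul_of_nonneg_right ?_ hK0
    have h7 : (C.filter fun q => q = ⟨i₀, idx i₀ x⟩ ∨ q = ⟨i₀, idx i₀ y⟩).card ≤ 2 := by
      refine (Finset.card_le_card (t := {⟨i₀, idx i₀ x⟩, ⟨i₀, idx i₀ y⟩}) fun q hq => ?_).trans
        Finset.card_le_two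
      simpa using (Finset.mem_filter.1 hq).2
    exact_mod_cast h7
  -- closed cells
  have hh0 : ∀ q : (_ : ℕ) × V d, i₀ ≤ q.1 → q.1 < J → 0 ≤ h q := by
    intro q h7 h8
    have h9 := hmi q.1 h7 h8
    have h10 := mq_nonneg κ hb hCp q.1 q.2 ω
    simp only [hh]
    positivity
  have hside : ∀ z : V d, idx J z = A →
      ∑ q ∈ ((Finset.Ico i₀ J).sigma fun i => (kids (idx (i + 1) z)).erase (idx i z)), h q ≤
        ∑ i ∈ Finset.Ico i₀ J, 2 ^ d * (Cp * 2 ^ i * (m i) ^ gam d) + Vv (MQ κ b Cp) J A ω := by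
    intro z hz
    rw [Finset.sum_sigma]
    have h7 : ∑ i ∈ Finset.Ico i₀ J, ∑ a ∈ (kids (idx (i + 1) z)).erase (idx i z),
        MQ κ b Cp i a ω ≤ Vv (MQ κ b Cp) J A ω := by
      rw [← hz]
      refine le_trans ?_ (PD_chain (MQ κ b Cp) ω z J)
      refine Finset.sum_le_sum_of_subset_of_nonneg (fun i hi' => ?_) fun i _ _ =>
        Finset.sum_nonneg fun a _ => mq_nonneg κ hb hCp i a ω
      exact Finset.mem_range.2 (Finset.mem_Ico.1 hi').2
    refine le_trans ?_ (add_le_add le_rfl h7)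
    rw [← Finset.sum_add_distrib]
    refine Finset.sum_le_sum fun i hi' => ?_
    simp only [hh]
    rw [Finset.sum_add_distrib, Finset.sum_const, nsmul_eq_mul]
    have h8 : (((kids (idx (i + 1) z)).erase (idx i z)).card : ℝ) ≤ 2 ^ d := by
      have := (Finset.card_le_card (Finset.erase_subset (idx i z) (kids (idx (i + 1) z)))).trans
        (PD_kids_card (idx (i + 1) z)).le
      exact_mod_cast this
    have h9 := hmi i (Finset.mem_Ico.1 hi').1 (Finset.mem_Ico.1 hi').2
    exact add_le_add (mul_le_mul_of_nonneg_right h8 (by positivity)) le_rfl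
  have h7 : (∑ q ∈ C, if PD_closed i₀ J x y q then h q else 0) ≤
      2 * Vv (MQ κ b Cp) J A ω + ∑ i ∈ Finset.Ico i₀ J, 2 ^ (d + 1) * Cp * 2 ^ i * (m i) ^ gam d := by
    rw [← Finset.sum_filter]
    set X := (Finset.Ico i₀ J).sigma fun i => (kids (idx (i + 1) x)).erase (idx i x) with hX
    set Y := (Finset.Ico i₀ J).sigma fun i => (kids (idx (i + 1) y)).erase (idx i y) with hY
    have hXY : ∀ q ∈ X ∪ Y, 0 ≤ h q := by
      intro q hq
      rcases Finset.mem_union.1 hq with hq | hq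
      · have := Finset.mem_Ico.1 (Finset.mem_sigma.1 hq).1
        exact hh0 q this.1 this.2
      · have := Finset.mem_Ico.1 (Finset.mem_sigma.1 hq).1
        exact hh0 q this.1 this.2
    have h8 : ∑ q ∈ C.filter (PD_closed i₀ J x y), h q ≤ ∑ q ∈ X ∪ Y, h q := by
      refine Finset.sum_le_sum_of_subset_of_nonneg (fun q hq => ?_) fun q hq _ => hXY q hq
      obtain ⟨h9, h10, h11, h12, h13⟩ := (Finset.mem_filter.1 hq).2
      rcases h13 with h13 | h13
      · exact Finset.mem_union_left _ (Finset.mem_sigma.2 ⟨Finset.mem_Ico.2 ⟨h9, h10⟩,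
          Finset.mem_erase.2 ⟨h11, h13⟩⟩)
      · exact Finset.mem_union_right _ (Finset.mem_sigma.2 ⟨Finset.mem_Ico.2 ⟨h9, h10⟩,
          Finset.mem_erase.2 ⟨h12, h13⟩⟩)
    have h9 := Finset.sum_union_inter (s₁ := X) (s₂ := Y) (f := h)
    have h10 : 0 ≤ ∑ q ∈ X ∩ Y, h q := Finset.sum_nonneg fun q hq =>
      hXY q (Finset.mem_union_left _ (Finset.mem_inter.1 hq).1)
    have h11 := hside x hxA
    have h12 := hside y hyA
    have h13 : ∑ i ∈ Finset.Ico i₀ J, 2 ^ (d + 1) * Cp * 2 ^ i * (m i) ^ gam d =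
        2 * ∑ i ∈ Finset.Ico i₀ J, 2 ^ d * (Cp * 2 ^ i * (m i) ^ gam d) := by
      rw [Finset.mul_sum]
      refine Finset.sum_congr rfl fun i _ => ?_
      ring
    rw [h13]
    linarith
  have h8 := mul_le_mul_of_nonneg_left h5 hb
  have h9 : (2 : ℝ) ^ (d * i₀ + 1) * Real.log (2 * d) = 2 * K := by
    rw [hK, pow_succ]; ring
  rw [h9]
  linarith

/-! ### the most popular cut data -/

open Classical in
/-- cut times with the vertices on both sides -/
noncomputable def PD_dat (c : V d → (_ : ℕ) × V d) (N : ℕ) (l : List (V d)) :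
    Finset (ℕ × V d × V d) :=
  ((Finset.range N).filter fun t => c (PD_at l t) ≠ c (PD_at l (t + 1))).image
    fun t => (t, PD_at l t, PD_at l (t + 1))

lemma PD_mem_dat {c : V d → (_ : ℕ) × V d} {N : ℕ} {l : List (V d)} {z : ℕ × V d × V d} :
    z ∈ PD_dat c N l ↔ z.1 < N ∧ c (PD_at l z.1) ≠ c (PD_at l (z.1 + 1)) ∧
      z.2.1 = PD_at l z.1 ∧ z.2.2 = PD_at l (z.1 + 1) := by
  classical
  obtain ⟨t, u, v⟩ := z
  simp only [PD_dat, Finset.mem_image, Finset.mem_filter, Finset.mem_range, Prod.mk.injEq]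
  constructor
  · rintro ⟨s, ⟨h1, h2⟩, rfl, rfl, rfl⟩
    exact ⟨h1, h2, rfl, rfl⟩
  · rintro ⟨h1, h2, rfl, rfl⟩
    exact ⟨t, ⟨h1, h2⟩, rfl, rfl, rfl⟩

lemma PD_card_small {α : Type*} [DecidableEq α] (s : Finset α) (K : ℕ) :
    (s.powerset.filter fun t => t.card ≤ K).card ≤ (s.card + 1) ^ K := by
  have h1 : (s.powerset.filter fun t => t.card ≤ K) ⊆
      (Finset.range (K + 1)).biUnion fun j => s.powersetCard j := by
    intro t ht
    obtain ⟨h2, h3⟩ := Finset.mem_filter.1 ht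
    exact Finset.mem_biUnion.2 ⟨t.card, Finset.mem_range.2 (by omega),
      Finset.mem_powersetCard.2 ⟨Finset.mem_powerset.1 h2, rfl⟩⟩
  refine (Finset.card_le_card h1).trans (Finset.card_biUnion_le.trans ?_)
  rw [add_pow]
  refine Finset.sum_le_sum fun j hj => ?_
  rw [Finset.card_powersetCard, one_pow, mul_one]
  have h2 : 1 ≤ K.choose j := Nat.choose_pos (by rw [Finset.mem_range] at hj; omega)
  calc s.card.choose j ≤ s.card ^ j := Nat.choose_le_pow _ _
    _ = s.card ^ j * 1 := (mul_one _).symm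
    _ ≤ s.card ^ j * K.choose j := Nat.mul_le_mul_left _ h2

theorem decomp (hd : 2 ≤ d) (κ : Kind) (b Cp : ℝ) (hb : 0 ≤ b) (hCp : 0 ≤ Cp) (ω : El d → Bool)
    (F : Finset (List (V d))) (hF : F.Nonempty) (x y : V d) (N : ℕ) (hfam : IsFam κ ω F x y N)
    (J i₀ : ℕ) (hi : i₀ ≤ J) (A : V d) (hA : ∀ l ∈ F, ∀ v ∈ l, v ∈ cube J A) (m : ℕ → ℝ)
    (hm : ∀ l ∈ F, ∀ i, i₀ ≤ i → i < J → (cr i l : ℝ) ≤ m i) (hm0 : (0 : ℝ) ≤ m i₀) :
    Real.log F.card ≤ b * N + 2 * Vv (MQ κ b Cp) J A ω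
      + ∑ i ∈ Finset.Ico i₀ J, 2 ^ (d + 1) * Cp * 2 ^ i * (m i) ^ gam d
      + 2 ^ (d * i₀ + 1) * Real.log (2 * d)
      + (m i₀ + 1) * (Real.log (N + 2) + (2 * J * d + 1) * Real.log 2) := by
  classical
  have hop : ∀ l ∈ F, OP κ ω l := fun l hl => (hfam l hl).1
  have hlen : ∀ l ∈ F, l.length = N + 1 := fun l hl => (hfam l hl).2.1
  have hst : ∀ l ∈ F, PD_at l 0 = x := by
    intro l hl
    have h1 := (hfam l hl).2.2.1
    have h2 : 0 < l.length := by rw [hlen l hl]; omega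
    rw [List.head?_eq_getElem?, List.getElem?_eq_getElem h2] at h1
    rw [PD_at_eq h2]
    exact Option.some.inj h1
  have hfin : ∀ l ∈ F, PD_at l N = y := by
    intro l hl
    have h1 := (hfam l hl).2.2.2.1
    have h2 : N < l.length := by rw [hlen l hl]; omega
    rw [List.getLast?_eq_getElem?, hlen l hl, Nat.add_sub_cancel,
      List.getElem?_eq_getElem h2] at h1
    rw [PD_at_eq h2]
    exact Option.some.inj h1
  set c := PD_cell i₀ J x y with hc
  set K : ℕ := ⌊m i₀⌋₊ with hK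
  have hidx : ∀ l ∈ F, ∀ t ≤ N, idx J (PD_at l t) = A := fun l hl t ht =>
    PD_mem_cube.1 (hA l hl _ (PD_at_mem (by rw [hlen l hl]; omega)))
  -- the number of cuts
  have hcut : ∀ l ∈ F, (PD_dat c N l).card ≤ K := by
    intro l hl
    rcases hi.lt_or_eq with hlt | heq
    · have h1 : (PD_dat c N l).card ≤ cr i₀ l := by
        refine Finset.card_image_le.trans ?_
        rw [PD_cr, hlen l hl, Nat.add_sub_cancel]
        refine Finset.card_le_card fun t ht => ?_
        rw [Finset.mem_filter] at ht ⊢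
        exact ⟨ht.1, fun h => ht.2 (PD_cell_congr hi h)⟩
      exact h1.trans (Nat.le_floor (hm l hl i₀ le_rfl hlt))
    · have h1 : PD_dat c N l = ∅ := by
        rw [Finset.eq_empty_iff_forall_notMem]
        intro z hz
        obtain ⟨h2, h3, -, -⟩ := PD_mem_dat.1 hz
        apply h3
        apply PD_cell_congr hi
        rw [heq, hidx l hl _ (by omega), hidx l hl _ (by omega)]
      rw [h1]
      exact Nat.zero_le _
  set Ω : Finset (ℕ × V d × V d) := Finset.range N ×ˢ (cube J A ×ˢ cube J A) with hΩ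
  have hsub : ∀ l ∈ F, PD_dat c N l ⊆ Ω := by
    intro l hl z hz
    obtain ⟨h2, -, h3, h4⟩ := PD_mem_dat.1 hz
    rw [hΩ, Finset.mem_product, Finset.mem_product, h3, h4]
    exact ⟨Finset.mem_range.2 h2, hA l hl _ (PD_at_mem (by rw [hlen l hl]; omega)),
      hA l hl _ (PD_at_mem (by rw [hlen l hl]; omega))⟩
  have himg : (F.image (PD_dat c N)).card ≤ (Ω.card + 1) ^ K := by
    refine (Finset.card_le_card fun D hD => ?_).trans (PD_card_small Ω K)
    obtain ⟨l, hl, rfl⟩ := Finset.mem_image.1 hD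
    exact Finset.mem_filter.2 ⟨Finset.mem_powerset.2 (hsub l hl), hcut l hl⟩
  -- the most popular value
  obtain ⟨l₀, hl₀, hmax⟩ := Finset.exists_max_image F
    (fun l => (F.filter fun l' => PD_dat c N l' = PD_dat c N l).card) hF
  set F' := F.filter fun l' => PD_dat c N l' = PD_dat c N l₀ with hF'
  have hcard : F.card ≤ F'.card * (Ω.card + 1) ^ K := by
    refine (Finset.card_le_mul_card_image (f := PD_dat c N) F F'.card fun D hD => ?_).trans
      (Nat.mul_le_mul_left _ himg)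
    obtain ⟨l, hl, rfl⟩ := Finset.mem_image.1 hD
    exact hmax l hl
  have hmem : ∀ l ∈ F', l ∈ F := fun l hl => (Finset.mem_filter.1 hl).1
  have hdat : ∀ l ∈ F', PD_dat c N l = PD_dat c N l₀ := fun l hl => (Finset.mem_filter.1 hl).2
  have H : PD_Fix κ ω c x y N F' l₀ :=
    { mem₀ := Finset.mem_filter.2 ⟨hl₀, rfl⟩
      op := fun l hl => hop l (hmem l hl)
      len := fun l hl => hlen l (hmem l hl)
      start := fun l hl => hst l (hmem l hl)
      fin := fun l hl => hfin l (hmem l hl)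
      cut := fun l hl t ht h => by
        have h1 : (t, PD_at l₀ t, PD_at l₀ (t + 1)) ∈ PD_dat c N l := by
          rw [hdat l hl]
          exact PD_mem_dat.2 ⟨ht, h, rfl, rfl⟩
        obtain ⟨-, -, h2, h3⟩ := PD_mem_dat.1 h1
        exact ⟨h2.symm, h3.symm⟩
      nocut := fun l hl t ht h => by
        by_contra hne
        have h1 : (t, PD_at l t, PD_at l (t + 1)) ∈ PD_dat c N l₀ := by
          rw [← hdat l hl]
          exact PD_mem_dat.2 ⟨ht, hne, rfl, rfl⟩
        exact (PD_mem_dat.1 h1).2.1 h }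
  have hcore := PD_core hd hb hCp hi H (fun l hl => hA l (hmem l hl))
    (fun l hl => hm l (hmem l hl))
  have hF'pos : 0 < F'.card := Finset.card_pos.2 ⟨l₀, H.mem₀⟩
  have hlog : Real.log F.card ≤ Real.log F'.card + K * Real.log (Ω.card + 1) := by
    have h1 : (F.card : ℝ) ≤ F'.card * ((Ω.card : ℝ) + 1) ^ K := by exact_mod_cast hcard
    refine (Real.log_le_log (by exact_mod_cast Finset.card_pos.2 hF) h1).trans (le_of_eq ?_)
    rw [Real.log_mul (by positivity) (by positivity), Real.log_pow]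
  have hΩc : (Ω.card : ℝ) + 1 ≤ (N + 2) * 2 ^ (2 * J * d + 1) := by
    have h1 : Ω.card = N * (2 ^ (d * J) * 2 ^ (d * J)) := by
      rw [hΩ, Finset.card_product, Finset.card_product, Finset.card_range, PD_cube_card]
    have h2 : (2 : ℝ) ^ (2 * J * d + 1) = 2 * (2 ^ (d * J) * 2 ^ (d * J)) := by
      rw [← pow_add, ← pow_succ']
      congr 1
      ring
    have h3 : (1 : ℝ) ≤ 2 ^ (d * J) * 2 ^ (d * J) := by
      have := one_le_pow₀ (M₀ := ℝ) (a := 2) (by norm_num) (n := d * J)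
      nlinarith
    rw [h1, h2]
    push_cast
    have h4 : (0 : ℝ) ≤ N := Nat.cast_nonneg N
    nlinarith
  have hlog2 : Real.log (Ω.card + 1) ≤ Real.log (N + 2) + (2 * J * d + 1) * Real.log 2 := by
    refine (Real.log_le_log (by positivity) hΩc).trans (le_of_eq ?_)
    rw [Real.log_mul (by positivity) (by positivity), Real.log_pow]
    push_cast
    ring
  have hpos : 0 ≤ Real.log (N + 2) + (2 * J * d + 1) * Real.log 2 := by
    have h1 : 0 ≤ Real.log ((N : ℝ) + 2) := Real.log_nonneg (by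
      have : (0 : ℝ) ≤ N := Nat.cast_nonneg N
      linarith)
    have h2 : 0 ≤ Real.log 2 := Real.log_nonneg (by norm_num)
    positivity
  have hKm : (K : ℝ) ≤ m i₀ + 1 := (Nat.floor_le hm0).trans (by linarith)
  have hlast : (K : ℝ) * Real.log (Ω.card + 1) ≤
      (m i₀ + 1) * (Real.log (N + 2) + (2 * J * d + 1) * Real.log 2) :=
    mul_le_mul hKm hlog2 (Real.log_nonneg (by
      have : (0 : ℝ) ≤ Ω.card := Nat.cast_nonneg _
      linarith)) (by linarith)
  linarith

end Pool.Agent.H17.QA
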