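import Pool.Agent.H17.QA.Defs

/-!
# QA module Tree: the tree lemma (P2)

`cube i a` is the dyadic cube of side `2^i` with index `a`. `M i a` is a nonnegative random variable
attached to the cube, depending on the elements inside the cube, with a law depending on `i` only.
`Vv M i a` is the maximum over the chains of nested cubes in `cube i a` of the sum of the values `M` of all
siblings along the chain.

PROOF of `tree_sum` (helper17, simplified by helper74: no minimal cubes, no second moment).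
Write `J = m - h'`, `θ = 2^m`, `φ_m` for the hypothesis probability, `g_m = P(θ ≤ Vv J 0)`.
(1) Packing (`Tree_pack`): independent events of probability `π` attached to `n` disjoint cubes and contained
in an event of probability `x ≤ 1/2` satisfy `n π ≤ 2 x`. Applied to `M` in `cube (m'-h) 0` and to `Vv`
(monotone along descendants) in `cube (J-1) 0`.
(2) Deterministic step (`Tree_det`, `Tree_incl`): if `Vv J 0 ≥ 2^m` and no cube in the root has
`M ≥ 2^(m-d-2)`, then some cube `Q` of some level `i = J - j` has `Vv Q ≥ 2^(m-1)` and a sibling with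
`M ≥ 2^(m - ceil(j/2) - 3 - d)`.
(3) `Q` and its siblings are disjoint, hence independent; union over the `2^(jd)` cubes of level `i`:
`2^(jd) * (2 g_(m-1) 2^(-(j-1)d)) * 2^d * 2^(-(m'-h-i)d)`, `m' - h - i = (h'-h-d-3) + floor(j/2)`, and the sum
over `j` gives `g_m ≤ φ_(m-d-2) + (3/8) g_(m-1)`. Equivariance gives the invariance of the joint laws.
-/

open MeasureTheory Filter Topology
open Pool.Agent.H17.IIC Pool.Agent.H41.QC Pool.Agent.H47.GM

namespace Pool.Agent.H17.QA

variable {d : ℕ}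

/-- dyadic cube of level `i` and index `a` -/
noncomputable def cube (i : ℕ) (a : V d) : Finset (V d) :=
  Fintype.piFinset fun j => Finset.Ico (a j * 2 ^ i) ((a j + 1) * 2 ^ i)

/-- indices of the children of the cube with index `a` (at the next lower level) -/
noncomputable def kids (a : V d) : Finset (V d) :=
  Fintype.piFinset fun j => {2 * a j, 2 * a j + 1}

lemma kids_nonempty (a : V d) : (kids a).Nonempty := by
  refine ⟨fun j => 2 * a j, ?_⟩
  simp [kids, Fintype.mem_piFinset]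

open Classical in
/-- maximal sum of sibling values along a chain -/
noncomputable def Vv (M : ℕ → V d → (El d → Bool) → ℝ) : ℕ → V d → (El d → Bool) → ℝ
  | 0, _, _ => 0
  | i + 1, a, ω => (kids a).sup' (kids_nonempty a)
      (fun c => Vv M i c ω + ∑ c' ∈ (kids a).erase c, M i c' ω)

/-! ### cubes and indices -/

/-- index of the parent -/
def Tree_par (b : V d) : V d := fun j => b j / 2

lemma Tree_par_kid {a c : V d} (h : c ∈ kids a) : Tree_par c = a := by
  funext j
  have := (Fintype.mem_piFinset.1 h) j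
  simp only [Finset.mem_insert, Finset.mem_singleton] at this
  show c j / 2 = a j
  omega

lemma Tree_kid_par (b : V d) : b ∈ kids (Tree_par b) := by
  rw [kids, Fintype.mem_piFinset]
  intro j
  simp only [Finset.mem_insert, Finset.mem_singleton, Tree_par]
  omega

lemma Tree_card_kids (a : V d) : (kids a).card = 2 ^ d := by
  rw [kids, Fintype.card_piFinset]
  have : ∀ j : Fin d, ({2 * a j, 2 * a j + 1} : Finset ℤ).card = 2 := fun j =>
    Finset.card_pair (by omega)
  simp [this]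

lemma Tree_mem_cube {i : ℕ} {a x : V d} :
    x ∈ cube i a ↔ ∀ j, a j * 2 ^ i ≤ x j ∧ x j < (a j + 1) * 2 ^ i := by
  simp [cube, Fintype.mem_piFinset]

lemma Tree_card_cube (i : ℕ) (a : V d) : (cube i a).card = 2 ^ (i * d) := by
  rw [cube, Fintype.card_piFinset]
  have : ∀ j : Fin d, (Finset.Ico (a j * 2 ^ i) ((a j + 1) * 2 ^ i)).card = 2 ^ i := by
    intro j
    rw [Int.card_Ico]
    have : (a j + 1) * 2 ^ i - a j * 2 ^ i = 2 ^ i := by ring
    rw [this]
    exact_mod_cast Int.toNat_natCast (2 ^ i)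
  simp [this, pow_mul]

lemma Tree_cube_sub {i J : ℕ} (h : i ≤ J) {a b : V d} (hb : b ∈ cube (J - i) a) :
    cube i b ⊆ cube J a := by
  intro x hx
  rw [Tree_mem_cube] at *
  intro j
  obtain ⟨h1, h2⟩ := hb j
  obtain ⟨h3, h4⟩ := hx j
  have hp : (0 : ℤ) < 2 ^ i := by positivity
  have hJ : (2 : ℤ) ^ J = 2 ^ (J - i) * 2 ^ i := by rw [← pow_add]; congr 1; omega
  rw [hJ]
  constructor
  · calc a j * (2 ^ (J - i) * 2 ^ i) = (a j * 2 ^ (J - i)) * 2 ^ i := by ring
      _ ≤ b j * 2 ^ i := mul_le_mul_of_nonneg_right h1 hp.le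
      _ ≤ x j := h3
  · calc x j < (b j + 1) * 2 ^ i := h4
      _ ≤ ((a j + 1) * 2 ^ (J - i)) * 2 ^ i := mul_le_mul_of_nonneg_right (by omega) hp.le
      _ = (a j + 1) * (2 ^ (J - i) * 2 ^ i) := by ring

lemma Tree_kid_mem {J i : ℕ} (h : i ≤ J) {a c b : V d} (hc : c ∈ kids a)
    (hb : b ∈ cube (J - i) c) : b ∈ cube (J + 1 - i) a := by
  rw [Tree_mem_cube] at *
  intro j
  have hcj := (Fintype.mem_piFinset.1 hc) j
  simp only [Finset.mem_insert, Finset.mem_singleton] at hcj
  obtain ⟨h1, h2⟩ := hb j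
  have hJ : (2 : ℤ) ^ (J + 1 - i) = 2 * 2 ^ (J - i) := by
    rw [← pow_succ']; congr 1; omega
  have hp : (0 : ℤ) < 2 ^ (J - i) := by positivity
  rw [hJ]
  rcases hcj with h | h
  · rw [h] at h1 h2
    constructor <;> nlinarith
  · rw [h] at h1 h2
    constructor <;> nlinarith

lemma Tree_kid_self {J : ℕ} {a c : V d} (hc : c ∈ kids a) : c ∈ cube (J + 1 - J) a := by
  rw [Tree_mem_cube]
  intro j
  have hcj := (Fintype.mem_piFinset.1 hc) j
  simp only [Finset.mem_insert, Finset.mem_singleton] at hcj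
  have hJ : (2 : ℤ) ^ (J + 1 - J) = 2 := by
    rw [show J + 1 - J = 1 by omega]; norm_num
  rw [hJ]
  omega

lemma Tree_cube_disj {i : ℕ} {a b : V d} (h : a ≠ b) :
    Disjoint (cube i a : Set (V d)) (cube i b : Set (V d)) := by
  rw [Set.disjoint_left]
  intro x hx hx'
  apply h
  rw [Finset.mem_coe, Tree_mem_cube] at hx hx'
  funext j
  obtain ⟨h1, h2⟩ := hx j
  obtain ⟨h3, h4⟩ := hx' j
  have hp : (0 : ℤ) < 2 ^ i := by positivity
  have e1 : a j < b j + 1 := lt_of_mul_lt_mul_right (lt_of_le_of_lt h1 h4) hp.le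
  have e2 : b j < a j + 1 := lt_of_mul_lt_mul_right (lt_of_le_of_lt h3 h2) hp.le
  omega

lemma Tree_inE_disj {A B : Set (V d)} (h : Disjoint A B) : Disjoint (InE A) (InE B) := by
  rw [Set.disjoint_left] at *
  intro e he he'
  induction e using Sym2.ind with
  | _ x y => exact h (he x (Sym2.mem_mk_left x y)) (he' x (Sym2.mem_mk_left x y))

lemma Tree_inE_eq (A : Finset (V d)) : InE (A : Set (V d)) = (A.sym2 : Set (El d)) := by
  ext e
  simp only [InE, Set.mem_setOf_eq, Finset.mem_coe, Finset.mem_sym2_iff]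

lemma Tree_meas {A : Finset (V d)} {S : Set (El d → Bool)} (h : On (InE (A : Set (V d))) S) :
    MeasurableSet S := by
  rw [Tree_inE_eq] at h
  exact h.measurableSet

/-! ### independence and packing -/

lemma Tree_compl {E : Set (El d)} {A : Set (El d → Bool)} (h : On E A) : On E Aᶜ :=
  fun ω ω' hω => not_congr (h ω ω' hω)

lemma Tree_prod (p : unitInterval) {α : Type*} [DecidableEq α] (s : Finset α) (E : α → Set (El d))
    (A : α → Set (El d → Bool)) (hm : ∀ a, MeasurableSet (A a)) (hOn : ∀ a, On (E a) (A a))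
    (hdis : ∀ a b, a ≠ b → Disjoint (E a) (E b)) :
    (prodBern (El d) p).real (⋂ a ∈ s, A a) = ∏ a ∈ s, (prodBern (El d) p).real (A a) := by
  induction s using Finset.induction_on with
  | empty => simp [measureReal_def]
  | insert a s ha ih =>
    rw [Finset.prod_insert ha, ← ih, Finset.set_biInter_insert]
    have h := mu_indep (fun _ : El d => p) (E a) (A := A a) (B := ⋂ b ∈ s, A b) (hm a)
      (Finset.measurableSet_biInter s fun b _ => hm b) (hOn a) (by
        intro ω ω' hω
        simp only [Set.mem_iInter]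
        refine forall₂_congr fun b hb => ?_
        refine hOn b ω ω' fun e he => hω e ?_
        intro hea
        have hab : a ≠ b := fun h' => ha (h' ▸ hb)
        exact Set.disjoint_left.1 (hdis a b hab) hea he)
    rw [mu_const] at h
    exact h

/-- packing: many independent rare events inside an event of probability at most one half -/
lemma Tree_pack (p : unitInterval) (i : ℕ) (s : Finset (V d)) (E : V d → Set (El d → Bool))
    (hE : ∀ b, On (InE (cube i b : Set (V d))) (E b)) (π : ℝ)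
    (hlaw : ∀ b, (prodBern (El d) p).real (E b) = π)
    (B : Set (El d → Bool)) (hsub : ∀ b ∈ s, E b ⊆ B)
    (hhalf : (prodBern (El d) p).real B ≤ 1 / 2) :
    (s.card : ℝ) * π ≤ 2 * (prodBern (El d) p).real B := by
  classical
  have hm : ∀ b, MeasurableSet (E b) := fun b => Tree_meas (hE b)
  set P := (prodBern (El d) p) with hP
  have : IsProbabilityMeasure P := by
    rw [hP, ← mu_const]; infer_instance
  set U : Set (El d → Bool) := ⋃ b ∈ s, E b with hU
  have hUm : MeasurableSet U := Finset.measurableSet_biUnion s fun b _ => hm b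
  have hUB : P.real U ≤ P.real B := by
    apply measureReal_mono _ (by finiteness)
    simpa [hU, Set.iUnion_subset_iff] using hsub
  have hUc : Uᶜ = ⋂ b ∈ s, (E b)ᶜ := by
    rw [hU]; simp [Set.compl_iUnion]
  have h1 : 1 - P.real U = (1 - π) ^ s.card := by
    rw [← probReal_compl_eq_one_sub hUm, hUc, hP,
      Tree_prod p s (fun b => InE (cube i b : Set (V d))) (fun b => (E b)ᶜ)
        (fun b => (hm b).compl) (fun b => Tree_compl (hE b))
        (fun a b hab => Tree_inE_disj (Tree_cube_disj hab))]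
    rw [Finset.prod_congr rfl (fun b _ => by
      rw [← hP, probReal_compl_eq_one_sub (hm b), hP, hlaw b] :
      ∀ b ∈ s, (prodBern (El d) p).real (E b)ᶜ = 1 - π)]
    rw [Finset.prod_const]
  have hπ0 : 0 ≤ π := by rw [← hlaw 0]; exact measureReal_nonneg
  have hπ1 : π ≤ 1 := by rw [← hlaw 0]; exact measureReal_le_one
  have h2 : (1 - π) ^ s.card * (1 + s.card * π) ≤ 1 := by
    have hb : 1 + (s.card : ℝ) * π ≤ (1 + π) ^ s.card := one_add_mul_le_pow (by linarith) _
    calc (1 - π) ^ s.card * (1 + s.card * π) ≤ (1 - π) ^ s.card * (1 + π) ^ s.card :=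
          mul_le_mul_of_nonneg_left hb (pow_nonneg (by linarith) _)
      _ = (1 - π ^ 2) ^ s.card := by rw [← mul_pow]; congr 1; ring
      _ ≤ 1 := pow_le_one₀ (by nlinarith) (by nlinarith)
  rw [← h1] at h2
  have h3 : 0 ≤ (s.card : ℝ) * π := by positivity
  nlinarith [measureReal_nonneg (μ := P) (s := U)]

/-! ### the variables `Vv` -/

section
variable (M : ℕ → V d → (El d → Bool) → ℝ)

lemma Tree_M_congr (hMon : ∀ i a t, On (InE (cube i a : Set (V d))) {ω | t ≤ M i a ω})
    {i : ℕ} {a : V d} {ω ω' : El d → Bool}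
    (h : ∀ e ∈ InE (cube i a : Set (V d)), ω e = ω' e) : M i a ω = M i a ω' := by
  apply le_antisymm
  · exact (hMon i a (M i a ω) ω ω' h).1 (le_refl (M i a ω))
  · exact (hMon i a (M i a ω') ω ω' h).2 (le_refl (M i a ω'))

lemma Tree_kid_sub {i : ℕ} {a c : V d} (hc : c ∈ kids a) : cube i c ⊆ cube (i + 1) a :=
  Tree_cube_sub (Nat.le_succ i) (Tree_kid_self hc)

lemma Tree_Vv_congr (hMon : ∀ i a t, On (InE (cube i a : Set (V d))) {ω | t ≤ M i a ω}) :
    ∀ (i : ℕ) (a : V d) (ω ω' : El d → Bool),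
      (∀ e ∈ InE (cube i a : Set (V d)), ω e = ω' e) → Vv M i a ω = Vv M i a ω' := by
  intro i
  induction i with
  | zero => intro a ω ω' _; rfl
  | succ i ih =>
    intro a ω ω' h
    have hin : ∀ c ∈ kids a, ∀ e ∈ InE (cube i c : Set (V d)), ω e = ω' e := by
      intro c hc e he
      apply h e
      intro v hv
      exact Finset.mem_coe.2 (Tree_kid_sub hc (Finset.mem_coe.1 (he v hv)))
    simp only [Vv]
    apply Finset.sup'_congr _ rfl
    intro c hc
    rw [ih c ω ω' (hin c hc)]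
    congr 1
    apply Finset.sum_congr rfl
    intro c' hc'
    exact Tree_M_congr M hMon (hin c' (Finset.mem_of_mem_erase hc'))

lemma Tree_Vv_on (hMon : ∀ i a t, On (InE (cube i a : Set (V d))) {ω | t ≤ M i a ω})
    (i : ℕ) (a : V d) (t : ℝ) : On (InE (cube i a : Set (V d))) {ω | t ≤ Vv M i a ω} := by
  intro ω ω' h
  simp only [Set.mem_setOf_eq]
  rw [Tree_Vv_congr M hMon i a ω ω' h]

lemma Tree_Vv_nonneg (hM0 : ∀ i a ω, 0 ≤ M i a ω) : ∀ (i : ℕ) (a : V d) (ω : El d → Bool),
    0 ≤ Vv M i a ω := by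
  intro i
  induction i with
  | zero => intro a ω; exact le_refl _
  | succ i ih =>
    intro a ω
    obtain ⟨c, hc⟩ := kids_nonempty a
    have h1 : 0 ≤ Vv M i c ω + ∑ c' ∈ (kids a).erase c, M i c' ω :=
      add_nonneg (ih c ω) (Finset.sum_nonneg fun c' _ => hM0 i c' ω)
    simp only [Vv]
    exact h1.trans
      (Finset.le_sup' (fun c => Vv M i c ω + ∑ c' ∈ (kids a).erase c, M i c' ω) hc)

lemma Tree_Vv_kid (hM0 : ∀ i a ω, 0 ≤ M i a ω) (i : ℕ) (a c : V d) (hc : c ∈ kids a)
    (ω : El d → Bool) : Vv M i c ω ≤ Vv M (i + 1) a ω := by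
  simp only [Vv]
  refine le_trans ?_
    (Finset.le_sup' (fun c => Vv M i c ω + ∑ c' ∈ (kids a).erase c, M i c' ω) hc)
  exact le_add_of_nonneg_right (Finset.sum_nonneg fun c' _ => hM0 i c' ω)

/-- monotonicity along descendants -/
lemma Tree_Vv_mono (hM0 : ∀ i a ω, 0 ≤ M i a ω) (i : ℕ) : ∀ (k : ℕ) (a b : V d),
    b ∈ cube k a → ∀ ω, Vv M i b ω ≤ Vv M (i + k) a ω := by
  intro k
  induction k with
  | zero =>
    intro a b hb ω
    have : b = a := by
      rw [Tree_mem_cube] at hb
      funext j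
      have := hb j
      simp only [pow_zero, mul_one] at this
      omega
    rw [this]; rfl
  | succ k ih =>
    intro a b hb ω
    -- the ancestor of level `i + k`
    let c : V d := fun j => b j / 2 ^ k
    have hp : (0 : ℤ) < 2 ^ k := by positivity
    have hbc : b ∈ cube k c := by
      rw [Tree_mem_cube]
      intro j
      have h1 := Int.emod_add_mul_ediv (b j) (2 ^ k)
      have h2 := Int.emod_nonneg (b j) hp.ne'
      have h3 := Int.emod_lt_of_pos (b j) hp
      show b j / 2 ^ k * 2 ^ k ≤ b j ∧ b j < (b j / 2 ^ k + 1) * 2 ^ k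
      constructor <;> nlinarith
    have hca : c ∈ kids a := by
      rw [kids, Fintype.mem_piFinset]
      intro j
      rw [Tree_mem_cube] at hb hbc
      obtain ⟨h1, h2⟩ := hb j
      obtain ⟨h3, h4⟩ := hbc j
      have e1 : 2 * a j < c j + 1 := by
        apply lt_of_mul_lt_mul_right _ hp.le
        calc 2 * a j * 2 ^ k = a j * 2 ^ (k + 1) := by ring
          _ ≤ b j := h1
          _ < _ := h4
      have e2 : c j < 2 * a j + 2 := by
        apply lt_of_mul_lt_mul_right _ hp.le
        calc c j * 2 ^ k ≤ b j := h3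
          _ < (a j + 1) * 2 ^ (k + 1) := h2
          _ = (2 * a j + 2) * 2 ^ k := by ring
      simp only [Finset.mem_insert, Finset.mem_singleton]
      omega
    exact (ih c b hbc ω).trans (Tree_Vv_kid M hM0 (i + k) a c hca ω)

lemma Tree_kids_add (a w : V d) (c : V d) : c + (2 : ℤ) • w ∈ kids (a + w) ↔ c ∈ kids a := by
  simp only [kids, Fintype.mem_piFinset, Finset.mem_insert, Finset.mem_singleton, Pi.add_apply,
    Pi.smul_apply, smul_eq_mul]
  refine forall_congr' fun j => ?_
  omega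

lemma Tree_Vv_eq (hMeq : ∀ i a w ω, M i (a + w) ω = M i a (tr (fun y => y + ((2 : ℤ) ^ i) • w) ω)) :
    ∀ (i : ℕ) (a w : V d) (ω : El d → Bool),
      Vv M i (a + w) ω = Vv M i a (tr (fun y => y + ((2 : ℤ) ^ i) • w) ω) := by
  classical
  intro i
  induction i with
  | zero => intro a w ω; rfl
  | succ i ih =>
    intro a w ω
    have hs : ∀ c : V d, ((2 : ℤ) ^ i) • ((2 : ℤ) • w) = ((2 : ℤ) ^ (i + 1)) • w := by
      intro _; rw [smul_smul, pow_succ]
    have hk : kids (a + w) = (kids a).map (Equiv.addRight ((2 : ℤ) • w)).toEmbedding := by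
      ext c
      rw [Finset.mem_map_equiv]
      rw [← Tree_kids_add a w, Equiv.addRight_symm]
      simp
    simp only [Vv]
    apply le_antisymm
    · apply Finset.sup'_le
      intro c hc
      obtain ⟨c0, rfl⟩ : ∃ c0, c = c0 + (2 : ℤ) • w := ⟨c - (2 : ℤ) • w, by abel⟩
      rw [Tree_kids_add] at hc
      refine le_trans (le_of_eq ?_) (Finset.le_sup' (fun c =>
        Vv M i c (tr (fun y => y + ((2 : ℤ) ^ (i + 1)) • w) ω)
          + ∑ c' ∈ (kids a).erase c, M i c' (tr (fun y => y + ((2 : ℤ) ^ (i + 1)) • w) ω)) hc)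
      rw [ih, hs 0]
      congr 1
      rw [hk, show c0 + (2 : ℤ) • w
        = (Equiv.addRight ((2 : ℤ) • w)).toEmbedding c0 from rfl, ← Finset.map_erase,
        Finset.sum_map]
      apply Finset.sum_congr rfl
      intro c' _
      show M i (c' + (2 : ℤ) • w) ω = _
      rw [hMeq, hs 0]
    · apply Finset.sup'_le
      intro c hc
      refine le_trans (le_of_eq ?_) (Finset.le_sup' (fun c =>
        Vv M i c ω + ∑ c' ∈ (kids (a + w)).erase c, M i c' ω) ((Tree_kids_add a w c).2 hc))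
      rw [ih, hs 0]
      congr 1
      rw [hk, show c + (2 : ℤ) • w
        = (Equiv.addRight ((2 : ℤ) • w)).toEmbedding c from rfl, ← Finset.map_erase,
        Finset.sum_map]
      apply Finset.sum_congr rfl
      intro c' _
      show _ = M i (c' + (2 : ℤ) • w) ω
      rw [hMeq, hs 0]

end

/-! ### the deterministic step -/

open Classical in
/-- siblings -/
noncomputable def Tree_sib (b : V d) : Finset (V d) := (kids (Tree_par b)).erase b

lemma Tree_card_sib (b : V d) : (Tree_sib b).card = 2 ^ d - 1 := by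
  rw [Tree_sib, Finset.card_erase_of_mem (Tree_kid_par b), Tree_card_kids]

lemma Tree_sib_mem {k : ℕ} {a b c : V d} (hb : b ∈ cube (k + 1) a) (hc : c ∈ Tree_sib b) :
    c ∈ cube (k + 1) a := by
  have hc' := Finset.mem_of_mem_erase hc
  rw [Tree_mem_cube] at *
  intro j
  have hcj := (Fintype.mem_piFinset.1 hc') j
  simp only [Finset.mem_insert, Finset.mem_singleton, Tree_par] at hcj
  obtain ⟨h1, h2⟩ := hb j
  have e1 : a j * 2 ^ (k + 1) = 2 * (a j * 2 ^ k) := by ring
  have e2 : (a j + 1) * 2 ^ (k + 1) = 2 * ((a j + 1) * 2 ^ k) := by ring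
  rw [e1] at h1
  rw [e2] at h2
  rw [e1, e2]
  clear e1 e2
  generalize a j * 2 ^ k = X at *
  generalize (a j + 1) * 2 ^ k = Y at *
  omega

lemma Tree_sib_disj {b c : V d} (hc : c ∈ Tree_sib b) : c ≠ b := Finset.ne_of_mem_erase hc

section
variable (M : ℕ → V d → (El d → Bool) → ℝ)

lemma Tree_det (ω : El d → Bool) (θ : ℝ) (hθ : 0 < θ) (s : ℕ → ℝ) (hs : ∀ i, 0 ≤ s i) :
    ∀ (J : ℕ) (a : V d),
      (∀ i < J, ∀ b ∈ cube (J - i) a, ∑ c' ∈ Tree_sib b, M i c' ω < θ / 4) →
      (∀ i < J, ∀ b ∈ cube (J - i) a, θ / 2 ≤ Vv M i b ω →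
        ∑ c' ∈ Tree_sib b, M i c' ω < s i) →
      Vv M J a ω < 3 * θ / 4 + ∑ i ∈ Finset.range J, s i := by
  intro J
  induction J with
  | zero =>
    intro a _ _
    simp only [Vv, Finset.range_zero, Finset.sum_empty]
    linarith
  | succ J ih =>
    intro a h1 h2
    have hS : 0 ≤ ∑ i ∈ Finset.range J, s i := Finset.sum_nonneg fun i _ => hs i
    simp only [Vv]
    rw [Finset.sup'_lt_iff]
    intro c hc
    have hself := Tree_kid_self (J := J) hc
    have hsib : (kids a).erase c = Tree_sib c := by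
      rw [Tree_sib, Tree_par_kid hc]
    rw [hsib, Finset.sum_range_succ]
    by_cases hV : θ / 2 ≤ Vv M J c ω
    · have e1 := h2 J (Nat.lt_succ_self J) c hself hV
      have e2 := ih c (fun i hi b hb => h1 i (by omega) b (Tree_kid_mem hi.le hc hb))
        (fun i hi b hb => h2 i (by omega) b (Tree_kid_mem hi.le hc hb))
      linarith
    · have e1 := h1 J (Nat.lt_succ_self J) c hself
      have e3 := hs J
      push Not at hV
      linarith

end

lemma Tree_geom1 (J : ℕ) : ∑ j ∈ Finset.range J, (1 / 2 : ℝ) ^ (j / 2 + 1) ≤ 2 := by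
  have key : ∀ n : ℕ, ∑ j ∈ Finset.range (2 * n), (1 / 2 : ℝ) ^ (j / 2 + 1)
      = 2 - 2 * (1 / 2) ^ n := by
    intro n
    induction n with
    | zero => norm_num
    | succ n ih =>
      rw [show 2 * (n + 1) = 2 * n + 1 + 1 by ring, Finset.sum_range_succ, Finset.sum_range_succ,
        ih, show (2 * n) / 2 = n by omega, show (2 * n + 1) / 2 = n by omega]
      ring
  calc ∑ j ∈ Finset.range J, (1 / 2 : ℝ) ^ (j / 2 + 1)
      ≤ ∑ j ∈ Finset.range (2 * J), (1 / 2 : ℝ) ^ (j / 2 + 1) :=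
        Finset.sum_le_sum_of_subset_of_nonneg
          (Finset.range_subset_range.2 (by omega)) (fun _ _ _ => by positivity)
    _ = 2 - 2 * (1 / 2) ^ J := key J
    _ ≤ 2 := by
        have : (0 : ℝ) ≤ (1 / 2) ^ J := by positivity
        linarith

lemma Tree_geom2 (J : ℕ) : ∑ j ∈ Finset.range J, (1 / 2 : ℝ) ^ ((j + 1) / 2) ≤ 3 := by
  have key : ∀ n : ℕ, ∑ j ∈ Finset.range (2 * n), (1 / 2 : ℝ) ^ ((j + 1) / 2)
      = 3 - 3 * (1 / 2) ^ n := by
    intro n
    induction n with
    | zero => norm_num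
    | succ n ih =>
      rw [show 2 * (n + 1) = 2 * n + 1 + 1 by ring, Finset.sum_range_succ, Finset.sum_range_succ,
        ih, show (2 * n + 1) / 2 = n by omega, show (2 * n + 1 + 1) / 2 = n + 1 by omega]
      ring
  calc ∑ j ∈ Finset.range J, (1 / 2 : ℝ) ^ ((j + 1) / 2)
      ≤ ∑ j ∈ Finset.range (2 * J), (1 / 2 : ℝ) ^ ((j + 1) / 2) :=
        Finset.sum_le_sum_of_subset_of_nonneg
          (Finset.range_subset_range.2 (by omega)) (fun _ _ _ => by positivity)
    _ = 3 - 3 * (1 / 2) ^ J := key J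
    _ ≤ 3 := by
        have : (0 : ℝ) ≤ (1 / 2) ^ J := by positivity
        linarith

section
variable (M : ℕ → V d → (El d → Bool) → ℝ)

/-- the event of the hypothesis -/
def Tree_Phi (h m : ℕ) : Set (El d → Bool) :=
  {ω | ∃ i ≤ m - h, ∃ a, cube i a ⊆ cube (m - h) 0 ∧ (2 : ℝ) ^ m ≤ M i a ω}

/-- inclusion of events -/
lemma Tree_incl (h h' m : ℕ) (hh : h + d + 9 ≤ h') (hm : h' < m) :
    {ω | (2 : ℝ) ^ m ≤ Vv M (m - h') 0 ω} ⊆ Tree_Phi M h (m - d - 2) ∪
      ⋃ i ∈ Finset.range (m - h'), ⋃ b ∈ cube (m - h' - i) (0 : V d),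
        ({ω | (2 : ℝ) ^ (m - 1) ≤ Vv M i b ω} ∩
          ⋃ c ∈ Tree_sib b, {ω | (2 : ℝ) ^ (m - (m - h' - i + 1) / 2 - 3 - d) ≤ M i c ω}) := by
  intro ω hω
  simp only [Set.mem_setOf_eq] at hω
  by_contra hcon
  rw [Set.mem_union, not_or] at hcon
  obtain ⟨hA, hB⟩ := hcon
  simp only [Tree_Phi, Set.mem_setOf_eq, not_exists, not_and, not_le] at hA
  simp only [Set.mem_iUnion, Set.mem_inter_iff, Set.mem_setOf_eq, Finset.mem_range, not_exists,
    not_and, not_le] at hB
  set J := m - h' with hJ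
  have hcardR : ∀ b : V d, ((Tree_sib b).card : ℝ) = 2 ^ d - 1 := by
    intro b
    rw [Tree_card_sib, Nat.cast_sub Nat.one_le_two_pow]
    norm_num
  have hsmall : ∀ i < J, ∀ b ∈ cube (J - i) (0 : V d), ∀ t : ℝ, 0 < t →
      (∀ c ∈ Tree_sib b, M i c ω ≤ t) → ∑ c' ∈ Tree_sib b, M i c' ω < 2 ^ d * t := by
    intro i _ b _ t ht hc
    calc ∑ c' ∈ Tree_sib b, M i c' ω ≤ (Tree_sib b).card • t :=
          Finset.sum_le_card_nsmul _ _ _ hc
      _ = (2 ^ d - 1) * t := by rw [nsmul_eq_mul, hcardR]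
      _ < 2 ^ d * t := by nlinarith
  have hdet := Tree_det M ω ((2 : ℝ) ^ m) (by positivity)
    (fun i => 2 ^ d * (2 : ℝ) ^ (m - (m - h' - i + 1) / 2 - 3 - d)) (fun i => by positivity) J 0
    (by
      intro i hi b hb
      have e : (2 : ℝ) ^ m / 4 = 2 ^ d * 2 ^ (m - d - 2) := by
        rw [← pow_add, div_eq_iff (by norm_num), show (4 : ℝ) = 2 ^ 2 by norm_num, ← pow_add]
        congr 1; omega
      rw [e]
      refine hsmall i hi b hb _ (by positivity) fun c hc => ?_
      refine (hA i (by omega) c ?_).le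
      obtain ⟨k, hk⟩ : ∃ k, J - i = k + 1 := ⟨J - i - 1, by omega⟩
      have h1 : c ∈ cube (J - i) (0 : V d) := by
        rw [hk] at hb ⊢
        exact Tree_sib_mem hb hc
      refine (Tree_cube_sub hi.le h1).trans (Tree_cube_sub (by omega) ?_)
      rw [Tree_mem_cube]
      intro j
      simp)
    (by
      intro i hi b hb hV
      refine hsmall i hi b hb _ (by positivity) fun c hc => ?_
      have e : (2 : ℝ) ^ m / 2 = 2 ^ (m - 1) := by
        rw [div_eq_iff (by norm_num), ← pow_succ]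
        congr 1; omega
      rw [e] at hV
      exact (hB i hi b hb hV c hc).le)
  have hsum : ∑ i ∈ Finset.range J, 2 ^ d * (2 : ℝ) ^ (m - (m - h' - i + 1) / 2 - 3 - d)
      ≤ 2 ^ m / 4 := by
    have h1 : ∀ i ∈ Finset.range J, 2 ^ d * (2 : ℝ) ^ (m - (m - h' - i + 1) / 2 - 3 - d)
        = 2 ^ m / 8 * (1 / 2) ^ ((J - 1 - i) / 2 + 1) := by
      intro i hi
      rw [Finset.mem_range] at hi
      have e1 : (2 : ℝ) ^ m = 2 ^ d * 2 ^ (m - (m - h' - i + 1) / 2 - 3 - d) * 8 *
          2 ^ ((J - 1 - i) / 2 + 1) := by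
        rw [show (8 : ℝ) = 2 ^ 3 by norm_num, ← pow_add, ← pow_add, ← pow_add]
        congr 1; omega
      rw [e1, one_div, inv_pow]
      field_simp
    rw [Finset.sum_congr rfl h1, ← Finset.mul_sum,
      Finset.sum_range_reflect (fun j => (1 / 2 : ℝ) ^ (j / 2 + 1)) J]
    have h2 := Tree_geom1 J
    have h3 : (0 : ℝ) < 2 ^ m := by positivity
    nlinarith
  linarith

end

/-! ### the recursion -/

section
variable (M : ℕ → V d → (El d → Bool) → ℝ)

lemma Tree_ev_map (p : unitInterval) (w : V d) (A : Set (El d → Bool)) (hA : MeasurableSet A) :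
    (prodBern (El d) p).real (tr (fun y => y + w) ⁻¹' A) = (prodBern (El d) p).real A := by
  have h := tr_law (Equiv.addRight w) p
  have hm : Measurable (tr (fun y : V d => y + w)) :=
    measurable_pi_lambda _ fun e => measurable_pi_apply _
  have h2 : (prodBern (El d) p).map (tr (fun y => y + w)) = prodBern (El d) p := h
  conv_rhs => rw [← h2]
  rw [measureReal_def, measureReal_def, Measure.map_apply hm hA]

lemma Tree_law_M (p : unitInterval)
    (hMon : ∀ i a t, On (InE (cube i a : Set (V d))) {ω | t ≤ M i a ω})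
    (hMeq : ∀ i a w ω, M i (a + w) ω = M i a (tr (fun y => y + ((2 : ℤ) ^ i) • w) ω))
    (i : ℕ) (b : V d) (t : ℝ) :
    (prodBern (El d) p).real {ω | t ≤ M i b ω} = (prodBern (El d) p).real {ω | t ≤ M i 0 ω} := by
  rw [← Tree_ev_map p (((2 : ℤ) ^ i) • b) {ω | t ≤ M i 0 ω} (Tree_meas (hMon i 0 t))]
  congr 1
  ext ω
  simp only [Set.mem_setOf_eq, Set.mem_preimage]
  rw [← hMeq, zero_add]

lemma Tree_law_V (p : unitInterval)
    (hMon : ∀ i a t, On (InE (cube i a : Set (V d))) {ω | t ≤ M i a ω})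
    (hMeq : ∀ i a w ω, M i (a + w) ω = M i a (tr (fun y => y + ((2 : ℤ) ^ i) • w) ω))
    (i : ℕ) (b : V d) (t : ℝ) :
    (prodBern (El d) p).real {ω | t ≤ Vv M i b ω}
      = (prodBern (El d) p).real {ω | t ≤ Vv M i 0 ω} := by
  rw [← Tree_ev_map p (((2 : ℤ) ^ i) • b) {ω | t ≤ Vv M i 0 ω}
    (Tree_meas (Tree_Vv_on M hMon i 0 t))]
  congr 1
  ext ω
  simp only [Set.mem_setOf_eq, Set.mem_preimage]
  rw [← Tree_Vv_eq M hMeq, zero_add]

lemma Tree_step (p : unitInterval) (hM0 : ∀ i a ω, 0 ≤ M i a ω)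
    (hMon : ∀ i a t, On (InE (cube i a : Set (V d))) {ω | t ≤ M i a ω})
    (hMeq : ∀ i a w ω, M i (a + w) ω = M i a (tr (fun y => y + ((2 : ℤ) ^ i) • w) ω))
    (hd : 1 ≤ d) (h h' m : ℕ) (hh : h + d + 9 ≤ h') (hm : h' < m)
    (hφ : ∀ m', h' ≤ m' + d + 3 → (prodBern (El d) p).real (Tree_Phi M h m') ≤ 1 / 2)
    (hg : (prodBern (El d) p).real {ω | (2 : ℝ) ^ (m - 1) ≤ Vv M (m - 1 - h') 0 ω} ≤ 1 / 2) :
    (prodBern (El d) p).real {ω | (2 : ℝ) ^ m ≤ Vv M (m - h') 0 ω} ≤
      (prodBern (El d) p).real (Tree_Phi M h (m - d - 2)) +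
      3 / 8 * (prodBern (El d) p).real {ω | (2 : ℝ) ^ (m - 1) ≤ Vv M (m - 1 - h') 0 ω} := by
  classical
  set P := (prodBern (El d) p) with hP
  have hprob : IsProbabilityMeasure P := by
    rw [hP, ← mu_const]; infer_instance
  set g := P.real {ω | (2 : ℝ) ^ (m - 1) ≤ Vv M (m - 1 - h') 0 ω} with hgd
  have hg0 : 0 ≤ g := measureReal_nonneg
  set J := m - h' with hJ
  -- one level
  have level : ∀ i ∈ Finset.range J,
      P.real (⋃ b ∈ cube (J - i) (0 : V d), ({ω | (2 : ℝ) ^ (m - 1) ≤ Vv M i b ω} ∩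
          ⋃ c ∈ Tree_sib b, {ω | (2 : ℝ) ^ (m - (J - i + 1) / 2 - 3 - d) ≤ M i c ω}))
        ≤ g / 8 * (1 / 2) ^ ((J - 1 - i + 1) / 2) := by
    intro i hi
    rw [Finset.mem_range] at hi
    set m' := m - (J - i + 1) / 2 - 3 - d with hm'
    set q := P.real {ω | (2 : ℝ) ^ m' ≤ M i 0 ω} with hq
    set e := P.real {ω | (2 : ℝ) ^ (m - 1) ≤ Vv M i 0 ω} with he
    have hq0 : 0 ≤ q := measureReal_nonneg
    have he0 : 0 ≤ e := measureReal_nonneg
    -- packing for `M`
    have pk1 : ((2 : ℝ) ^ ((m' - h - i) * d)) * q ≤ 1 := by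
      have h1 := Tree_pack p i (cube (m' - h - i) (0 : V d)) (fun b => {ω | (2 : ℝ) ^ m' ≤ M i b ω})
        (fun b => hMon i b _) q (fun b => Tree_law_M M p hMon hMeq i b _) (Tree_Phi M h m')
        (by
          intro b hb ω hω
          refine ⟨i, by omega, b, Tree_cube_sub (by omega) hb, hω⟩)
        (hφ m' (by omega))
      rw [Tree_card_cube] at h1
      push_cast at h1
      have h2 := hφ m' (by omega)
      linarith
    -- packing for `Vv`
    have pk2 : ((2 : ℝ) ^ ((J - 1 - i) * d)) * e ≤ 2 * g := by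
      have h1 := Tree_pack p i (cube (J - 1 - i) (0 : V d))
        (fun b => {ω | (2 : ℝ) ^ (m - 1) ≤ Vv M i b ω})
        (fun b => Tree_Vv_on M hMon i b _) e (fun b => Tree_law_V M p hMon hMeq i b _)
        {ω | (2 : ℝ) ^ (m - 1) ≤ Vv M (m - 1 - h') 0 ω}
        (by
          intro b hb ω hω
          have h2 := Tree_Vv_mono M hM0 i (J - 1 - i) 0 b hb ω
          rw [show i + (J - 1 - i) = m - 1 - h' by omega] at h2
          exact le_trans hω h2)
        hg
      rw [Tree_card_cube] at h1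
      push_cast at h1
      exact h1
    -- one cube
    have one : ∀ b ∈ cube (J - i) (0 : V d), P.real ({ω | (2 : ℝ) ^ (m - 1) ≤ Vv M i b ω} ∩
          ⋃ c ∈ Tree_sib b, {ω | (2 : ℝ) ^ m' ≤ M i c ω}) ≤ e * (2 ^ d * q) := by
      intro b _
      have hF : P.real (⋃ c ∈ Tree_sib b, {ω | (2 : ℝ) ^ m' ≤ M i c ω}) ≤ 2 ^ d * q := by
        refine (measureReal_biUnion_finset_le _ _).trans ?_
        rw [Finset.sum_congr rfl (fun c _ => Tree_law_M M p hMon hMeq i c ((2 : ℝ) ^ m')),
          Finset.sum_const, nsmul_eq_mul]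
        apply mul_le_mul_of_nonneg_right _ hq0
        rw [Tree_card_sib]
        have : 2 ^ d - 1 ≤ 2 ^ d := Nat.sub_le _ _
        exact_mod_cast this
      have hind := mu_indep (fun _ : El d => p) (InE (cube i b : Set (V d)))
        (A := {ω | (2 : ℝ) ^ (m - 1) ≤ Vv M i b ω})
        (B := ⋃ c ∈ Tree_sib b, {ω | (2 : ℝ) ^ m' ≤ M i c ω})
        (Tree_meas (Tree_Vv_on M hMon i b _))
        (Finset.measurableSet_biUnion _ fun c _ => Tree_meas (hMon i c _))
        (Tree_Vv_on M hMon i b _)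
        (by
          intro ω ω' hω
          simp only [Set.mem_iUnion]
          refine exists_congr fun c => exists_congr fun hc => ?_
          refine hMon i c _ ω ω' fun e' he' => hω e' ?_
          intro hbe
          exact Set.disjoint_left.1 (Tree_inE_disj (Tree_cube_disj (Tree_sib_disj hc))) he' hbe)
      rw [mu_const] at hind
      rw [hP, hind, Tree_law_V M p hMon hMeq i b]
      exact mul_le_mul_of_nonneg_left hF he0
    calc P.real (⋃ b ∈ cube (J - i) (0 : V d), ({ω | (2 : ℝ) ^ (m - 1) ≤ Vv M i b ω} ∩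
          ⋃ c ∈ Tree_sib b, {ω | (2 : ℝ) ^ m' ≤ M i c ω}))
        ≤ ∑ b ∈ cube (J - i) (0 : V d), P.real ({ω | (2 : ℝ) ^ (m - 1) ≤ Vv M i b ω} ∩
          ⋃ c ∈ Tree_sib b, {ω | (2 : ℝ) ^ m' ≤ M i c ω}) := measureReal_biUnion_finset_le _ _
      _ ≤ ∑ b ∈ cube (J - i) (0 : V d), e * (2 ^ d * q) := Finset.sum_le_sum one
      _ = 2 ^ ((J - i) * d) * (e * (2 ^ d * q)) := by
          rw [Finset.sum_const, nsmul_eq_mul, Tree_card_cube]; push_cast; ring
      _ = 2 ^ (2 * d) * ((2 ^ ((J - 1 - i) * d) * e) * q) := by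
          rw [show (J - i) * d = (J - 1 - i) * d + d by
            rw [show J - i = J - 1 - i + 1 by omega]; ring]
          ring
      _ ≤ 2 ^ (2 * d) * ((2 * g) * q) := by
          apply mul_le_mul_of_nonneg_left _ (by positivity)
          exact mul_le_mul_of_nonneg_right pk2 hq0
      _ ≤ g / 8 * (1 / 2) ^ ((J - 1 - i + 1) / 2) := by
          -- `q ≤ (1/2)^((m'-h-i) d)` and the exponent is at least `4 d + ...`
          have hq1 : q ≤ (1 / 2) ^ ((m' - h - i) * d) := by
            rw [one_div, inv_pow]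
            rw [← one_div, le_div_iff₀ (by positivity)]
            linarith
          have hexp : 2 * d + 1 + 3 + (J - 1 - i + 1) / 2 ≤ (m' - h - i) * d := by
            have hK : 6 + (J - 1 - i + 1) / 2 ≤ m' - h - i := by omega
            calc 2 * d + 1 + 3 + (J - 1 - i + 1) / 2 ≤ (6 + (J - 1 - i + 1) / 2) * d := by
                  have : (J - 1 - i + 1) / 2 ≤ (J - 1 - i + 1) / 2 * d :=
                    Nat.le_mul_of_pos_right _ hd
                  nlinarith
              _ ≤ (m' - h - i) * d := Nat.mul_le_mul_right _ hK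
          have hq2 : q ≤ (1 / 2) ^ (2 * d + 1 + 3 + (J - 1 - i + 1) / 2) :=
            hq1.trans (pow_le_pow_of_le_one (by norm_num) (by norm_num) hexp)
          have e3 : (2 : ℝ) ^ (2 * d) * (2 * g * (1 / 2) ^ (2 * d + 1 + 3 + (J - 1 - i + 1) / 2))
              = g / 8 * (1 / 2) ^ ((J - 1 - i + 1) / 2) := by
            rw [pow_add, pow_add, pow_add]
            have : (2 : ℝ) ^ (2 * d) * (1 / 2) ^ (2 * d) = 1 := by
              rw [← mul_pow]; norm_num
            calc (2 : ℝ) ^ (2 * d) * (2 * g * ((1 / 2) ^ (2 * d) * (1 / 2) ^ 1 * (1 / 2) ^ 3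
                  * (1 / 2) ^ ((J - 1 - i + 1) / 2)))
                = ((2 : ℝ) ^ (2 * d) * (1 / 2) ^ (2 * d)) *
                  (g / 8 * (1 / 2) ^ ((J - 1 - i + 1) / 2)) := by ring
              _ = _ := by rw [this, one_mul]
          rw [← e3]
          apply mul_le_mul_of_nonneg_left _ (by positivity)
          exact mul_le_mul_of_nonneg_left hq2 (by positivity)
  -- sum over the levels
  calc P.real {ω | (2 : ℝ) ^ m ≤ Vv M J 0 ω}
      ≤ P.real (Tree_Phi M h (m - d - 2) ∪
      ⋃ i ∈ Finset.range J, ⋃ b ∈ cube (J - i) (0 : V d),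
        ({ω | (2 : ℝ) ^ (m - 1) ≤ Vv M i b ω} ∩
          ⋃ c ∈ Tree_sib b, {ω | (2 : ℝ) ^ (m - (J - i + 1) / 2 - 3 - d) ≤ M i c ω})) :=
        measureReal_mono (Tree_incl M h h' m hh hm) (by finiteness)
    _ ≤ P.real (Tree_Phi M h (m - d - 2)) +
      P.real (⋃ i ∈ Finset.range J, ⋃ b ∈ cube (J - i) (0 : V d),
        ({ω | (2 : ℝ) ^ (m - 1) ≤ Vv M i b ω} ∩
          ⋃ c ∈ Tree_sib b, {ω | (2 : ℝ) ^ (m - (J - i + 1) / 2 - 3 - d) ≤ M i c ω})) :=
        measureReal_union_le _ _
    _ ≤ P.real (Tree_Phi M h (m - d - 2)) + ∑ i ∈ Finset.range J,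
          g / 8 * (1 / 2) ^ ((J - 1 - i + 1) / 2) := by
        gcongr
        exact (measureReal_biUnion_finset_le _ _).trans (Finset.sum_le_sum level)
    _ ≤ _ := by
        rw [← Finset.mul_sum, Finset.sum_range_reflect (fun j => (1 / 2 : ℝ) ^ ((j + 1) / 2)) J]
        have := Tree_geom2 J
        nlinarith

end

/-! ### summation -/

lemma Tree_zero_dim (hd : d = 0) (M : ℕ → V d → (El d → Bool) → ℝ) :
    ∀ (i : ℕ) (a : V d) (ω : El d → Bool), Vv M i a ω = 0 := by
  subst hd
  intro i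
  induction i with
  | zero => intro a ω; rfl
  | succ i ih =>
    intro a ω
    have hk : kids a = {a} := by
      ext c
      simp only [Finset.mem_singleton]
      constructor
      · intro _; exact Subsingleton.elim _ _
      · intro _
        rw [kids, Fintype.mem_piFinset]
        intro j
        exact j.elim0
    simp only [Vv]
    apply le_antisymm
    · apply Finset.sup'_le
      intro c hc
      rw [ih, hk]
      have : c = a := Subsingleton.elim _ _
      rw [this, Finset.erase_singleton, Finset.sum_empty]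
      norm_num
    · obtain ⟨c, hc⟩ := kids_nonempty a
      refine le_trans ?_
        (Finset.le_sup' (fun c => Vv M i c ω + ∑ c' ∈ (kids a).erase c, M i c' ω) hc)
      rw [ih, hk]
      have : c = a := Subsingleton.elim _ _
      rw [this, Finset.erase_singleton, Finset.sum_empty]
      norm_num

lemma Tree_summ (g ψ : ℕ → ℝ) (hg : ∀ m, 0 ≤ g m) (hψ0 : ∀ m, 0 ≤ ψ m) (hψ : Summable ψ)
    (hrec : ∀ m, g (m + 1) ≤ ψ m + 3 / 8 * g m) : Summable g := by
  rw [← summable_nat_add_iff 1]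
  apply summable_of_sum_range_le (c := 8 / 5 * (∑' m, ψ m + 3 / 8 * g 0)) (fun m => hg _)
  intro n
  have h1 : ∑ i ∈ Finset.range n, g (i + 1) ≤ ∑ i ∈ Finset.range n, ψ i +
      3 / 8 * ∑ i ∈ Finset.range n, g i := by
    rw [Finset.mul_sum, ← Finset.sum_add_distrib]
    exact Finset.sum_le_sum fun i _ => hrec i
  have h2 : ∑ i ∈ Finset.range n, ψ i ≤ ∑' m, ψ m := hψ.sum_le_tsum _ fun i _ => hψ0 i
  have h3 : ∑ i ∈ Finset.range n, g i ≤ g 0 + ∑ i ∈ Finset.range n, g (i + 1) := by
    have := Finset.sum_range_succ' g n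
    rw [Finset.sum_range_succ] at this
    have := hg n
    linarith
  linarith


theorem tree_sum (p : unitInterval) (M : ℕ → V d → (El d → Bool) → ℝ)
    (hM0 : ∀ i a ω, 0 ≤ M i a ω)
    (hMon : ∀ i a t, On (InE (cube i a : Set (V d))) {ω | t ≤ M i a ω})
    (hMeq : ∀ i a w ω, M i (a + w) ω = M i a (tr (fun y => y + ((2 : ℤ) ^ i) • w) ω))
    (h : ℕ)
    (hΦ : Summable fun m : ℕ => (prodBern (El d) p).real
      {ω | ∃ i ≤ m - h, ∃ a, cube i a ⊆ cube (m - h) 0 ∧ (2 : ℝ) ^ m ≤ M i a ω}) :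
    ∃ h₀ : ℕ, ∀ h' ≥ h₀, Summable fun m : ℕ => (prodBern (El d) p).real
      {ω | (2 : ℝ) ^ m ≤ Vv M (m - h') 0 ω} := by
  classical
  by_cases hd : d = 0
  · refine ⟨0, fun h' _ => ?_⟩
    have : ∀ m : ℕ, (prodBern (El d) p).real {ω | (2 : ℝ) ^ m ≤ Vv M (m - h') 0 ω} = 0 := by
      intro m
      have he : {ω : El d → Bool | (2 : ℝ) ^ m ≤ Vv M (m - h') 0 ω} = ∅ := by
        ext ω
        simp only [Set.mem_setOf_eq, Set.mem_empty_iff_false, iff_false, not_le,
          Tree_zero_dim hd M]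
        positivity
      rw [he]; simp
    simp only [this]
    exact summable_zero
  have hd1 : 1 ≤ d := Nat.one_le_iff_ne_zero.2 hd
  have hΦ' : Summable fun m : ℕ => (prodBern (El d) p).real (Tree_Phi M h m) := hΦ
  have hlim := hΦ'.tendsto_atTop_zero
  obtain ⟨m1, hm1⟩ := (hlim.eventually (gt_mem_nhds (show (0 : ℝ) < 1 / 4 by norm_num))).exists_forall_of_atTop
  refine ⟨h + d + 9 + (m1 + d + 3), fun h' hh' => ?_⟩
  set g : ℕ → ℝ := fun m => (prodBern (El d) p).real {ω | (2 : ℝ) ^ m ≤ Vv M (m - h') 0 ω} with hg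
  set φ : ℕ → ℝ := fun m => (prodBern (El d) p).real (Tree_Phi M h m) with hφ
  have hφ4 : ∀ m', h' ≤ m' + d + 3 → φ m' ≤ 1 / 4 := fun m' hm' => (hm1 m' (by omega)).le
  have hzero : ∀ m ≤ h', g m = 0 := by
    intro m hm
    have he : {ω : El d → Bool | (2 : ℝ) ^ m ≤ Vv M (m - h') 0 ω} = ∅ := by
      ext ω
      rw [show m - h' = 0 by omega]
      simp only [Set.mem_setOf_eq, Set.mem_empty_iff_false, iff_false, not_le, Vv]
      positivity
    simp only [hg]
    rw [he]; simp
  have hstep : ∀ m, g m ≤ 1 / 2 → g (m + 1) ≤ φ (m + 1 - d - 2) + 3 / 8 * g m := by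
    intro m hgm
    rcases Nat.lt_or_ge h' (m + 1) with hlt | hge
    · have := Tree_step M p hM0 hMon hMeq hd1 h h' (m + 1) (by omega) hlt
        (fun m' hm' => (hφ4 m' hm').trans (by norm_num)) hgm
      exact this
    · rw [hzero (m + 1) hge]
      have e1 : 0 ≤ φ (m + 1 - d - 2) := measureReal_nonneg
      have e2 : 0 ≤ g m := measureReal_nonneg
      linarith
  have hhalf : ∀ m, g m ≤ 1 / 2 := by
    intro m
    induction m with
    | zero => rw [hzero 0 (Nat.zero_le _)]; norm_num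
    | succ m ih =>
      rcases Nat.lt_or_ge h' (m + 1) with hlt | hge
      · have e1 := hstep m ih
        have e2 := hφ4 (m + 1 - d - 2) (by omega)
        linarith
      · rw [hzero (m + 1) hge]; norm_num
  refine Tree_summ g (fun m => φ (m + 1 - d - 2)) (fun m => measureReal_nonneg)
    (fun m => measureReal_nonneg) ?_ (fun m => hstep m (hhalf m))
  rw [← summable_nat_add_iff (d + 1)]
  refine hΦ'.congr fun m => ?_
  show φ m = φ (m + (d + 1) + 1 - d - 2)
  congr 1
  omega


end Pool.Agent.H17.QA
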