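import Pool.Agent.H17.QA.P1Defs
import Pool.Agent.H17.QA.Tree

/-!
# QA module P1_shift: averaging over the shifts of the dyadic grid (helper59)

A step crosses a level `i` hyperplane of the grid translated by `τ` for a fraction `2^(-i)` of the `τ`;
Markov over the pairs `(τ, l)`; the ball is cut by a level `J` hyperplane for few `τ`.
-/

open MeasureTheory Filter Topology
open Pool.Agent.H17.IIC Pool.Agent.H41.QC Pool.Agent.H47.GM

namespace Pool.Agent.H17.QA

variable {d : ℕ}

/-- counting in one coordinate of a box -/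
theorem sh_count (T : ℕ) (m : Fin d) (p : ℤ → Prop) [DecidablePred p] :
    ((box (0 : V d) T).filter fun τ => p (τ m)).card * T =
      (box (0 : V d) T).card * ((Finset.Ico (0 : ℤ) T).filter p).card := by
  classical
  have e : ((box (0 : V d) T).filter fun τ => p (τ m)) =
      Fintype.piFinset (Function.update (fun _ : Fin d => Finset.Ico (0 : ℤ) T) m
        ((Finset.Ico (0 : ℤ) T).filter p)) := by
    ext τ
    simp only [box, Finset.mem_filter, Fintype.mem_piFinset, Pi.zero_apply, zero_add]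
    constructor
    · rintro ⟨h1, h2⟩ i
      by_cases hi : i = m
      · subst hi
        simp only [Function.update_self, Finset.mem_filter]
        exact ⟨h1 i, h2⟩
      · simp only [Function.update_of_ne hi]
        exact h1 i
    · intro h
      constructor
      · intro i
        by_cases hi : i = m
        · subst hi
          have := h i
          simp only [Function.update_self, Finset.mem_filter] at this
          exact this.1
        · have := h i
          simpa only [Function.update_of_ne hi] using this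
      · have := h m
        simp only [Function.update_self, Finset.mem_filter] at this
        exact this.2
  have e2 : (box (0 : V d) T).card = T * ∏ i ∈ Finset.univ \ {m}, T := by
    have : (box (0 : V d) T) = Fintype.piFinset (fun _ : Fin d => Finset.Ico (0 : ℤ) T) := by
      simp [box]
    rw [this, Fintype.card_piFinset]
    simp only [Int.card_Ico, sub_zero, Int.toNat_natCast]
    rw [← Finset.mul_prod_erase Finset.univ (fun _ => T) (Finset.mem_univ m),
      Finset.erase_eq]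
  rw [e, e2, Fintype.card_piFinset, ]
  have e3 : ∏ i, (Function.update (fun _ : Fin d => Finset.Ico (0 : ℤ) T) m
        ((Finset.Ico (0 : ℤ) T).filter p) i).card =
      ((Finset.Ico (0 : ℤ) T).filter p).card * ∏ i ∈ Finset.univ \ {m}, T := by
    rw [← Finset.mul_prod_erase Finset.univ _ (Finset.mem_univ m), Finset.erase_eq]
    congr 1
    · simp
    · refine Finset.prod_congr rfl fun i hi => ?_
      have hi' : i ≠ m := by
        simpa using hi
      simp [Function.update_of_ne hi']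
  rw [e3]
  ring

/-- residues in an interval of length a multiple of the modulus -/
theorem sh_mod (i J : ℕ) (hi : i ≤ J) (a : ℤ) :
    ((Finset.Ico (0 : ℤ) ((2 ^ J : ℕ) : ℤ)).filter fun t => (a - t) / 2 ^ i ≠ (a - t + 1) / 2 ^ i).card
      * 2 ^ i ≤ 2 ^ J := by
  have hpos : (0 : ℤ) < 2 ^ i := by positivity
  have hsub : ((Finset.Ico (0 : ℤ) ((2 ^ J : ℕ) : ℤ)).filter
      fun t => (a - t) / 2 ^ i ≠ (a - t + 1) / 2 ^ i) ⊆
      (Finset.Ico (0 : ℤ) ((2 ^ J : ℕ) : ℤ)).filter fun t => t ≡ a + 1 [ZMOD 2 ^ i] := by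
    intro t ht
    rw [Finset.mem_filter] at ht ⊢
    refine ⟨ht.1, ?_⟩
    by_contra hc
    apply ht.2
    have hr := Int.emod_nonneg (a - t) hpos.ne'
    have hr2 := Int.emod_lt_of_pos (a - t) hpos
    have hdm := Int.mul_ediv_add_emod (a - t) (2 ^ i)
    set q := (a - t) / 2 ^ i
    set r := (a - t) % 2 ^ i
    have hr3 : r + 1 < 2 ^ i := by
      rcases lt_or_eq_of_le (show r + 1 ≤ 2 ^ i by omega) with h | h
      · exact h
      · exfalso
        apply hc
        rw [Int.modEq_iff_dvd]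
        refine ⟨q + 1, ?_⟩
        linear_combination -hdm + h
    have : a - t + 1 = 2 ^ i * q + (r + 1) := by linarith
    rw [this]
    symm
    rw [Int.mul_add_ediv_left _ _ hpos.ne', Int.ediv_eq_zero_of_lt (by omega) hr3, add_zero]
  have hc := Finset.card_le_card hsub
  have h2 := Int.Ico_filter_modEq_card (0 : ℤ) ((2 ^ J : ℕ) : ℤ) hpos (a + 1)
  have h3 : ((((2 ^ J : ℕ) : ℤ) : ℚ) - ((a + 1 : ℤ) : ℚ)) / (((2 : ℤ) ^ i : ℤ) : ℚ) =
      (((0 : ℤ) : ℚ) - ((a + 1 : ℤ) : ℚ)) / (((2 : ℤ) ^ i : ℤ) : ℚ) + ((2 ^ (J - i) : ℕ) : ℚ) := by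
    have hq : (((2 : ℤ) ^ i : ℤ) : ℚ) ≠ 0 := by positivity
    have hJ : (2 : ℚ) ^ J = 2 ^ i * 2 ^ (J - i) := by rw [← pow_add]; congr 1; omega
    field_simp
    push_cast
    rw [hJ]
    ring
  rw [h3, Int.ceil_add_natCast] at h2
  have h4 : (((Finset.Ico (0 : ℤ) ((2 ^ J : ℕ) : ℤ)).filter
      fun t => t ≡ a + 1 [ZMOD 2 ^ i]).card : ℤ) = 2 ^ (J - i) := by
    rw [h2, add_sub_cancel_left]
    simp
  have h5 : ((Finset.Ico (0 : ℤ) ((2 ^ J : ℕ) : ℤ)).filter
      fun t => t ≡ a + 1 [ZMOD 2 ^ i]).card = 2 ^ (J - i) := by exact_mod_cast h4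
  calc _ ≤ 2 ^ (J - i) * 2 ^ i := by
        rw [← h5]; exact Nat.mul_le_mul_right _ hc
    _ = 2 ^ J := by rw [← pow_add]; congr 1; omega

/-- one step crosses the level `i` grid for a fraction `2^(-i)` of the shifts -/
theorem sh_step (i J : ℕ) (hi : i ≤ J) (u v : V d) (h : LatAdj u v) :
    ((box (0 : V d) (2 ^ J)).filter fun τ => idx i (u - τ) ≠ idx i (v - τ)).card * 2 ^ i ≤
      (box (0 : V d) (2 ^ J)).card := by
  classical
  obtain ⟨⟨m, b⟩, rfl⟩ := h
  -- lower endpoint coordinate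
  obtain ⟨a, ha⟩ : ∃ a : ℤ, ∀ τ : V d, idx i (u - τ) ≠ idx i (u + stepVec (m, b) - τ) →
      (a - τ m) / 2 ^ i ≠ (a - τ m + 1) / 2 ^ i := by
    have hne : ∀ τ : V d, idx i (u - τ) ≠ idx i (u + stepVec (m, b) - τ) →
        (u m - τ m) / 2 ^ i ≠ (u m + stepVec (m, b) m - τ m) / 2 ^ i := by
      intro τ hτ hc
      apply hτ
      funext j
      simp only [idx, Pi.sub_apply, Pi.add_apply]
      by_cases hj : j = m
      · subst hj; exact hc
      · have : stepVec (m, b) j = 0 := by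
          unfold stepVec
          simp [hj]
        rw [this, add_zero]
    cases b
    · refine ⟨u m - 1, fun τ hτ hc => hne τ hτ ?_⟩
      have e : stepVec (m, false) m = (-1 : ℤ) := by simp [stepVec]
      rw [e]
      rw [show u m + -1 - τ m = u m - 1 - τ m by ring, hc]
      congr 1
      ring
    · refine ⟨u m, fun τ hτ hc => hne τ hτ ?_⟩
      have e : stepVec (m, true) m = (1 : ℤ) := by simp [stepVec]
      rw [e]
      rw [show u m + 1 - τ m = u m - τ m + 1 by ring, hc]
  have hsub : ((box (0 : V d) (2 ^ J)).filter fun τ =>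
      idx i (u - τ) ≠ idx i (u + stepVec (m, b) - τ)) ⊆
      (box (0 : V d) (2 ^ J)).filter fun τ => (a - τ m) / 2 ^ i ≠ (a - τ m + 1) / 2 ^ i := by
    intro τ hτ
    rw [Finset.mem_filter] at hτ ⊢
    exact ⟨hτ.1, ha τ hτ.2⟩
  have h1 := sh_count (2 ^ J) m (fun t => (a - t) / 2 ^ i ≠ (a - t + 1) / 2 ^ i)
  have h2 := sh_mod i J hi a
  have hT : 0 < 2 ^ J := by positivity
  have h3 : ((box (0 : V d) (2 ^ J)).filter fun τ =>
      (a - τ m) / 2 ^ i ≠ (a - τ m + 1) / 2 ^ i).card * 2 ^ i ≤ (box (0 : V d) (2 ^ J)).card := by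
    refine Nat.le_of_mul_le_mul_right ?_ hT
    calc _ = (((box (0 : V d) (2 ^ J)).filter fun τ =>
          (a - τ m) / 2 ^ i ≠ (a - τ m + 1) / 2 ^ i).card * 2 ^ J) * 2 ^ i := by ring
      _ = (box (0 : V d) (2 ^ J)).card * (((Finset.Ico (0 : ℤ) ((2 ^ J : ℕ) : ℤ)).filter
          fun t => (a - t) / 2 ^ i ≠ (a - t + 1) / 2 ^ i).card * 2 ^ i) := by
          rw [h1]; ring
      _ ≤ (box (0 : V d) (2 ^ J)).card * 2 ^ J := Nat.mul_le_mul_left _ h2
  exact le_trans (Nat.mul_le_mul_right _ (Finset.card_le_card hsub)) h3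

theorem sh_zip {R : V d → V d → Prop} : ∀ (l : List (V d)), l.IsChain R →
    ∀ e ∈ l.zip l.tail, R e.1 e.2
  | [], _ => by simp
  | [a], _ => by simp
  | a :: b :: l, h => by
      intro e he
      rw [List.isChain_cons_cons] at h
      simp only [List.tail_cons, List.zip_cons_cons, List.mem_cons] at he
      rcases he with rfl | he
      · exact h.1
      · exact sh_zip (b :: l) h.2 e (by simpa using he)

theorem sh_cr (i : ℕ) (l : List (V d)) (τ : V d) : cr i (l.map (· - τ)) =
    (l.zip l.tail).countP fun e => decide (idx i (e.1 - τ) ≠ idx i (e.2 - τ)) := by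
  classical
  unfold cr
  rw [← List.map_tail, List.zip_map, ← List.countP_eq_length_filter, List.countP_map]
  congr

theorem sh_sum {α β : Type*} (B : Finset β) (p : β → α → Bool) : ∀ (L : List α),
    ∑ τ ∈ B, L.countP (p τ) = (L.map fun e => (B.filter fun τ => p τ e = true).card).sum
  | [] => by simp
  | a :: L => by
      simp only [List.countP_cons, List.map_cons, List.sum_cons, Finset.sum_add_distrib,
        sh_sum B p L, Finset.card_filter]
      ring

/-- total number of crossings -/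
theorem sh_total (i J : ℕ) (hi : i ≤ J) (l : List (V d)) (hl : l.IsChain LatAdj) :
    (∑ τ ∈ box (0 : V d) (2 ^ J), cr i (l.map (· - τ))) * 2 ^ i ≤
      (l.length - 1) * (box (0 : V d) (2 ^ J)).card := by
  classical
  have h1 : ∀ τ, cr i (l.map (· - τ)) =
    (l.zip l.tail).countP fun e => decide (idx i (e.1 - τ) ≠ idx i (e.2 - τ)) := fun τ => sh_cr i l τ
  simp only [h1]
  rw [sh_sum (box (0 : V d) (2 ^ J)) (fun (τ : V d) (e : V d × V d) =>
    decide (idx i (e.1 - τ) ≠ idx i (e.2 - τ)))]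
  have h2 : ∀ e ∈ l.zip l.tail, ((box (0 : V d) (2 ^ J)).filter fun τ =>
      decide (idx i (e.1 - τ) ≠ idx i (e.2 - τ)) = true).card * 2 ^ i ≤
      (box (0 : V d) (2 ^ J)).card := by
    intro e he
    have := sh_step i J hi e.1 e.2 (sh_zip l hl e he)
    simpa using this
  rw [← List.sum_map_mul_right]
  calc _ ≤ ((l.zip l.tail).map fun _ => (box (0 : V d) (2 ^ J)).card).sum :=
        List.sum_le_sum fun e he => h2 e he
    _ = (l.length - 1) * (box (0 : V d) (2 ^ J)).card := by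
        simp

/-- the translated ball is not cut by the grid of level `J` except for few shifts -/
theorem sh_bdry (D T : ℕ) (hT : 0 < T) (hD : 2 * D ≤ T) (x : ℤ) :
    ((Finset.Ico (0 : ℤ) T).filter fun t => ¬ ((D : ℤ) ≤ (x - t) % T ∧ (x - t) % T < T - D)).card
      ≤ 2 * D := by
  have hT' : (0 : ℤ) < T := by exact_mod_cast hT
  have hinj : Set.InjOn (fun t : ℤ => (x - t) % T) (((Finset.Ico (0 : ℤ) T).filter
      fun t => ¬ ((D : ℤ) ≤ (x - t) % T ∧ (x - t) % T < T - D)) : Finset ℤ) := by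
    intro s hs t ht hst
    simp only [Finset.coe_filter, Finset.mem_Ico, Set.mem_ofPred_eq] at hs ht
    have h1 : (x - s) ≡ (x - t) [ZMOD T] := hst
    rw [Int.modEq_iff_dvd] at h1
    have h2 : (T : ℤ) ∣ s - t := by
      have : x - t - (x - s) = s - t := by ring
      rwa [this] at h1
    obtain ⟨k, hk⟩ := h2
    have hk0 : k = 0 := by
      have h3 : (T : ℤ) * k < T * 1 := by rw [← hk]; linarith [hs.1.2, ht.1.1]
      have h4 : (T : ℤ) * (-1) < T * k := by rw [← hk]; linarith [hs.1.1, ht.1.2]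
      have h5 := lt_of_mul_lt_mul_left h3 hT'.le
      have h6 := lt_of_mul_lt_mul_left h4 hT'.le
      omega
    rw [hk0] at hk
    linarith
  calc _ = (((Finset.Ico (0 : ℤ) T).filter
      fun t => ¬ ((D : ℤ) ≤ (x - t) % T ∧ (x - t) % T < T - D)).image
        fun t : ℤ => (x - t) % T).card := (Finset.card_image_of_injOn hinj).symm
    _ ≤ (Finset.Ico (0 : ℤ) D ∪ Finset.Ico ((T : ℤ) - D) T).card := by
        refine Finset.card_le_card fun r hr => ?_
        rw [Finset.mem_image] at hr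
        obtain ⟨t, ht, rfl⟩ := hr
        rw [Finset.mem_filter] at ht
        have h1 := Int.emod_nonneg (x - t) hT'.ne'
        have h2 := Int.emod_lt_of_pos (x - t) hT'
        rw [Finset.mem_union, Finset.mem_Ico, Finset.mem_Ico]
        have := ht.2
        omega
    _ ≤ D + D := by
        refine (Finset.card_union_le _ _).trans ?_
        simp
    _ = 2 * D := by ring

theorem sh_inv_sq (J : ℕ) : ∑ i ∈ Finset.range J, 1 / ((J : ℝ) - i) ^ 2 ≤ 2 := by
  have key : ∀ n : ℕ, ∑ i ∈ Finset.range (n + 1), 1 / ((i : ℝ) + 1) ^ 2 ≤ 2 - 1 / ((n : ℝ) + 1) := by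
    intro n
    induction n with
    | zero => norm_num
    | succ n ih =>
      rw [Finset.sum_range_succ]
      have h : 1 / (((n + 1 : ℕ) : ℝ) + 1) ^ 2 ≤ 1 / ((n : ℝ) + 1) - 1 / (((n + 1 : ℕ) : ℝ) + 1) := by
        push_cast
        rw [div_sub_div _ _ (by positivity) (by positivity), div_le_div_iff₀ (by positivity)
          (by positivity)]
        nlinarith [Nat.cast_nonneg (α := ℝ) n]
      linarith
  rw [← Finset.sum_range_reflect]
  cases J with
  | zero => simp
  | succ n =>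
    have h2 : ∑ i ∈ Finset.range (n + 1), 1 / (((n + 1 : ℕ) : ℝ) - ((n + 1 - 1 - i : ℕ) : ℝ)) ^ 2 =
        ∑ i ∈ Finset.range (n + 1), 1 / ((i : ℝ) + 1) ^ 2 := by
      refine Finset.sum_congr rfl fun i hi => ?_
      have hi' : i ≤ n := Nat.lt_succ_iff.mp (Finset.mem_range.mp hi)
      have : n + 1 - 1 - i = n - i := by omega
      rw [this, Nat.cast_sub hi']
      push_cast
      congr 2
      ring
    rw [h2]
    have := key n
    have h3 : (0 : ℝ) ≤ 1 / ((n : ℝ) + 1) := by positivity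
    linarith

theorem shift_half (hd : 1 ≤ d) (F : Finset (List (V d))) (hF : F.Nonempty) (x : V d) (N D J : ℕ)
    (hN : ∀ l ∈ F, l.length = N + 1 ∧ l.IsChain LatAdj ∧ ∀ v ∈ l, ∀ i, |v i - x i| ≤ D)
    (hJ : 16 * d * (D + 1) ≤ 2 ^ J) :
    (box (0 : V d) (2 ^ J)).card ≤ 2 * ((box (0 : V d) (2 ^ J)).filter fun τ =>
      ∃ F'' ⊆ F, F.card ≤ 2 * F''.card ∧
        (∀ l ∈ F'', ∀ i < J, (cr i (l.map (· - τ)) : ℝ) ≤ 16 * ((J : ℝ) - i) ^ 2 * N / 2 ^ i) ∧
        ∀ l ∈ F'', ∀ v ∈ l, v - τ ∈ cube J (idx J (x - τ))).card := by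
  classical
  set B := box (0 : V d) (2 ^ J) with hB
  set bad : V d → Finset (List (V d)) := fun τ => F.filter fun l =>
    ∃ i < J, 16 * ((J : ℝ) - i) ^ 2 * N / 2 ^ i < (cr i (l.map (· - τ)) : ℝ) with hbad
  set B1 := B.filter fun τ => F.card < 2 * (bad τ).card with hB1
  set B2 := B.filter fun τ => ∃ j : Fin d, ¬ ((D : ℤ) ≤ (x j - τ j) % ((2 ^ J : ℕ) : ℤ) ∧
    (x j - τ j) % ((2 ^ J : ℕ) : ℤ) < ((2 ^ J : ℕ) : ℤ) - D) with hB2
  have hTpos : 0 < 2 ^ J := by positivity
  -- second kind of bad shifts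
  have hb2 : B2.card * 8 ≤ B.card := by
    have h1 : B2 ⊆ Finset.univ.biUnion fun j : Fin d => B.filter fun τ =>
        ¬ ((D : ℤ) ≤ (x j - τ j) % ((2 ^ J : ℕ) : ℤ) ∧
        (x j - τ j) % ((2 ^ J : ℕ) : ℤ) < ((2 ^ J : ℕ) : ℤ) - D) := by
      intro τ hτ
      rw [hB2, Finset.mem_filter] at hτ
      obtain ⟨hτ, j, hj⟩ := hτ
      rw [Finset.mem_biUnion]
      exact ⟨j, Finset.mem_univ _, Finset.mem_filter.mpr ⟨hτ, hj⟩⟩
    have h2 : B2.card ≤ ∑ j : Fin d, (B.filter fun τ =>
        ¬ ((D : ℤ) ≤ (x j - τ j) % ((2 ^ J : ℕ) : ℤ) ∧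
        (x j - τ j) % ((2 ^ J : ℕ) : ℤ) < ((2 ^ J : ℕ) : ℤ) - D)).card :=
      (Finset.card_le_card h1).trans Finset.card_biUnion_le
    have h2D : 2 * D ≤ 2 ^ J := by
      refine le_trans ?_ hJ
      nlinarith
    have h3 : ∀ j : Fin d, (B.filter fun τ =>
        ¬ ((D : ℤ) ≤ (x j - τ j) % ((2 ^ J : ℕ) : ℤ) ∧
        (x j - τ j) % ((2 ^ J : ℕ) : ℤ) < ((2 ^ J : ℕ) : ℤ) - D)).card * 2 ^ J ≤
        B.card * (2 * D) := by
      intro j
      have := sh_count (d := d) (2 ^ J) j (fun t => ¬ ((D : ℤ) ≤ (x j - t) % ((2 ^ J : ℕ) : ℤ) ∧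
        (x j - t) % ((2 ^ J : ℕ) : ℤ) < ((2 ^ J : ℕ) : ℤ) - D))
      rw [hB, this]
      exact Nat.mul_le_mul_left _ (sh_bdry D (2 ^ J) hTpos h2D (x j))
    have h4 : B2.card * 2 ^ J ≤ d * (B.card * (2 * D)) := by
      calc _ ≤ (∑ j : Fin d, (B.filter fun τ =>
          ¬ ((D : ℤ) ≤ (x j - τ j) % ((2 ^ J : ℕ) : ℤ) ∧
          (x j - τ j) % ((2 ^ J : ℕ) : ℤ) < ((2 ^ J : ℕ) : ℤ) - D)).card) * 2 ^ J :=
            Nat.mul_le_mul_right _ h2
        _ = ∑ j : Fin d, (B.filter fun τ =>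
          ¬ ((D : ℤ) ≤ (x j - τ j) % ((2 ^ J : ℕ) : ℤ) ∧
          (x j - τ j) % ((2 ^ J : ℕ) : ℤ) < ((2 ^ J : ℕ) : ℤ) - D)).card * 2 ^ J :=
            Finset.sum_mul _ _ _
        _ ≤ ∑ j : Fin d, B.card * (2 * D) := Finset.sum_le_sum fun j _ => h3 j
        _ = _ := by simp
    refine Nat.le_of_mul_le_mul_right ?_ hTpos
    calc B2.card * 8 * 2 ^ J = 8 * (B2.card * 2 ^ J) := by ring
      _ ≤ 8 * (d * (B.card * (2 * D))) := Nat.mul_le_mul_left _ h4
      _ = B.card * (16 * d * D) := by ring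
      _ ≤ B.card * 2 ^ J := Nat.mul_le_mul_left _ (le_trans (Nat.mul_le_mul_left _ (by omega)) hJ)
  -- Markov
  have hmk : ∀ l ∈ F, ∀ i < J, ((B.filter fun τ =>
      16 * ((J : ℝ) - i) ^ 2 * N / 2 ^ i < (cr i (l.map (· - τ)) : ℝ)).card : ℝ) ≤
      B.card * (1 / (16 * ((J : ℝ) - i) ^ 2)) := by
    intro l hl i hi
    obtain ⟨hlen, hch, -⟩ := hN l hl
    have ht := sh_total i J hi.le l hch
    rw [hlen, Nat.add_sub_cancel] at ht
    have hJi : (0 : ℝ) < (J : ℝ) - i := by
      have : (i : ℝ) < J := by exact_mod_cast hi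
      linarith
    have htR : (∑ τ ∈ B, (cr i (l.map (· - τ)) : ℝ)) * 2 ^ i ≤ N * B.card := by
      exact_mod_cast ht
    rcases Nat.eq_zero_or_pos N with hN0 | hN0
    · subst hN0
      have : B.filter (fun τ => 16 * ((J : ℝ) - i) ^ 2 * ((0 : ℕ) : ℝ) / 2 ^ i <
          (cr i (l.map (· - τ)) : ℝ)) = ∅ := by
        rw [Finset.filter_eq_empty_iff]
        intro τ hτ
        have h0 : (∑ τ ∈ B, (cr i (l.map (· - τ)) : ℝ)) ≤ 0 := by
          have h2 : (0 : ℝ) < 2 ^ i := by positivity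
          by_contra hc
          push Not at hc
          have := mul_pos hc h2
          simp at htR
          linarith
        have h1 := Finset.single_le_sum (f := fun τ => (cr i (l.map (· - τ)) : ℝ))
          (fun _ _ => Nat.cast_nonneg _) hτ
        simp only [Nat.cast_zero, mul_zero, zero_div, not_lt]
        linarith
      rw [this]
      simp only [Finset.card_empty, Nat.cast_zero]
      positivity
    · have hNR : (0 : ℝ) < N := by exact_mod_cast hN0
      have h2i : (0 : ℝ) < 2 ^ i := by positivity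
      set S := B.filter fun τ =>
        16 * ((J : ℝ) - i) ^ 2 * N / 2 ^ i < (cr i (l.map (· - τ)) : ℝ) with hS
      have h1 : (S.card : ℝ) * (16 * ((J : ℝ) - i) ^ 2 * N / 2 ^ i) ≤
          ∑ τ ∈ B, (cr i (l.map (· - τ)) : ℝ) := by
        calc _ = ∑ τ ∈ S, (16 * ((J : ℝ) - i) ^ 2 * N / 2 ^ i) := by
              rw [Finset.sum_const, nsmul_eq_mul]
          _ ≤ ∑ τ ∈ S, (cr i (l.map (· - τ)) : ℝ) :=
              Finset.sum_le_sum fun τ hτ => (Finset.mem_filter.mp hτ).2.le
          _ ≤ _ := Finset.sum_le_sum_of_subset_of_nonneg (Finset.filter_subset _ _)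
              fun _ _ _ => Nat.cast_nonneg _
      have h2 : (S.card : ℝ) * (16 * ((J : ℝ) - i) ^ 2 * N) ≤ N * B.card := by
        have := mul_le_mul_of_nonneg_right h1 h2i.le
        rw [show (S.card : ℝ) * (16 * ((J : ℝ) - i) ^ 2 * N / 2 ^ i) * 2 ^ i =
          (S.card : ℝ) * (16 * ((J : ℝ) - i) ^ 2 * N) by field_simp] at this
        linarith
      have h3 : (S.card : ℝ) * (16 * ((J : ℝ) - i) ^ 2) ≤ B.card := by
        refine le_of_mul_le_mul_right ?_ hNR
        linarith
      rw [mul_one_div, le_div_iff₀ (by positivity)]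
      exact h3
  have hb1 : B1.card * 4 ≤ B.card := by
    have h1 : (∑ τ ∈ B, ((bad τ).card : ℝ)) ≤ F.card * (B.card * (1 / 8)) := by
      have h2 : ∀ τ ∈ B, ((bad τ).card : ℝ) ≤ ∑ i ∈ Finset.range J, ((F.filter fun l =>
          16 * ((J : ℝ) - i) ^ 2 * N / 2 ^ i < (cr i (l.map (· - τ)) : ℝ)).card : ℝ) := by
        intro τ _
        have : bad τ ⊆ (Finset.range J).biUnion fun i => F.filter fun l =>
          16 * ((J : ℝ) - i) ^ 2 * N / 2 ^ i < (cr i (l.map (· - τ)) : ℝ) := by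
          intro l hl
          rw [hbad, Finset.mem_filter] at hl
          obtain ⟨hl, i, hi, hli⟩ := hl
          rw [Finset.mem_biUnion]
          exact ⟨i, Finset.mem_range.mpr hi, Finset.mem_filter.mpr ⟨hl, hli⟩⟩
        have h3 := (Finset.card_le_card this).trans Finset.card_biUnion_le
        exact_mod_cast h3
      calc _ ≤ ∑ τ ∈ B, ∑ i ∈ Finset.range J, ((F.filter fun l =>
          16 * ((J : ℝ) - i) ^ 2 * N / 2 ^ i < (cr i (l.map (· - τ)) : ℝ)).card : ℝ) :=
            Finset.sum_le_sum h2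
        _ = ∑ i ∈ Finset.range J, ∑ τ ∈ B, ((F.filter fun l =>
          16 * ((J : ℝ) - i) ^ 2 * N / 2 ^ i < (cr i (l.map (· - τ)) : ℝ)).card : ℝ) :=
            Finset.sum_comm
        _ = ∑ i ∈ Finset.range J, ∑ l ∈ F, ((B.filter fun τ =>
          16 * ((J : ℝ) - i) ^ 2 * N / 2 ^ i < (cr i (l.map (· - τ)) : ℝ)).card : ℝ) := by
            refine Finset.sum_congr rfl fun i _ => ?_
            simp only [Finset.card_filter, Nat.cast_sum]
            exact Finset.sum_comm
        _ ≤ ∑ i ∈ Finset.range J, ∑ l ∈ F, (B.card : ℝ) * (1 / (16 * ((J : ℝ) - i) ^ 2)) :=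
            Finset.sum_le_sum fun i hi => Finset.sum_le_sum fun l hl =>
              hmk l hl i (Finset.mem_range.mp hi)
        _ = F.card * (B.card * (1 / 16 * ∑ i ∈ Finset.range J, 1 / ((J : ℝ) - i) ^ 2)) := by
            simp only [Finset.sum_const, nsmul_eq_mul, Finset.mul_sum]
            refine Finset.sum_congr rfl fun i _ => ?_
            rw [one_div_mul_one_div_rev, mul_comm (((J : ℝ) - i) ^ 2) 16]
        _ ≤ F.card * (B.card * (1 / 8)) := by
            have := sh_inv_sq J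
            gcongr
            linarith
    have h4 : (B1.card : ℝ) * (F.card / 2) ≤ ∑ τ ∈ B, ((bad τ).card : ℝ) := by
      calc _ = ∑ τ ∈ B1, (F.card / 2 : ℝ) := by rw [Finset.sum_const, nsmul_eq_mul]
        _ ≤ ∑ τ ∈ B1, ((bad τ).card : ℝ) := by
            refine Finset.sum_le_sum fun τ hτ => ?_
            have := (Finset.mem_filter.mp hτ).2
            have h5 : (F.card : ℝ) < 2 * (bad τ).card := by exact_mod_cast this
            linarith
        _ ≤ _ := Finset.sum_le_sum_of_subset_of_nonneg (Finset.filter_subset _ _)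
              fun _ _ _ => Nat.cast_nonneg _
    have hFc : (0 : ℝ) < F.card := by exact_mod_cast hF.card_pos
    have h5 : (B1.card : ℝ) * 4 ≤ B.card := by
      have : (B1.card : ℝ) * (F.card / 2) ≤ F.card * (B.card * (1 / 8)) := h4.trans h1
      have h6 : F.card * ((B1.card : ℝ) * 4) ≤ F.card * (B.card : ℝ) := by linarith
      exact le_of_mul_le_mul_left h6 hFc
    exact_mod_cast h5
  -- the good shifts
  set G := B.filter fun τ => ∃ F'' ⊆ F, F.card ≤ 2 * F''.card ∧
        (∀ l ∈ F'', ∀ i < J, (cr i (l.map (· - τ)) : ℝ) ≤ 16 * ((J : ℝ) - i) ^ 2 * N / 2 ^ i) ∧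
        ∀ l ∈ F'', ∀ v ∈ l, v - τ ∈ cube J (idx J (x - τ)) with hG
  have hcov : B ⊆ G ∪ (B1 ∪ B2) := by
    intro τ hτ
    by_contra hc
    rw [Finset.mem_union, Finset.mem_union, not_or, not_or] at hc
    obtain ⟨hc0, hc1, hc2⟩ := hc
    apply hc0
    rw [hG, Finset.mem_filter]
    rw [hB1, Finset.mem_filter, not_and] at hc1
    rw [hB2, Finset.mem_filter, not_and, not_exists] at hc2
    have hc1' := hc1 hτ
    have hc2' := hc2 hτ
    push Not at hc1'
    refine ⟨hτ, F \ bad τ, Finset.sdiff_subset, ?_, ?_, ?_⟩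
    · have h1 : (F \ bad τ).card + (bad τ).card = F.card :=
        Finset.card_sdiff_add_card_eq_card (Finset.filter_subset _ _)
      omega
    · intro l hl i hi
      rw [Finset.mem_sdiff, hbad, Finset.mem_filter, not_and] at hl
      have := hl.2 hl.1
      push Not at this
      exact this i hi
    · intro l hl v hv
      have hlF := (Finset.mem_sdiff.mp hl).1
      obtain ⟨-, -, hnear⟩ := hN l hlF
      unfold cube
      rw [Fintype.mem_piFinset]
      intro j
      have h1 := not_not.mp (hc2' j)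
      have h2 := abs_le.mp (hnear v hv j)
      rw [Finset.mem_Ico]
      simp only [idx, Pi.sub_apply]
      have hT : ((2 ^ J : ℕ) : ℤ) = 2 ^ J := by push_cast; rfl
      rw [hT] at h1
      have hdm := Int.mul_ediv_add_emod (x j - τ j) (2 ^ J)
      constructor
      · nlinarith [h1.1, h2.1]
      · nlinarith [h1.2, h2.2]
  have h7 := Finset.card_le_card hcov
  have h8 := Finset.card_union_le G (B1 ∪ B2)
  have h9 := Finset.card_union_le B1 B2
  omega

end Pool.Agent.H17.QA
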