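import Pool.Agent.H17.QA.P1Cost
import Pool.Agent.H17.QA.P1Decomp
import Pool.Agent.H17.QA.P1Shift

/-!
# QA module P1: compact rich families give rich chains (P1)

`idx i v`: index of the dyadic cube of level `i` containing `v`. `cr i l`: number of steps of `l` crossing a
hyperplane of the dyadic grid of level `i`.

`decomp` (deterministic; `F` a family from `x` to `y` with `N` steps inside `cube J A`, `cr i l ≤ m i` for all
members and all levels `i₀ ≤ i < J`). CELLS: the partition of `cube J A` into the maximal dyadic cubes of level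
`≥ i₀` containing neither `x` nor `y`, and the (at most two) level `i₀` cubes containing `x` or `y`. The cells of
level `i` (`i₀ ≤ i < J`) not containing `x`, `y` are siblings along the chain of `x` or along the chain of `y`: at most
`2 (2^d - 1)` per level. A member `l` is cut into maximal runs inside cells; consecutive runs are separated by a
step crossing a level `i₀` hyperplane: at most `m i₀` cuts. DATA: cut times and the vertices at both sides of
each cut: at most `(N+1)^(m i₀) 2^(2 J d m i₀)` values. Take the most popular value: `F' ⊆ F`. For a cell `Q`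
let `F_Q` be the set of the tuples of runs inside `Q`; a member of `F'` is determined by its runs, so
`|F'| ≤ ∏_Q |F_Q|`. For a cell `Q` of level `i` containing neither `x` nor `y` each run starts and ends at the
inner boundary of `Q` and uses two crossings of level `i` hyperplanes, so the number of runs is at most `m i / 2`;
the runs with at least one step form a closed datum `D` (the runs without steps are determined by the data) and
`log |F_Q| ≤ b ∑ n + Cp 2^i k^gam + MQ`. For the other cells the number of steps is at most `2^(d i₀)`, so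
`|F_Q| ≤ (2 d)^(2^(d i₀))`. Sum, and bound the sum of `MQ` over the closed cells by the sums along the two
chains, each at most `Vv`.

`shift_half`: for a family `F` with `N` steps all of whose members stay within distance `D` of `x`, and
`16 d (D + 1) ≤ 2^J`: for at least half of the `τ ∈ [0,2^J)^d` the translated family `F - τ` has a subfamily `F''`
with `2 |F''| ≥ |F|`, `cr i l ≤ 16 (J-i)^2 N / 2^i` for all `l ∈ F''` and all `i < J`, and all vertices in one cube of
level `J`. (A step in direction `m` crosses a level `i` hyperplane of the grid translated by `τ` for a fraction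
`2^(-i)` of the `τ`; Markov over pairs `(τ, l)`, `∑_j 1/(16 j^2) ≤ 1/8`; the ball is cut by a level `J` hyperplane
for a fraction at most `d (2 D + 1) / 2^J ≤ 1/4`.)

`p1`: choose `h'` large, `J = m - 3 - h'`, `i₀ = m/(2d)`, `ε = 2^(-h'-10)/d`; `N ≤ 2^(m+1)/η`. If `ω` is in the event then
for at least half of the `τ` the configuration translated by `τ` has a cube `cube J A` with
`2 Vv ≥ 2^m - log 2 - (costs) ≥ 2^(m-1)`, where the costs of `decomp` are
`∑_i 2^(d+1) Cp 2^i (16 (J-i)^2 N/2^i)^gam ≤ C 2^m 2^(-h'(1-gam))`, `2^(d i₀ + 1) log (2d) ≤ C 2^(m/2)` and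
`(16 J^2 N 2^(-i₀) + 1)(log (N+1) + 2 J d log 2) ≤ C m^3 2^(m - m/(2d))`. The index `A` takes at most
`(K 2^(h'+3) + 2)^d` values. Average over `τ`, translation invariance and the union bound.
-/

open MeasureTheory Filter Topology
open Pool.Agent.H17.IIC Pool.Agent.H41.QC Pool.Agent.H47.GM

namespace Pool.Agent.H17.QA

variable {d : ℕ}

/-! ### translations -/

lemma P1_inE_finite (Q : Finset (V d)) : (InE (Q : Set (V d))).Finite := by
  classical
  apply Set.Finite.subset (s := ((Q ×ˢ Q).image (fun p : V d × V d => s(p.1, p.2)) : Set (El d)))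
    (Finset.finite_toSet _)
  intro e he
  induction e using Sym2.ind with
  | _ a b =>
    have ha := he a (Sym2.mem_mk_left a b)
    have hb := he b (Sym2.mem_mk_right a b)
    simp only [Finset.coe_image, Set.mem_image, Finset.mem_coe, Finset.mem_product, Prod.exists]
    exact ⟨a, b, ⟨ha, hb⟩, rfl⟩

lemma P1_meas_mq (κ : Kind) (b Cp : ℝ) (i : ℕ) (a : V d) :
    Measurable (fun ω : El d → Bool => MQ κ b Cp i a ω) := by
  apply measurable_of_Ici
  intro t
  have hfin := P1_inE_finite (cube i a)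
  have h := mq_on κ b Cp i a t
  rw [← hfin.coe_toFinset] at h
  exact On.measurableSet h

lemma P1_meas_vv (M : ℕ → V d → (El d → Bool) → ℝ) (hM : ∀ i a, Measurable (M i a)) :
    ∀ i a, Measurable (Vv M i a)
  | 0, a => by
      have : Vv M 0 a = fun _ => (0 : ℝ) := by funext ω; rfl
      rw [this]
      exact measurable_const
  | i + 1, a => by
      classical
      have : Vv M (i + 1) a = (kids a).sup' (kids_nonempty a)
          (fun c => fun ω => Vv M i c ω + ∑ c' ∈ (kids a).erase c, M i c' ω) := by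
        funext ω
        rw [Finset.sup'_apply]
        simp only [Vv]
      rw [this]
      apply Finset.measurable_sup'
      intro c _
      apply (P1_meas_vv M hM i c).add
      apply Finset.measurable_fun_sum
      intro c' _
      exact hM i c'

lemma P1_kids_add (a w : V d) : kids (a + w) = (kids a).map (Equiv.addRight ((2 : ℤ) • w)).toEmbedding := by
  ext c
  simp only [kids, Fintype.mem_piFinset, Finset.mem_map_equiv, Finset.mem_insert, Finset.mem_singleton,
    Equiv.addRight_symm, Equiv.coe_addRight, Pi.add_apply, Pi.neg_apply, Pi.smul_apply, smul_eq_mul]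
  refine forall_congr' fun j => ?_
  constructor <;> rintro (h | h)
  · left; linarith
  · right; linarith
  · left; linarith
  · right; linarith

lemma P1_vv_shift (M : ℕ → V d → (El d → Bool) → ℝ)
    (hMeq : ∀ i a w ω, M i (a + w) ω = M i a (tr (fun y => y + ((2 : ℤ) ^ i) • w) ω)) :
    ∀ (i : ℕ) (a w : V d) (ω : El d → Bool),
      Vv M i (a + w) ω = Vv M i a (tr (fun y => y + ((2 : ℤ) ^ i) • w) ω)
  | 0, a, w, ω => rfl
  | i + 1, a, w, ω => by
      classical
      have e : ((2 : ℤ) ^ (i + 1)) • w = ((2 : ℤ) ^ i) • ((2 : ℤ) • w) := by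
        rw [smul_smul, pow_succ]
      have e2 : Vv M (i + 1) (a + w) ω = ((kids a).map (Equiv.addRight ((2 : ℤ) • w)).toEmbedding).sup'
          ((kids_nonempty a).map) (fun c => Vv M i c ω + ∑ c' ∈ ((kids a).map (Equiv.addRight ((2 : ℤ) • w)).toEmbedding).erase c, M i c' ω) := by
        simp only [Vv]
        congr! 1
        · exact P1_kids_add a w
        · rw [P1_kids_add a w]
      rw [e2, Finset.sup'_map]
      simp only [Vv]
      congr! 1
      rename_i c _
      simp only [Function.comp_apply, Equiv.coe_toEmbedding, Equiv.coe_addRight]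
      rw [P1_vv_shift M hMeq i c ((2 : ℤ) • w) ω, e]
      congr 1
      have h3 : ((kids a).map (Equiv.addRight ((2 : ℤ) • w)).toEmbedding).erase (c + (2 : ℤ) • w) =
          ((kids a).erase c).map (Equiv.addRight ((2 : ℤ) • w)).toEmbedding := by
        rw [Finset.map_erase]
        rfl
      rw [h3, Finset.sum_map]
      apply Finset.sum_congr rfl
      intro c' _
      simp only [Equiv.coe_toEmbedding, Equiv.coe_addRight]
      exact hMeq i c' _ ω

lemma P1_tr_meas (v : V d) : Measurable (tr (fun y => y + v) : (El d → Bool) → (El d → Bool)) :=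
  measurable_pi_iff.2 fun _ => measurable_pi_apply _

lemma P1_tr_law (v : V d) (p : unitInterval) (G : Set (El d → Bool)) (hG : MeasurableSet G) :
    (prodBern (El d) p).real (tr (fun y => y + v) ⁻¹' G) = (prodBern (El d) p).real G := by
  rw [← map_measureReal_apply (P1_tr_meas v) hG]
  have := tr_law (Equiv.addRight v) p
  have h2 : (prodBern (El d) p).map (tr (fun y => y + v)) = prodBern (El d) p := this
  rw [h2]

/-- Markov inequality for the number of translates in `G` -/
lemma P1_markov (p : unitInterval) (B : Finset (V d)) (hB : B.Nonempty) (G : Set (El d → Bool))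
    (hG : MeasurableSet G) (S : Set (El d → Bool))
    (hS : ∀ ω ∈ S, ∃ T ⊆ B, B.card ≤ 2 * T.card ∧ ∀ τ ∈ T, tr (fun y => y + τ) ω ∈ G) :
    (prodBern (El d) p).real S ≤ 2 * (prodBern (El d) p).real G := by
  classical
  set μ := prodBern (El d) p with hμ
  set f : (El d → Bool) → ℝ := fun ω => ∑ τ ∈ B, (tr (fun y => y + τ) ⁻¹' G).indicator (fun _ => (1 : ℝ)) ω
    with hf
  have hmeas : ∀ τ : V d, MeasurableSet (tr (fun y => y + τ) ⁻¹' G : Set (El d → Bool)) :=
    fun τ => (P1_tr_meas τ) hG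
  have hint : ∀ τ : V d, Integrable ((tr (fun y => y + τ) ⁻¹' G).indicator (fun _ => (1 : ℝ))) μ :=
    fun τ => (integrable_const (1 : ℝ)).indicator (hmeas τ)
  have hI : ∫ ω, f ω ∂μ = B.card * μ.real G := by
    rw [hf, integral_finsetSum _ (fun τ _ => hint τ)]
    have : ∀ τ ∈ B, ∫ ω, (tr (fun y => y + τ) ⁻¹' G).indicator (fun _ => (1 : ℝ)) ω ∂μ = μ.real G := by
      intro τ _
      rw [integral_indicator_const _ (hmeas τ), smul_eq_mul, mul_one]
      exact P1_tr_law τ p G hG
    rw [Finset.sum_congr rfl this, Finset.sum_const, nsmul_eq_mul]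
  have hf0 : ∀ ω, 0 ≤ f ω := fun ω => Finset.sum_nonneg fun τ _ => Set.indicator_nonneg (fun _ _ => zero_le_one) _
  have hfint : Integrable f μ := integrable_finsetSum _ fun τ _ => hint τ
  have hmk := mul_meas_ge_le_integral_of_nonneg (μ := μ) (Eventually.of_forall hf0) hfint ((B.card : ℝ) / 2)
  have hBpos : (0 : ℝ) < B.card := by exact_mod_cast hB.card_pos
  have hsub : S ⊆ {ω | (B.card : ℝ) / 2 ≤ f ω} := by
    intro ω hω
    obtain ⟨T, hTB, hT, hTG⟩ := hS ω hω
    have h1 : (T.card : ℝ) ≤ f ω := by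
      calc (T.card : ℝ) = ∑ τ ∈ T, (1 : ℝ) := by simp
        _ ≤ ∑ τ ∈ T, (tr (fun y => y + τ) ⁻¹' G).indicator (fun _ => (1 : ℝ)) ω := by
            apply Finset.sum_le_sum
            intro τ hτ
            rw [Set.indicator_of_mem]
            exact hTG τ hτ
        _ ≤ f ω := Finset.sum_le_sum_of_subset_of_nonneg hTB fun τ _ _ =>
            Set.indicator_nonneg (fun _ _ => zero_le_one) _
    have h2 : (B.card : ℝ) ≤ 2 * T.card := by exact_mod_cast hT
    show (B.card : ℝ) / 2 ≤ f ω
    linarith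
  have h3 : μ.real S ≤ μ.real {ω | (B.card : ℝ) / 2 ≤ f ω} := measureReal_mono hsub
  rw [hI] at hmk
  have h4 : (B.card : ℝ) * μ.real {ω | (B.card : ℝ) / 2 ≤ f ω} ≤ B.card * (2 * μ.real G) := by
    linarith
  have h5 := le_of_mul_le_mul_left h4 hBpos
  exact h3.trans h5

/-- translated families -/
lemma P1_fam {κ : Kind} {ω : El d → Bool} {F : Finset (List (V d))} {x y : V d} {N : ℕ}
    (h : IsFam κ ω F x y N) (τ : V d) [DecidableEq (List (V d))] :
    IsFam κ (tr (fun y => y + τ) ω) (F.image fun l => l.map (· - τ)) (x - τ) (y - τ) N := by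
  intro l' hl'
  obtain ⟨l, hl, rfl⟩ := Finset.mem_image.1 hl'
  obtain ⟨hop, hlen, hh, hla, -⟩ := h l hl
  refine ⟨⟨?_, ?_, ?_⟩, ?_, ?_, ?_, fun v _ => Set.mem_univ v⟩
  · exact hop.nodup.map (fun a b hab => sub_left_injective hab)
  · rw [List.isChain_map]
    refine hop.chain.imp ?_
    rintro a b ⟨s, rfl⟩
    exact ⟨s, by abel⟩
  · have ho := hop.opn
    cases κ with
    | bond =>
      simp only [Opn] at ho ⊢
      rw [List.isChain_map]
      refine ho.imp ?_
      intro a b hab
      simp only [tr, Sym2.map_mk, sub_add_cancel]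
      exact hab
    | site =>
      simp only [Opn] at ho ⊢
      intro a ha
      obtain ⟨a', ha', rfl⟩ := List.mem_map.1 ha
      simp only [tr, Sym2.map_mk, sub_add_cancel]
      exact ho a' ha'
  · rw [List.length_map]; exact hlen
  · rw [List.head?_map, hh]; rfl
  · rw [List.getLast?_map, hla]; rfl

/-- one good translate gives a large value of `Vv` -/
lemma P1_det (hd : 2 ≤ d) {b Cp : ℝ} (hb : 0 ≤ b) (hCp : 0 ≤ Cp) {m J i₀ N : ℕ} (hm3 : 3 ≤ m)
    (hiJ : i₀ ≤ J)
    (c1 : ∑ i ∈ Finset.Ico i₀ J, 2 ^ (d + 1) * Cp * 2 ^ i *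
      (16 * ((J : ℝ) - i) ^ 2 * N / 2 ^ i) ^ gam d ≤ 2 ^ m / 4)
    (c2 : (2 : ℝ) ^ (d * i₀ + 1) * Real.log (2 * d) ≤ 2 ^ m / 8)
    (c3 : (16 * ((J : ℝ) - i₀) ^ 2 * N / 2 ^ i₀ + 1) *
      (Real.log (N + 2) + (2 * J * d + 1) * Real.log 2) ≤ 2 ^ m / 8)
    (κ : Kind) (ω : El d → Bool) (F : Finset (List (V d))) (x y : V d)
    (hfam : IsFam κ ω F x y N) (hF : b * N + 2 ^ m ≤ Real.log F.card) (τ : V d)
    (F'' : Finset (List (V d))) (hsub : F'' ⊆ F) (hcard : F.card ≤ 2 * F''.card)
    (hcr : ∀ l ∈ F'', ∀ i < J, (cr i (l.map (· - τ)) : ℝ) ≤ 16 * ((J : ℝ) - i) ^ 2 * N / 2 ^ i)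
    (hcube : ∀ l ∈ F'', ∀ v ∈ l, v - τ ∈ cube J (idx J (x - τ))) :
    (2 : ℝ) ^ (m - 3) ≤ Vv (MQ κ b Cp) J (idx J (x - τ)) (tr (fun y => y + τ) ω) := by
  classical
  have h2m : (8 : ℝ) ≤ 2 ^ m := by
    calc (8 : ℝ) = 2 ^ 3 := by norm_num
      _ ≤ 2 ^ m := pow_le_pow_right₀ (by norm_num) hm3
  have hFpos : 0 < F.card := by
    rcases Nat.eq_zero_or_pos F.card with h0 | h0
    · exfalso
      rw [h0] at hF
      simp only [Nat.cast_zero, Real.log_zero] at hF
      have : 0 ≤ b * N := by positivity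
      linarith
    · exact h0
  have hF''pos : 0 < F''.card := by omega
  set F' := F''.image (fun l : List (V d) => l.map (· - τ)) with hF'
  have hinj : Function.Injective (fun l : List (V d) => l.map (· - τ)) :=
    List.map_injective_iff.2 (fun a b hab => sub_left_injective hab)
  have hc : F'.card = F''.card := Finset.card_image_of_injective _ hinj
  have hne : F'.Nonempty := Finset.card_pos.1 (by omega)
  have hfam'' : IsFam κ ω F'' x y N := fun l hl => hfam l (hsub hl)
  have hfam' := P1_fam hfam'' τ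
  have hmain := decomp hd κ b Cp hb hCp (tr (fun y => y + τ) ω) F' hne (x - τ) (y - τ) N hfam' J i₀ hiJ
    (idx J (x - τ))
    (by
      intro l' hl' v hv
      obtain ⟨l, hl, rfl⟩ := Finset.mem_image.1 hl'
      obtain ⟨v', hv', rfl⟩ := List.mem_map.1 hv
      exact hcube l hl v' hv')
    (fun i => 16 * ((J : ℝ) - i) ^ 2 * N / 2 ^ i)
    (by
      intro l' hl' i _ hi
      obtain ⟨l, hl, rfl⟩ := Finset.mem_image.1 hl'
      exact hcr l hl i hi)
    (by positivity)
  have hlog : Real.log F.card ≤ Real.log 2 + Real.log F'.card := by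
    rw [← Real.log_mul (by norm_num) (by rw [hc]; positivity)]
    apply Real.log_le_log (by exact_mod_cast hFpos)
    rw [hc]
    exact_mod_cast hcard
  have hlog2 : Real.log 2 ≤ 1 := by
    have := Real.log_two_lt_d9
    linarith
  have e : (2 : ℝ) ^ m = 8 * 2 ^ (m - 3) := by
    have h3 : m = 3 + (m - 3) := by omega
    conv_lhs => rw [h3]
    rw [pow_add]
    norm_num
  linarith

theorem p1 (hd : 2 ≤ d) (b η Cp : ℝ) (hb : 0 ≤ b) (hη : 0 < η) (hCp : 0 ≤ Cp) :
    ∃ h₁ : ℕ, ∀ h' ≥ h₁, ∃ ε : ℝ, 0 < ε ∧ ∃ m₀ : ℕ, ∀ m ≥ m₀, ∀ (κ : Kind) (p : unitInterval) (K : ℕ),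
      (prodBern (El d) p).real (CP κ b η ε (box (0 : V d) (K * 2 ^ m)) m) ≤
        2 * (K * 2 ^ (h' + 3) + 2) ^ d *
          (prodBern (El d) p).real {ω | (2 : ℝ) ^ (m - 3) ≤ Vv (MQ κ b Cp) (m - 3 - h') 0 ω} := by
  classical
  have hd1 : 1 ≤ d := by omega
  obtain ⟨h₁, hh₁⟩ := P1_cost1 hη (P1_gam_pos hd) (P1_gam_lt hd)
    (C := 2 ^ (d + 1) * Cp) (by positivity)
  obtain ⟨m₁, hm₁⟩ := P1_cost2 (d := d) hd1
  obtain ⟨m₂, hm₂⟩ := P1_cost3 (d := d) hd1 hη
  refine ⟨h₁, fun h' hh' => ?_⟩
  have hd0 : (0 : ℝ) < d := by exact_mod_cast hd1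
  refine ⟨1 / (d * 2 ^ (h' + 10)), by positivity, ?_⟩
  obtain ⟨m₃, hm₃⟩ : ∃ m₃ : ℕ, ∀ m ≥ m₃, 16 * d * 2 ^ (h' + 6) ≤ 2 ^ m := by
    refine ⟨16 * d * 2 ^ (h' + 6), fun m hm => ?_⟩
    exact hm.le.trans (Nat.lt_two_pow_self).le
  refine ⟨max (max m₁ m₂) (max m₃ (2 * (h' + 3) + 3)), fun m hm κ p K => ?_⟩
  have hma : m₁ ≤ m := le_trans (le_trans (le_max_left _ _) (le_max_left _ _)) hm
  have hmb : m₂ ≤ m := le_trans (le_trans (le_max_right _ _) (le_max_left _ _)) hm
  have hmc : m₃ ≤ m := le_trans (le_trans (le_max_left _ _) (le_max_right _ _)) hm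
  have hmd : 2 * (h' + 3) + 3 ≤ m := le_trans (le_trans (le_max_right _ _) (le_max_right _ _)) hm
  set J := m - 3 - h' with hJ
  set i₀ := m / (2 * d) with hi₀
  have hiJ : i₀ ≤ J := by
    have h1 : m / (2 * d) ≤ m / 4 := Nat.div_le_div_left (by omega) (by norm_num)
    omega
  have hJm : J ≤ m := by omega
  set M := MQ (d := d) κ b Cp with hM
  have hMm : ∀ i a, Measurable (M i a) := fun i a => P1_meas_mq κ b Cp i a
  set μ := prodBern (El d) p with hμ
  set E : V d → Set (El d → Bool) := fun A => {ω | (2 : ℝ) ^ (m - 3) ≤ Vv M J A ω} with hE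
  have hEm : ∀ A, MeasurableSet (E A) := fun A =>
    measurableSet_le measurable_const (P1_meas_vv M hMm J A)
  have hEp : ∀ A, μ.real (E A) = μ.real (E 0) := by
    intro A
    have h1 : E A = tr (fun y => y + ((2 : ℤ) ^ J) • A) ⁻¹' (E 0) := by
      ext ω
      have := P1_vv_shift M (fun i a w ω => mq_shift κ b Cp i a w ω) J 0 A ω
      rw [zero_add] at this
      show (2 : ℝ) ^ (m - 3) ≤ Vv M J A ω ↔ (2 : ℝ) ^ (m - 3) ≤ Vv M J 0 _
      rw [this]
    rw [h1]
    exact P1_tr_law _ p _ (hEm 0)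
  set 𝒜 : Finset (V d) := Fintype.piFinset fun _ => Finset.Ico (-1 : ℤ) (K * 2 ^ (h' + 3)) with h𝒜
  have h𝒜c : (𝒜.card : ℝ) ≤ (K * 2 ^ (h' + 3) + 2) ^ d := by
    rw [h𝒜, Fintype.card_piFinset]
    simp only [Int.card_Ico, Finset.prod_const, Finset.card_univ, Fintype.card_fin]
    push_cast
    apply pow_le_pow_left₀ (by positivity)
    have h0 : ((K * 2 ^ (h' + 3) - -1 : ℤ).toNat : ℝ) = K * 2 ^ (h' + 3) + 1 := by
      have h1 : (((K * 2 ^ (h' + 3) - -1 : ℤ).toNat : ℤ) : ℝ) = K * 2 ^ (h' + 3) + 1 := by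
        rw [Int.toNat_of_nonneg (by
          have : (0 : ℤ) ≤ K * 2 ^ (h' + 3) := by positivity
          linarith)]
        push_cast
        ring
      exact_mod_cast h1
    rw [h0]
    linarith
  set G : Set (El d → Bool) := ⋃ A ∈ 𝒜, E A with hG
  have hGm : MeasurableSet G := Finset.measurableSet_biUnion _ fun A _ => hEm A
  have hGp : μ.real G ≤ (K * 2 ^ (h' + 3) + 2) ^ d * μ.real (E 0) := by
    calc μ.real G ≤ ∑ A ∈ 𝒜, μ.real (E A) := measureReal_biUnion_finset_le _ _
      _ = 𝒜.card * μ.real (E 0) := by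
          rw [Finset.sum_congr rfl (fun A _ => hEp A), Finset.sum_const, nsmul_eq_mul]
      _ ≤ _ := mul_le_mul_of_nonneg_right h𝒜c measureReal_nonneg
  have hbox : (box (0 : V d) (2 ^ J)).Nonempty := by
    refine ⟨0, ?_⟩
    simp [box, Fintype.mem_piFinset]
  have hmk := P1_markov p (box (0 : V d) (2 ^ J)) hbox G hGm
    (CP κ b η (1 / (d * 2 ^ (h' + 10))) (box (0 : V d) (K * 2 ^ m)) m) (by
      rintro ω ⟨F, x, y, N, hx, hfam, hF1, hF2, hF3, hF4⟩
      have hNη : (N : ℝ) ≤ 2 ^ (m + 1) / η := by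
        rw [le_div_iff₀ hη]
        linarith
      have hFpos : 0 < F.card := by
        rcases Nat.eq_zero_or_pos F.card with h0 | h0
        · exfalso
          rw [h0] at hF2
          simp only [Nat.cast_zero, Real.log_zero] at hF2
          have h1 : 0 ≤ b * N := by positivity
          have h2 : (0 : ℝ) < 2 ^ m := by positivity
          linarith
        · exact h0
      set D : ℕ := ⌊(1 / (d * 2 ^ (h' + 10)) : ℝ) * 2 ^ m⌋₊ with hD
      have hDle : (D : ℝ) ≤ (1 / (d * 2 ^ (h' + 10)) : ℝ) * 2 ^ m := Nat.floor_le (by positivity)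
      have hsh := shift_half hd1 F (Finset.card_pos.1 hFpos) x N D J
        (by
          intro l hl
          obtain ⟨hop, hlen, hh, hla, -⟩ := hfam l hl
          refine ⟨hlen, hop.chain, fun v hv i => ?_⟩
          have h1 := hF4 l hl v hv i
          have h2 : ((v i - x i).natAbs : ℝ) ≤ (1 / (d * 2 ^ (h' + 10)) : ℝ) * 2 ^ m := by
            rw [Nat.cast_natAbs]
            push_cast
            exact h1
          have h3 : (v i - x i).natAbs ≤ D := Nat.le_floor h2
          have h4 : |v i - x i| = ((v i - x i).natAbs : ℤ) := Int.abs_eq_natAbs _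
          rw [h4]
          exact_mod_cast h3)
        (by
          have h1 : (16 * d * (D + 1) : ℝ) ≤ 2 ^ J := by
            have h2 : (16 * d * D : ℝ) ≤ 2 ^ m / 2 ^ (h' + 6) := by
              calc (16 * d * D : ℝ) ≤ 16 * d * ((1 / (d * 2 ^ (h' + 10)) : ℝ) * 2 ^ m) := by gcongr
                _ = 2 ^ m / 2 ^ (h' + 6) := by
                  rw [show h' + 10 = (h' + 6) + 4 by ring, pow_add _ (h' + 6) 4]
                  field_simp
                  norm_num
            have h3 : (16 * d : ℝ) ≤ 2 ^ m / 2 ^ (h' + 6) := by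
              rw [le_div_iff₀ (by positivity)]
              exact_mod_cast hm₃ m hmc
            have h4 : (2 : ℝ) ^ J = 2 ^ m / 2 ^ (h' + 3) := by
              rw [eq_div_iff (by positivity), ← pow_add]
              congr 1
              omega
            have h5 : (2 : ℝ) ^ (h' + 6) = 8 * 2 ^ (h' + 3) := by
              rw [show h' + 6 = (h' + 3) + 3 by ring, pow_add _ (h' + 3) 3]; ring
            have h6 : (2 : ℝ) ^ m / 2 ^ (h' + 6) = 2 ^ J / 8 := by
              rw [h4, h5]; field_simp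
            have h7 : (0 : ℝ) < 2 ^ J := by positivity
            calc (16 * d * (D + 1) : ℝ) = 16 * d * D + 16 * d := by ring
              _ ≤ 2 ^ J / 8 + 2 ^ J / 8 := by rw [← h6]; linarith
              _ ≤ 2 ^ J := by linarith
          exact_mod_cast h1)
      refine ⟨_, Finset.filter_subset _ _, hsh, fun τ hτ => ?_⟩
      rw [Finset.mem_filter] at hτ
      obtain ⟨hτb, F'', hsub, hcard, hcr, hcube⟩ := hτ
      have hdet := P1_det hd hb hCp (by omega) hiJ
        (hh₁ h' hh' m (by omega) N hNη i₀) (hm₁ m hma) (hm₂ m hmb N hNη J hJm hiJ)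
        κ ω F x y hfam hF2 τ F'' hsub hcard hcr hcube
      rw [hG]
      simp only [Set.mem_iUnion]
      refine ⟨idx J (x - τ), ?_, hdet⟩
      rw [h𝒜, Fintype.mem_piFinset]
      intro j
      have hxj := (Fintype.mem_piFinset.1 hx) j
      have hτj := (Fintype.mem_piFinset.1 hτb) j
      simp only [Pi.zero_apply, zero_add, Finset.mem_Ico] at hxj hτj
      push_cast at hxj hτj
      have hpow : (2 : ℤ) ^ m = 2 ^ (h' + 3) * 2 ^ J := by
        rw [← pow_add]
        congr 1
        omega
      rw [Finset.mem_Ico]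
      have h2J : (0 : ℤ) < 2 ^ J := by positivity
      constructor
      · show -1 ≤ (x j - τ j) / 2 ^ J
        rw [Int.le_ediv_iff_mul_le h2J]
        linarith
      · show (x j - τ j) / 2 ^ J < K * 2 ^ (h' + 3)
        rw [Int.ediv_lt_iff_lt_mul h2J]
        have : (K : ℤ) * 2 ^ (h' + 3) * 2 ^ J = K * 2 ^ m := by rw [hpow]; ring
        rw [this]
        linarith)
  calc μ.real (CP κ b η (1 / (d * 2 ^ (h' + 10))) (box (0 : V d) (K * 2 ^ m)) m)
      ≤ 2 * μ.real G := hmk
    _ ≤ 2 * ((K * 2 ^ (h' + 3) + 2) ^ d * μ.real (E 0)) := by linarith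
    _ = _ := by ring

end Pool.Agent.H17.QA
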