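import Pool.Agent.H17.QA.Closed

/-!
# QA module P1Cost: the three costs in the proof of `p1`
-/

open MeasureTheory Filter Topology
open Pool.Agent.H17.IIC Pool.Agent.H41.QC Pool.Agent.H47.GM

namespace Pool.Agent.H17.QA

variable {d : ℕ}

lemma P1_gam_pos (hd : 2 ≤ d) : 0 < gam d := by
  have h : (2 : ℝ) ≤ d := by exact_mod_cast hd
  unfold gam
  have h1 : 1 / (2 * ((d : ℝ) - 1)) ≤ 1 / 2 := by
    apply one_div_le_one_div_of_le
    · norm_num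
    · linarith
  linarith

lemma P1_gam_lt (hd : 2 ≤ d) : gam d < 1 := by
  have h : (2 : ℝ) ≤ d := by exact_mod_cast hd
  unfold gam
  have h1 : 0 < 1 / (2 * ((d : ℝ) - 1)) := by
    apply one_div_pos.2
    linarith
  linarith

/-- one term of the first cost -/
lemma P1_term {η : ℝ} (hη : 0 < η) {g : ℝ} (hg0 : 0 < g) (hg1 : g < 1) (m h' i j : ℕ)
    (hm : i + j + 3 + h' = m) (hj : 1 ≤ j) (N : ℕ) (hN : (N : ℝ) ≤ 2 ^ (m + 1) / η) :
    (2 : ℝ) ^ i * (16 * (j : ℝ) ^ 2 * N / 2 ^ i) ^ g ≤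
      2 ^ m * (((2 : ℝ) ^ (g - 1)) ^ h' * ((32 / η) ^ g * ((j : ℝ) ^ 2 * ((2 : ℝ) ^ (g - 1)) ^ j))) := by
  have hj1 : (1 : ℝ) ≤ j := by exact_mod_cast hj
  have h2i : (0 : ℝ) < 2 ^ i := by positivity
  have h2m : (0 : ℝ) < 2 ^ m := by positivity
  -- replace N
  have hA : (16 * (j : ℝ) ^ 2 * N / 2 ^ i) ≤ (32 / η) * (j : ℝ) ^ 2 * (2 ^ m / 2 ^ i) := by
    have : 16 * (j : ℝ) ^ 2 * N ≤ 16 * (j : ℝ) ^ 2 * (2 ^ (m + 1) / η) := by
      apply mul_le_mul_of_nonneg_left hN (by positivity)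
    calc (16 * (j : ℝ) ^ 2 * N / 2 ^ i) ≤ 16 * (j : ℝ) ^ 2 * (2 ^ (m + 1) / η) / 2 ^ i := by
          gcongr
      _ = (32 / η) * (j : ℝ) ^ 2 * (2 ^ m / 2 ^ i) := by
          rw [pow_succ]; ring
  have h1 : (16 * (j : ℝ) ^ 2 * N / 2 ^ i) ^ g ≤
      (32 / η) ^ g * ((j : ℝ) ^ 2) ^ g * (2 ^ m / 2 ^ i) ^ g := by
    calc (16 * (j : ℝ) ^ 2 * N / 2 ^ i) ^ g ≤ ((32 / η) * (j : ℝ) ^ 2 * (2 ^ m / 2 ^ i)) ^ g :=
          Real.rpow_le_rpow (by positivity) hA hg0.le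
      _ = _ := by
          rw [Real.mul_rpow (by positivity) (by positivity), Real.mul_rpow (by positivity) (by positivity)]
  have h2 : ((j : ℝ) ^ 2) ^ g ≤ (j : ℝ) ^ 2 := by
    have : (1 : ℝ) ≤ (j : ℝ) ^ 2 := one_le_pow₀ hj1
    calc ((j : ℝ) ^ 2) ^ g ≤ ((j : ℝ) ^ 2) ^ (1 : ℝ) := Real.rpow_le_rpow_of_exponent_le this hg1.le
      _ = _ := Real.rpow_one _
  -- powers of two
  have h3 : (2 : ℝ) ^ i * (2 ^ m / 2 ^ i) ^ g = 2 ^ m * ((2 : ℝ) ^ (g - 1)) ^ (j + 3 + h') := by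
    have e1 : (2 : ℝ) ^ m / 2 ^ i = 2 ^ (j + 3 + h') := by
      rw [← hm, show i + j + 3 + h' = (j + 3 + h') + i by ring, pow_add _ (j + 3 + h') i]
      field_simp
    have e2 : (2 : ℝ) ^ m = 2 ^ i * 2 ^ (j + 3 + h') := by
      rw [← hm, ← pow_add]; congr 1; ring
    rw [e1, e2]
    rw [mul_assoc]
    congr 1
    rw [← Real.rpow_natCast, ← Real.rpow_natCast, ← Real.rpow_mul (by norm_num), ← Real.rpow_mul (by norm_num),
      ← Real.rpow_add (by norm_num)]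
    congr 1
    ring
  have hρ0 : (0 : ℝ) < (2 : ℝ) ^ (g - 1) := Real.rpow_pos_of_pos (by norm_num) _
  have hρ1 : (2 : ℝ) ^ (g - 1) ≤ 1 := Real.rpow_le_one_of_one_le_of_nonpos (by norm_num) (by linarith)
  calc (2 : ℝ) ^ i * (16 * (j : ℝ) ^ 2 * N / 2 ^ i) ^ g
      ≤ 2 ^ i * ((32 / η) ^ g * ((j : ℝ) ^ 2) * (2 ^ m / 2 ^ i) ^ g) := by
        apply mul_le_mul_of_nonneg_left _ h2i.le
        refine h1.trans ?_
        gcongr
    _ = (32 / η) ^ g * ((j : ℝ) ^ 2) * (2 ^ i * (2 ^ m / 2 ^ i) ^ g) := by ring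
    _ = (32 / η) ^ g * ((j : ℝ) ^ 2) * (2 ^ m * ((2 : ℝ) ^ (g - 1)) ^ (j + 3 + h')) := by rw [h3]
    _ = 2 ^ m * (((2 : ℝ) ^ (g - 1)) ^ h' * ((32 / η) ^ g * ((j : ℝ) ^ 2 * ((2 : ℝ) ^ (g - 1)) ^ j)))
          * ((2 : ℝ) ^ (g - 1)) ^ 3 := by
        rw [pow_add, pow_add]; ring
    _ ≤ 2 ^ m * (((2 : ℝ) ^ (g - 1)) ^ h' * ((32 / η) ^ g * ((j : ℝ) ^ 2 * ((2 : ℝ) ^ (g - 1)) ^ j))) := by
        apply mul_le_of_le_one_right
        · positivity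
        · exact pow_le_one₀ hρ0.le hρ1

/-- the first cost is at most `2^m / 4` -/
lemma P1_cost1 {η : ℝ} (hη : 0 < η) {g : ℝ} (hg0 : 0 < g) (hg1 : g < 1) {C : ℝ} (hC : 0 ≤ C) :
    ∃ h₁ : ℕ, ∀ h' ≥ h₁, ∀ m : ℕ, 3 + h' ≤ m → ∀ N : ℕ, (N : ℝ) ≤ 2 ^ (m + 1) / η → ∀ i₀ : ℕ,
      ∑ i ∈ Finset.Ico i₀ (m - 3 - h'), C * 2 ^ i *
        (16 * (((m - 3 - h' : ℕ) : ℝ) - i) ^ 2 * N / 2 ^ i) ^ g ≤ 2 ^ m / 4 := by
  set ρ : ℝ := (2 : ℝ) ^ (g - 1) with hρ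
  have hρ0 : (0 : ℝ) < ρ := Real.rpow_pos_of_pos (by norm_num) _
  have hρ1 : ρ < 1 := Real.rpow_lt_one_of_one_lt_of_neg (by norm_num) (by linarith)
  have hsum : Summable fun j : ℕ => (j : ℝ) ^ 2 * ρ ^ j := by
    apply summable_pow_mul_geometric_of_norm_lt_one
    rw [Real.norm_eq_abs, abs_of_pos hρ0]
    exact hρ1
  set S : ℝ := ∑' j : ℕ, (j : ℝ) ^ 2 * ρ ^ j with hS
  have hS0 : 0 ≤ S := tsum_nonneg fun j => by positivity
  have htend : Tendsto (fun h' : ℕ => C * ((32 / η) ^ g * S) * ρ ^ h') atTop (𝓝 0) := by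
    have := (tendsto_pow_atTop_nhds_zero_of_lt_one hρ0.le hρ1).const_mul (C * ((32 / η) ^ g * S))
    simpa using this
  have hev : ∀ᶠ h' : ℕ in atTop, C * ((32 / η) ^ g * S) * ρ ^ h' ≤ 1 / 4 :=
    htend.eventually (Iic_mem_nhds (by norm_num))
  obtain ⟨h₁, hh₁⟩ := eventually_atTop.1 hev
  refine ⟨h₁, fun h' hh m hm N hN i₀ => ?_⟩
  set J := m - 3 - h' with hJ
  have h1 : ∑ i ∈ Finset.Ico i₀ J, C * 2 ^ i * (16 * ((J : ℝ) - i) ^ 2 * N / 2 ^ i) ^ g ≤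
      ∑ i ∈ Finset.range J, C * 2 ^ i * (16 * ((J : ℝ) - i) ^ 2 * N / 2 ^ i) ^ g := by
    apply Finset.sum_le_sum_of_subset_of_nonneg
    · intro i hi
      simp only [Finset.mem_Ico, Finset.mem_range] at hi ⊢
      exact hi.2
    · intro i _ _
      positivity
  have h2 : ∀ i ∈ Finset.range J, C * 2 ^ i * (16 * ((J : ℝ) - i) ^ 2 * N / 2 ^ i) ^ g ≤
      2 ^ m * (C * (32 / η) ^ g * ρ ^ h') * (((J - i : ℕ) : ℝ) ^ 2 * ρ ^ (J - i)) := by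
    intro i hi
    rw [Finset.mem_range] at hi
    have e : ((J - i : ℕ) : ℝ) = (J : ℝ) - i := by push_cast [Nat.cast_sub hi.le]; ring
    have := P1_term hη hg0 hg1 m h' i (J - i) (by omega) (by omega) N hN
    rw [e] at this ⊢
    calc C * 2 ^ i * (16 * ((J : ℝ) - i) ^ 2 * N / 2 ^ i) ^ g
        = C * (2 ^ i * (16 * ((J : ℝ) - i) ^ 2 * N / 2 ^ i) ^ g) := by ring
      _ ≤ C * _ := mul_le_mul_of_nonneg_left this hC
      _ = _ := by ring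
  have h3 : ∑ i ∈ Finset.range J, (((J - i : ℕ) : ℝ) ^ 2 * ρ ^ (J - i)) ≤ S := by
    have : ∑ i ∈ Finset.range J, (((J - i : ℕ) : ℝ) ^ 2 * ρ ^ (J - i)) =
        ∑ j ∈ Finset.range J, (((j + 1 : ℕ) : ℝ) ^ 2 * ρ ^ (j + 1)) := by
      rw [← Finset.sum_range_reflect (fun j => (((j + 1 : ℕ) : ℝ) ^ 2 * ρ ^ (j + 1)))]
      apply Finset.sum_congr rfl
      intro i hi
      rw [Finset.mem_range] at hi
      have : J - 1 - i + 1 = J - i := by omega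
      rw [this]
    rw [this]
    have h4 : ∑ j ∈ Finset.range J, (((j + 1 : ℕ) : ℝ) ^ 2 * ρ ^ (j + 1)) ≤
        ∑ j ∈ Finset.range (J + 1), ((j : ℝ) ^ 2 * ρ ^ j) := by
      rw [Finset.sum_range_succ']
      simp
    exact h4.trans (hsum.sum_le_tsum _ fun j _ => by positivity)
  calc ∑ i ∈ Finset.Ico i₀ J, C * 2 ^ i * (16 * ((J : ℝ) - i) ^ 2 * N / 2 ^ i) ^ g
      ≤ ∑ i ∈ Finset.range J, 2 ^ m * (C * (32 / η) ^ g * ρ ^ h') *
          (((J - i : ℕ) : ℝ) ^ 2 * ρ ^ (J - i)) := h1.trans (Finset.sum_le_sum h2)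
    _ = 2 ^ m * (C * (32 / η) ^ g * ρ ^ h') * ∑ i ∈ Finset.range J,
          (((J - i : ℕ) : ℝ) ^ 2 * ρ ^ (J - i)) := by rw [Finset.mul_sum]
    _ ≤ 2 ^ m * (C * (32 / η) ^ g * ρ ^ h') * S := by
        apply mul_le_mul_of_nonneg_left h3 (by positivity)
    _ = 2 ^ m * (C * ((32 / η) ^ g * S) * ρ ^ h') := by ring
    _ ≤ 2 ^ m * (1 / 4) := by
        apply mul_le_mul_of_nonneg_left (hh₁ h' hh) (by positivity)
    _ = 2 ^ m / 4 := by ring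

/-- the second cost -/
lemma P1_cost2 (hd : 1 ≤ d) : ∃ m₁ : ℕ, ∀ m ≥ m₁,
    (2 : ℝ) ^ (d * (m / (2 * d)) + 1) * Real.log (2 * d) ≤ 2 ^ m / 8 := by
  have htend : Tendsto (fun k : ℕ => (2 : ℝ) ^ k) atTop atTop :=
    tendsto_pow_atTop_atTop_of_one_lt (by norm_num)
  obtain ⟨k₀, hk₀⟩ := eventually_atTop.1 (htend.eventually (eventually_ge_atTop (16 * Real.log (2 * d))))
  refine ⟨2 * k₀, fun m hm => ?_⟩
  have h1 : d * (m / (2 * d)) ≤ m / 2 := by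
    rw [Nat.le_div_iff_mul_le (by norm_num)]
    calc d * (m / (2 * d)) * 2 = (2 * d) * (m / (2 * d)) := by ring
      _ ≤ m := Nat.mul_div_le _ _
  have hlog : 0 ≤ Real.log (2 * d) := by
    apply Real.log_nonneg
    have : (1 : ℝ) ≤ d := by exact_mod_cast hd
    linarith
  have h2 := hk₀ (m - m / 2) (by omega)
  calc (2 : ℝ) ^ (d * (m / (2 * d)) + 1) * Real.log (2 * d)
      ≤ 2 ^ (m / 2 + 1) * Real.log (2 * d) := by
        apply mul_le_mul_of_nonneg_right _ hlog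
        apply pow_le_pow_right₀ (by norm_num)
        omega
    _ = 2 ^ (m / 2) * (16 * Real.log (2 * d)) / 8 := by rw [pow_succ]; ring
    _ ≤ 2 ^ (m / 2) * 2 ^ (m - m / 2) / 8 := by gcongr
    _ = 2 ^ m / 8 := by
        rw [← pow_add]
        congr 2
        omega

/-- the third cost -/
lemma P1_cost3 (hd : 1 ≤ d) {η : ℝ} (hη : 0 < η) : ∃ m₂ : ℕ, ∀ m ≥ m₂, ∀ N : ℕ,
    (N : ℝ) ≤ 2 ^ (m + 1) / η → ∀ J : ℕ, J ≤ m → m / (2 * d) ≤ J →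
    (16 * ((J : ℝ) - (m / (2 * d) : ℕ)) ^ 2 * N / 2 ^ (m / (2 * d)) + 1) *
      (Real.log (N + 2) + (2 * J * d + 1) * Real.log 2) ≤ 2 ^ m / 8 := by
  set r : ℝ := (2 : ℝ) ^ (-(1 / (2 * (d : ℝ)))) with hr
  have hd0 : (1 : ℝ) ≤ d := by exact_mod_cast hd
  have hr0 : 0 < r := Real.rpow_pos_of_pos (by norm_num) _
  have hr1 : r < 1 := by
    apply Real.rpow_lt_one_of_one_lt_of_neg (by norm_num)
    have : 0 < 1 / (2 * (d : ℝ)) := by positivity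
    linarith
  set C' : ℝ := Real.log 2 + Real.log (1 + 1 / η) + 2 * d * Real.log 2 + Real.log 2 with hC'
  have hlog2 : 0 < Real.log 2 := Real.log_pos (by norm_num)
  have hlogη : 0 ≤ Real.log (1 + 1 / η) := by
    apply Real.log_nonneg
    have : 0 < 1 / η := by positivity
    linarith
  have hC'0 : 0 ≤ C' := by positivity
  have t1 : Tendsto (fun m : ℕ => (64 / η * C') * ((m : ℝ) ^ 3 * r ^ m) +
      (64 / η * C') * ((m : ℝ) ^ 2 * r ^ m) + C' * ((m : ℝ) ^ 1 * (1 / 2) ^ m) +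
      C' * ((m : ℝ) ^ 0 * (1 / 2) ^ m)) atTop (𝓝 0) := by
    have hh : ∀ k : ℕ, ∀ s : ℝ, |s| < 1 → Tendsto (fun m : ℕ => (m : ℝ) ^ k * s ^ m) atTop (𝓝 0) :=
      fun k s hs => tendsto_pow_const_mul_const_pow_of_abs_lt_one k hs
    have hrr : |r| < 1 := by rw [abs_of_pos hr0]; exact hr1
    have hhalf : |(1 / 2 : ℝ)| < 1 := by rw [abs_of_pos (by norm_num)]; norm_num
    have := (((hh 3 r hrr).const_mul (64 / η * C')).add ((hh 2 r hrr).const_mul (64 / η * C'))).add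
      ((hh 1 _ hhalf).const_mul C')
    have := this.add ((hh 0 _ hhalf).const_mul C')
    simpa using this
  obtain ⟨m₂, hm₂⟩ := eventually_atTop.1 (t1.eventually (Iic_mem_nhds (show (0 : ℝ) < 1 / 8 by norm_num)))
  refine ⟨m₂, fun m hm N hN J hJ hi => ?_⟩
  have key := hm₂ m hm
  have h2m : (0 : ℝ) < 2 ^ m := by positivity
  set i₀ := m / (2 * d) with hi₀
  -- 2^(-i₀) ≤ 2 r^m
  have hri : (1 : ℝ) / 2 ^ i₀ ≤ 2 * r ^ m := by
    have h1 : (m : ℝ) / (2 * d) < i₀ + 1 := by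
      have h2 : m < 2 * d * (i₀ + 1) := by
        rw [hi₀]
        exact Nat.lt_mul_div_succ m (by omega)
      rw [div_lt_iff₀ (by positivity)]
      have h3 : (m : ℝ) < 2 * d * (i₀ + 1) := by exact_mod_cast h2
      linarith
    have h2 : r ^ m = (2 : ℝ) ^ (-((m : ℝ) / (2 * d))) := by
      rw [hr, ← Real.rpow_natCast, ← Real.rpow_mul (by norm_num)]
      congr 1
      ring
    have h3 : (1 : ℝ) / 2 ^ i₀ = (2 : ℝ) ^ (-(i₀ : ℝ)) := by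
      rw [Real.rpow_neg (by norm_num), Real.rpow_natCast, one_div]
    rw [h2, h3]
    calc (2 : ℝ) ^ (-(i₀ : ℝ)) ≤ (2 : ℝ) ^ (1 + -((m : ℝ) / (2 * d))) := by
          apply Real.rpow_le_rpow_of_exponent_le (by norm_num)
          linarith
      _ = _ := by rw [Real.rpow_add (by norm_num), Real.rpow_one]
  have hJm : ((J : ℝ) - i₀) ^ 2 ≤ (m : ℝ) ^ 2 := by
    have h1 : (0 : ℝ) ≤ (J : ℝ) - i₀ := by
      have : (i₀ : ℝ) ≤ J := by exact_mod_cast hi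
      linarith
    have h2 : (J : ℝ) - i₀ ≤ m := by
      have h3 : (J : ℝ) ≤ m := by exact_mod_cast hJ
      have h4 : (0 : ℝ) ≤ i₀ := by positivity
      linarith
    exact pow_le_pow_left₀ h1 h2 2
  have hfac1 : 16 * ((J : ℝ) - i₀) ^ 2 * N / 2 ^ i₀ + 1 ≤
      2 ^ m * ((64 / η) * ((m : ℝ) ^ 2 * r ^ m) + (1 / 2) ^ m) := by
    have h1 : 16 * ((J : ℝ) - i₀) ^ 2 * N / 2 ^ i₀ ≤
        16 * (m : ℝ) ^ 2 * (2 ^ (m + 1) / η) * (2 * r ^ m) := by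
      calc 16 * ((J : ℝ) - i₀) ^ 2 * N / 2 ^ i₀ = 16 * ((J : ℝ) - i₀) ^ 2 * N * (1 / 2 ^ i₀) := by ring
        _ ≤ _ := by gcongr
    have h2 : (2 : ℝ) ^ m * (1 / 2) ^ m = 1 := by
      rw [← mul_pow]; norm_num
    calc 16 * ((J : ℝ) - i₀) ^ 2 * N / 2 ^ i₀ + 1
        ≤ 16 * (m : ℝ) ^ 2 * (2 ^ (m + 1) / η) * (2 * r ^ m) + 2 ^ m * (1 / 2) ^ m := by
          rw [h2]; linarith
      _ = _ := by rw [pow_succ]; ring
  have hfac2 : Real.log (N + 2) + (2 * J * d + 1) * Real.log 2 ≤ C' * (m + 1) := by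
    have h1 : (N : ℝ) + 2 ≤ 2 ^ (m + 1) * (1 + 1 / η) := by
      have : (2 : ℝ) ≤ 2 ^ (m + 1) := by
        rw [pow_succ]
        have : (1 : ℝ) ≤ 2 ^ m := one_le_pow₀ (by norm_num)
        linarith
      calc (N : ℝ) + 2 ≤ 2 ^ (m + 1) / η + 2 ^ (m + 1) := by linarith
        _ = _ := by ring
    have h2 : Real.log (N + 2) ≤ (m + 1) * Real.log 2 + Real.log (1 + 1 / η) := by
      calc Real.log (N + 2) ≤ Real.log (2 ^ (m + 1) * (1 + 1 / η)) :=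
            Real.log_le_log (by positivity) h1
        _ = _ := by
            rw [Real.log_mul (by positivity) (by positivity), Real.log_pow]
            push_cast
            ring
    have hJ' : (J : ℝ) ≤ m := by exact_mod_cast hJ
    have hm0 : (0 : ℝ) ≤ m := by positivity
    have h3 : (2 * (J : ℝ) * d + 1) * Real.log 2 ≤ (2 * m * d + 1) * Real.log 2 := by gcongr
    rw [hC']
    have h4 : 0 ≤ Real.log (1 + 1 / η) * m := by positivity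
    have h5 : 0 ≤ Real.log 2 * m := by positivity
    have h6 : 0 ≤ (d : ℝ) * Real.log 2 := by positivity
    nlinarith
  have hnn : 0 ≤ Real.log (N + 2) + (2 * J * d + 1) * Real.log 2 := by
    have : 0 ≤ Real.log ((N : ℝ) + 2) := Real.log_nonneg (by
      have : (0 : ℝ) ≤ N := by positivity
      linarith)
    positivity
  calc (16 * ((J : ℝ) - i₀) ^ 2 * N / 2 ^ i₀ + 1) *
        (Real.log (N + 2) + (2 * J * d + 1) * Real.log 2)
      ≤ (2 ^ m * ((64 / η) * ((m : ℝ) ^ 2 * r ^ m) + (1 / 2) ^ m)) * (C' * (m + 1)) := by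
        apply mul_le_mul hfac1 hfac2 hnn (by positivity)
    _ = 2 ^ m * ((64 / η * C') * ((m : ℝ) ^ 3 * r ^ m) +
          (64 / η * C') * ((m : ℝ) ^ 2 * r ^ m) + C' * ((m : ℝ) ^ 1 * (1 / 2) ^ m) +
          C' * ((m : ℝ) ^ 0 * (1 / 2) ^ m)) := by ring
    _ ≤ 2 ^ m * (1 / 8) := mul_le_mul_of_nonneg_left key h2m.le
    _ = 2 ^ m / 8 := by ring

end Pool.Agent.H17.QA
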