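import Pool.Agent.H75.TA.Main

/-!
# QA module ThmA: non-summable modules give good starts (proof plan: paper, Theorem A)
-/

open MeasureTheory Filter Topology
open Pool.Agent.H17.IIC Pool.Agent.H41.QC Pool.Agent.H47.GM

namespace Pool.Agent.H17.QA

variable {n : ℕ}

/-- THEOREM A. `c₀` and `U₀` depend on the road system, on `b` and on the slope bound `Λ` only. -/
theorem thmA {κ : Kind} {p : unitInterval} (RS : RoadSys κ (n + 2) p) (hp : 0 < (p : ℝ))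
    (b : ℝ) (hb : 0 ≤ b) (Λ : ℕ) :
    ∃ c₀ : ℝ, 0 < c₀ ∧ ∃ U₀ : ℕ, 1 ≤ U₀ ∧ ∀ u : V (n + 2), (U₀ : ℤ) ≤ u 0 →
      (∀ i, |u i| ≤ Λ * u 0) → (∀ i, (RS.L : ℤ) ∣ u i) →
      ∀ (c C₁ : ℝ), 0 < c → ∀ α β : ℕ → ℕ, ModSeq c₀ c u α β →
        (¬ Summable fun k => (prodBern (El (n + 2)) p).real (Mod κ b c C₁ u (α k) (β k))) →
        ∀ δ : ℝ, 0 < δ → ∀ᵐ ω ∂(prodBern (El (n + 2)) p), ∃ x : V (n + 2),
          ∀ᶠ N : ℕ in atTop, Real.exp ((b - δ) * N) ≤ Pn κ ω N x :=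
  Pool.Agent.H75.TA.thmA RS hp b hb Λ

end Pool.Agent.H17.QA
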