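import Pool.Agent.H17.QA.BridgeMod
import Pool.Agent.H17.QA.HookSel
import Pool.Agent.H17.QA.LemE
import Pool.Agent.H17.QA.P1
import Pool.Agent.H89.QA.T3

/-!
# QA module ThmB: non-summable q_j gives non-summable modules

PROOF. `d = n + 2`, `η = (a - b)/2`. (1) `hookSel` with `c₀ 1`, `U₀ 1` gives `Cp`, `h`; if `P (RichE .. m)` is not summable,
`ctrl_ns` with `Λ = 1` gives the claim. (2) Otherwise `tree_sum` (for `M = MQ κ b Cp`: `mq_nonneg`, `mq_on`,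
`mq_shift`) gives `h₀`; `p1` with `(b, η/4^d, Cp)` gives `h₁`; take `h' = max h₀ h₁`, get `ε`, `m₀`. (3) `lemE` with
`(b, η, ε/2)` gives `κs`, `N₀`. `Λ = ceil (1/κs)`; `bridgeMod` with `b' = b + η/4^d`, `Λ`, `K = 4 * 2^C₀` (`2^C₀ ≥ 2/κs`),
`c₀ (Λ+1)`, `U₀ (Λ+1)`; if `P (BR .. j)` is not summable, `ctrl_ns` gives the claim. (4) Otherwise `qj` is
summable: for `N = 2^j` large and `x` in the box with `exp (a N) ≤ Pn κ ω N x`, the popular end point gives a family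
`F` from `x` to `y` with `log |F| ≥ a N - d log (2N+1) ≥ (b + η) N` (lists versus step sequences). `lemE`: either
a rich bridge of span `2^(j')`, `κs 2^j ≤ 2^(j') ≤ 2^j`, with `N' ≤ 2^j ≤ Λ 2^(j')` steps and start within `2^j` of the
box: after translation by `2^j (1,…,1)` the event `BR`; or a compact piece: with `2^m ≤ T < 2^(m+1)`,
`κs 2^j ≤ T ≤ log (2d) 2^j`, after the same translation the event `CP .. m`. Finitely many `j' - j` and `m - j`.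
-/

open MeasureTheory Filter Topology
open Pool.Agent.H17.IIC Pool.Agent.H41.QC Pool.Agent.H47.GM

namespace Pool.Agent.H17.QA

variable {d : ℕ}

lemma ThmB_law (p : unitInterval) (w : V d) (E : Set (El d → Bool)) :
    (prodBern (El d) p).real (ThmB_sh w ⁻¹' E) ≤ (prodBern (El d) p).real E := by
  have hm : Measurable (ThmB_sh w : (El d → Bool) → (El d → Bool)) :=
    measurable_pi_iff.2 fun e => measurable_pi_apply _
  have h1 : (prodBern (El d) p).map (ThmB_sh w) = prodBern (El d) p :=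
    tr_law (Equiv.subRight w) p
  have h2 : (prodBern (El d) p) (ThmB_sh w ⁻¹' E) ≤ (prodBern (El d) p) E := by
    calc (prodBern (El d) p) (ThmB_sh w ⁻¹' E)
        ≤ ((prodBern (El d) p).map (ThmB_sh w)) E := Measure.le_map_apply hm.aemeasurable E
      _ = _ := by rw [h1]
  exact ENNReal.toReal_mono (measure_ne_top _ _) h2

lemma ThmB_prob (p : unitInterval) {A : Set (El d → Bool)} {g e : ℕ → Set (El d → Bool)}
    {C₀ C₁ i : ℕ} {w : V d}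
    (h : ∀ ω ∈ A, (∃ j' : ℕ, i + C₀ ≤ j' + C₀ ∧ j' ≤ i + C₀ + C₁ ∧ ThmB_sh w ω ∈ g j') ∨
      (∃ m : ℕ, i + C₀ ≤ m + C₀ ∧ m ≤ i + C₀ + C₁ ∧ ThmB_sh w ω ∈ e m)) :
    (prodBern (El d) p).real A ≤ ∑ k ∈ Finset.range (C₀ + C₁ + 1),
      ((prodBern (El d) p).real (g (i + k)) + (prodBern (El d) p).real (e (i + k))) := by
  have h1 : A ⊆ ⋃ k ∈ Finset.range (C₀ + C₁ + 1),
      (ThmB_sh w ⁻¹' (g (i + k)) ∪ ThmB_sh w ⁻¹' (e (i + k))) := by
    intro ω hω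
    rcases h ω hω with ⟨j', h2, h3, h4⟩ | ⟨m, h2, h3, h4⟩
    · refine Set.mem_biUnion (x := j' - i) (by simp only [Finset.mem_coe, Finset.mem_range]; omega) ?_
      left
      show ThmB_sh w ω ∈ g (i + (j' - i))
      rw [show i + (j' - i) = j' by omega]
      exact h4
    · refine Set.mem_biUnion (x := m - i) (by simp only [Finset.mem_coe, Finset.mem_range]; omega) ?_
      right
      show ThmB_sh w ω ∈ e (i + (m - i))
      rw [show i + (m - i) = m by omega]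
      exact h4
  refine (measureReal_mono h1 (measure_ne_top _ _)).trans
    ((measureReal_biUnion_finset_le _ _).trans (Finset.sum_le_sum fun k _ => ?_))
  refine (measureReal_union_le _ _).trans (add_le_add (ThmB_law p w _) (ThmB_law p w _))

lemma ThmB_large {d : ℕ} {η κs : ℝ} (hη : 0 < η) (hκs : 0 < κs) (N₀ : ℕ) :
    ∃ j₁ : ℕ, ∀ j ≥ j₁, N₀ ≤ 2 ^ j ∧ 1 ≤ κs * 2 ^ j ∧
      (d : ℝ) * Real.log (2 * 2 ^ j + 1) ≤ η * 2 ^ j := by
  have h1 : ∀ᶠ j : ℕ in atTop, N₀ ≤ 2 ^ j :=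
    (tendsto_pow_atTop_atTop_of_one_lt (by norm_num : (1 : ℕ) < 2)).eventually_ge_atTop N₀
  have ht : Tendsto (fun j : ℕ => (2 : ℝ) ^ j) atTop atTop :=
    tendsto_pow_atTop_atTop_of_one_lt (by norm_num)
  have h2 : ∀ᶠ j : ℕ in atTop, 1 ≤ κs * 2 ^ j :=
    (ht.const_mul_atTop hκs).eventually_ge_atTop 1
  have h3 : Tendsto (fun j : ℕ => (d : ℝ) * ((j : ℝ) ^ 1 / 2 ^ j + 2 * (1 / 2 ^ j))) atTop (𝓝 0) := by
    have e1 := tendsto_pow_const_div_const_pow_of_one_lt 1 (by norm_num : (1 : ℝ) < 2)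
    have e2 : Tendsto (fun j : ℕ => (1 : ℝ) / 2 ^ j) atTop (𝓝 0) := ht.const_div_atTop 1
    have e3 := (e1.add (e2.const_mul 2)).const_mul (d : ℝ)
    simpa using e3
  have h4 : ∀ᶠ j : ℕ in atTop, (d : ℝ) * ((j : ℝ) ^ 1 / 2 ^ j + 2 * (1 / 2 ^ j)) ≤ η :=
    (h3.eventually (gt_mem_nhds hη)).mono fun _ h => le_of_lt h
  obtain ⟨j₁, hj₁⟩ := eventually_atTop.1 ((h1.and h2).and h4)
  refine ⟨j₁, fun j hj => ⟨(hj₁ j hj).1.1, (hj₁ j hj).1.2, ?_⟩⟩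
  have h5 := (hj₁ j hj).2
  have h2j : (0 : ℝ) < 2 ^ j := by positivity
  have h6 : (d : ℝ) * ((j : ℝ) + 2) ≤ η * 2 ^ j := by
    have h7 : (d : ℝ) * ((j : ℝ) ^ 1 / 2 ^ j + 2 * (1 / 2 ^ j)) * 2 ^ j = d * ((j : ℝ) + 2) := by
      field_simp
    rw [← h7]
    exact mul_le_mul_of_nonneg_right h5 h2j.le
  have h8 : Real.log (2 * 2 ^ j + 1) ≤ j + 2 := by
    have h9 : (2 * 2 ^ j + 1 : ℝ) ≤ 2 ^ (j + 2) := by
      rw [pow_add]
      have : (1 : ℝ) ≤ 2 ^ j := one_le_pow₀ (by norm_num)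
      linarith
    calc Real.log (2 * 2 ^ j + 1) ≤ Real.log (2 ^ (j + 2)) := Real.log_le_log (by positivity) h9
      _ = ((j + 2 : ℕ) : ℝ) * Real.log 2 := Real.log_pow _ _
      _ ≤ ((j + 2 : ℕ) : ℝ) * 1 := by
        apply mul_le_mul_of_nonneg_left _ (Nat.cast_nonneg _)
        have := Real.log_two_lt_d9
        linarith
      _ = j + 2 := by push_cast; ring
  exact (mul_le_mul_of_nonneg_left h8 (Nat.cast_nonneg d)).trans h6

variable {n : ℕ}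

/-- THEOREM B. -/
theorem thmB {κ : Kind} {p : unitInterval} (RS : RoadSys κ (n + 2) p) (hp : 0 < (p : ℝ))
    (a b : ℝ) (hb : 0 ≤ b) (hab : b < a) (c₀ : ℕ → ℝ) (hc₀ : ∀ Λ, 0 < c₀ Λ) (U₀ : ℕ → ℕ)
    (hns : ¬ Summable (qj κ (d := n + 2) p a)) :
    ∃ (Λ : ℕ) (u : V (n + 2)) (c C₁ : ℝ) (α β : ℕ → ℕ), (U₀ Λ : ℤ) ≤ u 0 ∧ (∀ i, |u i| ≤ Λ * u 0) ∧
      (∀ i, (RS.L : ℤ) ∣ u i) ∧ 0 < c ∧ ModSeq (c₀ Λ) c u α β ∧
      ¬ Summable fun k => (prodBern (El (n + 2)) p).real (Mod κ b c C₁ u (α k) (β k)) := by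
  obtain ⟨Cp, h, hCp, hctrl⟩ := hookSel RS hp b hb (c₀ 1) (hc₀ 1) (U₀ 1)
  by_cases hs1 : Summable fun m => (prodBern (El (n + 2)) p).real (RichE κ (d := n + 2) b Cp h m)
  swap
  · obtain ⟨u, c, C₁, α, β, h1, h2, h3, h4, h5, h6⟩ := ctrl_ns RS b (c₀ 1) (U₀ 1) 1 _ hctrl hs1
    exact ⟨1, u, c, C₁, α, β, h1, h2, h3, h4, h5, h6⟩
  obtain ⟨h₀, hh₀⟩ := tree_sum p (MQ κ (d := n + 2) b Cp) (fun i a ω => mq_nonneg κ hb hCp i a ω)
    (fun i a t => mq_on κ b Cp i a t) (fun i a w ω => mq_shift κ b Cp i a w ω) h hs1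
  set η : ℝ := (a - b) / 2 with hηdef
  have hη : 0 < η := by rw [hηdef]; linarith
  have hη' : 0 < η / 4 ^ (n + 2) := by positivity
  obtain ⟨h₁, hh₁⟩ := p1 (d := n + 2) (by omega) b (η / 4 ^ (n + 2)) Cp hb hη' hCp
  obtain ⟨ε, hε, m₀, hp1⟩ := hh₁ (max h₀ h₁) (le_max_right _ _)
  have hG := hh₀ (max h₀ h₁) (le_max_left _ _)
  obtain ⟨κs, hκs, N₀, hE⟩ := lemE (n + 2) b η (ε / 2) hb hη (by linarith)
  obtain ⟨C₀, hC₀⟩ := pow_unbounded_of_one_lt (1 / κs) (by norm_num : (1 : ℝ) < 2)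
  obtain ⟨C₁, hC₁⟩ := pow_unbounded_of_one_lt (Real.log (2 * ((n + 2 : ℕ) : ℝ)))
    (by norm_num : (1 : ℝ) < 2)
  have hC₀' : 1 ≤ κs * 2 ^ C₀ := by
    rw [div_lt_iff₀ hκs] at hC₀
    linarith
  obtain ⟨K, hK⟩ := exists_nat_ge (6 / κs)
  have hK' : 6 ≤ κs * K := by
    rw [div_le_iff₀ hκs] at hK
    linarith
  obtain ⟨Λ, hΛ⟩ := exists_nat_ge (1 / κs)
  have hΛ' : 1 ≤ κs * Λ := by
    rw [div_le_iff₀ hκs] at hΛ
    linarith
  have hbr := bridgeMod RS hp b (b + η / 4 ^ (n + 2)) hb (by linarith) Λ K (c₀ (Λ + 1)) (hc₀ _)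
    (U₀ (Λ + 1))
  by_cases hs2 : Summable fun j => (prodBern (El (n + 2)) p).real
    (BR κ (d := n + 2) (b + η / 4 ^ (n + 2)) Λ K j)
  swap
  · obtain ⟨u, c, C₁, α, β, h1, h2, h3, h4, h5, h6⟩ :=
      ctrl_ns RS b (c₀ (Λ + 1)) (U₀ (Λ + 1)) (Λ + 1) _ hbr hs2
    exact ⟨Λ + 1, u, c, C₁, α, β, h1, h2, h3, h4, h5, h6⟩
  exfalso
  apply hns
  -- the compact pieces
  have hs3 : Summable fun m => (prodBern (El (n + 2)) p).real
      (CP κ (d := n + 2) b (η / 4 ^ (n + 2)) ε (box (0 : V (n + 2)) (K * 2 ^ m)) m) := by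
    have hG2 := ((summable_nat_add_iff m₀).2 hG).mul_left
      (2 * ((K : ℝ) * 2 ^ (max h₀ h₁ + 3) + 2) ^ (n + 2))
    rw [← summable_nat_add_iff (m₀ + 3)]
    refine Summable.of_nonneg_of_le (fun _ => measureReal_nonneg) (fun m => ?_) hG2
    have h7 := hp1 (m + (m₀ + 3)) (by omega) κ p K
    have e1 : m + (m₀ + 3) - 3 = m + m₀ := by omega
    rw [e1] at h7
    exact h7
  obtain ⟨j₁, hj₁⟩ := ThmB_large (d := n + 2) hη hκs N₀
  rw [← summable_nat_add_iff (j₁ + C₀)]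
  refine Summable.of_nonneg_of_le (fun _ => measureReal_nonneg) (fun i => ?_)
    (summable_sum (s := Finset.range (C₀ + C₁ + 1)) (f := fun k i =>
      (prodBern (El (n + 2)) p).real (BR κ (d := n + 2) (b + η / 4 ^ (n + 2)) Λ K (i + j₁ + k)) +
      (prodBern (El (n + 2)) p).real
        (CP κ (d := n + 2) b (η / 4 ^ (n + 2)) ε (box (0 : V (n + 2)) (K * 2 ^ (i + j₁ + k)))
          (i + j₁ + k))) fun k _ => ?_)
  · have e2 : i + (j₁ + C₀) = (i + j₁) + C₀ := by ring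
    simp only [qj]
    rw [e2]
    obtain ⟨g1, g2, g3⟩ := hj₁ (i + j₁ + C₀) (by omega)
    refine ThmB_prob p (g := fun j => BR κ (d := n + 2) (b + η / 4 ^ (n + 2)) Λ K j)
      (e := fun m => CP κ (d := n + 2) b (η / 4 ^ (n + 2)) ε (box (0 : V (n + 2)) (K * 2 ^ m)) m)
      (w := fun _ => (2 : ℤ) ^ (i + j₁ + C₀)) fun ω hω => ?_
    exact ThmB_det (by omega) hb hε hκs (fun ω F x y N => hE κ ω F x y N)
      (by rw [hηdef]; linarith) hC₀' hC₁.le hK' hΛ' g1 g2 g3 hω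
  · apply Summable.add
    · have := (summable_nat_add_iff (j₁ + k)).2 hs2
      simpa only [add_assoc] using this
    · have := (summable_nat_add_iff (j₁ + k)).2 hs3
      simpa only [add_assoc] using this

end Pool.Agent.H17.QA
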